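import Pool.Agent.Lib.MP_a7239a_co.R3X.MOM

/-!
# R3X, module ENDP: the end of the planar lemma
-/

set_option autoImplicit false

universe u

open Finset

namespace Pool.Agent.Lib.MPa7239a.R3X

namespace ENDPM

theorem out_rev (a : Fin 2) (x : ℤ) : out (1 - a) x = -1 - out a x := by
  fin_cases a
  · simp [out]; ring
  · simp [out]; ring

theorem rev_rev (a : Fin 2) : 1 - (1 - a) = a := by
  fin_cases a <;> rfl

theorem out_inj (a : Fin 2) {x y : ℤ} (h : out a x = out a y) : x = y := by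
  fin_cases a <;> simp [out] at h <;> omega

theorem out_cases (a : Fin 2) (x : ℤ) : (out a x = -1 ∨ out a x = 0) ↔ (x = 0 ∨ x = 1) := by
  fin_cases a <;> simp [out] <;> omega

/-- comparison of weighted sums over two parts -/
theorem mass_le {ι : Type*} {V : Finset ι} {μ : ι → ℝ} {p : ι → Prop} [DecidablePred p] {q : ι → Prop}
    [DecidablePred q] (hpos : ∀ v ∈ V, 0 < μ v) (h : ∀ x ∈ V, p x → q x) :
    ∑ x ∈ V with p x, μ x ≤ ∑ x ∈ V with q x, μ x := by
  rw [Finset.sum_filter, Finset.sum_filter]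
  refine Finset.sum_le_sum fun x hx => ?_
  by_cases h1 : p x
  · rw [if_pos h1, if_pos (h x hx h1)]
  · rw [if_neg h1]
    split_ifs
    · exact (hpos x hx).le
    · exact le_rfl

/-- the case of one row condition and one column condition -/
theorem core {ι : Type*} {V : Finset ι} {U W : ι → ℤ} {μ : ι → ℝ}
    (hpos : ∀ v ∈ V, 0 < μ v) (hinj : ∀ x ∈ V, ∀ y ∈ V, U x = U y → W x = W y → x = y)
    (htot : 4 - 1 / 10 ^ 6 ≤ ∑ v ∈ V, μ v)
    (hU : ∀ x ∈ V, -1 ≤ U x) (hW : ∀ x ∈ V, -1 ≤ W x)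
    (q11 : 1 - 1 / 10 ^ 6 ≤ ∑ x ∈ V with 0 ≤ U x ∧ 0 ≤ W x, μ x)
    (hA : ∑ x ∈ V with 0 ≤ U x ∧ 0 ≤ W x, μ x * U x ≤ 2 / 10 ^ 6)
    (hB : ∑ x ∈ V with 0 ≤ U x ∧ 0 ≤ W x, μ x * W x ≤ 2 / 10 ^ 6)
    {P Q F' F : ℝ} (hP : 0 < P) (hQ : 0 < Q) (hF : 0 ≤ F) (hF' : F ≤ F')
    (hf : ∑ x ∈ V, μ x * max 0 (F' + P * U x + Q * W x) ≤ F)
    (hmid : ∀ x ∈ V, ∀ y ∈ V, ∀ z ∈ V, x ≠ z → U x + U z = 2 * U y → W x + W z = 2 * W y →
      μ x + μ y ≤ 1 ∨ μ y + μ z ≤ 1) :
    4 - 1 / 250 ≤ ∑ x ∈ V with U x = -1 ∨ U x = 0, μ x ∨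
    4 - 1 / 250 ≤ ∑ x ∈ V with W x = -1 ∨ W x = 0, μ x := by
  rcases (hF.trans hF').lt_or_eq with hpF | hzF
  · -- `F' > 0`
    have key1 : (1 - 1 / 10 ^ 6) * F' + (F' + P - Q) * ∑ x ∈ V with 1 ≤ U x ∧ W x = -1, μ x ≤ F' := by
      have h1 : F' * ∑ x ∈ V with 0 ≤ U x ∧ 0 ≤ W x, μ x +
          (F' + P - Q) * ∑ x ∈ V with 1 ≤ U x ∧ W x = -1, μ x ≤
          ∑ x ∈ V, μ x * max 0 (F' + P * U x + Q * W x) := by
        rw [Finset.sum_filter, Finset.sum_filter, Finset.mul_sum, Finset.mul_sum,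
          ← Finset.sum_add_distrib]
        refine Finset.sum_le_sum fun x hx => ?_
        have hm := (hpos x hx).le
        have h2 : F' + P * U x + Q * W x ≤ max 0 (F' + P * U x + Q * W x) := le_max_right _ _
        by_cases h3 : 0 ≤ U x ∧ 0 ≤ W x
        · rw [if_pos h3, if_neg (by omega), mul_zero, add_zero]
          have h4 : (0 : ℝ) ≤ U x := by exact_mod_cast h3.1
          have h5 : (0 : ℝ) ≤ W x := by exact_mod_cast h3.2
          have h6 : F' ≤ max 0 (F' + P * U x + Q * W x) := by nlinarith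
          nlinarith
        · rw [if_neg h3, mul_zero, zero_add]
          by_cases h7 : 1 ≤ U x ∧ W x = -1
          · rw [if_pos h7]
            have h4 : (1 : ℝ) ≤ U x := by exact_mod_cast h7.1
            have h5 : (W x : ℝ) = -1 := by exact_mod_cast h7.2
            have h6 : F' + P - Q ≤ max 0 (F' + P * U x + Q * W x) := by
              rw [h5] at h2 ⊢
              nlinarith
            nlinarith
          · rw [if_neg h7, mul_zero]
            exact mul_nonneg hm (le_max_left _ _)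
      nlinarith
    have key2 : (1 - 1 / 10 ^ 6) * F' + (F' + Q - P) * ∑ x ∈ V with 1 ≤ W x ∧ U x = -1, μ x ≤ F' := by
      have h1 : F' * ∑ x ∈ V with 0 ≤ U x ∧ 0 ≤ W x, μ x +
          (F' + Q - P) * ∑ x ∈ V with 1 ≤ W x ∧ U x = -1, μ x ≤
          ∑ x ∈ V, μ x * max 0 (F' + P * U x + Q * W x) := by
        rw [Finset.sum_filter, Finset.sum_filter, Finset.mul_sum, Finset.mul_sum,
          ← Finset.sum_add_distrib]
        refine Finset.sum_le_sum fun x hx => ?_
        have hm := (hpos x hx).le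
        have h2 : F' + P * U x + Q * W x ≤ max 0 (F' + P * U x + Q * W x) := le_max_right _ _
        by_cases h3 : 0 ≤ U x ∧ 0 ≤ W x
        · rw [if_pos h3, if_neg (by omega), mul_zero, add_zero]
          have h4 : (0 : ℝ) ≤ U x := by exact_mod_cast h3.1
          have h5 : (0 : ℝ) ≤ W x := by exact_mod_cast h3.2
          have h6 : F' ≤ max 0 (F' + P * U x + Q * W x) := by nlinarith
          nlinarith
        · rw [if_neg h3, mul_zero, zero_add]
          by_cases h7 : 1 ≤ W x ∧ U x = -1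
          · rw [if_pos h7]
            have h4 : (1 : ℝ) ≤ W x := by exact_mod_cast h7.1
            have h5 : (U x : ℝ) = -1 := by exact_mod_cast h7.2
            have h6 : F' + Q - P ≤ max 0 (F' + P * U x + Q * W x) := by
              rw [h5] at h2 ⊢
              nlinarith
            nlinarith
          · rw [if_neg h7, mul_zero]
            exact mul_nonneg hm (le_max_left _ _)
      nlinarith
    have col : ∑ v ∈ V, μ v ≤ ∑ x ∈ V with U x = -1 ∨ U x = 0, μ x +
        ∑ x ∈ V with 1 ≤ U x ∧ W x = -1, μ x + ∑ x ∈ V with 0 ≤ U x ∧ 0 ≤ W x, μ x * U x := by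
      rw [Finset.sum_filter, Finset.sum_filter, Finset.sum_filter, ← Finset.sum_add_distrib,
        ← Finset.sum_add_distrib]
      refine Finset.sum_le_sum fun x hx => ?_
      have hm := (hpos x hx).le
      have h1 := hU x hx
      have h2 := hW x hx
      by_cases h3 : U x = -1 ∨ U x = 0
      · rw [if_pos h3, if_neg (by omega), add_zero]
        split_ifs with h4
        · have : (0 : ℝ) ≤ U x := by exact_mod_cast h4.1
          nlinarith [mul_nonneg hm this]
        · linarith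
      · rw [if_neg h3, zero_add]
        have h5 : 1 ≤ U x := by omega
        by_cases h6 : W x = -1
        · rw [if_pos ⟨h5, h6⟩, if_neg (by omega), add_zero]
        · rw [if_neg (by omega), if_pos (by omega), zero_add]
          have : (1 : ℝ) ≤ U x := by exact_mod_cast h5
          nlinarith
    have row : ∑ v ∈ V, μ v ≤ ∑ x ∈ V with W x = -1 ∨ W x = 0, μ x +
        ∑ x ∈ V with 1 ≤ W x ∧ U x = -1, μ x + ∑ x ∈ V with 0 ≤ U x ∧ 0 ≤ W x, μ x * W x := by
      rw [Finset.sum_filter, Finset.sum_filter, Finset.sum_filter, ← Finset.sum_add_distrib,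
        ← Finset.sum_add_distrib]
      refine Finset.sum_le_sum fun x hx => ?_
      have hm := (hpos x hx).le
      have h1 := hU x hx
      have h2 := hW x hx
      by_cases h3 : W x = -1 ∨ W x = 0
      · rw [if_pos h3, if_neg (by omega), add_zero]
        split_ifs with h4
        · have : (0 : ℝ) ≤ W x := by exact_mod_cast h4.2
          nlinarith [mul_nonneg hm this]
        · linarith
      · rw [if_neg h3, zero_add]
        have h5 : 1 ≤ W x := by omega
        by_cases h6 : U x = -1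
        · rw [if_pos ⟨h5, h6⟩, if_neg (by omega), add_zero]
        · rw [if_neg (by omega), if_pos (by omega), zero_add]
          have : (1 : ℝ) ≤ W x := by exact_mod_cast h5
          nlinarith
    set m1 := ∑ x ∈ V with 1 ≤ U x ∧ W x = -1, μ x with hm1
    set m2 := ∑ x ∈ V with 1 ≤ W x ∧ U x = -1, μ x with hm2
    by_cases c1 : m1 ≤ 1 / 1000
    · left
      norm_num at *
      linarith
    by_cases c2 : m2 ≤ 1 / 1000
    · right
      norm_num at *
      linarith
    exfalso
    push Not at c1 c2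
    have d1 : F' + P - Q < 1 / 1000 * F' := by
      by_contra h
      push Not at h
      have h1 : 0 < F' + P - Q := lt_of_lt_of_le (by positivity) h
      have h2 : 1 / 1000 * F' * (1 / 1000) < (F' + P - Q) * m1 := by
        calc 1 / 1000 * F' * (1 / 1000) ≤ (F' + P - Q) * (1 / 1000) :=
              mul_le_mul_of_nonneg_right h (by norm_num)
          _ < (F' + P - Q) * m1 := mul_lt_mul_of_pos_left c1 h1
      norm_num at key1 h2
      linarith
    have d2 : F' + Q - P < 1 / 1000 * F' := by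
      by_contra h
      push Not at h
      have h1 : 0 < F' + Q - P := lt_of_lt_of_le (by positivity) h
      have h2 : 1 / 1000 * F' * (1 / 1000) < (F' + Q - P) * m2 := by
        calc 1 / 1000 * F' * (1 / 1000) ≤ (F' + Q - P) * (1 / 1000) :=
              mul_le_mul_of_nonneg_right h (by norm_num)
          _ < (F' + Q - P) * m2 := mul_lt_mul_of_pos_left c2 h1
      norm_num at key2 h2
      linarith
    linarith
  · -- `F' = 0`
    have hle : ∀ x ∈ V, P * U x + Q * W x ≤ 0 := by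
      intro x hx
      by_contra h
      push Not at h
      have h1 : μ x * max 0 (F' + P * U x + Q * W x) ≤
          ∑ x ∈ V, μ x * max 0 (F' + P * U x + Q * W x) :=
        Finset.single_le_sum (f := fun x => μ x * max 0 (F' + P * U x + Q * W x))
          (fun y hy => mul_nonneg (hpos y hy).le (le_max_left _ _)) hx
      have h2 : 0 < μ x * max 0 (F' + P * U x + Q * W x) := by
        apply mul_pos (hpos x hx)
        apply lt_max_of_lt_right
        rw [← hzF]
        linarith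
      linarith
    have h11 : ∀ x ∈ V, 0 ≤ U x → 0 ≤ W x → U x = 0 ∧ W x = 0 := by
      intro x hx h1 h2
      have h3 := hle x hx
      have h4 : (0 : ℝ) ≤ U x := by exact_mod_cast h1
      have h5 : (0 : ℝ) ≤ W x := by exact_mod_cast h2
      constructor
      · by_contra h
        have h6 : (1 : ℝ) ≤ U x := by exact_mod_cast (by omega : (1 : ℤ) ≤ U x)
        nlinarith [mul_nonneg hQ.le h5]
      · by_contra h
        have h6 : (1 : ℝ) ≤ W x := by exact_mod_cast (by omega : (1 : ℤ) ≤ W x)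
        nlinarith [mul_nonneg hP.le h4]
    by_cases c1 : ∀ x ∈ V, U x ≤ 0
    · left
      have h1 : ∑ v ∈ V, μ v ≤ ∑ x ∈ V with U x = -1 ∨ U x = 0, μ x := by
        rw [Finset.filter_true_of_mem]
        intro x hx
        have h1 := hU x hx
        have h2 := c1 x hx
        omega
      norm_num at *
      linarith
    by_cases c2 : ∀ x ∈ V, W x ≤ 0
    · right
      have h1 : ∑ v ∈ V, μ v ≤ ∑ x ∈ V with W x = -1 ∨ W x = 0, μ x := by
        rw [Finset.filter_true_of_mem]
        intro x hx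
        have h1 := hW x hx
        have h2 := c2 x hx
        omega
      norm_num at *
      linarith
    push Not at c1 c2
    obtain ⟨x, hx, hx1⟩ := c1
    obtain ⟨z, hz, hz1⟩ := c2
    -- `y` is the point of the quadrant
    have hW1 : ∀ x ∈ V, 0 < U x → W x = -1 := by
      intro x hx h1
      have h2 := hW x hx
      by_contra h3
      have := (h11 x hx h1.le (by omega)).1
      omega
    have hU1 : ∀ x ∈ V, 0 < W x → U x = -1 := by
      intro x hx h1
      have h2 := hU x hx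
      by_contra h3
      have := (h11 x hx (by omega) h1.le).2
      omega
    have e1 : P * U x ≤ Q := by
      have := hle x hx
      rw [hW1 x hx hx1] at this
      push_cast at this
      linarith
    have e2 : Q * W z ≤ P := by
      have := hle z hz
      rw [hU1 z hz hz1] at this
      push_cast at this
      linarith
    have hx1' : (1 : ℝ) ≤ U x := by exact_mod_cast hx1
    have hz1' : (1 : ℝ) ≤ W z := by exact_mod_cast hz1
    have hPQ : P = Q := by
      apply le_antisymm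
      · nlinarith
      · nlinarith
    have hUle : ∀ x ∈ V, 0 < U x → U x = 1 := by
      intro x hx h1
      have h2 := hle x hx
      rw [hW1 x hx h1, ← hPQ] at h2
      by_contra h
      have h6 : (2 : ℝ) ≤ U x := by exact_mod_cast (by omega : (2 : ℤ) ≤ U x)
      push_cast at h2
      nlinarith
    have hWle : ∀ x ∈ V, 0 < W x → W x = 1 := by
      intro x hx h1
      have h2 := hle x hx
      rw [hU1 x hx h1, ← hPQ] at h2
      by_contra h
      have h6 : (2 : ℝ) ≤ W x := by exact_mod_cast (by omega : (2 : ℤ) ≤ W x)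
      push_cast at h2
      nlinarith
    have hy : ∃ y ∈ V, U y = 0 ∧ W y = 0 := by
      by_contra h
      push Not at h
      have : ∑ x ∈ V with 0 ≤ U x ∧ 0 ≤ W x, μ x = 0 := by
        rw [Finset.filter_false_of_mem]
        · simp
        · intro y hy h1
          have := h11 y hy h1.1 h1.2
          exact h y hy this.1 this.2
      rw [this] at q11
      norm_num at q11
    obtain ⟨y, hy, hy1, hy2⟩ := hy
    have hmy : 1 - 1 / 10 ^ 6 ≤ μ y := by
      refine q11.trans ?_
      have : ∑ x ∈ V with 0 ≤ U x ∧ 0 ≤ W x, μ x ≤ ∑ x ∈ {y}, μ x := by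
        apply Finset.sum_le_sum_of_subset_of_nonneg
        · intro t ht
          rw [Finset.mem_filter] at ht
          have h1 := h11 t ht.1 ht.2.1 ht.2.2
          rw [Finset.mem_singleton]
          exact hinj t ht.1 y hy (by rw [h1.1, hy1]) (by rw [h1.2, hy2])
        · intro t ht _
          rw [Finset.mem_singleton] at ht
          rw [ht]
          exact (hpos y hy).le
      simpa using this
    have hxz : x ≠ z := by
      rintro rfl
      have := hW1 x hx hx1
      omega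
    have g1 := hUle x hx hx1
    have g2 := hW1 x hx hx1
    have g3 := hWle z hz hz1
    have g4 := hU1 z hz hz1
    rcases hmid x hx y hy z hz hxz (by omega) (by omega) with h | h
    · left
      have hmx : μ x ≤ 1 / 10 ^ 6 := by linarith
      have h1 : ∑ v ∈ V, μ v ≤ ∑ t ∈ V with U t = -1 ∨ U t = 0, μ t + μ x := by
        rw [← Finset.sum_filter_add_sum_filter_not V (fun t => U t = -1 ∨ U t = 0) μ]
        gcongr
        have : ∑ t ∈ V with ¬ (U t = -1 ∨ U t = 0), μ t ≤ ∑ x ∈ {x}, μ x := by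
          apply Finset.sum_le_sum_of_subset_of_nonneg
          · intro t ht
            rw [Finset.mem_filter] at ht
            have h5 := hU t ht.1
            have h6 : 0 < U t := by omega
            rw [Finset.mem_singleton]
            exact hinj t ht.1 x hx (by rw [hUle t ht.1 h6, g1]) (by rw [hW1 t ht.1 h6, g2])
          · intro t ht _
            rw [Finset.mem_singleton] at ht
            rw [ht]
            exact (hpos x hx).le
        simpa using this
      norm_num at *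
      linarith
    · right
      have hmx : μ z ≤ 1 / 10 ^ 6 := by linarith
      have h1 : ∑ v ∈ V, μ v ≤ ∑ t ∈ V with W t = -1 ∨ W t = 0, μ t + μ z := by
        rw [← Finset.sum_filter_add_sum_filter_not V (fun t => W t = -1 ∨ W t = 0) μ]
        gcongr
        have : ∑ t ∈ V with ¬ (W t = -1 ∨ W t = 0), μ t ≤ ∑ x ∈ {z}, μ x := by
          apply Finset.sum_le_sum_of_subset_of_nonneg
          · intro t ht
            rw [Finset.mem_filter] at ht
            have h5 := hW t ht.1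
            have h6 : 0 < W t := by omega
            rw [Finset.mem_singleton]
            exact hinj t ht.1 z hz (by rw [hU1 t ht.1 h6, g4]) (by rw [hWle t ht.1 h6, g3])
          · intro t ht _
            rw [Finset.mem_singleton] at ht
            rw [ht]
            exact (hpos z hz).le
        simpa using this
      norm_num at *
      linarith

/-- positivity of the first coefficient -/
theorem ppos {ι : Type*} {V : Finset ι} {U W : ι → ℤ} {μ : ι → ℝ} (hpos : ∀ v ∈ V, 0 < μ v)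
    (m1 : 3 / 4 ≤ ∑ x ∈ V with 0 ≤ U x ∧ 0 ≤ W x, μ x)
    (m2 : 3 / 4 ≤ ∑ x ∈ V with 0 ≤ -1 - U x ∧ 0 ≤ W x, μ x) {P Q F' F : ℝ} (hP : 0 ≤ P)
    (hPQ : 0 < P + Q) (hF : 0 ≤ F) (hF' : F ≤ F')
    (hf : ∑ x ∈ V, μ x * max 0 (F' + P * U x + Q * W x) ≤ F) (hW : ∃ x ∈ V, 0 < W x) : 0 < P := by
  rcases hP.lt_or_eq with h | h
  · exact h
  exfalso
  rw [← h] at hf hPQ
  have hQ : 0 < Q := by linarith
  have hF'0 : 0 ≤ F' := hF.trans hF'
  have h1 : F' * ∑ x ∈ V with 0 ≤ U x ∧ 0 ≤ W x, μ x +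
      F' * ∑ x ∈ V with 0 ≤ -1 - U x ∧ 0 ≤ W x, μ x ≤
      ∑ x ∈ V, μ x * max 0 (F' + 0 * U x + Q * W x) := by
    rw [Finset.sum_filter, Finset.sum_filter, Finset.mul_sum, Finset.mul_sum,
      ← Finset.sum_add_distrib]
    refine Finset.sum_le_sum fun x hx => ?_
    have hm := (hpos x hx).le
    have h2 : F' + 0 * U x + Q * W x ≤ max 0 (F' + 0 * U x + Q * W x) := le_max_right _ _
    by_cases h5 : 0 ≤ W x
    · have h6 : (0 : ℝ) ≤ W x := by exact_mod_cast h5
      have h7 : F' ≤ max 0 (F' + 0 * U x + Q * W x) := by nlinarith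
      by_cases h3 : 0 ≤ U x
      · rw [if_pos ⟨h3, h5⟩, if_neg (by omega), mul_zero, add_zero]
        nlinarith
      · rw [if_neg (by omega), if_pos (by omega), mul_zero, zero_add]
        nlinarith
    · rw [if_neg (by omega), if_neg (by omega), mul_zero, add_zero]
      exact mul_nonneg hm (le_max_left _ _)
  have h2 : F' = 0 := by nlinarith
  obtain ⟨x, hx, hx1⟩ := hW
  have h3 : μ x * max 0 (F' + 0 * U x + Q * W x) ≤
      ∑ x ∈ V, μ x * max 0 (F' + 0 * U x + Q * W x) :=
    Finset.single_le_sum (f := fun x => μ x * max 0 (F' + 0 * U x + Q * W x))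
      (fun y hy => mul_nonneg (hpos y hy).le (le_max_left _ _)) hx
  have h4 : 0 < μ x * max 0 (F' + 0 * U x + Q * W x) := by
    apply mul_pos (hpos x hx)
    apply lt_max_of_lt_right
    have h6 : (0 : ℝ) < W x := by exact_mod_cast hx1
    rw [h2]
    nlinarith [mul_pos hQ h6]
  linarith

/-- all moments small: two columns -/
theorem cols {ι : Type*} {V : Finset ι} {X Y : ι → ℤ} {μ : ι → ℝ} (hpos : ∀ v ∈ V, 0 < μ v)
    (htot : 4 - 1 / 10 ^ 6 ≤ ∑ v ∈ V, μ v)
    (h : ∀ a b : Fin 2, ∑ x ∈ V with 0 ≤ out a (X x) ∧ 0 ≤ out b (Y x), μ x * out a (X x) ≤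
      2 / 10 ^ 6 * (1 + ∑ x ∈ V with 0 ≤ out (1 - a) (X x) ∧ 0 ≤ out b (Y x),
        μ x * out (1 - a) (X x))) :
    4 - 1 / 250 ≤ ∑ x ∈ V with X x = 0 ∨ X x = 1, μ x := by
  have h3 : ∀ a b : Fin 2, ∑ x ∈ V with 0 ≤ out a (X x) ∧ 0 ≤ out b (Y x), μ x * out a (X x) ≤
      3 / 10 ^ 6 := by
    intro a b
    have h1 := h a b
    have h2 := h (1 - a) b
    rw [rev_rev] at h2
    norm_num at h1 h2 ⊢
    linarith
  have h4 : ∑ v ∈ V, μ v ≤ ∑ x ∈ V with X x = 0 ∨ X x = 1, μ x +
      (∑ x ∈ V with 0 ≤ out 0 (X x) ∧ 0 ≤ out 0 (Y x), μ x * out 0 (X x) +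
      ∑ x ∈ V with 0 ≤ out 0 (X x) ∧ 0 ≤ out 1 (Y x), μ x * out 0 (X x) +
      ∑ x ∈ V with 0 ≤ out 1 (X x) ∧ 0 ≤ out 0 (Y x), μ x * out 1 (X x) +
      ∑ x ∈ V with 0 ≤ out 1 (X x) ∧ 0 ≤ out 1 (Y x), μ x * out 1 (X x)) := by
    simp only [Finset.sum_filter, ← Finset.sum_add_distrib]
    refine Finset.sum_le_sum fun x hx => ?_
    have hm := (hpos x hx).le
    have e0 : ∀ z : ℤ, out 0 z = -z := fun z => by simp [out]
    have e1 : ∀ z : ℤ, out 1 z = z - 1 := fun z => by simp [out]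
    simp only [e0, e1]
    have nn : ∀ (q : Prop) [Decidable q] (t : ℤ), (q → 0 ≤ t) →
        0 ≤ (if q then μ x * (t : ℝ) else 0) := by
      intro q _ t ht
      split_ifs with hq
      · exact mul_nonneg hm (by exact_mod_cast ht hq)
      · exact le_rfl
    have n1 := nn (0 ≤ -X x ∧ 0 ≤ -Y x) (-X x) (fun h => h.1)
    have n2 := nn (0 ≤ -X x ∧ 0 ≤ Y x - 1) (-X x) (fun h => h.1)
    have n3 := nn (0 ≤ X x - 1 ∧ 0 ≤ -Y x) (X x - 1) (fun h => h.1)
    have n4 := nn (0 ≤ X x - 1 ∧ 0 ≤ Y x - 1) (X x - 1) (fun h => h.1)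
    by_cases c : X x = 0 ∨ X x = 1
    · rw [if_pos c]
      linarith
    · rw [if_neg c]
      rcases lt_or_ge (X x) 0 with c1 | c1
      · have c2 : (1 : ℝ) ≤ ((-X x : ℤ) : ℝ) := by exact_mod_cast (by omega : (1 : ℤ) ≤ -X x)
        rcases le_or_gt (Y x) 0 with c3 | c3
        · rw [if_pos (by omega : 0 ≤ -X x ∧ 0 ≤ -Y x)]
          nlinarith
        · rw [if_pos (by omega : 0 ≤ -X x ∧ 0 ≤ Y x - 1)]
          nlinarith
      · have c2 : (1 : ℝ) ≤ ((X x - 1 : ℤ) : ℝ) := by exact_mod_cast (by omega : (1 : ℤ) ≤ X x - 1)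
        rcases le_or_gt (Y x) 0 with c3 | c3
        · rw [if_pos (by omega : 0 ≤ X x - 1 ∧ 0 ≤ -Y x)]
          nlinarith
        · rw [if_pos (by omega : 0 ≤ X x - 1 ∧ 0 ≤ Y x - 1)]
          nlinarith
  have a1 := h3 0 0
  have a2 := h3 0 1
  have a3 := h3 1 0
  have a4 := h3 1 1
  norm_num at htot h4 a1 a2 a3 a4 ⊢
  linarith

end ENDPM

open ENDPM in
theorem end_planar {ι : Type*} {V : Finset ι} {X Y : ι → ℤ} {μ : ι → ℝ}
    (hpos : ∀ v ∈ V, 0 < μ v) (hinj : ∀ x ∈ V, ∀ y ∈ V, X x = X y → Y x = Y y → x = y)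
    (htot : 4 - 1 / 10 ^ 6 ≤ ∑ v ∈ V, μ v) {P Q F' F : Fin 2 → Fin 2 → ℝ}
    (h0 : ∀ a b, 0 ≤ P a b ∧ 0 ≤ Q a b ∧ 0 < P a b + Q a b ∧ 0 ≤ F a b ∧ F a b ≤ F' a b)
    (hf : ∀ a b, ∑ x ∈ V, μ x * max 0 (F' a b + P a b * out a (X x) + Q a b * out b (Y x)) ≤
      F a b)
    (hQ : ∀ a b, ∑ x ∈ V with 0 ≤ out a (X x) ∧ 0 ≤ out b (Y x), μ x ≤ 1)
    (hmid : ∀ x ∈ V, ∀ y ∈ V, ∀ z ∈ V, x ≠ z → X x + X z = 2 * X y → Y x + Y z = 2 * Y y →
      μ x + μ y ≤ 1 ∨ μ y + μ z ≤ 1) :
    4 - 1 / 250 ≤ ∑ x ∈ V with X x = 0 ∨ X x = 1, μ x ∨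
    4 - 1 / 250 ≤ ∑ x ∈ V with Y x = 0 ∨ Y x = 1, μ x := by
  have hpos' : ∀ v ∈ V, 0 ≤ μ v := fun v hv => (hpos v hv).le
  have h0s : ∀ b a, 0 ≤ Q a b ∧ 0 ≤ P a b ∧ 0 < Q a b + P a b ∧ 0 ≤ F a b ∧ F a b ≤ F' a b := by
    intro b a
    obtain ⟨h1, h2, h3, h4, h5⟩ := h0 a b
    exact ⟨h2, h1, by linarith, h4, h5⟩
  have hfs : ∀ b a, ∑ x ∈ V, μ x * max 0 (F' a b + Q a b * out b (Y x) + P a b * out a (X x)) ≤
      F a b := by
    intro b a
    refine le_trans (le_of_eq ?_) (hf a b)
    refine Finset.sum_congr rfl fun x _ => ?_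
    congr 2
    ring
  have hQs : ∀ b a, ∑ x ∈ V with 0 ≤ out b (Y x) ∧ 0 ≤ out a (X x), μ x ≤ 1 := by
    intro b a
    refine le_trans (le_of_eq ?_) (hQ a b)
    refine Finset.sum_congr (Finset.filter_congr fun x _ => and_comm) fun _ _ => rfl
  have mX := fun a b => moment (X := X) (Y := Y) hpos' htot h0 hf hQ a b
  have mY := fun b a => moment (X := Y) (Y := X) (P := fun b a => Q a b) (Q := fun b a => P a b)
    (F' := fun b a => F' a b) (F := fun b a => F a b) hpos' htot h0s hfs hQs b a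
  by_cases hh : ∃ b, ∀ x ∈ V, out b (Y x) ≤ 0
  swap
  · left
    apply cols hpos htot (X := X) (Y := Y)
    intro a b
    rcases mX a b with h | h
    · exact h
    · exact absurd ⟨b, fun x hx => h.2.2 x hx (hpos x hx)⟩ hh
  by_cases hv : ∃ a, ∀ x ∈ V, out a (X x) ≤ 0
  swap
  · right
    apply cols hpos htot (X := Y) (Y := X)
    intro b a
    rcases mY b a with h | h
    · exact h
    · exact absurd ⟨a, fun x hx => h.2.2 x hx (hpos x hx)⟩ hv
  obtain ⟨b, hb⟩ := hh
  obtain ⟨a, ha⟩ := hv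
  by_cases hb' : ∀ x ∈ V, out (1 - b) (Y x) ≤ 0
  · right
    have h1 : ∑ v ∈ V, μ v ≤ ∑ x ∈ V with Y x = 0 ∨ Y x = 1, μ x := by
      rw [Finset.filter_true_of_mem]
      intro x hx
      have h1 := hb x hx
      have h2 := hb' x hx
      rw [out_rev] at h2
      rw [← out_cases b]
      omega
    norm_num at htot ⊢
    linarith
  by_cases ha' : ∀ x ∈ V, out (1 - a) (X x) ≤ 0
  · left
    have h1 : ∑ v ∈ V, μ v ≤ ∑ x ∈ V with X x = 0 ∨ X x = 1, μ x := by
      rw [Finset.filter_true_of_mem]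
      intro x hx
      have h1 := ha x hx
      have h2 := ha' x hx
      rw [out_rev] at h2
      rw [← out_cases a]
      omega
    norm_num at htot ⊢
    linarith
  -- the masses of the quadrants
  have hsum : ∑ v ∈ V, μ v ≤ ∑ x ∈ V with 0 ≤ out a (X x) ∧ 0 ≤ out b (Y x), μ x +
      ∑ x ∈ V with 0 ≤ out (1 - a) (X x) ∧ 0 ≤ out b (Y x), μ x +
      ∑ x ∈ V with 0 ≤ out a (X x) ∧ 0 ≤ out (1 - b) (Y x), μ x +
      ∑ x ∈ V with 0 ≤ out (1 - a) (X x) ∧ 0 ≤ out (1 - b) (Y x), μ x := by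
    simp only [Finset.sum_filter, ← Finset.sum_add_distrib]
    refine Finset.sum_le_sum fun x hx => ?_
    have hm := (hpos x hx).le
    rw [out_rev, out_rev]
    have nn : ∀ (q : Prop) [Decidable q], 0 ≤ (if q then μ x else 0) := by
      intro q _
      split_ifs
      · exact hm
      · exact le_rfl
    have n1 := nn (0 ≤ out a (X x) ∧ 0 ≤ out b (Y x))
    have n2 := nn (0 ≤ -1 - out a (X x) ∧ 0 ≤ out b (Y x))
    have n3 := nn (0 ≤ out a (X x) ∧ 0 ≤ -1 - out b (Y x))
    have n4 := nn (0 ≤ -1 - out a (X x) ∧ 0 ≤ -1 - out b (Y x))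
    rcases le_or_gt 0 (out a (X x)) with c1 | c1 <;> rcases le_or_gt 0 (out b (Y x)) with c2 | c2
    · rw [if_pos (by omega : 0 ≤ out a (X x) ∧ 0 ≤ out b (Y x))]
      linarith
    · rw [if_pos (by omega : 0 ≤ out a (X x) ∧ 0 ≤ -1 - out b (Y x))]
      linarith
    · rw [if_pos (by omega : 0 ≤ -1 - out a (X x) ∧ 0 ≤ out b (Y x))]
      linarith
    · rw [if_pos (by omega : 0 ≤ -1 - out a (X x) ∧ 0 ≤ -1 - out b (Y x))]
      linarith
  have u1 := hQ a b
  have u2 := hQ (1 - a) b
  have u3 := hQ a (1 - b)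
  have u4 := hQ (1 - a) (1 - b)
  have l4 : 1 - 1 / 10 ^ 6 ≤ ∑ x ∈ V with 0 ≤ out (1 - a) (X x) ∧ 0 ≤ out (1 - b) (Y x), μ x := by
    norm_num at htot ⊢
    linarith
  have l3 : 1 - 1 / 10 ^ 6 ≤ ∑ x ∈ V with 0 ≤ out a (X x) ∧ 0 ≤ out (1 - b) (Y x), μ x := by
    norm_num at htot ⊢
    linarith
  have l2 : 1 - 1 / 10 ^ 6 ≤ ∑ x ∈ V with 0 ≤ out (1 - a) (X x) ∧ 0 ≤ out b (Y x), μ x := by
    norm_num at htot ⊢
    linarith
  have hA : ∑ x ∈ V with 0 ≤ out (1 - a) (X x) ∧ 0 ≤ out (1 - b) (Y x),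
      μ x * out (1 - a) (X x) ≤ 2 / 10 ^ 6 := by
    rcases mX (1 - a) (1 - b) with h | h
    · have h1 : ∑ x ∈ V with 0 ≤ out (1 - (1 - a)) (X x) ∧ 0 ≤ out (1 - b) (Y x),
          μ x * out (1 - (1 - a)) (X x) = 0 := by
        rw [rev_rev]
        apply Finset.sum_eq_zero
        intro x hx
        rw [Finset.mem_filter] at hx
        have : out a (X x) = 0 := le_antisymm (ha x hx.1) hx.2.1
        rw [this]
        simp
      rw [h1, add_zero, mul_one] at h
      exact h
    · exact absurd (fun x hx => h.2.2 x hx (hpos x hx)) hb'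
  have hB : ∑ x ∈ V with 0 ≤ out (1 - a) (X x) ∧ 0 ≤ out (1 - b) (Y x),
      μ x * out (1 - b) (Y x) ≤ 2 / 10 ^ 6 := by
    rcases mY (1 - b) (1 - a) with h | h
    · have h1 : ∑ x ∈ V with 0 ≤ out (1 - (1 - b)) (Y x) ∧ 0 ≤ out (1 - a) (X x),
          μ x * out (1 - (1 - b)) (Y x) = 0 := by
        rw [rev_rev]
        apply Finset.sum_eq_zero
        intro x hx
        rw [Finset.mem_filter] at hx
        have : out b (Y x) = 0 := le_antisymm (hb x hx.1) hx.2.1
        rw [this]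
        simp
      rw [h1, add_zero, mul_one] at h
      refine le_trans (le_of_eq ?_) h
      exact Finset.sum_congr (Finset.filter_congr fun x _ => and_comm) fun _ _ => rfl
    · exact absurd (fun x hx => h.2.2 x hx (hpos x hx)) ha'
  obtain ⟨p1, p2, p3, p4, p5⟩ := h0 (1 - a) (1 - b)
  push Not at hb' ha'
  have hP : 0 < P (1 - a) (1 - b) := by
    refine ppos (U := fun x => out (1 - a) (X x)) (W := fun x => out (1 - b) (Y x)) hpos
      (le_trans (by norm_num) l4) ?_ p1 p3 p4 p5 (hf (1 - a) (1 - b)) hb'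
    refine le_trans (by norm_num) (l3.trans (le_of_eq ?_))
    refine Finset.sum_congr (Finset.filter_congr fun x _ => ?_) fun _ _ => rfl
    rw [out_rev a]
    have : -1 - (-1 - out a (X x)) = out a (X x) := by ring
    rw [this]
  have hQ' : 0 < Q (1 - a) (1 - b) := by
    refine ppos (U := fun x => out (1 - b) (Y x)) (W := fun x => out (1 - a) (X x)) hpos
      ?_ ?_ p2 (by linarith) p4 p5 (hfs (1 - b) (1 - a)) ha'
    · refine le_trans (by norm_num) (l4.trans (le_of_eq ?_))
      exact Finset.sum_congr (Finset.filter_congr fun x _ => and_comm) fun _ _ => rfl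
    · refine le_trans (by norm_num) (l2.trans (le_of_eq ?_))
      refine Finset.sum_congr (Finset.filter_congr fun x _ => ?_) fun _ _ => rfl
      rw [out_rev b]
      have : -1 - (-1 - out b (Y x)) = out b (Y x) := by ring
      rw [this, and_comm]
  have hc := core (U := fun x => out (1 - a) (X x)) (W := fun x => out (1 - b) (Y x)) hpos
    (fun x hx y hy h1 h2 => hinj x hx y hy (out_inj _ h1) (out_inj _ h2)) htot
    (fun x hx => by
      have := ha x hx
      show -1 ≤ out (1 - a) (X x)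
      rw [out_rev]; omega)
    (fun x hx => by
      have := hb x hx
      show -1 ≤ out (1 - b) (Y x)
      rw [out_rev]; omega)
    l4 hA hB hP hQ' p4 p5 (hf (1 - a) (1 - b))
    (fun x hx y hy z hz hxz h1 h2 => by
      apply hmid x hx y hy z hz hxz
      · fin_cases a <;> simp [out] at h1 <;> omega
      · fin_cases b <;> simp [out] at h2 <;> omega)
  rcases hc with hc | hc
  · left
    refine hc.trans (le_of_eq ?_)
    exact Finset.sum_congr (Finset.filter_congr fun x _ => out_cases _ _) fun _ _ => rfl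
  · right
    refine hc.trans (le_of_eq ?_)
    exact Finset.sum_congr (Finset.filter_congr fun x _ => out_cases _ _) fun _ _ => rfl

end Pool.Agent.Lib.MPa7239a.R3X
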