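import Pool.Agent.Lib.MP_a7239a_co.R3X.QUAD
import Pool.Agent.Lib.MP_a7239a_co.R3X.ENDP

/-! # R3X/PG: the planar lemma -/

set_option autoImplicit false

open Finset

namespace Pool.Agent.Lib.MPa7239a.R3X

theorem pg {μ : ℤ × ℤ → ℝ} {V : Finset (ℤ × ℤ)} (h : PGI μ V) :
    ∃ (u : ℤ × ℤ) (c : ℤ), u ≠ 0 ∧
      4 - 1 / 250 ≤ ∑ v ∈ V with lf u v = c ∨ lf u v = c + 1, μ v := by
  obtain ⟨X, Y, r, u, v, P, Q, F', F, hdet, hx, h0, hf, hQ⟩ := quad h
  have hx1 : ∀ x : ℤ × ℤ, x.1 = r.1 + X x * u.1 + Y x * v.1 := by
    intro x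
    have := congrArg Prod.fst (hx x)
    simpa using this
  have hx2 : ∀ x : ℤ × ℤ, x.2 = r.2 + X x * u.2 + Y x * v.2 := by
    intro x
    have := congrArg Prod.snd (hx x)
    simpa using this
  have hpos0 : ∀ v ∈ V, 0 ≤ μ v := fun v hv => (h.pos v hv).le
  have hmid : ∀ x ∈ V, ∀ y ∈ V, ∀ z ∈ V, x ≠ z → X x + X z = 2 * X y → Y x + Y z = 2 * Y y →
      μ x + μ y ≤ 1 ∨ μ y + μ z ≤ 1 := by
    intro x hxV y hyV z hzV hxz hX hY
    have e1 : x.1 + z.1 = 2 * y.1 := by
      rw [hx1 x, hx1 z, hx1 y]
      linear_combination u.1 * hX + v.1 * hY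
    have e2 : x.2 + z.2 = 2 * y.2 := by
      rw [hx2 x, hx2 z, hx2 y]
      linear_combination u.2 * hX + v.2 * hY
    have hyz : y ≠ z := by
      rintro rfl
      apply hxz
      refine Prod.ext ?_ ?_ <;> omega
    have hxy : x ≠ y := by
      rintro rfl
      apply hxz
      refine Prod.ext ?_ ?_ <;> omega
    have hne : z - y ≠ 0 := by
      rw [sub_ne_zero]
      exact hyz.symm
    have hxy1 : (x - y).1 = -(z - y).1 := by
      simp only [Prod.fst_sub]
      omega
    have hxy2 : (x - y).2 = -(z - y).2 := by
      simp only [Prod.snd_sub]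
      omega
    rcases h.ray y hyV (z - y) hne with h1 | h1
    · right
      refine le_trans ?_ h1
      rw [← sum_pair hyz]
      apply sum_le_sum_of_subset_of_nonneg
      · intro a ha
        rw [mem_insert, mem_singleton] at ha
        rw [mem_filter]
        rcases ha with rfl | rfl
        · exact ⟨hyV, by simp, by simp [lf]⟩
        · refine ⟨hzV, by ring, ?_⟩
          simp only [lf]
          nlinarith [mul_self_nonneg (a - y).1, mul_self_nonneg (a - y).2]
      · intro a ha _
        exact hpos0 a (mem_filter.1 ha).1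
    · left
      refine le_trans ?_ h1
      rw [← sum_pair hxy]
      apply sum_le_sum_of_subset_of_nonneg
      · intro a ha
        rw [mem_insert, mem_singleton] at ha
        rw [mem_filter]
        rcases ha with rfl | rfl
        · refine ⟨hxV, by rw [hxy1, hxy2]; ring, ?_⟩
          simp only [lf]
          rw [hxy1, hxy2]
          nlinarith [mul_self_nonneg (z - y).1, mul_self_nonneg (z - y).2]
        · exact ⟨hyV, by simp, by simp [lf]⟩
      · intro a ha _
        exact hpos0 a (mem_filter.1 ha).1
  have hinj : ∀ x ∈ V, ∀ y ∈ V, X x = X y → Y x = Y y → x = y := by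
    intro x _ y _ h1 h2
    rw [hx x, hx y, h1, h2]
  have key := end_planar h.pos hinj h.tot h0 hf hQ hmid
  set D : ℤ := u.1 * v.2 - u.2 * v.1 with hD
  have hDD : D * D = 1 := by
    rw [← hdet]
    ring
  have hDne : D ≠ 0 := by
    intro h0
    rw [h0] at hDD
    norm_num at hDD
  rcases key with hk | hk
  · refine ⟨(D * v.2, -D * v.1), lf (D * v.2, -D * v.1) r, ?_, ?_⟩
    · intro h0
      rw [Prod.mk_eq_zero] at h0
      have h1 : v.2 = 0 := (mul_eq_zero.1 h0.1).resolve_left hDne
      have h2 : v.1 = 0 := (mul_eq_zero.1 h0.2).resolve_left (neg_ne_zero.2 hDne)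
      apply hDne
      rw [hD, h1, h2]
      ring
    · refine hk.trans (le_of_eq ?_)
      apply sum_congr _ fun _ _ => rfl
      apply filter_congr
      intro x _
      have e : lf (D * v.2, -D * v.1) x = lf (D * v.2, -D * v.1) r + X x := by
        simp only [lf]
        rw [hx1 x, hx2 x]
        have : D * v.2 * (r.1 + X x * u.1 + Y x * v.1) + -D * v.1 * (r.2 + X x * u.2 + Y x * v.2)
            = D * v.2 * r.1 + -D * v.1 * r.2 + X x * (D * D) := by
          rw [hD]
          ring
        rw [this, hDD]
        ring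
      rw [e]
      constructor
      · rintro (h | h)
        · left
          omega
        · right
          omega
      · rintro (h | h)
        · left
          omega
        · right
          omega
  · refine ⟨(-D * u.2, D * u.1), lf (-D * u.2, D * u.1) r, ?_, ?_⟩
    · intro h0
      rw [Prod.mk_eq_zero] at h0
      have h1 : u.2 = 0 := (mul_eq_zero.1 h0.1).resolve_left (neg_ne_zero.2 hDne)
      have h2 : u.1 = 0 := (mul_eq_zero.1 h0.2).resolve_left hDne
      apply hDne
      rw [hD, h1, h2]
      ring
    · refine hk.trans (le_of_eq ?_)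
      apply sum_congr _ fun _ _ => rfl
      apply filter_congr
      intro x _
      have e : lf (-D * u.2, D * u.1) x = lf (-D * u.2, D * u.1) r + Y x := by
        simp only [lf]
        rw [hx1 x, hx2 x]
        have : -D * u.2 * (r.1 + X x * u.1 + Y x * v.1) + D * u.1 * (r.2 + X x * u.2 + Y x * v.2)
            = -D * u.2 * r.1 + D * u.1 * r.2 + Y x * (D * D) := by
          rw [hD]
          ring
        rw [this, hDD]
        ring
      rw [e]
      constructor
      · rintro (h | h)
        · left
          omega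
        · right
          omega
      · rintro (h | h)
        · left
          omega
        · right
          omega

end Pool.Agent.Lib.MPa7239a.R3X
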