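import Pool.Agent.Lib.MP_a7239a_co.R3X.Defs

/-!
# R3X, module RAY: one of the two closed rays from a point of the support has mass at most one
-/

set_option autoImplicit false

open Finset

namespace Pool.Agent.Lib.MPa7239a.R3X

namespace RAYM

variable {u d : ℤ × ℤ}

theorem sq_pos (hu : u ≠ 0) : 0 < u.1 * u.1 + u.2 * u.2 := by
  rcases eq_or_ne u.1 0 with h1 | h1
  · have h2 : u.2 ≠ 0 := by
      intro h2
      exact hu (Prod.ext h1 h2)
    have := mul_self_pos.mpr h2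
    nlinarith [mul_self_nonneg u.1]
  · have := mul_self_pos.mpr h1
    nlinarith [mul_self_nonneg u.2]

theorem fst_eq (h : d.1 * u.2 = d.2 * u.1) : d.1 * (u.1 * u.1 + u.2 * u.2) = lf u d * u.1 := by
  unfold lf
  linear_combination u.2 * h

theorem snd_eq (h : d.1 * u.2 = d.2 * u.1) : d.2 * (u.1 * u.1 + u.2 * u.2) = lf u d * u.2 := by
  unfold lf
  linear_combination (-u.1) * h

theorem eq_zero (hu : u ≠ 0) (h : d.1 * u.2 = d.2 * u.1) (h0 : lf u d = 0) : d = 0 := by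
  have h1 := fst_eq h
  have h2 := snd_eq h
  rw [h0, zero_mul] at h1 h2
  have hp := (sq_pos hu).ne'
  refine Prod.ext ?_ ?_
  · exact (mul_eq_zero.mp h1).resolve_right hp
  · exact (mul_eq_zero.mp h2).resolve_right hp

end RAYM

open RAYM in
theorem ray {μ : ℤ × ℤ → ℝ} {V : Finset (ℤ × ℤ)} (hpos : ∀ v ∈ V, 0 < μ v) (hle : ∀ v, μ v ≤ 1)
    (hfree : ∀ θ : ℝ, 0 < θ → Free μ θ) {w : ℤ × ℤ} (hw : w ∈ V) {u : ℤ × ℤ} (hu : u ≠ 0) :
    (∑ v ∈ V with (v - w).1 * u.2 = (v - w).2 * u.1 ∧ 0 ≤ lf u (v - w), μ v ≤ 1) ∨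
    (∑ v ∈ V with (v - w).1 * u.2 = (v - w).2 * u.1 ∧ lf u (v - w) ≤ 0, μ v ≤ 1) := by
  by_contra hcon
  rw [not_or, not_le, not_le] at hcon
  obtain ⟨hc1, hc2⟩ := hcon
  have hlw : lf u (w - w) = 0 := by simp [lf]
  set S : Finset (ℤ × ℤ) := V.filter fun v => (v - w).1 * u.2 = (v - w).2 * u.1 with hS
  have hSV : ∀ v ∈ S, v ∈ V := fun v hv => (mem_filter.mp hv).1
  have hSc : ∀ v ∈ S, (v - w).1 * u.2 = (v - w).2 * u.1 := fun v hv => (mem_filter.mp hv).2
  have hwS : w ∈ S := by rw [hS, mem_filter]; exact ⟨hw, by simp⟩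
  set Rp : Finset (ℤ × ℤ) := S.filter fun v => 0 < lf u (v - w) with hRp
  set Rm : Finset (ℤ × ℤ) := S.filter fun v => lf u (v - w) < 0 with hRm
  have hRpS : ∀ v ∈ Rp, v ∈ S := fun v hv => (mem_filter.mp hv).1
  have hRmS : ∀ v ∈ Rm, v ∈ S := fun v hv => (mem_filter.mp hv).1
  have hwp : w ∉ Rp := by rw [hRp, mem_filter, hlw]; simp
  have hwm : w ∉ Rm := by rw [hRm, mem_filter, hlw]; simp
  have hzero : ∀ v ∈ S, lf u (v - w) = 0 → v = w := by
    intro v hv h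
    exact sub_eq_zero.mp (eq_zero hu (hSc v hv) h)
  have hdis : Disjoint Rp Rm := by
    rw [Finset.disjoint_left]
    intro v h1 h2
    have h3 := (mem_filter.mp h1).2
    have h4 := (mem_filter.mp h2).2
    omega
  have hun : S = insert w (Rp ∪ Rm) := by
    ext v
    rw [mem_insert, mem_union]
    constructor
    · intro hv
      rcases lt_trichotomy (lf u (v - w)) 0 with h | h | h
      · exact Or.inr (Or.inr (mem_filter.mpr ⟨hv, h⟩))
      · exact Or.inl (hzero v hv h)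
      · exact Or.inr (Or.inl (mem_filter.mpr ⟨hv, h⟩))
    · rintro (rfl | h | h)
      · exact hwS
      · exact hRpS v h
      · exact hRmS v h
  have hwu : w ∉ Rp ∪ Rm := by
    rw [mem_union]; rintro (h | h)
    · exact hwp h
    · exact hwm h
  have dec : ∀ f : ℤ × ℤ → ℝ, ∑ v ∈ S, f v = f w + (∑ v ∈ Rp, f v + ∑ v ∈ Rm, f v) := by
    intro f
    rw [hun, sum_insert hwu, sum_union hdis]
  have e1 : (V.filter fun v => (v - w).1 * u.2 = (v - w).2 * u.1 ∧ 0 ≤ lf u (v - w)) =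
      insert w Rp := by
    ext v
    rw [mem_filter, mem_insert]
    constructor
    · rintro ⟨h1, h2, h3⟩
      have hv : v ∈ S := mem_filter.mpr ⟨h1, h2⟩
      rcases h3.lt_or_eq with h | h
      · exact Or.inr (mem_filter.mpr ⟨hv, h⟩)
      · exact Or.inl (hzero v hv h.symm)
    · rintro (rfl | h)
      · exact ⟨hw, by simp, hlw.ge⟩
      · have hv := hRpS v h
        exact ⟨hSV v hv, hSc v hv, (mem_filter.mp h).2.le⟩
  have e2 : (V.filter fun v => (v - w).1 * u.2 = (v - w).2 * u.1 ∧ lf u (v - w) ≤ 0) =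
      insert w Rm := by
    ext v
    rw [mem_filter, mem_insert]
    constructor
    · rintro ⟨h1, h2, h3⟩
      have hv : v ∈ S := mem_filter.mpr ⟨h1, h2⟩
      rcases h3.lt_or_eq with h | h
      · exact Or.inr (mem_filter.mpr ⟨hv, h⟩)
      · exact Or.inl (hzero v hv h)
    · rintro (rfl | h)
      · exact ⟨hw, by simp, hlw.le⟩
      · have hv := hRmS v h
        exact ⟨hSV v hv, hSc v hv, (mem_filter.mp h).2.le⟩
  rw [e1, sum_insert hwp] at hc1
  rw [e2, sum_insert hwm] at hc2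
  have hw1 := hle w
  have hw0 := hpos w hw
  set mp : ℝ := ∑ v ∈ Rp, μ v with hmp
  set mm : ℝ := ∑ v ∈ Rm, μ v with hmm
  have hnp : Rp.Nonempty := by
    rw [nonempty_iff_ne_empty]
    intro h
    rw [hmp, h, sum_empty] at hc1
    linarith
  have hnm : Rm.Nonempty := by
    rw [nonempty_iff_ne_empty]
    intro h
    rw [hmm, h, sum_empty] at hc2
    linarith
  set Mp : ℝ := ∑ v ∈ Rp, μ v * (lf u (v - w) : ℝ) with hMp
  set Mm : ℝ := ∑ v ∈ Rm, μ v * (lf u (v - w) : ℝ) with hMm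
  have hMp0 : 0 < Mp := by
    apply sum_pos _ hnp
    intro v hv
    have h1 : (0 : ℝ) < (lf u (v - w) : ℝ) := by exact_mod_cast (mem_filter.mp hv).2
    exact mul_pos (hpos v (hSV v (hRpS v hv))) h1
  have hMm0 : Mm < 0 := by
    apply sum_neg _ hnm
    intro v hv
    have h1 : (lf u (v - w) : ℝ) < 0 := by exact_mod_cast (mem_filter.mp hv).2
    exact mul_neg_of_pos_of_neg (hpos v (hSV v (hRmS v hv))) h1
  -- the coefficients
  obtain ⟨α, β, hα0, hα1, hβ0, hβ1, hαβ, hbal, hR⟩ : ∃ α β : ℝ, 0 < α ∧ α ≤ 1 ∧ 0 < β ∧ β ≤ 1 ∧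
      (α = 1 ∨ β = 1) ∧ α * Mp + β * Mm = 0 ∧ 1 - μ w < α * mp + β * mm := by
    rcases le_total Mp (-Mm) with h | h
    · refine ⟨1, Mp / (-Mm), one_pos, le_rfl, div_pos hMp0 (by linarith), ?_, Or.inl rfl, ?_, ?_⟩
      · rw [div_le_one (by linarith)]; exact h
      · have : Mm ≠ 0 := hMm0.ne
        field_simp
        ring
      · have h1 : 0 < Mp / (-Mm) * mm := mul_pos (div_pos hMp0 (by linarith)) (by linarith)
        linarith
    · refine ⟨(-Mm) / Mp, 1, div_pos (by linarith) hMp0, ?_, one_pos, le_rfl, Or.inr rfl, ?_, ?_⟩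
      · rw [div_le_one hMp0]; exact h
      · have : Mp ≠ 0 := hMp0.ne'
        field_simp
        ring
      · have h1 : 0 < (-Mm) / Mp * mp := mul_pos (div_pos (by linarith) hMp0) (by linarith)
        linarith
  set R : ℝ := α * mp + β * mm with hRdef
  have hR0 : 0 < R := by linarith
  obtain ⟨t, ht1, ht2, ht3⟩ : ∃ t : ℝ, 1 - μ w < t ∧ t < 1 ∧ t < R := by
    obtain ⟨t, h1, h2⟩ := exists_between (show 1 - μ w < min 1 R from lt_min (by linarith) hR)
    exact ⟨t, h1, h2.trans_le (min_le_left _ _), h2.trans_le (min_le_right _ _)⟩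
  have ht0 : 0 < t := by linarith
  set τ : ℝ := t / R with hτ
  have hτ0 : 0 < τ := div_pos ht0 hR0
  have hτ1 : τ < 1 := by rw [hτ, div_lt_one hR0]; exact ht3
  have hτR : τ * R = t := by rw [hτ]; field_simp
  set k : ℤ × ℤ → ℝ := fun v => if 0 < lf u (v - w) then τ * α * μ v else
    if lf u (v - w) < 0 then τ * β * μ v else 1 - t with hk
  have kp : ∀ v ∈ Rp, k v = τ * α * μ v := fun v hv => if_pos (mem_filter.mp hv).2
  have km : ∀ v ∈ Rm, k v = τ * β * μ v := by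
    intro v hv
    have h1 := (mem_filter.mp hv).2
    simp only [hk]
    rw [if_neg (by omega), if_pos h1]
  have kw : k w = 1 - t := by
    simp only [hk]
    rw [if_neg (by omega), if_neg (by omega)]
  have hτα : 0 < τ * α ∧ τ * α < 1 := ⟨mul_pos hτ0 hα0, by nlinarith⟩
  have hτβ : 0 < τ * β ∧ τ * β < 1 := ⟨mul_pos hτ0 hβ0, by nlinarith⟩
  have hkb : ∀ v ∈ S, 0 < k v ∧ k v < μ v := by
    intro v hv
    have hm := hpos v (hSV v hv)
    rw [hun, mem_insert, mem_union] at hv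
    rcases hv with rfl | h | h
    · rw [kw]; exact ⟨by linarith, by linarith⟩
    · rw [kp v h]; exact ⟨mul_pos hτα.1 hm, by nlinarith [hτα.2]⟩
    · rw [km v h]; exact ⟨mul_pos hτβ.1 hm, by nlinarith [hτβ.2]⟩
  obtain ⟨θ, hθ0, hθ⟩ : ∃ θ : ℝ, 0 < θ ∧ ∀ v ∈ S, θ ≤ k v ∧ k v + θ ≤ μ v := by
    obtain ⟨z, hz, hz'⟩ := exists_min_image S (fun v => min (k v) (μ v - k v)) ⟨w, hwS⟩
    refine ⟨min (k z) (μ z - k z), lt_min (hkb z hz).1 (by linarith [(hkb z hz).2]), ?_⟩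
    intro v hv
    have h1 := hz' v hv
    have h2 := h1.trans (min_le_left _ _)
    have h3 := h1.trans (min_le_right _ _)
    exact ⟨h2, by linarith⟩
  have hsum : ∑ v ∈ S, k v = 1 := by
    rw [dec, kw, sum_congr rfl kp, sum_congr rfl km, ← mul_sum, ← mul_sum]
    have : τ * α * mp + τ * β * mm = t := by rw [← hτR, hRdef]; ring
    linarith
  have hlin : ∑ v ∈ S, k v * (lf u (v - w) : ℝ) = 0 := by
    have h1 : ∀ v ∈ Rp, k v * (lf u (v - w) : ℝ) = τ * α * (μ v * (lf u (v - w) : ℝ)) := by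
      intro v hv; rw [kp v hv]; ring
    have h2 : ∀ v ∈ Rm, k v * (lf u (v - w) : ℝ) = τ * β * (μ v * (lf u (v - w) : ℝ)) := by
      intro v hv; rw [km v hv]; ring
    rw [dec, sum_congr rfl h1, sum_congr rfl h2, ← mul_sum, ← mul_sum, hlw]
    have : τ * α * Mp + τ * β * Mm = τ * (α * Mp + β * Mm) := by ring
    rw [Int.cast_zero, mul_zero, zero_add, this, hbal, mul_zero]
  have hsq : (0 : ℝ) < (u.1 : ℝ) * u.1 + u.2 * u.2 := by exact_mod_cast sq_pos hu
  have hgen : ∀ (c : ℤ) (f : ℤ × ℤ → ℤ), (∀ v ∈ S, (f v - f w) * (u.1 * u.1 + u.2 * u.2) =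
      lf u (v - w) * c) → ∑ v ∈ S, k v * (f v : ℝ) = f w := by
    intro c f hf
    have h1 : ∑ v ∈ S, k v * ((f v : ℝ) - f w) * ((u.1 : ℝ) * u.1 + u.2 * u.2) = 0 := by
      have h2 : ∀ v ∈ S, k v * ((f v : ℝ) - f w) * ((u.1 : ℝ) * u.1 + u.2 * u.2) =
          k v * (lf u (v - w) : ℝ) * c := by
        intro v hv
        have h3 : ((f v : ℝ) - f w) * ((u.1 : ℝ) * u.1 + u.2 * u.2) = (lf u (v - w) : ℝ) * c := by
          exact_mod_cast hf v hv
        rw [mul_assoc, h3]; ring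
      rw [sum_congr rfl h2, ← sum_mul, hlin, zero_mul]
    rw [← sum_mul] at h1
    have h4 := (mul_eq_zero.mp h1).resolve_right hsq.ne'
    have h5 : ∑ v ∈ S, k v * ((f v : ℝ) - f w) = ∑ v ∈ S, k v * (f v : ℝ) - (∑ v ∈ S, k v) * f w := by
      rw [sum_mul, ← sum_sub_distrib]
      exact sum_congr rfl fun v _ => by ring
    rw [h5, hsum] at h4
    linarith
  refine hfree θ hθ0 S w ⟨fun v => if v = w then 1 else 0, ?_, ?_, ?_⟩ ⟨k, hθ, hsum, ?_, ?_⟩
  · rw [sum_ite_eq' S w, if_pos hwS]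
  · simp [hwS]
  · simp [hwS]
  · exact hgen u.1 (fun v => v.1) fun v hv => fst_eq (hSc v hv)
  · exact hgen u.2 (fun v => v.2) fun v hv => snd_eq (hSc v hv)

end Pool.Agent.Lib.MPa7239a.R3X
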