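import Pool.Agent.Lib.MP_a7239a_co.R3X.CERT
import Pool.Agent.Lib.MP_a7239a_co.R3X.RAY

/-!
# R3X: module PGIN
-/

set_option autoImplicit false

open Finset

namespace Pool.Agent.Lib.MPa7239a.R3X

namespace PGINM

/-- the vector `(v, 1)` -/
def gv (v : ℤ × ℤ) : ℝ × ℝ × ℝ := ((v.1 : ℝ), (v.2 : ℝ), (1 : ℝ))

theorem sum_gv (V : Finset (ℤ × ℤ)) (k : ℤ × ℤ → ℝ) :
    ∑ v ∈ V, k v • gv v = (∑ v ∈ V, k v * (v.1 : ℝ), ∑ v ∈ V, k v * (v.2 : ℝ), ∑ v ∈ V, k v) := by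
  have h1 : (∑ v ∈ V, k v • gv v).1 = ∑ v ∈ V, k v * (v.1 : ℝ) := by
    rw [Prod.fst_sum]; rfl
  have h2 : (∑ v ∈ V, k v • gv v).2.1 = ∑ v ∈ V, k v * (v.2 : ℝ) := by
    rw [Prod.snd_sum, Prod.fst_sum]; rfl
  have h3 : (∑ v ∈ V, k v • gv v).2.2 = ∑ v ∈ V, k v := by
    rw [Prod.snd_sum, Prod.snd_sum]
    exact Finset.sum_congr rfl fun v _ => by simp [gv]
  exact Prod.ext h1 (Prod.ext h2 h3)

theorem mem_span {V : Finset (ℤ × ℤ)} {w : ℤ × ℤ} (h : InLat V w) :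
    gv w ∈ Submodule.span ℝ (gv '' (V : Set (ℤ × ℤ))) := by
  obtain ⟨j, h1, h2, h3⟩ := h
  have e : gv w = ∑ v ∈ V, (j v : ℝ) • gv v := by
    rw [sum_gv]
    have e1 : ∑ v ∈ V, (j v : ℝ) * (v.1 : ℝ) = (w.1 : ℝ) := by rw [← h2]; push_cast; rfl
    have e2 : ∑ v ∈ V, (j v : ℝ) * (v.2 : ℝ) = (w.2 : ℝ) := by rw [← h3]; push_cast; rfl
    have e3 : ∑ v ∈ V, (j v : ℝ) = 1 := by exact_mod_cast h1
    rw [e1, e2, e3]
    rfl
  rw [e]
  exact Submodule.sum_mem _ fun v hv =>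
    Submodule.smul_mem _ _ (Submodule.subset_span ⟨v, hv, rfl⟩)

theorem span_top {V : Finset (ℤ × ℤ)} (hgen : ∀ w, InLat V w) :
    Submodule.span ℝ (gv '' (V : Set (ℤ × ℤ))) = ⊤ := by
  rw [eq_top_iff]
  rintro ⟨x, y, z⟩ -
  have e : ((x, y, z) : ℝ × ℝ × ℝ) = x • gv (1, 0) + y • gv (0, 1) + (z - x - y) • gv (0, 0) := by
    simp [gv]
  rw [e]
  exact Submodule.add_mem _ (Submodule.add_mem _ (Submodule.smul_mem _ _ (mem_span (hgen _)))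
    (Submodule.smul_mem _ _ (mem_span (hgen _)))) (Submodule.smul_mem _ _ (mem_span (hgen _)))

end PGINM

open PGINM

theorem pgin {μ : ℤ × ℤ → ℝ} {V : Finset (ℤ × ℤ)} (hpos : ∀ v ∈ V, 0 < μ v)
    (hle : ∀ v, μ v ≤ 1) (hzero : ∀ v, v ∉ V → μ v = 0) (htot : 4 - 1 / 10 ^ 6 ≤ ∑ v ∈ V, μ v)
    (hlin : ∀ u : ℤ × ℤ, u ≠ 0 → ∀ c : ℤ, ∑ v ∈ V with lf u v = c, μ v ≤ 2)
    (hfree : ∀ θ : ℝ, 0 < θ → Free μ θ) (hgen : ∀ w, InLat V w) : PGI μ V := by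
  refine ⟨hpos, hle, hzero, htot, hlin, fun w hw u hu => ray hpos hle hfree hw hu, fun w => ?_⟩
  have hV : V.Nonempty := by
    rw [Finset.nonempty_iff_ne_empty]
    rintro rfl
    rw [Finset.sum_empty] at htot
    norm_num at htot
  have hno : ¬ ∃ k : ℤ × ℤ → ℝ, (∀ v ∈ V, 0 < k v ∧ k v < μ v) ∧ ∑ v ∈ V, k v • gv v = gv w := by
    rintro ⟨k, hk, hs⟩
    rw [sum_gv] at hs
    have h1 : ∑ v ∈ V, k v * (v.1 : ℝ) = w.1 := congrArg (fun q => q.1) hs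
    have h2 : ∑ v ∈ V, k v * (v.2 : ℝ) = w.2 := congrArg (fun q => q.2.1) hs
    have h3 : ∑ v ∈ V, k v = 1 := congrArg (fun q => q.2.2) hs
    obtain ⟨v₀, hv₀, hmin⟩ := V.exists_min_image (fun v => min (k v) (μ v - k v)) hV
    have hθ : 0 < min (k v₀) (μ v₀ - k v₀) :=
      lt_min (hk v₀ hv₀).1 (by linarith [(hk v₀ hv₀).2])
    refine hfree _ hθ V w (hgen w) ⟨k, fun v hv => ?_, h3, h1, h2⟩
    have h4 := hmin v hv
    have h5 := min_le_left (k v) (μ v - k v)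
    have h6 := min_le_right (k v) (μ v - k v)
    constructor <;> linarith
  obtain ⟨φ, hφ, hle'⟩ := cert V gv (span_top hgen) hpos hno
  set b1 := φ (1, 0, 0) with hb1
  set b2 := φ (0, 1, 0) with hb2
  set s := φ (0, 0, 1) with hs
  have hform : ∀ x y z : ℝ, φ (x, y, z) = b1 * x + b2 * y + s * z := by
    intro x y z
    have e : ((x, y, z) : ℝ × ℝ × ℝ) = x • (1, 0, 0) + y • (0, 1, 0) + z • (0, 0, 1) := by
      simp
    rw [e, map_add, map_add, map_smul, map_smul, map_smul, smul_eq_mul, smul_eq_mul, smul_eq_mul]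
    ring
  have hg : ∀ v : ℤ × ℤ, φ (gv v) = b1 * v.1 + b2 * v.2 + s := by
    intro v
    unfold gv
    rw [hform, mul_one]
  simp only [hg] at hle'
  refine ⟨b1, b2, s, ?_, hle'⟩
  by_contra hb
  push Not at hb
  obtain ⟨hb1', hb2'⟩ := hb
  rw [hb1', hb2'] at hle'
  simp only [zero_mul, zero_add] at hle'
  rw [← Finset.sum_mul] at hle'
  have hsne : s ≠ 0 := by
    intro hs0
    apply hφ
    refine LinearMap.ext fun q => ?_
    obtain ⟨x, y, z⟩ := q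
    rw [hform, hb1', hb2', hs0]
    simp
  have hm : 0 ≤ max 0 s := le_max_left _ _
  have htot' : 1 < ∑ v ∈ V, μ v := by
    have : (1 : ℝ) / 10 ^ 6 < 1 := by norm_num
    linarith
  have hs0 : 0 ≤ s := le_trans (mul_nonneg (by linarith) hm) hle'
  rw [max_eq_right hs0] at hle'
  have hs1 : 0 < s := lt_of_le_of_ne hs0 (Ne.symm hsne)
  nlinarith

end Pool.Agent.Lib.MPa7239a.R3X
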