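import Pool.Agent.Lib.MP_a7239a_co.R3X.LATC
import Pool.Agent.Lib.MP_a7239a_co.R3X.PGIN
import Pool.Agent.Lib.MP_a7239a_co.R3X.PG

/-!
# Module PLZ: the planar lemma without margin
-/

set_option autoImplicit false

open Finset

namespace Pool.Agent.Lib.MPa7239a.R3X

namespace PLZM

theorem lf_sub (u x y : ℤ × ℤ) : lf u (x - y) = lf u x - lf u y := by
  simp only [lf, Prod.fst_sub, Prod.snd_sub]
  ring

/-- two forms with a common nonzero zero have the same zeros -/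
theorem par {a b d x : ℤ × ℤ} (ha : a ≠ 0) (hd : d ≠ 0) (h1 : lf a d = 0) (h2 : lf b d = 0)
    (hx : lf a x = 0) : lf b x = 0 := by
  obtain ⟨a1, a2⟩ := a
  obtain ⟨b1, b2⟩ := b
  obtain ⟨d1, d2⟩ := d
  obtain ⟨x1, x2⟩ := x
  simp only [lf] at *
  have hdet : a1 * b2 - a2 * b1 = 0 := by
    by_contra hne
    apply hd
    have e1 : (a1 * b2 - a2 * b1) * d1 = 0 := by
      linear_combination b2 * h1 - a2 * h2
    have e2 : (a1 * b2 - a2 * b1) * d2 = 0 := by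
      linear_combination a1 * h2 - b1 * h1
    have e3 := (mul_eq_zero.1 e1).resolve_left hne
    have e4 := (mul_eq_zero.1 e2).resolve_left hne
    rw [e3, e4]
    rfl
  by_cases h : a1 = 0
  · by_cases h' : a2 = 0
    · exact absurd (by rw [h, h']; rfl) ha
    · have e1 : a2 * (b1 * x1 + b2 * x2) = 0 := by
        linear_combination b2 * hx - x1 * hdet
      exact (mul_eq_zero.1 e1).resolve_left h'
  · have e1 : a1 * (b1 * x1 + b2 * x2) = 0 := by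
      linear_combination b1 * hx + x2 * hdet
    exact (mul_eq_zero.1 e1).resolve_left h

/-- the normal vector of a difference -/
def nrm (x y : ℤ × ℤ) : ℤ × ℤ := (-(x - y).2, (x - y).1)

theorem nrm_ne {x y : ℤ × ℤ} (h : x ≠ y) : nrm x y ≠ 0 := by
  intro h0
  apply h
  have h1 := congrArg Prod.fst h0
  have h2 := congrArg Prod.snd h0
  simp only [nrm, Prod.fst_sub, Prod.snd_sub, Prod.fst_zero, Prod.snd_zero] at h1 h2
  exact Prod.ext (by omega) (by omega)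

theorem lf_nrm (x y : ℤ × ℤ) : lf (nrm x y) (x - y) = 0 := by
  simp only [lf, nrm]
  ring

theorem mem_box {K : ℕ} {v : ℤ × ℤ} : v ∈ box K ↔ (-(K : ℤ) ≤ v.1 ∧ v.1 ≤ K) ∧
    (-(K : ℤ) ≤ v.2 ∧ v.2 ≤ K) := by
  rw [box, mem_product, mem_Icc, mem_Icc]

theorem nrm_mem {K : ℕ} {x y : ℤ × ℤ} (hx : x ∈ box K) (hy : y ∈ box K) :
    nrm x y ∈ box (2 * K) := by
  rw [mem_box] at *
  simp only [nrm, Prod.fst_sub, Prod.snd_sub]
  push_cast
  omega

/-- a set of mass more than one has two elements -/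
theorem two_points {μ : ℤ × ℤ → ℝ} (hle : ∀ v, μ v ≤ 1) {S : Finset (ℤ × ℤ)}
    (h : 1 < ∑ v ∈ S, μ v) : ∃ x ∈ S, ∃ y ∈ S, x ≠ y := by
  have h1 : 1 < #S := by
    by_contra hn
    have h2 : ∑ v ∈ S, μ v ≤ #S • (1 : ℝ) := Finset.sum_le_card_nsmul _ _ _ fun v _ => hle v
    have h3 : (#S : ℝ) ≤ 1 := by exact_mod_cast not_lt.1 hn
    rw [nsmul_eq_mul, mul_one] at h2
    linarith
  obtain ⟨x, hx, y, hy, hne⟩ := Finset.one_lt_card.1 h1
  exact ⟨x, hx, y, hy, hne⟩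

/-- all lines have mass at most two -/
theorem line_all {K : ℕ} {μ : ℤ × ℤ → ℝ} (h01 : ∀ v, 0 ≤ μ v ∧ μ v ≤ 1)
    (hlin : ∀ u ∈ box (2 * K), u ≠ 0 → ∀ c : ℤ, ∑ v ∈ box K with lf u v = c, μ v ≤ 2)
    {u : ℤ × ℤ} (hu : u ≠ 0) (c : ℤ) {V : Finset (ℤ × ℤ)} (hV : V ⊆ box K) :
    ∑ v ∈ V with lf u v = c, μ v ≤ 2 := by
  by_contra hn
  rw [not_le] at hn
  obtain ⟨x, hx, y, hy, hne⟩ := two_points (fun v => (h01 v).2) (lt_trans one_lt_two hn)
  rw [mem_filter] at hx hy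
  have h1 := hlin (nrm x y) (nrm_mem (hV hx.1) (hV hy.1)) (nrm_ne hne) (lf (nrm x y) x)
  apply absurd h1
  rw [not_le]
  refine lt_of_lt_of_le hn ?_
  apply Finset.sum_le_sum_of_subset_of_nonneg
  · intro z hz
    rw [mem_filter] at hz ⊢
    refine ⟨hV hz.1, ?_⟩
    have h2 : lf u (x - y) = 0 := by rw [lf_sub, hx.2, hy.2, sub_self]
    have h3 : lf u (z - x) = 0 := by rw [lf_sub, hz.2, hx.2, sub_self]
    have h4 := par hu (sub_ne_zero.2 hne) h2 (lf_nrm x y) h3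
    rw [lf_sub] at h4
    omega
  · intro z _ _
    exact (h01 z).1

/-- the affine map -/
def ph (v₀ f₁ f₂ x : ℤ × ℤ) : ℤ × ℤ := v₀ + x.1 • f₁ + x.2 • f₂

theorem ph_fst (v₀ f₁ f₂ x : ℤ × ℤ) : (ph v₀ f₁ f₂ x).1 = v₀.1 + x.1 * f₁.1 + x.2 * f₂.1 := rfl

theorem ph_snd (v₀ f₁ f₂ x : ℤ × ℤ) : (ph v₀ f₁ f₂ x).2 = v₀.2 + x.1 * f₁.2 + x.2 * f₂.2 := rfl

theorem ph_inj {v₀ f₁ f₂ : ℤ × ℤ} (hD : f₁.1 * f₂.2 - f₁.2 * f₂.1 ≠ 0) :
    Function.Injective (ph v₀ f₁ f₂) := by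
  intro x y h
  have h1 := congrArg Prod.fst h
  have h2 := congrArg Prod.snd h
  rw [ph_fst, ph_fst] at h1
  rw [ph_snd, ph_snd] at h2
  have e1 : (f₁.1 * f₂.2 - f₁.2 * f₂.1) * (x.1 - y.1) = 0 := by
    linear_combination f₂.2 * h1 - f₂.1 * h2
  have e2 : (f₁.1 * f₂.2 - f₁.2 * f₂.1) * (x.2 - y.2) = 0 := by
    linear_combination f₁.1 * h2 - f₁.2 * h1
  have e3 := (mul_eq_zero.1 e1).resolve_left hD
  have e4 := (mul_eq_zero.1 e2).resolve_left hD
  exact Prod.ext (by omega) (by omega)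

/-- the form on the image -/
def tr (f₁ f₂ u : ℤ × ℤ) : ℤ × ℤ := (u.1 * f₂.2 - u.2 * f₁.2, -(u.1 * f₂.1) + u.2 * f₁.1)

theorem lf_tr (v₀ f₁ f₂ u x : ℤ × ℤ) : lf (tr f₁ f₂ u) (ph v₀ f₁ f₂ x) =
    lf (tr f₁ f₂ u) v₀ + (f₁.1 * f₂.2 - f₁.2 * f₂.1) * lf u x := by
  simp only [lf, tr, ph_fst, ph_snd]
  ring

theorem tr_ne {f₁ f₂ u : ℤ × ℤ} (hD : f₁.1 * f₂.2 - f₁.2 * f₂.1 ≠ 0) (hu : u ≠ 0) :
    tr f₁ f₂ u ≠ 0 := by
  intro h
  apply hu
  have h1 := congrArg Prod.fst h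
  have h2 := congrArg Prod.snd h
  simp only [tr, Prod.fst_zero, Prod.snd_zero] at h1 h2
  have e1 : (f₁.1 * f₂.2 - f₁.2 * f₂.1) * u.1 = 0 := by
    linear_combination f₁.1 * h1 + f₁.2 * h2
  have e2 : (f₁.1 * f₂.2 - f₁.2 * f₂.1) * u.2 = 0 := by
    linear_combination f₂.1 * h1 + f₂.2 * h2
  have e3 := (mul_eq_zero.1 e1).resolve_left hD
  have e4 := (mul_eq_zero.1 e2).resolve_left hD
  exact Prod.ext e3 e4

theorem inLat_ph {v₀ f₁ f₂ : ℤ × ℤ} (hD : f₁.1 * f₂.2 - f₁.2 * f₂.1 ≠ 0)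
    {S : Finset (ℤ × ℤ)} {w : ℤ × ℤ} (h : InLat S w) :
    InLat (S.image (ph v₀ f₁ f₂)) (ph v₀ f₁ f₂ w) := by
  obtain ⟨j, h1, h2, h3⟩ := h
  have hinj := ph_inj (v₀ := v₀) hD
  refine ⟨fun v => j (Function.invFun (ph v₀ f₁ f₂) v), ?_, ?_, ?_⟩
  · rw [Finset.sum_image fun x _ y _ h => hinj h]
    simp only [Function.leftInverse_invFun hinj _]
    exact h1
  · rw [Finset.sum_image fun x _ y _ h => hinj h]
    simp only [Function.leftInverse_invFun hinj _, ph_fst]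
    rw [← h2, ← h3]
    have e : ∀ x : ℤ × ℤ, j x * (v₀.1 + x.1 * f₁.1 + x.2 * f₂.1) =
        j x * v₀.1 + j x * x.1 * f₁.1 + j x * x.2 * f₂.1 := fun x => by ring
    simp only [e]
    rw [Finset.sum_add_distrib, Finset.sum_add_distrib, ← Finset.sum_mul, ← Finset.sum_mul,
      ← Finset.sum_mul, h1, one_mul]
  · rw [Finset.sum_image fun x _ y _ h => hinj h]
    simp only [Function.leftInverse_invFun hinj _, ph_snd]
    rw [← h2, ← h3]
    have e : ∀ x : ℤ × ℤ, j x * (v₀.2 + x.1 * f₁.2 + x.2 * f₂.2) =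
        j x * v₀.2 + j x * x.1 * f₁.2 + j x * x.2 * f₂.2 := fun x => by ring
    simp only [e]
    rw [Finset.sum_add_distrib, Finset.sum_add_distrib, ← Finset.sum_mul, ← Finset.sum_mul,
      ← Finset.sum_mul, h1, one_mul]

theorem avg_ph {v₀ f₁ f₂ : ℤ × ℤ} (hD : f₁.1 * f₂.2 - f₁.2 * f₂.1 ≠ 0) {μ : ℤ × ℤ → ℝ} {θ : ℝ}
    {S : Finset (ℤ × ℤ)} {w : ℤ × ℤ} (h : Avg (fun x => μ (ph v₀ f₁ f₂ x)) S θ w) :
    Avg μ (S.image (ph v₀ f₁ f₂)) θ (ph v₀ f₁ f₂ w) := by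
  obtain ⟨k, h0, h1, h2, h3⟩ := h
  have hinj := ph_inj (v₀ := v₀) hD
  refine ⟨fun v => k (Function.invFun (ph v₀ f₁ f₂) v), ?_, ?_, ?_, ?_⟩
  · intro v hv
    obtain ⟨x, hx, rfl⟩ := mem_image.1 hv
    simp only [Function.leftInverse_invFun hinj _]
    exact h0 x hx
  · rw [Finset.sum_image fun x _ y _ h => hinj h]
    simp only [Function.leftInverse_invFun hinj _]
    exact h1
  · rw [Finset.sum_image fun x _ y _ h => hinj h]
    simp only [Function.leftInverse_invFun hinj _, ph_fst]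
    push_cast
    rw [← h2, ← h3]
    have e : ∀ x : ℤ × ℤ, k x * ((v₀.1 : ℝ) + x.1 * f₁.1 + x.2 * f₂.1) =
        k x * v₀.1 + k x * x.1 * f₁.1 + k x * x.2 * f₂.1 := fun x => by ring
    simp only [e]
    rw [Finset.sum_add_distrib, Finset.sum_add_distrib, ← Finset.sum_mul, ← Finset.sum_mul,
      ← Finset.sum_mul, h1, one_mul]
  · rw [Finset.sum_image fun x _ y _ h => hinj h]
    simp only [Function.leftInverse_invFun hinj _, ph_snd]
    push_cast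
    rw [← h2, ← h3]
    have e : ∀ x : ℤ × ℤ, k x * ((v₀.2 : ℝ) + x.1 * f₁.2 + x.2 * f₂.2) =
        k x * v₀.2 + k x * x.1 * f₁.2 + k x * x.2 * f₂.2 := fun x => by ring
    simp only [e]
    rw [Finset.sum_add_distrib, Finset.sum_add_distrib, ← Finset.sum_mul, ← Finset.sum_mul,
      ← Finset.sum_mul, h1, one_mul]

end PLZM

open PLZM in
theorem planar_zero {K : ℕ} {μ : ℤ × ℤ → ℝ} (h01 : ∀ v, 0 ≤ μ v ∧ μ v ≤ 1)
    (hsupp : ∀ v, v ∉ box K → μ v = 0) (htot : 4 - 1 / 10 ^ 6 ≤ ∑ v ∈ box K, μ v)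
    (hlin : ∀ u ∈ box (2 * K), u ≠ 0 → ∀ c : ℤ, ∑ v ∈ box K with lf u v = c, μ v ≤ 2)
    (hfree : ∀ θ : ℝ, 0 < θ → Free μ θ) :
    ∃ (u : ℤ × ℤ) (c₀ c₁ : ℤ), u ≠ 0 ∧ u ∈ box (2 * K) ∧ c₀ ≠ c₁ ∧
      4 - 1 / 250 ≤ ∑ v ∈ box K with lf u v = c₀ ∨ lf u v = c₁, μ v := by
  classical
  set V : Finset (ℤ × ℤ) := {v ∈ box K | 0 < μ v} with hVdef
  have hVbox : V ⊆ box K := filter_subset _ _
  have hmemV : ∀ v, v ∈ V ↔ 0 < μ v := by
    intro v
    rw [hVdef, mem_filter]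
    refine ⟨fun h => h.2, fun h => ⟨?_, h⟩⟩
    by_contra hn
    rw [hsupp v hn] at h
    exact lt_irrefl _ h
  have hVsum : ∑ v ∈ V, μ v = ∑ v ∈ box K, μ v := by
    refine Finset.sum_subset hVbox ?_
    intro v _ hv
    rw [hmemV] at hv
    exact le_antisymm (not_lt.1 hv) (h01 v).1
  have hVtot : 4 - 1 / 10 ^ 6 ≤ ∑ v ∈ V, μ v := by rwa [hVsum]
  obtain ⟨v₀, hv₀⟩ : V.Nonempty := by
    rw [Finset.nonempty_iff_ne_empty]
    intro h
    rw [h, Finset.sum_empty] at hVtot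
    norm_num at hVtot
  have hV : ∀ u : ℤ × ℤ, u ≠ 0 → ∃ v ∈ V, lf u v ≠ lf u v₀ := by
    intro u hu
    by_contra hn
    push Not at hn
    have h1 := line_all h01 hlin hu (lf u v₀) hVbox
    rw [Finset.filter_true_of_mem hn] at h1
    norm_num at hVtot
    linarith
  obtain ⟨f₁, f₂, hD, V', hVV', hgen⟩ := lat_change hv₀ hV
  have hVV : V = V'.image (ph v₀ f₁ f₂) := hVV'
  have hinj := ph_inj (v₀ := v₀) hD
  have hmem : ∀ x, x ∈ V' ↔ ph v₀ f₁ f₂ x ∈ V := by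
    intro x
    rw [hVV]
    exact (Function.Injective.mem_finset_image hinj).symm
  have hsum : ∀ (P : ℤ × ℤ → Prop) (P' : ℤ × ℤ → Prop) [DecidablePred P] [DecidablePred P'],
      (∀ x, P' x ↔ P (ph v₀ f₁ f₂ x)) →
      ∑ x ∈ V' with P' x, μ (ph v₀ f₁ f₂ x) = ∑ v ∈ V with P v, μ v := by
    intro P P' _ _ hP
    rw [hVV, Finset.filter_image, Finset.sum_image fun x _ y _ h => hinj h]
    refine Finset.sum_congr ?_ fun _ _ => rfl
    ext x
    simp only [mem_filter, hP]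
  have hpgi : PGI (fun x => μ (ph v₀ f₁ f₂ x)) V' := by
    refine pgin ?_ ?_ ?_ ?_ ?_ ?_ hgen
    · intro x hx
      exact (hmemV _).1 ((hmem x).1 hx)
    · intro x
      exact (h01 _).2
    · intro x hx
      rw [hmem, hmemV] at hx
      exact le_antisymm (not_lt.1 hx) (h01 _).1
    · have h1 : ∑ x ∈ V', μ (ph v₀ f₁ f₂ x) = ∑ v ∈ V, μ v := by
        rw [hVV, Finset.sum_image fun x _ y _ h => hinj h]
      rw [h1]
      exact hVtot
    · intro u hu c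
      rw [hsum (fun v => lf (tr f₁ f₂ u) v = lf (tr f₁ f₂ u) v₀ +
        (f₁.1 * f₂.2 - f₁.2 * f₂.1) * c) (fun x => lf u x = c)]
      · exact line_all h01 hlin (tr_ne hD hu) _ hVbox
      · intro x
        rw [lf_tr]
        constructor
        · intro h
          rw [h]
        · intro h
          have h2 := add_left_cancel h
          exact mul_left_cancel₀ hD h2
    · intro θ hθ S w hS hA
      exact hfree θ hθ _ _ (inLat_ph hD hS) (avg_ph hD hA)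
  obtain ⟨u', c, hu', hmass⟩ := pg hpgi
  set D := f₁.1 * f₂.2 - f₁.2 * f₂.1 with hDdef
  set u := tr f₁ f₂ u' with hudef
  have hu : u ≠ 0 := tr_ne hD hu'
  set e₀ := lf u v₀ + D * c with he₀
  set e₁ := lf u v₀ + D * (c + 1) with he₁
  have hee : e₀ ≠ e₁ := by
    intro h
    apply hD
    rw [he₀, he₁] at h
    linear_combination -h
  rw [hsum (fun v => lf u v = e₀ ∨ lf u v = e₁) (fun x => lf u' x = c ∨ lf u' x = c + 1)] at hmass
  swap
  · intro x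
    rw [hudef, lf_tr, ← hudef, ← hDdef, he₀, he₁]
    constructor
    · rintro (h | h)
      · left; rw [h]
      · right; rw [h]
    · rintro (h | h)
      · left; exact mul_left_cancel₀ hD (add_left_cancel h)
      · right; exact mul_left_cancel₀ hD (add_left_cancel h)
  have hsplit : ∑ v ∈ V with lf u v = e₀ ∨ lf u v = e₁, μ v =
      ∑ v ∈ V with lf u v = e₀, μ v + ∑ v ∈ V with lf u v = e₁, μ v := by
    rw [Finset.filter_or, Finset.sum_union]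
    rw [Finset.disjoint_filter]
    intro v _ h1 h2
    exact hee (h1.symm.trans h2)
  have hb0 := line_all h01 hlin hu e₀ hVbox
  have hb1 := line_all h01 hlin hu e₁ hVbox
  rw [hsplit] at hmass
  have hm0 : 1 < ∑ v ∈ V with lf u v = e₀, μ v := by
    norm_num at hmass
    linarith
  have hm1 : 1 < ∑ v ∈ V with lf u v = e₁, μ v := by
    norm_num at hmass
    linarith
  obtain ⟨x, hx, y, hy, hxy⟩ := two_points (fun v => (h01 v).2) hm0
  obtain ⟨z, hz, -, -, -⟩ := two_points (fun v => (h01 v).2) hm1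
  rw [mem_filter] at hx hy hz
  have h2 : lf u (x - y) = 0 := by rw [lf_sub, hx.2, hy.2, sub_self]
  have hnn := nrm_ne hxy
  refine ⟨nrm x y, lf (nrm x y) x, lf (nrm x y) z, hnn, nrm_mem (hVbox hx.1) (hVbox hy.1), ?_, ?_⟩
  · intro h
    apply hee
    have h3 : lf (nrm x y) (x - z) = 0 := by rw [lf_sub, h, sub_self]
    have h4 := par hnn (sub_ne_zero.2 hxy) (lf_nrm x y) h2 h3
    rw [lf_sub, hx.2, hz.2] at h4
    omega
  · rw [← hsplit] at hmass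
    refine hmass.trans ?_
    apply Finset.sum_le_sum_of_subset_of_nonneg
    · intro v hv
      rw [mem_filter] at hv ⊢
      refine ⟨hVbox hv.1, ?_⟩
      rcases hv.2 with h | h
      · left
        have h3 : lf u (v - x) = 0 := by rw [lf_sub, h, hx.2, sub_self]
        have h4 := par hu (sub_ne_zero.2 hxy) h2 (lf_nrm x y) h3
        rw [lf_sub] at h4
        omega
      · right
        have h3 : lf u (v - z) = 0 := by rw [lf_sub, h, hz.2, sub_self]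
        have h4 := par hu (sub_ne_zero.2 hxy) h2 (lf_nrm x y) h3
        rw [lf_sub] at h4
        omega
    · intro v _ _
      exact (h01 v).1

end Pool.Agent.Lib.MPa7239a.R3X
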