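import Pool.Agent.Lib.MP_a7239a_co.R3X.Defs
import Pool.Agent.Lib.MP_a7239a_co.R3X.PLZ

set_option autoImplicit false

open Finset Filter Topology

namespace Pool.Agent.Lib.MPa7239a.R3X

namespace PLANM

theorem free_lim {μ : ℤ × ℤ → ℝ} {m : ℕ → ℤ × ℤ → ℝ} {θ : ℕ → ℝ}
    (hm : ∀ v, Tendsto (fun n => m n v) atTop (𝓝 (μ v))) (hθ : Tendsto θ atTop (𝓝 0))
    (hf : ∀ n, Free (m n) (θ n)) : ∀ t : ℝ, 0 < t → Free μ t := by
  rintro t ht S w hl ⟨k, h1, h2, h3, h4⟩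
  have e1 : ∀ᶠ n in atTop, ∀ v ∈ S, μ v - t / 2 < m n v := by
    rw [Filter.eventually_all_finset]
    intro v _
    exact (hm v).eventually (lt_mem_nhds (by linarith))
  have e2 : ∀ᶠ n in atTop, θ n < t / 2 := hθ.eventually (gt_mem_nhds (by linarith))
  obtain ⟨n, n1, n2⟩ := (e1.and e2).exists
  refine hf n S w hl ⟨k, fun v hv => ?_, h2, h3, h4⟩
  have := h1 v hv
  have := n1 v hv
  constructor <;> linarith

theorem sum_lim {μ : ℤ × ℤ → ℝ} {m : ℕ → ℤ × ℤ → ℝ}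
    (hm : ∀ v, Tendsto (fun n => m n v) atTop (𝓝 (μ v))) (S : Finset (ℤ × ℤ)) :
    Tendsto (fun n => ∑ v ∈ S, m n v) atTop (𝓝 (∑ v ∈ S, μ v)) :=
  tendsto_finsetSum _ fun v _ => hm v

/-- a sequence in the unit cube has a convergent subsequence -/
theorem subseq (m : ℕ → ℤ × ℤ → ℝ) (h : ∀ n v, 0 ≤ m n v ∧ m n v ≤ 1) :
    ∃ (μ : ℤ × ℤ → ℝ) (φ : ℕ → ℕ), StrictMono φ ∧
      ∀ v, Tendsto (fun n => m (φ n) v) atTop (𝓝 (μ v)) := by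
  have hc : IsCompact (Set.pi Set.univ (fun _ : ℤ × ℤ => Set.Icc (0 : ℝ) 1)) :=
    isCompact_univ_pi fun _ => isCompact_Icc
  obtain ⟨μ, -, φ, hφ, ht⟩ := hc.tendsto_subseq (x := m) (fun n v _ => h n v)
  exact ⟨μ, φ, hφ, fun v => (tendsto_pi_nhds.mp ht) v⟩

end PLANM

theorem planar (K : ℕ) : ∃ θ : ℝ, 0 < θ ∧ ∀ μ : ℤ × ℤ → ℝ, (∀ v, 0 ≤ μ v ∧ μ v ≤ 1) →
    (∀ v, v ∉ box K → μ v = 0) → 4 - 1 / 10 ^ 6 ≤ ∑ v ∈ box K, μ v →
    (∀ u ∈ box (2 * K), u ≠ 0 → ∀ c : ℤ, ∑ v ∈ box K with lf u v = c, μ v ≤ 2) → Free μ θ →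
    ∃ (u : ℤ × ℤ) (c₀ c₁ : ℤ), u ≠ 0 ∧ u ∈ box (2 * K) ∧ c₀ ≠ c₁ ∧
      2 - 1 / 240 ≤ ∑ v ∈ box K with lf u v = c₀, μ v ∧
      2 - 1 / 240 ≤ ∑ v ∈ box K with lf u v = c₁, μ v := by
  by_contra hcon
  push Not at hcon
  have hθ : ∀ n : ℕ, (0 : ℝ) < 1 / ((n : ℝ) + 1) := fun n => by positivity
  choose m h01 hsupp htot hlin hfree hno using fun n : ℕ => hcon (1 / ((n : ℝ) + 1)) (hθ n)
  obtain ⟨μ, φ, hφ, hμ⟩ := PLANM.subseq m h01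
  have hθ0 : Tendsto (fun n : ℕ => 1 / (((φ n : ℕ) : ℝ) + 1)) atTop (𝓝 0) :=
    tendsto_one_div_add_atTop_nhds_zero_nat.comp hφ.tendsto_atTop
  obtain ⟨u, c0, c1, hu, hub, hc, hs⟩ := planar_zero (K := K) (μ := μ)
    (fun v => ⟨ge_of_tendsto' (hμ v) fun n => (h01 _ v).1,
      le_of_tendsto' (hμ v) fun n => (h01 _ v).2⟩)
    (fun v hv => tendsto_nhds_unique (hμ v) (by
      simp only [hsupp _ v hv]
      exact tendsto_const_nhds))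
    (ge_of_tendsto' (PLANM.sum_lim hμ _) fun n => htot _)
    (fun u hu hu0 c => le_of_tendsto' (PLANM.sum_lim hμ _) fun n => hlin _ u hu hu0 c)
    (PLANM.free_lim hμ hθ0 fun n => hfree _)
  have hl := PLANM.sum_lim hμ ({v ∈ box K | lf u v = c0 ∨ lf u v = c1})
  obtain ⟨n, hn⟩ := (hl.eventually (lt_mem_nhds (show (4 : ℝ) - 1 / 240 <
    ∑ v ∈ box K with lf u v = c0 ∨ lf u v = c1, μ v by linarith))).exists
  have hsplit : ∑ v ∈ box K with lf u v = c0 ∨ lf u v = c1, m (φ n) v =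
      ∑ v ∈ box K with lf u v = c0, m (φ n) v + ∑ v ∈ box K with lf u v = c1, m (φ n) v := by
    rw [Finset.filter_or, Finset.sum_union]
    exact Finset.disjoint_filter.mpr fun v _ h1 h2 => hc (h1.symm.trans h2)
  have l0 := hlin (φ n) u hub hu c0
  have l1 := hlin (φ n) u hub hu c1
  have := hno (φ n) u c0 c1 hu hub hc (by linarith)
  linarith

end Pool.Agent.Lib.MPa7239a.R3X
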