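import Pool.Agent.Lib.MP_a7239a_co.R3X.Defs

/-!
# R3X, module HALF: every point is on the boundary of a half plane of mass at most one
-/

open Finset

namespace Pool.Agent.Lib.MPa7239a.R3X

namespace HALFM

/-- first form -/
def fB (b1 b2 : ℝ) (x : ℤ × ℤ) : ℝ := b1 * x.1 + b2 * x.2

/-- second form -/
def fA (b1 b2 : ℝ) (x : ℤ × ℤ) : ℝ := -b2 * x.1 + b1 * x.2

theorem fB_sub (b1 b2 : ℝ) (x y : ℤ × ℤ) : fB b1 b2 (x - y) = fB b1 b2 x - fB b1 b2 y := by
  simp only [fB, Prod.fst_sub, Prod.snd_sub, Int.cast_sub]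
  ring

theorem fA_sub (b1 b2 : ℝ) (x y : ℤ × ℤ) : fA b1 b2 (x - y) = fA b1 b2 x - fA b1 b2 y := by
  simp only [fA, Prod.fst_sub, Prod.snd_sub, Int.cast_sub]
  ring

theorem sq_pos {b1 b2 : ℝ} (hb : b1 ≠ 0 ∨ b2 ≠ 0) : 0 < b1 ^ 2 + b2 ^ 2 := by
  rcases hb with h | h
  · have := pow_pos (abs_pos.mpr h) 2
    rw [sq_abs] at this
    nlinarith [sq_nonneg b2]
  · have := pow_pos (abs_pos.mpr h) 2
    rw [sq_abs] at this
    nlinarith [sq_nonneg b1]

theorem lf_eq (b1 b2 : ℝ) (x u : ℤ × ℤ) :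
    (b1 ^ 2 + b2 ^ 2) * (lf u x : ℝ) = fA b1 b2 x * fA b1 b2 u + fB b1 b2 x * fB b1 b2 u := by
  simp only [lf, fA, fB, Int.cast_add, Int.cast_mul]
  ring

theorem eq_zero_of {b1 b2 : ℝ} (hb : b1 ≠ 0 ∨ b2 ≠ 0) {x : ℤ × ℤ} (hB : fB b1 b2 x = 0)
    (hA : fA b1 b2 x = 0) : x = 0 := by
  have h := lf_eq b1 b2 x x
  rw [hB, hA] at h
  have h1 : (lf x x : ℝ) = 0 := by
    have := sq_pos hb
    rcases mul_eq_zero.mp (h.trans (by ring)) with h | h
    · linarith
    · exact h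
  have h2 : lf x x = 0 := by exact_mod_cast h1
  simp only [lf] at h2
  have h3 : x.1 = 0 := by nlinarith [mul_self_nonneg x.1, mul_self_nonneg x.2]
  have h4 : x.2 = 0 := by nlinarith [mul_self_nonneg x.1, mul_self_nonneg x.2]
  exact Prod.ext h3 h4

theorem par_of {b1 b2 : ℝ} (hb : b1 ≠ 0 ∨ b2 ≠ 0) {x u : ℤ × ℤ} (hx : fB b1 b2 x = 0)
    (hu : fB b1 b2 u = 0) : x.1 * u.2 = x.2 * u.1 := by
  simp only [fB] at hx hu
  have h1 : b1 * ((x.1 : ℝ) * u.2 - x.2 * u.1) = 0 := by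
    linear_combination (u.2 : ℝ) * hx - (x.2 : ℝ) * hu
  have h2 : b2 * ((x.1 : ℝ) * u.2 - x.2 * u.1) = 0 := by
    linear_combination (x.1 : ℝ) * hu - (u.1 : ℝ) * hx
  have h3 : (x.1 : ℝ) * u.2 - x.2 * u.1 = 0 := by
    rcases hb with h | h
    · exact (mul_eq_zero.mp h1).resolve_left h
    · exact (mul_eq_zero.mp h2).resolve_left h
  have h4 : (x.1 : ℝ) * u.2 = x.2 * u.1 := by linarith
  exact_mod_cast h4

theorem lf_nonneg {b1 b2 : ℝ} (hb : b1 ≠ 0 ∨ b2 ≠ 0) {x u : ℤ × ℤ} (hx : fB b1 b2 x = 0)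
    (h : 0 ≤ fA b1 b2 x * fA b1 b2 u) : 0 ≤ lf u x := by
  have h1 := lf_eq b1 b2 x u
  rw [hx, zero_mul, add_zero] at h1
  have h2 : 0 ≤ (lf u x : ℝ) := by
    by_contra hc
    have := mul_neg_of_pos_of_neg (sq_pos hb) (not_le.mp hc)
    linarith
  exact_mod_cast h2

theorem lf_nonpos {b1 b2 : ℝ} (hb : b1 ≠ 0 ∨ b2 ≠ 0) {x u : ℤ × ℤ} (hx : fB b1 b2 x = 0)
    (h : fA b1 b2 x * fA b1 b2 u ≤ 0) : lf u x ≤ 0 := by
  have h1 := lf_eq b1 b2 x u
  rw [hx, zero_mul, add_zero] at h1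
  have h2 : (lf u x : ℝ) ≤ 0 := by
    by_contra hc
    have := mul_pos (sq_pos hb) (not_le.mp hc)
    linarith
  exact_mod_cast h2

/-- one of the two closed rays of a line of `V` has mass at most one -/
theorem rays {μ : ℤ × ℤ → ℝ} {V : Finset (ℤ × ℤ)} (h : PGI μ V) (w : ℤ × ℤ) {b1 b2 : ℝ}
    (hb : b1 ≠ 0 ∨ b2 ≠ 0) :
    ∑ v ∈ V with fB b1 b2 (v - w) = 0 ∧ 0 ≤ fA b1 b2 (v - w), μ v ≤ 1 ∨
      ∑ v ∈ V with fB b1 b2 (v - w) = 0 ∧ fA b1 b2 (v - w) ≤ 0, μ v ≤ 1 := by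
  classical
  by_cases hex : ∃ v₀ ∈ V, fB b1 b2 (v₀ - w) = 0 ∧ v₀ ≠ w
  · obtain ⟨v₀, hv₀, hB₀, hne⟩ := hex
    set u := v₀ - w with hu
    have hu0 : u ≠ 0 := sub_ne_zero.mpr hne
    have hAu : fA b1 b2 u ≠ 0 := fun h0 => hu0 (eq_zero_of hb hB₀ h0)
    by_cases hw : w ∈ V
    · have key := h.ray w hw u hu0
      rcases lt_or_gt_of_ne hAu with hlt | hgt
      · rcases key with k | k
        · right
          refine le_trans (sum_le_sum_of_subset_of_nonneg ?_ fun v hv _ => ?_) k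
          · intro v hv
            rw [mem_filter] at hv ⊢
            exact ⟨hv.1, par_of hb hv.2.1 hB₀, lf_nonneg hb hv.2.1 (by nlinarith [hv.2.2])⟩
          · exact (h.pos v (mem_filter.mp hv).1).le
        · left
          refine le_trans (sum_le_sum_of_subset_of_nonneg ?_ fun v hv _ => ?_) k
          · intro v hv
            rw [mem_filter] at hv ⊢
            exact ⟨hv.1, par_of hb hv.2.1 hB₀, lf_nonpos hb hv.2.1 (by nlinarith [hv.2.2])⟩
          · exact (h.pos v (mem_filter.mp hv).1).le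
      · rcases key with k | k
        · left
          refine le_trans (sum_le_sum_of_subset_of_nonneg ?_ fun v hv _ => ?_) k
          · intro v hv
            rw [mem_filter] at hv ⊢
            exact ⟨hv.1, par_of hb hv.2.1 hB₀, lf_nonneg hb hv.2.1 (by nlinarith [hv.2.2])⟩
          · exact (h.pos v (mem_filter.mp hv).1).le
        · right
          refine le_trans (sum_le_sum_of_subset_of_nonneg ?_ fun v hv _ => ?_) k
          · intro v hv
            rw [mem_filter] at hv ⊢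
            exact ⟨hv.1, par_of hb hv.2.1 hB₀, lf_nonpos hb hv.2.1 (by nlinarith [hv.2.2])⟩
          · exact (h.pos v (mem_filter.mp hv).1).le
    · have hn : ((u.2, -u.1) : ℤ × ℤ) ≠ 0 := by
        intro h0
        have e1 : u.2 = 0 := congrArg Prod.fst h0
        have e2 : -u.1 = 0 := congrArg Prod.snd h0
        exact hu0 (Prod.ext (by simpa using e2) e1)
      have hl := h.lin (u.2, -u.1) hn (lf (u.2, -u.1) w)
      have hdisj : Disjoint ({v ∈ V | fB b1 b2 (v - w) = 0 ∧ 0 ≤ fA b1 b2 (v - w)})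
          ({v ∈ V | fB b1 b2 (v - w) = 0 ∧ fA b1 b2 (v - w) ≤ 0}) := by
        rw [Finset.disjoint_left]
        intro v hv hv'
        rw [mem_filter] at hv hv'
        have h0 := eq_zero_of hb hv.2.1 (le_antisymm hv'.2.2 hv.2.2)
        rw [sub_eq_zero] at h0
        exact hw (h0 ▸ hv.1)
      have hle : ∑ v ∈ V with fB b1 b2 (v - w) = 0 ∧ 0 ≤ fA b1 b2 (v - w), μ v +
          ∑ v ∈ V with fB b1 b2 (v - w) = 0 ∧ fA b1 b2 (v - w) ≤ 0, μ v ≤ 2 := by
        rw [← sum_union hdisj]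
        refine le_trans (sum_le_sum_of_subset_of_nonneg ?_ fun v hv _ => ?_) hl
        · intro v hv
          have hv' : v ∈ V ∧ fB b1 b2 (v - w) = 0 := by
            rcases mem_union.mp hv with h1 | h1
            · exact ⟨(mem_filter.mp h1).1, (mem_filter.mp h1).2.1⟩
            · exact ⟨(mem_filter.mp h1).1, (mem_filter.mp h1).2.1⟩
          rw [mem_filter]
          refine ⟨hv'.1, ?_⟩
          have hp := par_of hb hv'.2 hB₀
          simp only [Prod.fst_sub, Prod.snd_sub] at hp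
          simp only [lf]
          linear_combination hp
        · exact (h.pos v (mem_filter.mp hv).1).le
      by_contra hc
      rw [not_or, not_le, not_le] at hc
      linarith [hc.1, hc.2]
  · left
    have hsub : ({v ∈ V | fB b1 b2 (v - w) = 0 ∧ 0 ≤ fA b1 b2 (v - w)} : Finset (ℤ × ℤ)) ⊆ {w} := by
      intro v hv
      rw [mem_filter] at hv
      rw [mem_singleton]
      by_contra hc
      exact hex ⟨v, hv.1, hv.2.1, hc⟩
    have hnn : ∀ v, 0 ≤ μ v := by
      intro v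
      by_cases hv : v ∈ V
      · exact (h.pos v hv).le
      · rw [h.zero v hv]
    refine le_trans (sum_le_sum_of_subset_of_nonneg hsub fun v _ _ => hnn v) ?_
    rw [sum_singleton]
    exact h.le1 w

end HALFM

open HALFM in
theorem half {μ : ℤ × ℤ → ℝ} {V : Finset (ℤ × ℤ)} (h : PGI μ V) (w : ℤ × ℤ) :
    ∃ (o : Lx) (s F : ℝ), Cap μ V w o s F := by
  classical
  obtain ⟨b1, b2, s, hb, hc⟩ := h.cert w
  have hterm : ∀ v ∈ V, 0 ≤ μ v * max 0 (b1 * v.1 + b2 * v.2 + s) := fun v hv =>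
    mul_nonneg (h.pos v hv).le (le_max_left _ _)
  have hF0 : 0 ≤ b1 * w.1 + b2 * w.2 + s := (sum_nonneg hterm).trans hc
  have hsq := sq_pos hb
  rcases hF0.lt_or_eq with hpos | hzero
  · refine ⟨⟨b1, b2, -b2, b1, by nlinarith⟩, s, b1 * w.1 + b2 * w.2 + s, ?_⟩
    refine ⟨hc, le_rfl, hF0, ?_⟩
    intro T hT hle
    have hB : ∀ v ∈ T, b1 * (w.1 : ℝ) + b2 * w.2 ≤ b1 * v.1 + b2 * v.2 := by
      intro v hv
      rcases hle v hv with h1 | ⟨h1, -⟩
      · exact h1.le
      · exact h1.le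
    have h1 : (b1 * w.1 + b2 * w.2 + s) * ∑ v ∈ T, μ v ≤ b1 * w.1 + b2 * w.2 + s := by
      calc (b1 * w.1 + b2 * w.2 + s) * ∑ v ∈ T, μ v
          = ∑ v ∈ T, μ v * (b1 * w.1 + b2 * w.2 + s) := by
            rw [mul_sum]
            exact sum_congr rfl fun v _ => mul_comm _ _
        _ ≤ ∑ v ∈ T, μ v * max 0 (b1 * v.1 + b2 * v.2 + s) := by
            refine sum_le_sum fun v hv => mul_le_mul_of_nonneg_left ?_ (h.pos v (hT hv)).le
            exact le_trans (by linarith [hB v hv]) (le_max_right _ _)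
        _ ≤ ∑ v ∈ V, μ v * max 0 (b1 * v.1 + b2 * v.2 + s) :=
            sum_le_sum_of_subset_of_nonneg hT fun v hv _ => hterm v hv
        _ ≤ _ := hc
    by_contra hcon
    rw [not_le] at hcon
    nlinarith
  · have hall : ∀ v ∈ V, b1 * (v.1 : ℝ) + b2 * v.2 + s ≤ 0 := by
      intro v hv
      have h1 : ∑ v ∈ V, μ v * max 0 (b1 * v.1 + b2 * v.2 + s) = 0 :=
        le_antisymm (hc.trans hzero.symm.le) (sum_nonneg hterm)
      have h2 := (sum_eq_zero_iff_of_nonneg hterm).mp h1 v hv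
      rcases mul_eq_zero.mp h2 with h3 | h3
      · exact absurd h3 (h.pos v hv).ne'
      · rw [← h3]; exact le_max_right _ _
    have key : ∀ σ : ℝ, σ ≠ 0 →
        (∑ v ∈ V with fB b1 b2 (v - w) = 0 ∧ 0 ≤ σ * fA b1 b2 (v - w), μ v ≤ 1) →
        ∃ (o : Lx) (s F : ℝ), Cap μ V w o s F := by
      intro σ hσ hmass
      refine ⟨⟨b1, b2, σ * (-b2), σ * b1, ?_⟩, s, 0, ?_⟩
      · have e : b1 * (σ * b1) - b2 * (σ * (-b2)) = σ * (b1 ^ 2 + b2 ^ 2) := by ring
        rw [e]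
        exact mul_ne_zero hσ hsq.ne'
      · refine ⟨hc.trans hzero.symm.le, hzero.le, le_rfl, ?_⟩
        intro T hT hle
        refine le_trans (sum_le_sum_of_subset_of_nonneg ?_ fun v hv _ =>
          (h.pos v (mem_filter.mp hv).1).le) hmass
        intro v hv
        rw [mem_filter]
        have hv0 := hall v (hT hv)
        have hle' := hle v hv
        simp only [Lx.le, Lx.B, Lx.A] at hle'
        rcases hle' with h1 | ⟨h1, h2⟩
        · exfalso
          linarith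
        · refine ⟨hT hv, ?_, ?_⟩
          · rw [fB_sub]
            simp only [fB]
            linarith
          · rw [fA_sub]
            simp only [fA]
            linarith
    rcases rays h w hb with hr | hr
    · refine key 1 one_ne_zero ?_
      simpa using hr
    · refine key (-1) (by norm_num) ?_
      simpa using hr

end Pool.Agent.Lib.MPa7239a.R3X
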