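import Pool.Agent.Lib.MP_a7239a_co.R3X.LXO

/-!
# R3X, module SQR: four half planes with private minima are the corners of a unit square
-/

set_option autoImplicit false

open Finset

namespace Pool.Agent.Lib.MPa7239a.R3X

namespace SQRM

/-- a lattice point in the hull of the `w i` is one of them, with trivial coefficients -/
theorem key {K : ℕ} {w : Fin 4 → ℤ × ℤ} {o : Fin 4 → Lx} (hw : ∀ i, w i ∈ box K)
    (hcov : ∀ x ∈ box K, ∃ i, (o i).le (w i) x) (hpriv : ∀ i j, i ≠ j → ¬ (o i).le (w i) (w j))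
    (l : Fin 4 → ℝ) (x : ℤ × ℤ) (hl : ∀ i, 0 ≤ l i) (h1 : ∑ i, l i = 1)
    (hx1 : ∑ i, l i * ((w i).1 : ℝ) = x.1) (hx2 : ∑ i, l i * ((w i).2 : ℝ) = x.2) :
    ∃ k, x = w k ∧ ∀ i, i ≠ k → l i = 0 := by
  have hb : ∀ i, (-(K : ℤ) ≤ (w i).1 ∧ (w i).1 ≤ K) ∧ (-(K : ℤ) ≤ (w i).2 ∧ (w i).2 ≤ K) := by
    intro i
    have h := hw i
    rw [box, mem_product, mem_Icc, mem_Icc] at h
    exact h
  have hgen : ∀ (f : Fin 4 → ℤ) (y : ℤ), (∀ i, -(K : ℤ) ≤ f i ∧ f i ≤ K) →
      ∑ i, l i * (f i : ℝ) = y → -(K : ℤ) ≤ y ∧ y ≤ K := by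
    intro f y hf hy
    have h2 : ∑ i, l i * (f i : ℝ) ≤ ∑ i, l i * (K : ℝ) := by
      apply sum_le_sum
      intro i _
      apply mul_le_mul_of_nonneg_left _ (hl i)
      exact_mod_cast (hf i).2
    have h3 : ∑ i, l i * (-(K : ℝ)) ≤ ∑ i, l i * (f i : ℝ) := by
      apply sum_le_sum
      intro i _
      apply mul_le_mul_of_nonneg_left _ (hl i)
      have := (hf i).1
      exact_mod_cast this
    rw [← sum_mul, h1, one_mul, hy] at h2
    rw [← sum_mul, h1, one_mul, hy] at h3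
    constructor
    · exact_mod_cast h3
    · exact_mod_cast h2
  have hxb : x ∈ box K := by
    rw [box, mem_product, mem_Icc, mem_Icc]
    exact ⟨hgen _ _ (fun i => (hb i).1) hx1, hgen _ _ (fun i => (hb i).2) hx2⟩
  obtain ⟨k, hk⟩ := hcov x hxb
  have hz : ∀ i, (o k).le (w i) (w k) := by
    intro i
    rcases eq_or_ne k i with rfl | h
    · exact Lx.refl _ _
    · exact ((o k).total (w i) (w k)).resolve_right (hpriv k i h)
  obtain ⟨h4, h5⟩ := Lx.hull (o k) univ (z := w) (l := l) (x := x) (w := w k) (fun i _ => hl i) h1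
    hx1 hx2 (fun i _ => hz i) hk
  refine ⟨k, h4, fun i hi => ?_⟩
  by_contra h
  have h6 := h5 i (mem_univ i) h
  apply hpriv k i hi.symm
  rw [h6]
  exact Lx.refl _ _

theorem inj {w : Fin 4 → ℤ × ℤ} {o : Fin 4 → Lx} (hpriv : ∀ i j, i ≠ j → ¬ (o i).le (w i) (w j)) :
    Function.Injective w := by
  intro i j h
  by_contra hne
  apply hpriv i j hne
  rw [h]
  exact Lx.refl _ _

/-- affine relations -/
def Rel (w : Fin 4 → ℤ × ℤ) (l : Fin 4 → ℝ) : Prop :=
  ∑ i, l i = 0 ∧ ∑ i, l i * ((w i).1 : ℝ) = 0 ∧ ∑ i, l i * ((w i).2 : ℝ) = 0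

theorem Rel.neg {w : Fin 4 → ℤ × ℤ} {l : Fin 4 → ℝ} (h : Rel w l) : Rel w (fun i => -l i) := by
  obtain ⟨h1, h2, h3⟩ := h
  refine ⟨?_, ?_, ?_⟩
  · rw [sum_neg_distrib, h1, neg_zero]
  · simp only [neg_mul]
    rw [sum_neg_distrib, h2, neg_zero]
  · simp only [neg_mul]
    rw [sum_neg_distrib, h3, neg_zero]

theorem exists_rel (w : Fin 4 → ℤ × ℤ) : ∃ l : Fin 4 → ℝ, l ≠ 0 ∧ Rel w l := by
  let M : Matrix (Fin 3) (Fin 4) ℝ := ![fun _ => 1, fun i => ((w i).1 : ℝ), fun i => ((w i).2 : ℝ)]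
  have hker : LinearMap.ker M.mulVecLin ≠ ⊥ := by
    apply LinearMap.ker_ne_bot_of_finrank_lt
    simp
  obtain ⟨l, hl, hl0⟩ := (Submodule.ne_bot_iff _).mp hker
  rw [LinearMap.mem_ker, Matrix.mulVecLin_apply] at hl
  refine ⟨l, hl0, ?_, ?_, ?_⟩
  · have h := congrFun hl 0
    simp only [Matrix.mulVec, dotProduct, M] at h
    simpa using h
  · have h : ∑ i, ((w i).1 : ℝ) * l i = 0 := congrFun hl 1
    rw [← h]
    exact sum_congr rfl fun i _ => mul_comm _ _
  · have h : ∑ i, ((w i).2 : ℝ) * l i = 0 := congrFun hl 2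
    rw [← h]
    exact sum_congr rfl fun i _ => mul_comm _ _

/-- a relation has no single positive entry -/
theorem nopos {K : ℕ} {w : Fin 4 → ℤ × ℤ} {o : Fin 4 → Lx} (hw : ∀ i, w i ∈ box K)
    (hcov : ∀ x ∈ box K, ∃ i, (o i).le (w i) x) (hpriv : ∀ i j, i ≠ j → ¬ (o i).le (w i) (w j))
    {l : Fin 4 → ℝ} (h : Rel w l) {k : Fin 4} (hk : 0 < l k) : ∃ i, i ≠ k ∧ 0 < l i := by
  by_contra hcon
  push Not at hcon
  obtain ⟨h1, h2, h3⟩ := h
  have hs : ∀ f : Fin 4 → ℝ, ∑ i, l i * f i = 0 →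
      ∑ i, ((if i = k then 1 else 0) - l i / l k) * f i = f k := by
    intro f hf
    have e : ∀ i, ((if i = k then 1 else 0) - l i / l k) * f i =
        (if i = k then f i else 0) - (l i * f i) / l k := by
      intro i
      split_ifs <;> ring
    rw [sum_congr rfl fun i _ => e i, sum_sub_distrib, ← sum_div, hf, zero_div, sub_zero,
      sum_ite_eq' univ k, if_pos (mem_univ k)]
  obtain ⟨j, hj1, hj2⟩ := key hw hcov hpriv (fun i => (if i = k then 1 else 0) - l i / l k) (w k)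
    (by
      intro i
      rcases eq_or_ne i k with rfl | hi
      · show 0 ≤ (if i = i then (1 : ℝ) else 0) - l i / l i
        rw [if_pos rfl, div_self hk.ne', sub_self]
      · show 0 ≤ (if i = k then (1 : ℝ) else 0) - l i / l k
        rw [if_neg hi, zero_sub, ← neg_div]
        exact div_nonneg (neg_nonneg.mpr (hcon i hi)) hk.le)
    (by
      have := hs (fun _ => 1) (by simpa using h1)
      simpa using this)
    (hs (fun i => ((w i).1 : ℝ)) h2) (hs (fun i => ((w i).2 : ℝ)) h3)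
  have hjk : j = k := (inj hpriv hj1).symm
  subst hjk
  have h4 : ∑ i, ((if i = j then (1 : ℝ) else 0) - l i / l j) = 1 := by
    have := hs (fun _ => 1) (by simpa using h1)
    simpa using this
  have h5 : ∀ i, ((if i = j then (1 : ℝ) else 0) - l i / l j) = 0 := by
    intro i
    rcases eq_or_ne i j with rfl | hi
    · rw [if_pos rfl, div_self hk.ne', sub_self]
    · exact hj2 i hi
  rw [sum_congr rfl fun i _ => h5 i, sum_const_zero] at h4
  exact zero_ne_one h4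

theorem exists_big {l : Fin 4 → ℝ} (hl : l ≠ 0) : ∃ a, 0 < |l a| ∧ ∀ i, |l i| ≤ |l a| := by
  obtain ⟨a, ha⟩ := Finite.exists_max fun i => |l i|
  refine ⟨a, ?_, ha⟩
  obtain ⟨i, hi⟩ := Function.ne_iff.mp hl
  exact (abs_pos.mpr hi).trans_le (ha i)

theorem exists_good {K : ℕ} {w : Fin 4 → ℤ × ℤ} {o : Fin 4 → Lx} (hw : ∀ i, w i ∈ box K)
    (hcov : ∀ x ∈ box K, ∃ i, (o i).le (w i) x) (hpriv : ∀ i j, i ≠ j → ¬ (o i).le (w i) (w j)) :
    ∃ (l : Fin 4 → ℝ) (a b c d : Fin 4), Rel w l ∧ a ≠ c ∧ b ≠ d ∧ 0 < l a ∧ 0 < l c ∧ l b < 0 ∧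
      l d < 0 ∧ ∀ i, |l i| ≤ l a := by
  obtain ⟨l, hl0, hl⟩ := exists_rel w
  obtain ⟨a, ha0, ha⟩ := exists_big hl0
  obtain ⟨l', hl', hpos, hmax⟩ : ∃ l' : Fin 4 → ℝ, Rel w l' ∧ 0 < l' a ∧ ∀ i, |l' i| ≤ l' a := by
    rcases abs_cases (l a) with ⟨h1, h2⟩ | ⟨h1, h2⟩
    · exact ⟨l, hl, by rw [← h1]; exact ha0, fun i => by rw [← h1]; exact ha i⟩
    · refine ⟨fun i => -l i, hl.neg, ?_, fun i => ?_⟩
      · show 0 < -l a
        rw [← h1]; exact ha0
      · show |-l i| ≤ -l a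
        rw [abs_neg, ← h1]; exact ha i
  obtain ⟨c, hc1, hc2⟩ := nopos hw hcov hpriv hl' hpos
  obtain ⟨b, hb⟩ : ∃ b, l' b < 0 := by
    by_contra hcon
    push Not at hcon
    have h1 : 0 < ∑ i, l' i := sum_pos' (fun i _ => hcon i) ⟨a, mem_univ a, hpos⟩
    exact h1.ne' hl'.1
  obtain ⟨d, hd1, hd2⟩ := nopos hw hcov hpriv hl'.neg (k := b) (by simpa using hb)
  exact ⟨l', a, b, c, d, hl', hc1.symm, hd1.symm, hpos, hc2, hb, by simpa using hd2, hmax⟩

theorem odd_det : ∀ u1 u2 v1 v2 : ZMod 2, ¬ (u1 = 0 ∧ u2 = 0) → ¬ (v1 = 0 ∧ v2 = 0) →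
    ¬ (u1 - v1 = 0 ∧ u2 - v2 = 0) → u1 * v2 - u2 * v1 ≠ 0 := by
  decide

end SQRM

open SQRM in
theorem square {K : ℕ} {w : Fin 4 → ℤ × ℤ} {o : Fin 4 → Lx} (hw : ∀ i, w i ∈ box K)
    (hcov : ∀ x ∈ box K, ∃ i, (o i).le (w i) x) (hpriv : ∀ i j, i ≠ j → ¬ (o i).le (w i) (w j))
    (hpar : ∀ i j, i ≠ j → ¬ (2 ∣ (w i - w j).1 ∧ 2 ∣ (w i - w j).2)) :
    ∃ (π : Equiv.Perm (Fin 4)) (r u v : ℤ × ℤ), (u.1 * v.2 - u.2 * v.1) ^ 2 = 1 ∧
      w (π 0) = r ∧ w (π 1) = r + u ∧ w (π 2) = r + v ∧ w (π 3) = r + u + v := by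
  obtain ⟨l, a, b, c, d, hrel, hac, hbd, ha, hc, hb, hd, hmax⟩ := exists_good hw hcov hpriv
  have hab : a ≠ b := by rintro rfl; linarith
  have had : a ≠ d := by rintro rfl; linarith
  have hcb : c ≠ b := by rintro rfl; linarith
  have hcd : c ≠ d := by rintro rfl; linarith
  have hinj : Function.Injective ![a, b, d, c] := by
    intro i j h
    fin_cases i <;> fin_cases j <;> simp_all
  let π : Equiv.Perm (Fin 4) := Equiv.ofBijective _ (Finite.injective_iff_bijective.mp hinj)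
  have p0 : π 0 = a := rfl
  have p1 : π 1 = b := rfl
  have p2 : π 2 = d := rfl
  have p3 : π 3 = c := rfl
  -- key for the permuted family
  have hkey : ∀ (m : Fin 4 → ℝ) (x : ℤ × ℤ), (∀ i, 0 ≤ m i) → m 0 + m 1 + m 2 + m 3 = 1 →
      m 0 * ((w a).1 : ℝ) + m 1 * ((w b).1 : ℝ) + m 2 * ((w d).1 : ℝ) + m 3 * ((w c).1 : ℝ) = x.1 →
      m 0 * ((w a).2 : ℝ) + m 1 * ((w b).2 : ℝ) + m 2 * ((w d).2 : ℝ) + m 3 * ((w c).2 : ℝ) = x.2 →
      ∃ k, x = w (π k) ∧ ∀ i, i ≠ k → m i = 0 := by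
    intro m x h0 h1 h2 h3
    refine key (w := fun i => w (π i)) (o := fun i => o (π i)) (fun i => hw _) (fun y hy => ?_)
      (fun i j hij => hpriv _ _ (fun h => hij (π.injective h))) m x h0 ?_ ?_ ?_
    · obtain ⟨i, hi⟩ := hcov y hy
      exact ⟨π.symm i, by rw [Equiv.apply_symm_apply]; exact hi⟩
    · rw [Fin.sum_univ_four]; exact h1
    · rw [Fin.sum_univ_four, p0, p1, p2, p3]; exact h2
    · rw [Fin.sum_univ_four, p0, p1, p2, p3]; exact h3
  have hsum : ∀ f : Fin 4 → ℝ, ∑ i, f i = f a + f b + f d + f c := by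
    intro f
    rw [← Equiv.sum_comp π f, Fin.sum_univ_four, p0, p1, p2, p3]
  obtain ⟨r1, r2, r3⟩ := hrel
  rw [hsum] at r1 r2 r3
  have hba := abs_le.mp (hmax b)
  have hda := abs_le.mp (hmax d)
  have hmid : w b + w d - w a = w c := by
    obtain ⟨k, hk1, hk2⟩ := hkey ![0, 1 + l b / l a, 1 + l d / l a, l c / l a] (w b + w d - w a)
      (by
        intro i
        have e1 : 0 ≤ 1 + l b / l a := by
          rw [show (1 : ℝ) + l b / l a = (l a + l b) / l a by field_simp]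
          exact div_nonneg (by linarith) ha.le
        have e2 : 0 ≤ 1 + l d / l a := by
          rw [show (1 : ℝ) + l d / l a = (l a + l d) / l a by field_simp]
          exact div_nonneg (by linarith) ha.le
        have e3 : 0 ≤ l c / l a := (div_pos hc ha).le
        fin_cases i
        · exact le_rfl
        · exact e1
        · exact e2
        · exact e3)
      (by
        simp only [Matrix.cons_val]
        field_simp
        linarith)
      (by
        simp only [Matrix.cons_val]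
        rw [Prod.fst_sub, Prod.fst_add, Int.cast_sub, Int.cast_add]
        field_simp
        linarith)
      (by
        simp only [Matrix.cons_val]
        rw [Prod.snd_sub, Prod.snd_add, Int.cast_sub, Int.cast_add]
        field_simp
        linarith)
    have hk3 : k = 3 := by
      by_contra h
      have h4 := hk2 3 (Ne.symm h)
      simp only [Matrix.cons_val] at h4
      exact (div_pos hc ha).ne' h4
    rw [hk1, hk3, p3]
  set u : ℤ × ℤ := w b - w a with hu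
  set v : ℤ × ℤ := w d - w a with hv
  refine ⟨π, w a, u, v, ?_, by rw [p0], by rw [p1, hu]; abel, by rw [p2, hv]; abel, ?_⟩
  swap
  · rw [p3, ← hmid, hu, hv]; abel
  set Δ : ℤ := u.1 * v.2 - u.2 * v.1 with hΔ
  have hΔ0 : Δ ≠ 0 := by
    have h2 : ∀ z : ℤ, ((z : ZMod 2) = 0) ↔ 2 ∣ z := fun z => by
      have := ZMod.intCast_zmod_eq_zero_iff_dvd z 2
      simpa using this
    have h3 : ((Δ : ℤ) : ZMod 2) ≠ 0 := by
      have h4 := odd_det (u.1 : ZMod 2) (u.2 : ZMod 2) (v.1 : ZMod 2) (v.2 : ZMod 2)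
        (by rw [h2, h2]; exact hpar b a hab.symm) (by rw [h2, h2]; exact hpar d a had.symm)
        (by
          rw [← Int.cast_sub, ← Int.cast_sub, h2, h2]
          have h5 := hpar b d hbd
          have h6 : w b - w d = u - v := by rw [hu, hv]; abel
          rw [h6] at h5
          exact h5)
      rw [hΔ]
      push_cast
      exact h4
    intro h
    rw [h, Int.cast_zero] at h3
    exact h3 rfl
  have hΔR : (Δ : ℝ) ≠ 0 := by exact_mod_cast hΔ0
  have hΔe : (Δ : ℝ) = (u.1 : ℝ) * v.2 - u.2 * v.1 := by rw [hΔ]; push_cast; ring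
  have hspan : ∀ z : ℤ × ℤ, ∃ A B : ℤ, z.1 = A * u.1 + B * v.1 ∧ z.2 = A * u.2 + B * v.2 := by
    intro z
    set s : ℝ := ((z.1 : ℝ) * v.2 - z.2 * v.1) / Δ with hs
    set t : ℝ := ((u.1 : ℝ) * z.2 - u.2 * z.1) / Δ with ht
    have hz1 : (z.1 : ℝ) = s * u.1 + t * v.1 := by
      rw [hs, ht]
      field_simp
      rw [hΔe]; ring
    have hz2 : (z.2 : ℝ) = s * u.2 + t * v.2 := by
      rw [hs, ht]
      field_simp
      rw [hΔe]; ring
    set s' : ℝ := Int.fract s with hs'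
    set t' : ℝ := Int.fract t with ht'
    have hs0 : 0 ≤ s' := Int.fract_nonneg s
    have ht0 : 0 ≤ t' := Int.fract_nonneg t
    have hs1 : s' < 1 := Int.fract_lt_one s
    have ht1 : t' < 1 := Int.fract_lt_one t
    have hse : s = ⌊s⌋ + s' := (Int.floor_add_fract s).symm
    have hte : t = ⌊t⌋ + t' := (Int.floor_add_fract t).symm
    have hw1 : ((w b).1 : ℝ) = (w a).1 + u.1 := by
      have : (w b).1 = (w a).1 + u.1 := by rw [hu]; simp
      exact_mod_cast this
    have hw1' : ((w b).2 : ℝ) = (w a).2 + u.2 := by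
      have : (w b).2 = (w a).2 + u.2 := by rw [hu]; simp
      exact_mod_cast this
    have hw2 : ((w d).1 : ℝ) = (w a).1 + v.1 := by
      have : (w d).1 = (w a).1 + v.1 := by rw [hv]; simp
      exact_mod_cast this
    have hw2' : ((w d).2 : ℝ) = (w a).2 + v.2 := by
      have : (w d).2 = (w a).2 + v.2 := by rw [hv]; simp
      exact_mod_cast this
    have hw3 : ((w c).1 : ℝ) = (w a).1 + u.1 + v.1 := by
      have : (w c).1 = (w a).1 + u.1 + v.1 := by
        rw [← hmid, hu, hv, Prod.fst_sub, Prod.fst_sub, Prod.fst_sub, Prod.fst_add]; ring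
      exact_mod_cast this
    have hw3' : ((w c).2 : ℝ) = (w a).2 + u.2 + v.2 := by
      have : (w c).2 = (w a).2 + u.2 + v.2 := by
        rw [← hmid, hu, hv, Prod.snd_sub, Prod.snd_sub, Prod.snd_sub, Prod.snd_add]; ring
      exact_mod_cast this
    obtain ⟨k, hk1, hk2⟩ := hkey ![(1 - s') * (1 - t'), s' * (1 - t'), (1 - s') * t', s' * t']
      ((w a).1 + (z.1 - ⌊s⌋ * u.1 - ⌊t⌋ * v.1), (w a).2 + (z.2 - ⌊s⌋ * u.2 - ⌊t⌋ * v.2))
      (by
        intro i
        have a1 : 0 ≤ 1 - s' := by linarith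
        have a2 : 0 ≤ 1 - t' := by linarith
        fin_cases i
        · exact mul_nonneg a1 a2
        · exact mul_nonneg hs0 a2
        · exact mul_nonneg a1 ht0
        · exact mul_nonneg hs0 ht0)
      (by simp only [Matrix.cons_val]; ring)
      (by
        simp only [Matrix.cons_val]
        push_cast
        rw [hw1, hw2, hw3, hz1]
        linear_combination (-(u.1 : ℝ)) * hse + (-(v.1 : ℝ)) * hte)
      (by
        simp only [Matrix.cons_val]
        push_cast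
        rw [hw1', hw2', hw3', hz2]
        linear_combination (-(u.2 : ℝ)) * hse + (-(v.2 : ℝ)) * hte)
    have hk0 : k = 0 := by
      by_contra h
      have h4 := hk2 0 (Ne.symm h)
      simp only [Matrix.cons_val] at h4
      have : 0 < (1 - s') * (1 - t') := mul_pos (by linarith) (by linarith)
      exact this.ne' h4
    subst hk0
    have e1 := hk2 1 (by decide)
    have e2 := hk2 2 (by decide)
    simp only [Matrix.cons_val] at e1 e2
    have e3 : s' = 0 := (mul_eq_zero.mp e1).resolve_right (by linarith)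
    have e4 : t' = 0 := (mul_eq_zero.mp e2).resolve_left (by linarith)
    refine ⟨⌊s⌋, ⌊t⌋, ?_, ?_⟩
    · rw [hse, hte, e3, e4, add_zero, add_zero] at hz1
      exact_mod_cast hz1
    · rw [hse, hte, e3, e4, add_zero, add_zero] at hz2
      exact_mod_cast hz2
  obtain ⟨A1, B1, x1, x2⟩ := hspan (1, 0)
  obtain ⟨A2, B2, y1, y2⟩ := hspan (0, 1)
  simp only at x1 x2 y1 y2
  have hun : Δ * (A1 * B2 - A2 * B1) = 1 := by
    have : (A1 * u.1 + B1 * v.1) * (A2 * u.2 + B2 * v.2) -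
        (A1 * u.2 + B1 * v.2) * (A2 * u.1 + B2 * v.1) = 1 := by
      rw [← x1, ← x2, ← y1, ← y2]; norm_num
    rw [← this, hΔ]; ring
  rcases Int.eq_one_or_neg_one_of_mul_eq_one hun with h | h
  · rw [h]; norm_num
  · rw [h]; norm_num

end Pool.Agent.Lib.MPa7239a.R3X
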