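import Pool.Agent.Lib.MP_a7239a_co.R3X.COV4
import Pool.Agent.Lib.MP_a7239a_co.R3X.HALF
import Pool.Agent.Lib.MP_a7239a_co.R3X.SQR

/-!
# R3X, module QUAD: the four quadrants and their certificates
-/

open Finset

namespace Pool.Agent.Lib.MPa7239a.R3X

namespace QUADM

/-- the outward sign -/
def sg (a : Fin 2) : ℤ := if a = 0 then -1 else 1

/-- the corner -/
def W (r u v : ℤ × ℤ) (a b : Fin 2) : ℤ × ℤ := r + (a.val : ℤ) • u + (b.val : ℤ) • v

/-- the index of the corner -/
def idx (a b : Fin 2) : Fin 4 := if a = 0 then (if b = 0 then 0 else 2) else (if b = 0 then 1 else 3)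

theorem idx_ne₁ (a b : Fin 2) : idx a b ≠ idx (1 - a) b := by
  revert a b; decide

theorem idx_ne₂ (a b : Fin 2) : idx a b ≠ idx a (1 - b) := by
  revert a b; decide

theorem sub_val (a : Fin 2) (x : ℤ) : x - (a.val : ℤ) = sg a * out a x := by
  fin_cases a
  · simp [sg, out]
  · simp [sg, out]

theorem val_compl (a : Fin 2) : ((1 - a : Fin 2).val : ℤ) = a.val - sg a := by
  fin_cases a
  · simp [sg]
  · simp [sg]

theorem W_left (r u v : ℤ × ℤ) (a b : Fin 2) : W r u v (1 - a) b = W r u v a b - sg a • u := by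
  unfold W
  rw [val_compl]
  module

theorem W_down (r u v : ℤ × ℤ) (a b : Fin 2) : W r u v a (1 - b) = W r u v a b - sg b • v := by
  unfold W
  rw [val_compl]
  module

theorem B_add (o : Lx) (x y : ℤ × ℤ) : o.B (x + y) = o.B x + o.B y := by
  simp only [Lx.B, Prod.fst_add, Prod.snd_add]
  push_cast
  ring

theorem B_zsmul (o : Lx) (n : ℤ) (x : ℤ × ℤ) : o.B (n • x) = n * o.B x := by
  simp only [Lx.B, Prod.smul_fst, Prod.smul_snd, smul_eq_mul]
  push_cast
  ring

theorem le_of_sub {o : Lx} {w d : ℤ × ℤ} (h : o.le (w - d) w) (x : ℤ × ℤ) : o.le x (x + d) := by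
  have h1 := (o.add_right (x := w - d) (y := w) (x + d - w)).2 h
  have e1 : w - d + (x + d - w) = x := by abel
  have e2 : w + (x + d - w) = x + d := by abel
  rwa [e1, e2] at h1

theorem le_nsmul {o : Lx} {w d : ℤ × ℤ} (h : o.le (w - d) w) (n : ℕ) (x : ℤ × ℤ) :
    o.le x (x + (n : ℤ) • d) := by
  induction n with
  | zero => simpa using o.refl x
  | succ n ih =>
    have h1 := le_of_sub h (x + (n : ℤ) • d)
    have e1 : x + (n : ℤ) • d + d = x + ((n + 1 : ℕ) : ℤ) • d := by
      push_cast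
      module
    rw [e1] at h1
    exact o.trans ih h1

theorem le_zsmul {o : Lx} {w d : ℤ × ℤ} (h : o.le (w - d) w) {n : ℤ} (hn : 0 ≤ n) (x : ℤ × ℤ) :
    o.le x (x + n • d) := by
  obtain ⟨m, rfl⟩ := Int.eq_ofNat_of_zero_le hn
  exact le_nsmul h m x

theorem B_nonneg {o : Lx} {w d : ℤ × ℤ} (h : o.le (w - d) w) : 0 ≤ o.B d := by
  have h1 : o.B w = o.B (w - d) + o.B d := by rw [← B_add]; congr 1; abel
  have h2 : o.B (w - d) ≤ o.B w := by
    rcases h with h | h
    · exact h.le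
    · exact h.1.le
  linarith

theorem exists_box (V : Finset (ℤ × ℤ)) : ∃ K : ℕ, V ⊆ box K := by
  refine ⟨∑ v ∈ V, (v.1.natAbs + v.2.natAbs), fun v hv => ?_⟩
  have h : v.1.natAbs + v.2.natAbs ≤ ∑ v ∈ V, (v.1.natAbs + v.2.natAbs) :=
    single_le_sum (f := fun v : ℤ × ℤ => v.1.natAbs + v.2.natAbs) (fun _ _ => Nat.zero_le _) hv
  simp only [box, mem_product, mem_Icc]
  omega

theorem coords {r u v : ℤ × ℤ} (hD : (u.1 * v.2 - u.2 * v.1) ^ 2 = 1) (x : ℤ × ℤ) :
    x = r + ((u.1 * v.2 - u.2 * v.1) * ((x - r).1 * v.2 - (x - r).2 * v.1)) • u +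
      ((u.1 * v.2 - u.2 * v.1) * (u.1 * (x - r).2 - u.2 * (x - r).1)) • v := by
  ext
  · simp only [Prod.fst_add, Prod.smul_fst, smul_eq_mul, Prod.fst_sub, Prod.snd_sub]
    linear_combination (-(x.1 - r.1)) * hD
  · simp only [Prod.snd_add, Prod.smul_snd, smul_eq_mul, Prod.fst_sub, Prod.snd_sub]
    linear_combination (-(x.2 - r.2)) * hD

end QUADM

open QUADM in
theorem quad {μ : ℤ × ℤ → ℝ} {V : Finset (ℤ × ℤ)} (h : PGI μ V) :
    ∃ (X Y : ℤ × ℤ → ℤ) (r u v : ℤ × ℤ) (P Q F' F : Fin 2 → Fin 2 → ℝ),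
      (u.1 * v.2 - u.2 * v.1) ^ 2 = 1 ∧ (∀ x, x = r + X x • u + Y x • v) ∧
      (∀ a b, 0 ≤ P a b ∧ 0 ≤ Q a b ∧ 0 < P a b + Q a b ∧ 0 ≤ F a b ∧ F a b ≤ F' a b) ∧
      (∀ a b, ∑ x ∈ V, μ x * max 0 (F' a b + P a b * out a (X x) + Q a b * out b (Y x)) ≤
        F a b) ∧
      (∀ a b, ∑ x ∈ V with 0 ≤ out a (X x) ∧ 0 ≤ out b (Y x), μ x ≤ 1) := by
  classical
  obtain ⟨K, hK⟩ := exists_box V
  have h3 : (3 : ℝ) < ∑ v ∈ V, μ v := lt_of_lt_of_le (by norm_num) h.tot
  obtain ⟨w, o, s, F, hw, hcap, hcov, hpriv, hpar⟩ :=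
    cover_four hK (fun v hv => (h.pos v hv).le) (fun w _ => half h w) h3
  obtain ⟨π, r, u, v, hD, hw0, hw1, hw2, hw3⟩ := square hw hcov hpriv hpar
  set k : Fin 2 → Fin 2 → Fin 4 := fun a b => π (idx a b) with hk
  have hwk : ∀ a b, w (k a b) = W r u v a b := by
    intro a b
    fin_cases a <;> fin_cases b
    · simpa [hk, idx, W] using hw0
    · simpa [hk, idx, W] using hw2
    · simpa [hk, idx, W] using hw1
    · simpa [hk, idx, W] using hw3
  have hleft : ∀ a b, (o (k a b)).le (W r u v a b - sg a • u) (W r u v a b) := by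
    intro a b
    have h1 := hpriv (k a b) (k (1 - a) b) (fun e => idx_ne₁ a b (π.injective e))
    rw [hwk, hwk, W_left] at h1
    exact ((o (k a b)).total _ _).resolve_left h1
  have hdown : ∀ a b, (o (k a b)).le (W r u v a b - sg b • v) (W r u v a b) := by
    intro a b
    have h1 := hpriv (k a b) (k a (1 - b)) (fun e => idx_ne₂ a b (π.injective e))
    rw [hwk, hwk, W_down] at h1
    exact ((o (k a b)).total _ _).resolve_left h1
  set X : ℤ × ℤ → ℤ := fun x =>
    (u.1 * v.2 - u.2 * v.1) * ((x - r).1 * v.2 - (x - r).2 * v.1) with hX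
  set Y : ℤ × ℤ → ℤ := fun x =>
    (u.1 * v.2 - u.2 * v.1) * (u.1 * (x - r).2 - u.2 * (x - r).1) with hY
  have hXY : ∀ x, x = r + X x • u + Y x • v := fun x => coords hD x
  have hcoord : ∀ a b x, x = W r u v a b + out a (X x) • (sg a • u) + out b (Y x) • (sg b • v) := by
    intro a b x
    have h1 := sub_val a (X x)
    have h2 := sub_val b (Y x)
    have h3 : X x = a.val + sg a * out a (X x) := by linarith
    have h4 : Y x = b.val + sg b * out b (Y x) := by linarith
    calc x = r + X x • u + Y x • v := hXY x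
      _ = r + ((a.val : ℤ) + sg a * out a (X x)) • u + ((b.val : ℤ) + sg b * out b (Y x)) • v := by
        rw [← h3, ← h4]
      _ = _ := by
        unfold W
        module
  have hB : ∀ a b x, (o (k a b)).B x = (o (k a b)).B (W r u v a b) +
      (o (k a b)).B (sg a • u) * out a (X x) + (o (k a b)).B (sg b • v) * out b (Y x) := by
    intro a b x
    conv_lhs => rw [hcoord a b x]
    rw [B_add, B_add, B_zsmul, B_zsmul _ (out b (Y x))]
    ring
  refine ⟨X, Y, r, u, v, fun a b => (o (k a b)).B (sg a • u), fun a b => (o (k a b)).B (sg b • v),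
    fun a b => (o (k a b)).B (W r u v a b) + s (k a b), fun a b => F (k a b), hD, hXY, ?_, ?_, ?_⟩
  · intro a b
    have hc := hcap (k a b)
    rw [hwk] at hc
    have hP := B_nonneg (hleft a b)
    have hQ := B_nonneg (hdown a b)
    refine ⟨hP, hQ, ?_, hc.F0, hc.ge⟩
    by_contra hne
    have hP0 : (o (k a b)).B (sg a • u) = 0 := by linarith
    have hQ0 : (o (k a b)).B (sg b • v) = 0 := by linarith
    have hconst : ∀ x, (o (k a b)).B x = (o (k a b)).B (W r u v a b) := by
      intro x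
      rw [hB a b x, hP0, hQ0]
      ring
    have e1 := hconst (0, 0)
    have e2 := hconst (1, 0)
    have e3 := hconst (0, 1)
    rw [← e1] at e2 e3
    simp only [Lx.B] at e2 e3
    apply (o (k a b)).det
    have f1 : (o (k a b)).b1 = 0 := by simpa using e2
    have f2 : (o (k a b)).b2 = 0 := by simpa using e3
    rw [f1, f2]
    ring
  · intro a b
    have hc := (hcap (k a b)).cert
    refine le_trans (le_of_eq (sum_congr rfl fun x _ => ?_)) hc
    rw [hB a b x]
    congr 2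
    ring
  · intro a b
    have hc := hcap (k a b)
    rw [hwk] at hc
    refine hc.mass _ (filter_subset _ _) fun x hx => ?_
    obtain ⟨-, h1, h2⟩ := mem_filter.1 hx
    have e1 := le_zsmul (hleft a b) h1 (W r u v a b)
    have e2 := le_zsmul (hdown a b) h2 (W r u v a b + out a (X x) • (sg a • u))
    rw [← hcoord a b x] at e2
    exact (o (k a b)).trans e1 e2

end Pool.Agent.Lib.MPa7239a.R3X
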