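import Pool.Agent.Lib.MP_a7239a_co.R3.Defs

/-!
# Rank three, exact value (folder R3X): definitions
-/

set_option autoImplicit false

open Finset

namespace Pool.Agent.Lib.MPa7239a.R3X

/-! ### measures on the plane lattice -/

/-- the box `[-K, K] ^ 2` -/
noncomputable def box (K : ℕ) : Finset (ℤ × ℤ) := Icc (-(K : ℤ)) K ×ˢ Icc (-(K : ℤ)) K

/-- the linear form with coefficients `u` -/
def lf (u v : ℤ × ℤ) : ℤ := u.1 * v.1 + u.2 * v.2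

/-- `w` is an average of `μ` over `S` with margin `θ` -/
def Avg (μ : ℤ × ℤ → ℝ) (S : Finset (ℤ × ℤ)) (θ : ℝ) (w : ℤ × ℤ) : Prop :=
  ∃ k : ℤ × ℤ → ℝ, (∀ v ∈ S, θ ≤ k v ∧ k v + θ ≤ μ v) ∧ ∑ v ∈ S, k v = 1 ∧
    ∑ v ∈ S, k v * (v.1 : ℝ) = w.1 ∧ ∑ v ∈ S, k v * (v.2 : ℝ) = w.2

/-- `w` is in the affine lattice generated by `S` -/
def InLat (S : Finset (ℤ × ℤ)) (w : ℤ × ℤ) : Prop :=
  ∃ j : ℤ × ℤ → ℤ, ∑ v ∈ S, j v = 1 ∧ ∑ v ∈ S, j v * v.1 = w.1 ∧ ∑ v ∈ S, j v * v.2 = w.2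

/-- no average with margin `θ` is in the lattice of its support -/
def Free (μ : ℤ × ℤ → ℝ) (θ : ℝ) : Prop :=
  ∀ (S : Finset (ℤ × ℤ)) (w : ℤ × ℤ), InLat S w → ¬ Avg μ S θ w

/-- the hypotheses of the planar lemma -/
structure PGI (μ : ℤ × ℤ → ℝ) (V : Finset (ℤ × ℤ)) : Prop where
  pos : ∀ v ∈ V, 0 < μ v
  le1 : ∀ v, μ v ≤ 1
  zero : ∀ v, v ∉ V → μ v = 0
  tot : 4 - 1 / 10 ^ 6 ≤ ∑ v ∈ V, μ v
  lin : ∀ u : ℤ × ℤ, u ≠ 0 → ∀ c : ℤ, ∑ v ∈ V with lf u v = c, μ v ≤ 2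
  ray : ∀ w ∈ V, ∀ u : ℤ × ℤ, u ≠ 0 →
    (∑ v ∈ V with (v - w).1 * u.2 = (v - w).2 * u.1 ∧ 0 ≤ lf u (v - w), μ v ≤ 1) ∨
    (∑ v ∈ V with (v - w).1 * u.2 = (v - w).2 * u.1 ∧ lf u (v - w) ≤ 0, μ v ≤ 1)
  cert : ∀ w : ℤ × ℤ, ∃ b1 b2 s : ℝ, (b1 ≠ 0 ∨ b2 ≠ 0) ∧
    ∑ v ∈ V, μ v * max 0 (b1 * v.1 + b2 * v.2 + s) ≤ b1 * w.1 + b2 * w.2 + s

/-- a lexicographic order of the plane -/
structure Lx where
  b1 : ℝ
  b2 : ℝ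
  a1 : ℝ
  a2 : ℝ
  det : b1 * a2 - b2 * a1 ≠ 0

/-- first form -/
def Lx.B (o : Lx) (x : ℤ × ℤ) : ℝ := o.b1 * x.1 + o.b2 * x.2

/-- second form -/
def Lx.A (o : Lx) (x : ℤ × ℤ) : ℝ := o.a1 * x.1 + o.a2 * x.2

/-- the order -/
def Lx.le (o : Lx) (x y : ℤ × ℤ) : Prop := o.B x < o.B y ∨ (o.B x = o.B y ∧ o.A x ≤ o.A y)

/-- the half plane `w ≤ x` has mass at most `1` and comes from a certificate -/
structure Cap (μ : ℤ × ℤ → ℝ) (V : Finset (ℤ × ℤ)) (w : ℤ × ℤ) (o : Lx) (s F : ℝ) : Prop where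
  cert : ∑ v ∈ V, μ v * max 0 (o.B v + s) ≤ F
  ge : F ≤ o.B w + s
  F0 : 0 ≤ F
  mass : ∀ T ⊆ V, (∀ v ∈ T, o.le w v) → ∑ v ∈ T, μ v ≤ 1

/-- position relative to the corner `c` in one coordinate: distance outwards (`c = 0`: `-x`, `c = 1`: `x - 1`) -/
def out (c : Fin 2) (x : ℤ) : ℤ := if c = 0 then -x else x - 1

/-! ### classes -/

section
variable {p : ℕ} {G : Type*} [AddCommGroup G] [Module (ZMod p) G]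

/-- the elements of `A` over `(x, y)` -/
def cl (A : Finset G) (α β : G →ₗ[ZMod p] ZMod p) (x y : ZMod p) : Finset G :=
  {a ∈ A | α a = x ∧ β a = y}

theorem mem_cl {A : Finset G} {α β : G →ₗ[ZMod p] ZMod p} {x y : ZMod p} {a : G} :
    a ∈ cl A α β x y ↔ a ∈ A ∧ α a = x ∧ β a = y := by
  rw [cl, mem_filter]

/-- the number of elements of `A` in the class `v` -/
def cnt (A : Finset G) (ξ ζ : G →ₗ[ZMod p] ZMod p) (x₀ z₀ : ZMod p) (v : ℤ × ℤ) : ℕ :=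
  #(cl A ξ ζ (x₀ + (v.1 : ZMod p)) (z₀ + (v.2 : ZMod p)))

variable (p) in
/-- two parallel planes with `2 p - t` elements of `A` each -/
def Rich (A : Finset G) (t : ℕ) : Prop :=
  ∃ (α : G →ₗ[ZMod p] ZMod p) (x₀ x₁ : ZMod p), α ≠ 0 ∧ x₀ ≠ x₁ ∧
    2 * p ≤ #{a ∈ A | α a = x₀} + t ∧ 2 * p ≤ #{a ∈ A | α a = x₁} + t

variable (p) in
/-- `e` is near the corner `(0, 0)` -/
def Nr (α β : G →ₗ[ZMod p] ZMod p) (a₀ b₀ : ZMod p) (e : G) : Prop :=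
  ∃ k u : ℕ, 1 ≤ k + u ∧ 20 * k ≤ p ∧ 20 * u ≤ p ∧ α e = a₀ - k ∧ β e = b₀ - u

/-- four almost full lines in two parallel planes, in normal form: `(0,0), (0,1), (1,0), (1,g)` -/
structure Frm (A : Finset G) (α β : G →ₗ[ZMod p] ZMod p) (a₀ b₀ : ZMod p) (g : ℕ)
    (s : Fin 4 → ℕ) : Prop where
  hL : Nat.card (LinearMap.ker α ⊓ LinearMap.ker β : Submodule (ZMod p) G) = p
  g1 : 1 ≤ g
  g2 : 2 * g < p
  s1 : ∀ i, 1 ≤ s i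
  s2 : ∀ i, 50 * s i ≤ p
  c0 : #(cl A α β a₀ b₀) + s 0 = p
  c1 : #(cl A α β a₀ (b₀ + 1)) + s 1 = p
  c2 : #(cl A α β (a₀ + 1) b₀) + s 2 = p
  c3 : #(cl A α β (a₀ + 1) (b₀ + g)) + s 3 = p

end

end Pool.Agent.Lib.MPa7239a.R3X
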