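import Pool.Agent.Lib.MP_a7239a_co.R3X.Defs

/-!
# R3X: module ARI (pure numbers)
-/

set_option autoImplicit false

open Finset

namespace Pool.Agent.Lib.MPa7239a.R3X

section
variable {p : ℕ} [Fact p.Prime]

namespace ARIM

omit [Fact p.Prime] in
/-- every number of the interval `[2, k₀ + g k]` is `x + g t` with `2 ≤ x ≤ k₀`, `t ≤ k` -/
lemma cover {g k m : ℕ} (hg1 : 1 ≤ g) (hgk : g + k + 2 ≤ p) (hm2 : 2 ≤ m)
    (hm : m + k + 1 ≤ p + g * k) :
    ∃ x t : ℕ, t ≤ k ∧ 2 ≤ x ∧ x + k + 1 ≤ p ∧ x + g * t = m := by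
  by_cases h : m + k + 1 ≤ p
  · exact ⟨m, 0, Nat.zero_le _, hm2, h, by simp⟩
  · obtain ⟨k₀, hk₀⟩ : ∃ k₀, k₀ + k + 1 = p := ⟨p - 1 - k, by omega⟩
    obtain ⟨j, hj⟩ : ∃ j, m = k₀ + j := ⟨m - k₀, by omega⟩
    have hj2 : j ≤ g * k := by omega
    set t : ℕ := (j + g - 1) / g with ht
    have h1 : g * t ≤ j + g - 1 := Nat.mul_div_le _ _
    have h2 : j + g - 1 < g * t + g := by
      have := Nat.lt_mul_div_succ (j + g - 1) hg1
      rw [Nat.mul_succ] at this
      exact this
    have h3 : t ≤ k := by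
      by_contra hlt
      have h4 : k + 1 ≤ t := by omega
      have h5 : g * (k + 1) ≤ g * t := Nat.mul_le_mul_left g h4
      rw [Nat.mul_succ] at h5
      omega
    refine ⟨m - g * t, t, h3, by omega, by omega, by omega⟩

end ARIM

open ARIM in
/-- either the counts exist for one exceptional element, or the element is near a corner -/
theorem arith {g k s0 s1 : ℕ} {y : ZMod p} (hp : 1000 ≤ p) (hg1 : 1 ≤ g) (hg2 : 2 * g < p)
    (h0 : 1 ≤ s0) (h1 : 1 ≤ s1) (h50 : 50 * s0 ≤ p) (h51 : 50 * s1 ≤ p) (hgk : g + k + 2 ≤ p)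
    (h4 : 4 * (k + 1) ≤ 3 * p) (hne0 : ¬ (k = 0 ∧ y = 0)) (hne1 : ¬ (k = 0 ∧ y = 1)) :
    (∃ kO kX t : ℕ, t ≤ k ∧ kO + kX + k + 1 = p ∧ kO + s0 ≤ p ∧ kX + s1 ≤ p ∧
      (kX : ZMod p) + g * t + y = 0 ∧
      ((2 ≤ kX ∧ kX + s1 + 2 ≤ p) ∨ (2 ≤ k - t ∧ 4 * (k - t) ≤ 3 * p))) ∨
    (∃ u : ℕ, 1 ≤ k + u ∧ 20 * k ≤ p ∧ 20 * u ≤ p ∧ y = -(u : ZMod p)) ∨
    (∃ u : ℕ, 1 ≤ k + u ∧ 20 * k ≤ p ∧ 20 * u ≤ p ∧ 1 - y - (g - 1) * k = -(u : ZMod p)) := by
  by_cases hbig : s1 + 1 ≤ k ∧ s0 ≤ k + 1
  · -- all residues are hit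
    left
    obtain ⟨hk1, hk0⟩ := hbig
    set r : ℕ := (-y).val with hr
    have hrp : r < p := ZMod.val_lt _
    have hry : (r : ZMod p) + y = 0 := by
      rw [hr, ZMod.natCast_zmod_val]
      ring
    -- a number in the interval gives the counts
    have hfin : ∀ m : ℕ, 2 ≤ m → m + k + 1 ≤ p + g * k → (m : ZMod p) + y = 0 →
        ∃ kO kX t : ℕ, t ≤ k ∧ kO + kX + k + 1 = p ∧ kO + s0 ≤ p ∧ kX + s1 ≤ p ∧
        (kX : ZMod p) + g * t + y = 0 ∧
        ((2 ≤ kX ∧ kX + s1 + 2 ≤ p) ∨ (2 ≤ k - t ∧ 4 * (k - t) ≤ 3 * p)) := by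
      intro m hm2 hm hmy
      obtain ⟨x, t, ht, hx2, hx, hxt⟩ := cover hg1 hgk hm2 hm
      refine ⟨p - 1 - k - x, x, t, ht, by omega, by omega, by omega, ?_, Or.inl ⟨hx2, by omega⟩⟩
      rw [← hmy, ← hxt]
      push_cast
      ring
    by_cases hr2 : 2 ≤ r
    · apply hfin r hr2 _ hry
      have : k ≤ g * k := Nat.le_mul_of_pos_left k hg1
      omega
    · by_cases hg : g = 1
      · refine ⟨p - 1 - k - r, r, 0, Nat.zero_le _, by omega, by omega, by omega, ?_,
          Or.inr ⟨by omega, by omega⟩⟩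
        rw [Nat.cast_zero, mul_zero, add_zero]
        exact hry
      · apply hfin (p + r) (by omega)
        · have : 2 * k ≤ g * k := Nat.mul_le_mul_right k (by omega)
          omega
        · push_cast
          rw [ZMod.natCast_self, zero_add]
          exact hry
  · -- `k` is small
    have hk50 : 50 * k ≤ p := by
      by_cases h : s1 + 1 ≤ k
      · have : ¬ s0 ≤ k + 1 := fun h' => hbig ⟨h, h'⟩
        omega
      · omega
    by_cases hex : ∃ t : ℕ, t ≤ k ∧ 2 ≤ (-(y + g * t)).val ∧ s0 ≤ (-(y + g * t)).val + k + 1 ∧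
        (-(y + g * t)).val + k + 1 ≤ p ∧ (-(y + g * t)).val + s1 + 2 ≤ p
    · left
      obtain ⟨t, ht, e1, e2, e3, e4⟩ := hex
      refine ⟨p - 1 - k - (-(y + g * t)).val, (-(y + g * t)).val, t, ht, by omega, by omega,
        by omega, ?_, Or.inl ⟨e1, e4⟩⟩
      rw [ZMod.natCast_zmod_val]
      ring
    · right
      have hc : ∀ t : ℕ, t ≤ k → ∃ c : ℤ, (c : ZMod p) = y + g * t ∧ -50 * c ≤ p ∧
          50 * c ≤ p + 50 ∧ 50 * c ≤ p + 50 := by
        intro t ht
        set r : ℕ := (-(y + g * t)).val with hr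
        have hrp : r < p := ZMod.val_lt _
        have hry : (r : ZMod p) = -(y + g * t) := by
          rw [hr, ZMod.natCast_zmod_val]
        have h5 : ¬ (2 ≤ r ∧ s0 ≤ r + k + 1 ∧ r + k + 1 ≤ p ∧ r + s1 + 2 ≤ p) := by
          intro h6
          exact hex ⟨t, ht, h6.1, h6.2.1, h6.2.2.1, h6.2.2.2⟩
        by_cases h7 : 50 * r ≤ p
        · refine ⟨-(r : ℤ), ?_, by omega, by omega, by omega⟩
          push_cast
          rw [hry]
          ring
        · refine ⟨(p : ℤ) - r, ?_, by omega, by omega, by omega⟩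
          push_cast
          rw [hry, ZMod.natCast_self]
          ring
      choose! c hc1 hc2 hc3 _ using hc
      have hstep : ∀ t : ℕ, t + 1 ≤ k → c (t + 1) = c t + g := by
        intro t ht
        have e1 := hc1 (t + 1) ht
        have e2 := hc1 t (by omega)
        have e3 : ((c (t + 1) - c t - g : ℤ) : ZMod p) = 0 := by
          push_cast
          rw [e1, e2]
          push_cast
          ring
        rw [ZMod.intCast_zmod_eq_zero_iff_dvd] at e3
        have f1 := hc2 (t + 1) ht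
        have f2 := hc2 t (by omega)
        have f3 := hc3 (t + 1) ht
        have f4 := hc3 t (by omega)
        have e4 : |c (t + 1) - c t - g| < (p : ℤ) := by
          rw [abs_lt]
          constructor <;> omega
        have e5 := Int.eq_zero_of_abs_lt_dvd e3 e4
        omega
      have hlin : ∀ t : ℕ, t ≤ k → c t = c 0 + g * t := by
        intro t
        induction t with
        | zero => intro _; simp
        | succ j ih =>
          intro hj
          rw [hstep j hj, ih (by omega)]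
          push_cast
          ring
      have hck := hlin k le_rfl
      have hy : (c 0 : ZMod p) = y := by
        have := hc1 0 (Nat.zero_le _)
        simpa using this
      have b1 := hc2 0 (Nat.zero_le _)
      have b2 := hc3 0 (Nat.zero_le _)
      have b3 := hc2 k le_rfl
      have b4 := hc3 k le_rfl
      by_cases hc0 : c 0 ≤ 0
      · left
        obtain ⟨u, hu⟩ : ∃ u : ℕ, c 0 = -(u : ℤ) := ⟨(-c 0).toNat, by omega⟩
        refine ⟨u, ?_, by omega, by omega, ?_⟩
        · by_contra h6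
          have h7 : k = 0 ∧ u = 0 := by omega
          apply hne0
          refine ⟨h7.1, ?_⟩
          rw [← hy, hu, h7.2]
          simp
        · rw [← hy, hu]
          push_cast
          rfl
      · right
        have hgk' : (k : ℤ) ≤ g * k := by
          exact_mod_cast Nat.le_mul_of_pos_left k hg1
        obtain ⟨u, hu⟩ : ∃ u : ℕ, c 0 + g * k - k - 1 = (u : ℤ) :=
          ⟨(c 0 + g * k - k - 1).toNat, by omega⟩
        refine ⟨u, ?_, by omega, by omega, ?_⟩
        · by_contra h6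
          have h7 : k = 0 ∧ u = 0 := by omega
          apply hne1
          refine ⟨h7.1, ?_⟩
          have h8 : c 0 = 1 := by
            rw [h7.1, h7.2] at hu
            push_cast at hu
            omega
          rw [← hy, h8]
          simp
        · have h8 : ((c 0 + g * k - k - 1 : ℤ) : ZMod p) = ((u : ℤ) : ZMod p) := by rw [hu]
          push_cast at h8
          rw [hy] at h8
          rw [← h8]
          ring

end

end Pool.Agent.Lib.MPa7239a.R3X
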