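import Pool.Agent.Lib.MP_a7239a_co.R3X.Defs
import Mathlib.Analysis.LocallyConvex.Separation
import Mathlib.Topology.Algebra.Module.FiniteDimension

/-!
# R3X: module CERT
-/

set_option autoImplicit false

open Finset

namespace Pool.Agent.Lib.MPa7239a.R3X

/-- the Hahn-Banach certificate for a point which is not in the open zonotope -/
theorem cert {E : Type*} [NormedAddCommGroup E] [NormedSpace ℝ E] [FiniteDimensional ℝ E]
    {ι : Type*} (V : Finset ι) (g : ι → E) (hspan : Submodule.span ℝ (g '' (V : Set ι)) = ⊤)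
    {μ : ι → ℝ} (hμ : ∀ v ∈ V, 0 < μ v) {t : E}
    (hno : ¬ ∃ k : ι → ℝ, (∀ v ∈ V, 0 < k v ∧ k v < μ v) ∧ ∑ v ∈ V, k v • g v = t) :
    ∃ φ : E →ₗ[ℝ] ℝ, φ ≠ 0 ∧ ∑ v ∈ V, μ v * max 0 (φ (g v)) ≤ φ t := by
  classical
  let T : (V → ℝ) →ₗ[ℝ] E :=
    { toFun := fun k => ∑ v : V, k v • g v
      map_add' := by
        intro k k'
        rw [← Finset.sum_add_distrib]
        exact Finset.sum_congr rfl fun v _ => add_smul _ _ _
      map_smul' := by
        intro c k
        rw [RingHom.id_apply, Finset.smul_sum]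
        exact Finset.sum_congr rfl fun v _ => mul_smul _ _ _ }
  have hT : ∀ k : V → ℝ, T k = ∑ v : V, k v • g v := fun _ => rfl
  have hsurj : Function.Surjective T := by
    rw [← LinearMap.range_eq_top, eq_top_iff, ← hspan, Submodule.span_le]
    rintro _ ⟨v, hv, rfl⟩
    refine ⟨Pi.single ⟨v, hv⟩ 1, ?_⟩
    rw [hT, Finset.sum_eq_single ⟨v, hv⟩]
    · rw [Pi.single_eq_same, one_smul]
    · intro w _ hw
      rw [Pi.single_eq_of_ne hw, zero_smul]
    · intro h
      exact absurd (Finset.mem_univ _) h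
  let B : Set (V → ℝ) := Set.pi Set.univ fun v => Set.Ioo 0 (μ v)
  have hBo : IsOpen B := isOpen_set_pi Set.finite_univ fun v _ => isOpen_Ioo
  have hBc : Convex ℝ B := convex_pi fun v _ => convex_Ioo 0 (μ v)
  have hU : IsOpen (T '' B) := T.isOpenMap_of_finiteDimensional hsurj _ hBo
  have hUc : Convex ℝ (T '' B) := hBc.linear_image T
  have hsum : ∀ k : ι → ℝ, T (fun v : V => k v) = ∑ v ∈ V, k v • g v := by
    intro k
    rw [hT]
    exact Finset.sum_coe_sort V fun v => k v • g v
  have htU : t ∉ T '' B := by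
    rintro ⟨k, hk, hkt⟩
    apply hno
    refine ⟨fun v => if h : v ∈ V then k ⟨v, h⟩ else 0, ?_, ?_⟩
    · intro v hv
      have h1 := hk ⟨v, hv⟩ (Set.mem_univ _)
      simp only [hv, dif_pos]
      exact ⟨h1.1, h1.2⟩
    · rw [← hsum, ← hkt]
      congr 1
      funext v
      simp only [v.2, dif_pos]
  obtain ⟨f, hf⟩ := geometric_hahn_banach_open_point hUc hU htU
  -- the values on the open box
  have hval : ∀ k : ι → ℝ, (∀ v ∈ V, 0 < k v ∧ k v < μ v) → ∑ v ∈ V, k v * f (g v) < f t := by
    intro k hk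
    have h1 := hf (T fun v : V => k v) ⟨fun v : V => k v, fun v _ => ⟨(hk v v.2).1, (hk v v.2).2⟩, rfl⟩
    rw [hsum, map_sum] at h1
    simpa only [map_smul, smul_eq_mul] using h1
  refine ⟨f.toLinearMap, ?_, ?_⟩
  · intro h0
    have h1 := hval (fun v => μ v / 2) fun v hv => ⟨by have := hμ v hv; positivity, by
      have := hμ v hv
      linarith⟩
    have h2 : ∀ x, f x = 0 := fun x => by
      have := LinearMap.congr_fun h0 x
      simpa using this
    simp [h2] at h1
  · show ∑ v ∈ V, μ v * max 0 (f (g v)) ≤ f t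
    set P : ℝ := ∑ v ∈ V, μ v * max 0 (f (g v)) with hP
    set Q : ℝ := ∑ v ∈ V, μ v * |f (g v)| with hQ
    have hQ0 : 0 ≤ Q := Finset.sum_nonneg fun v hv => mul_nonneg (hμ v hv).le (abs_nonneg _)
    have hmain : ∀ ε : ℝ, 0 < ε → ε < 1 → P - ε * Q < f t := by
      intro ε h0 h1
      have h2 := hval (fun v => if 0 < f (g v) then (1 - ε) * μ v else ε * μ v) (by
        intro v hv
        have h3 := hμ v hv
        by_cases h4 : 0 < f (g v)
        · simp only [h4, if_true]
          constructor
          · exact mul_pos (by linarith) h3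
          · nlinarith
        · simp only [h4, if_false]
          constructor
          · positivity
          · nlinarith)
      refine lt_of_le_of_lt (le_of_eq ?_) h2
      rw [hP, hQ, Finset.mul_sum, ← Finset.sum_sub_distrib]
      apply Finset.sum_congr rfl
      intro v _
      by_cases h4 : 0 < f (g v)
      · simp only [h4, if_true]
        rw [max_eq_right h4.le, abs_of_pos h4]
        ring
      · simp only [h4, if_false]
        rw [max_eq_left (not_lt.1 h4), abs_of_nonpos (not_lt.1 h4)]
        ring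
    by_contra hlt
    rw [not_le] at hlt
    set ε : ℝ := min (1 / 2) ((P - f t) / (Q + 1)) with hε
    have hε0 : 0 < ε := lt_min (by norm_num) (div_pos (by linarith) (by linarith))
    have hε1 : ε < 1 := lt_of_le_of_lt (min_le_left _ _) (by norm_num)
    have hε2 : ε * (Q + 1) ≤ P - f t := by
      rw [← le_div_iff₀ (by linarith)]
      exact min_le_right _ _
    have h5 := hmain ε hε0 hε1
    nlinarith

end Pool.Agent.Lib.MPa7239a.R3X
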