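import Pool.Agent.Lib.MP_a7239a_co.R3X.NF

/-! # R3X/COMP (helper29) -/

set_option autoImplicit false

universe u

open Finset
open scoped Pointwise

namespace Pool.Agent.Lib.MPa7239a.R3X

open Pool.Agent.Lib.MPa7239a.GC (Hit)

section
variable {p : ℕ} [Fact p.Prime] {G : Type u} [AddCommGroup G] [Module (ZMod p) G] [Fintype G]
  [DecidableEq G]

/-- the forced part: `F` and `k i` elements of the class `i` for `i ∈ I` -/
theorem COMPM.base {A : Finset G} {α β : G →ₗ[ZMod p] ZMod p} {F : Finset G} (hF : F ⊆ A)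
    {ι : Type} [Fintype ι] [DecidableEq ι] {x y : ι → ZMod p}
    (hxy : ∀ i j, x i = x j → y i = y j → i = j) {k : ι → ℕ}
    (hk : ∀ i, k i ≤ #(cl A α β (x i) (y i)))
    (hFd : ∀ a ∈ F, ∀ i, ¬ (α a = x i ∧ β a = y i)) (I : Finset ι) :
    ∃ R ⊆ A, #R = #F + ∑ l ∈ I, k l ∧
      α (∑ a ∈ R, a) = ∑ a ∈ F, α a + ∑ l ∈ I, (k l : ZMod p) * x l ∧
      β (∑ a ∈ R, a) = ∑ a ∈ F, β a + ∑ l ∈ I, (k l : ZMod p) * y l ∧
      ∀ a ∈ R, ∀ i ∉ I, ¬ (α a = x i ∧ β a = y i) := by
  induction I using Finset.induction_on with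
  | empty =>
    refine ⟨F, hF, by simp, ?_, ?_, fun a ha i _ => hFd a ha i⟩
    · rw [map_sum]; simp
    · rw [map_sum]; simp
  | insert l I hl ih =>
    obtain ⟨R, hR, hRc, hRa, hRb, hRd⟩ := ih
    obtain ⟨T, hT, hTc⟩ := Finset.exists_subset_card_eq (hk l)
    have hTm : ∀ a ∈ T, a ∈ A ∧ α a = x l ∧ β a = y l := fun a ha => mem_cl.1 (hT ha)
    have hd : Disjoint R T := by
      rw [Finset.disjoint_left]
      intro a ha haT
      exact hRd a ha l hl (hTm a haT).2
    refine ⟨R ∪ T, ?_, ?_, ?_, ?_, ?_⟩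
    · exact Finset.union_subset hR (fun a ha => (hTm a ha).1)
    · rw [Finset.card_union_of_disjoint hd, hRc, hTc, Finset.sum_insert hl]
      ring
    · rw [Finset.sum_union hd, map_add, hRa, map_sum,
        Finset.sum_congr rfl (fun a ha => (hTm a ha).2.1), Finset.sum_const, hTc,
        Finset.sum_insert hl, nsmul_eq_mul]
      ring
    · rw [Finset.sum_union hd, map_add, hRb, map_sum,
        Finset.sum_congr rfl (fun a ha => (hTm a ha).2.2), Finset.sum_const, hTc,
        Finset.sum_insert hl, nsmul_eq_mul]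
      ring
    · intro a ha i hi h
      have hi1 : i ≠ l := fun h => hi (h ▸ Finset.mem_insert_self _ _)
      have hi2 : i ∉ I := fun h => hi (Finset.mem_insert_of_mem h)
      rcases Finset.mem_union.1 ha with ha | ha
      · exact hRd a ha i hi2 h
      · apply hi1
        apply hxy
        · rw [← h.1, (hTm a ha).2.1]
        · rw [← h.2, (hTm a ha).2.2]

theorem COMPM.mem_ker {α β : G →ₗ[ZMod p] ZMod p} {a : G} :
    a ∈ (LinearMap.ker α ⊓ LinearMap.ker β : Submodule (ZMod p) G) ↔ α a = 0 ∧ β a = 0 := by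
  rw [Submodule.mem_inf, LinearMap.mem_ker, LinearMap.mem_ker]

theorem comp (hp : 100 ≤ p) {A : Finset G} {α β : G →ₗ[ZMod p] ZMod p}
    (hL : Nat.card (LinearMap.ker α ⊓ LinearMap.ker β : Submodule (ZMod p) G) = p)
    {F : Finset G} (hF : F ⊆ A) {ι : Type} [Fintype ι] [DecidableEq ι] {x y : ι → ZMod p}
    (hxy : ∀ i j, x i = x j → y i = y j → i = j) {k : ι → ℕ}
    (hk : ∀ i, k i ≤ #(cl A α β (x i) (y i))) (hs : ∀ i, 7 * p ≤ 8 * #(cl A α β (x i) (y i)))
    (hFd : ∀ a ∈ F, ∀ i, ¬ (α a = x i ∧ β a = y i)) (hcard : #F + ∑ i, k i = p)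
    (hα : ∑ a ∈ F, α a + ∑ i, (k i : ZMod p) * x i = 0)
    (hβ : ∑ a ∈ F, β a + ∑ i, (k i : ZMod p) * y i = 0)
    (hgood : (∃ i, 2 ≤ k i ∧ k i + 2 ≤ #(cl A α β (x i) (y i))) ∨
      ∃ i j, i ≠ j ∧ (1 ≤ k i ∧ k i + 1 ≤ #(cl A α β (x i) (y i))) ∧
        1 ≤ k j ∧ k j + 1 ≤ #(cl A α β (x j) (y j))) : Hit A p 0 := by
  have hex : ∀ i, ∃ b, b ∈ A ∧ α b = x i ∧ β b = y i := by
    intro i
    have h1 : 0 < #(cl A α β (x i) (y i)) := by
      have := hs i
      omega
    obtain ⟨b, hb⟩ := Finset.card_pos.1 h1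
    exact ⟨b, mem_cl.1 hb⟩
  have hcos : ∀ i, ∀ b, (α b = x i ∧ β b = y i) → ∀ a ∈ cl A α β (x i) (y i),
      a - b ∈ (LinearMap.ker α ⊓ LinearMap.ker β : Submodule (ZMod p) G) := by
    intro i b hb a ha
    have ha' := mem_cl.1 ha
    rw [COMPM.mem_ker, map_sub, map_sub, ha'.2.1, ha'.2.2, hb.1, hb.2]
    simp
  -- final step: the forced part and a free part
  have hfin : ∀ (R B : Finset G) (k' : ℕ), R ⊆ A → B ⊆ A → Disjoint R B → #R + k' = p →
      Hit B k' (0 - ∑ a ∈ R, a) → Hit A p 0 := by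
    rintro R B k' hR hB hd hc ⟨T, hT, hTc, hTs⟩
    have hdT : Disjoint R T := hd.mono_right hT
    refine ⟨R ∪ T, Finset.union_subset hR (hT.trans hB), ?_, ?_⟩
    · rw [Finset.card_union_of_disjoint hdT, hTc, hc]
    · rw [Finset.sum_union hdT, hTs]; abel
  have hclA : ∀ i, cl A α β (x i) (y i) ⊆ A := fun i a ha => (mem_cl.1 ha).1
  rcases hgood with ⟨i, hi2, hi3⟩ | ⟨i, j, hij, ⟨hi1, hi2⟩, hj1, hj2⟩
  · obtain ⟨R, hR, hRc, hRa, hRb, hRd⟩ := COMPM.base hF hxy hk hFd (Finset.univ.erase i)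
    obtain ⟨b, -, hb⟩ := hex i
    have e1 : ∑ l ∈ Finset.univ.erase i, k l + k i = ∑ l, k l :=
      Finset.sum_erase_add _ _ (Finset.mem_univ i)
    have e2 : ∑ l ∈ Finset.univ.erase i, (k l : ZMod p) * x l + (k i : ZMod p) * x i =
        ∑ l, (k l : ZMod p) * x l :=
      Finset.sum_erase_add Finset.univ (fun l => (k l : ZMod p) * x l) (Finset.mem_univ i)
    have e3 : ∑ l ∈ Finset.univ.erase i, (k l : ZMod p) * y l + (k i : ZMod p) * y i =
        ∑ l, (k l : ZMod p) * y l :=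
      Finset.sum_erase_add Finset.univ (fun l => (k l : ZMod p) * y l) (Finset.mem_univ i)
    refine hfin R (cl A α β (x i) (y i)) (k i) hR (hclA i) ?_ (by omega) ?_
    · rw [Finset.disjoint_left]
      intro a ha hac
      exact hRd a ha i (Finset.notMem_erase i _) (mem_cl.1 hac).2
    · refine nf hp hL (x := b) (hcos i b hb) (hs i) hi2 hi3 ?_
      rw [COMPM.mem_ker, map_sub, map_sub, map_sub, map_sub, map_nsmul, map_nsmul, map_zero,
        map_zero, hRa, hRb, hb.1, hb.2, nsmul_eq_mul, nsmul_eq_mul]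
      constructor
      · linear_combination -hα - e2
      · linear_combination -hβ - e3
  · obtain ⟨R, hR, hRc, hRa, hRb, hRd⟩ :=
      COMPM.base hF hxy hk hFd ((Finset.univ.erase i).erase j)
    obtain ⟨b, -, hb⟩ := hex i
    obtain ⟨b', -, hb'⟩ := hex j
    have hjm : j ∈ Finset.univ.erase i := Finset.mem_erase.2 ⟨hij.symm, Finset.mem_univ j⟩
    have e1 : ∑ l ∈ Finset.univ.erase i, k l + k i = ∑ l, k l :=
      Finset.sum_erase_add _ _ (Finset.mem_univ i)
    have e2 : ∑ l ∈ Finset.univ.erase i, (k l : ZMod p) * x l + (k i : ZMod p) * x i =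
        ∑ l, (k l : ZMod p) * x l :=
      Finset.sum_erase_add Finset.univ (fun l => (k l : ZMod p) * x l) (Finset.mem_univ i)
    have e3 : ∑ l ∈ Finset.univ.erase i, (k l : ZMod p) * y l + (k i : ZMod p) * y i =
        ∑ l, (k l : ZMod p) * y l :=
      Finset.sum_erase_add Finset.univ (fun l => (k l : ZMod p) * y l) (Finset.mem_univ i)
    have f1 : ∑ l ∈ (Finset.univ.erase i).erase j, k l + k j = ∑ l ∈ Finset.univ.erase i, k l :=
      Finset.sum_erase_add _ _ hjm
    have f2 : ∑ l ∈ (Finset.univ.erase i).erase j, (k l : ZMod p) * x l + (k j : ZMod p) * x j =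
        ∑ l ∈ Finset.univ.erase i, (k l : ZMod p) * x l :=
      Finset.sum_erase_add _ (fun l => (k l : ZMod p) * x l) hjm
    have f3 : ∑ l ∈ (Finset.univ.erase i).erase j, (k l : ZMod p) * y l + (k j : ZMod p) * y j =
        ∑ l ∈ Finset.univ.erase i, (k l : ZMod p) * y l :=
      Finset.sum_erase_add _ (fun l => (k l : ZMod p) * y l) hjm
    have hdd : Disjoint (cl A α β (x i) (y i)) (cl A α β (x j) (y j)) := by
      rw [Finset.disjoint_left]
      intro a ha ha'
      have h1 := (mem_cl.1 ha).2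
      have h2 := (mem_cl.1 ha').2
      exact hij (hxy i j (h1.1.symm.trans h2.1) (h1.2.symm.trans h2.2))
    refine hfin R (cl A α β (x i) (y i) ∪ cl A α β (x j) (y j)) (k i + k j) hR
      (Finset.union_subset (hclA i) (hclA j)) ?_ (by omega) ?_
    · rw [Finset.disjoint_left]
      intro a ha hac
      rcases Finset.mem_union.1 hac with h | h
      · refine hRd a ha i ?_ (mem_cl.1 h).2
        intro h'
        exact Finset.notMem_erase i _ (Finset.mem_of_mem_erase h')
      · exact hRd a ha j (Finset.notMem_erase j _) (mem_cl.1 h).2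
    · refine nf2 hp hL hdd (x := b) (x' := b') (hcos i b hb) (hcos j b' hb') (hs i) (hs j)
        hi1 hi2 hj1 hj2 ?_
      rw [COMPM.mem_ker]
      simp only [map_sub, map_nsmul, map_zero, hRa, hRb, hb.1, hb.2, hb'.1, hb'.2, nsmul_eq_mul]
      constructor
      · linear_combination -hα - e2 - f2
      · linear_combination -hβ - e3 - f3

end

end Pool.Agent.Lib.MPa7239a.R3X
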