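import Pool.Agent.Lib.MP_a7239a_co.R3X.COMP

/-! # Module CORN: a corner with enough near elements -/

set_option autoImplicit false

universe u

open Finset
open scoped Pointwise

namespace Pool.Agent.Lib.MPa7239a.R3X

open Pool.Agent.Lib.MPa7239a.GC (Hit)

section
variable {p : ℕ} [Fact p.Prime] {G : Type u} [AddCommGroup G] [Module (ZMod p) G] [Fintype G]
  [DecidableEq G]

namespace CORNM

omit [Fintype G] [DecidableEq G] in
lemma cast_zero_small {k : ℕ} (hp : 1000 ≤ p) (hk : 20 * k ≤ p) (h : (k : ZMod p) = 0) : k = 0 := by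
  rw [ZMod.natCast_eq_zero_iff] at h
  by_contra h0
  have := Nat.le_of_dvd (Nat.pos_of_ne_zero h0) h
  omega

lemma cast_ne_neg_one {k : ℕ} (hp : 1000 ≤ p) (hk : 20 * k ≤ p) (h : (k : ZMod p) = -1) : False := by
  have h1 : ((k + 1 : ℕ) : ZMod p) = 0 := by push_cast; rw [h]; ring
  rw [ZMod.natCast_eq_zero_iff] at h1
  have := Nat.le_of_dvd (Nat.succ_pos k) h1
  omega

/-- the last step: a set `F` of near elements of the right size -/
lemma finish (hp : 1000 ≤ p) {A : Finset G} {α β : G →ₗ[ZMod p] ZMod p} {a₀ b₀ : ZMod p}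
    (hL : Nat.card (LinearMap.ker α ⊓ LinearMap.ker β : Submodule (ZMod p) G) = p) {s : ℕ}
    (c0 : #(cl A α β a₀ b₀) + s = p) (hs2 : 50 * s ≤ p)
    (c1 : 49 * p ≤ 50 * #(cl A α β a₀ (b₀ + 1))) (c2 : 49 * p ≤ 50 * #(cl A α β (a₀ + 1) b₀))
    {F : Finset G} (hF : F ⊆ A) (k u : G → ℕ)
    (hku : ∀ e ∈ F, 1 ≤ k e + u e ∧ 20 * k e ≤ p ∧ 20 * u e ≤ p ∧ α e = a₀ - k e ∧
      β e = b₀ - u e)
    (h1 : 4 * (#F + (∑ e ∈ F, k e + ∑ e ∈ F, u e)) ≤ p)
    (h2 : s ≤ #F + (∑ e ∈ F, k e + ∑ e ∈ F, u e))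
    (h3 : 2 ≤ ∑ e ∈ F, k e + ∑ e ∈ F, u e ∨
      (∑ e ∈ F, k e + ∑ e ∈ F, u e = 1 ∧ s = 1 ∧ #F = 1)) : Hit A p 0 := by
  obtain ⟨K, hK⟩ : ∃ K, K = ∑ e ∈ F, k e := ⟨_, rfl⟩
  obtain ⟨U, hU⟩ : ∃ U, U = ∑ e ∈ F, u e := ⟨_, rfl⟩
  rw [← hK, ← hU] at h1 h2 h3
  have hone : (1 : ZMod p) ≠ 0 := one_ne_zero
  have hzero : ((p : ℕ) : ZMod p) = 0 := ZMod.natCast_self p
  have hsumα : ∑ a ∈ F, α a = (#F : ZMod p) * a₀ - K := by
    rw [Finset.sum_congr rfl (fun e he => (hku e he).2.2.2.1), Finset.sum_sub_distrib,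
      Finset.sum_const, nsmul_eq_mul, hK]
    push_cast
    rfl
  have hsumβ : ∑ a ∈ F, β a = (#F : ZMod p) * b₀ - U := by
    rw [Finset.sum_congr rfl (fun e he => (hku e he).2.2.2.2), Finset.sum_sub_distrib,
      Finset.sum_const, nsmul_eq_mul, hU]
    push_cast
    rfl
  have hle : #F + (K + U) ≤ p := by omega
  have hk0 : ((p - (#F + (K + U)) : ℕ) : ZMod p) = -((#F : ZMod p) + (K + U)) := by
    rw [Nat.cast_sub hle, hzero]
    push_cast
    ring
  refine comp (by omega) hL hF (ι := Fin 3) (x := ![a₀, a₀, a₀ + 1]) (y := ![b₀, b₀ + 1, b₀])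
    (k := ![p - (#F + (K + U)), U, K]) ?_ ?_ ?_ ?_ ?_ ?_ ?_ ?_
  · intro i j hx hy
    fin_cases i <;> fin_cases j <;> simp_all
  · intro i
    fin_cases i
    · show p - (#F + (K + U)) ≤ #(cl A α β a₀ b₀)
      omega
    · show U ≤ #(cl A α β a₀ (b₀ + 1))
      omega
    · show K ≤ #(cl A α β (a₀ + 1) b₀)
      omega
  · intro i
    fin_cases i
    · show 7 * p ≤ 8 * #(cl A α β a₀ b₀)
      omega
    · show 7 * p ≤ 8 * #(cl A α β a₀ (b₀ + 1))
      omega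
    · show 7 * p ≤ 8 * #(cl A α β (a₀ + 1) b₀)
      omega
  · intro a ha i
    obtain ⟨g1, g2, g3, g4, g5⟩ := hku a ha
    fin_cases i
    · show ¬ (α a = a₀ ∧ β a = b₀)
      rintro ⟨e1, e2⟩
      rw [g4] at e1
      rw [g5] at e2
      have e3 : (k a : ZMod p) = 0 := by simpa using e1
      have e4 : (u a : ZMod p) = 0 := by simpa using e2
      have := cast_zero_small hp g2 e3
      have := cast_zero_small hp g3 e4
      omega
    · show ¬ (α a = a₀ ∧ β a = b₀ + 1)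
      rintro ⟨-, e2⟩
      rw [g5] at e2
      refine cast_ne_neg_one (p := p) hp g3 ?_
      linear_combination -e2
    · show ¬ (α a = a₀ + 1 ∧ β a = b₀)
      rintro ⟨e1, -⟩
      rw [g4] at e1
      refine cast_ne_neg_one (p := p) hp g2 ?_
      linear_combination -e1
  · rw [Fin.sum_univ_three]
    show #F + (p - (#F + (K + U)) + U + K) = p
    omega
  · rw [Fin.sum_univ_three, hsumα]
    show (#F : ZMod p) * a₀ - K + (((p - (#F + (K + U)) : ℕ) : ZMod p) * a₀ + (U : ZMod p) * a₀ +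
      (K : ZMod p) * (a₀ + 1)) = 0
    rw [hk0]
    ring
  · rw [Fin.sum_univ_three, hsumβ]
    show (#F : ZMod p) * b₀ - U + (((p - (#F + (K + U)) : ℕ) : ZMod p) * b₀ +
      (U : ZMod p) * (b₀ + 1) + (K : ZMod p) * b₀) = 0
    rw [hk0]
    ring
  · by_cases hK2 : 2 ≤ K
    · left
      refine ⟨2, ?_⟩
      show 2 ≤ K ∧ K + 2 ≤ #(cl A α β (a₀ + 1) b₀)
      omega
    by_cases hU2 : 2 ≤ U
    · left
      refine ⟨1, ?_⟩
      show 2 ≤ U ∧ U + 2 ≤ #(cl A α β a₀ (b₀ + 1))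
      omega
    right
    by_cases hK1 : 1 ≤ K
    · by_cases hU1 : 1 ≤ U
      · refine ⟨1, 2, by decide, ?_, ?_⟩
        · show 1 ≤ U ∧ U + 1 ≤ #(cl A α β a₀ (b₀ + 1))
          omega
        · show 1 ≤ K ∧ K + 1 ≤ #(cl A α β (a₀ + 1) b₀)
          omega
      · refine ⟨0, 2, by decide, ?_, ?_⟩
        · show 1 ≤ p - (#F + (K + U)) ∧ p - (#F + (K + U)) + 1 ≤ #(cl A α β a₀ b₀)
          omega
        · show 1 ≤ K ∧ K + 1 ≤ #(cl A α β (a₀ + 1) b₀)
          omega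
    · refine ⟨0, 1, by decide, ?_, ?_⟩
      · show 1 ≤ p - (#F + (K + U)) ∧ p - (#F + (K + U)) + 1 ≤ #(cl A α β a₀ b₀)
        omega
      · show 1 ≤ U ∧ U + 1 ≤ #(cl A α β a₀ (b₀ + 1))
        omega

end CORNM

theorem corner (hp : 1000 ≤ p) {A : Finset G} {α β : G →ₗ[ZMod p] ZMod p} {a₀ b₀ : ZMod p}
    (hL : Nat.card (LinearMap.ker α ⊓ LinearMap.ker β : Submodule (ZMod p) G) = p) {s : ℕ}
    (c0 : #(cl A α β a₀ b₀) + s = p) (hs1 : 1 ≤ s) (hs2 : 50 * s ≤ p)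
    (c1 : 49 * p ≤ 50 * #(cl A α β a₀ (b₀ + 1))) (c2 : 49 * p ≤ 50 * #(cl A α β (a₀ + 1) b₀))
    {E : Finset G} (hE : E ⊆ A) (hnr : ∀ e ∈ E, Nr p α β a₀ b₀ e) (h1 : 1 ≤ #E)
    (h2 : s ≤ 2 * #E) (h3 : ¬ (#E = 1 ∧ s = 2)) : Hit A p 0 := by
  classical
  have hch : ∀ e : G, ∃ ku : ℕ × ℕ, e ∈ E → 1 ≤ ku.1 + ku.2 ∧ 20 * ku.1 ≤ p ∧ 20 * ku.2 ≤ p ∧
      α e = a₀ - ku.1 ∧ β e = b₀ - ku.2 := by
    intro e
    by_cases he : e ∈ E
    · obtain ⟨k, u, g1, g2, g3, g4, g5⟩ := hnr e he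
      exact ⟨(k, u), fun _ => ⟨g1, g2, g3, g4, g5⟩⟩
    · exact ⟨(0, 0), fun h => absurd h he⟩
  choose ku hku using hch
  -- lower bound of the weight
  have hlow : ∀ F ⊆ E, #F ≤ ∑ e ∈ F, (ku e).1 + ∑ e ∈ F, (ku e).2 := by
    intro F hF
    rw [← Finset.sum_add_distrib, Finset.card_eq_sum_ones]
    exact Finset.sum_le_sum (fun e he => (hku e (hF he)).1)
  by_cases hs : s = 1
  · obtain ⟨e, he⟩ := Finset.card_pos.mp h1
    obtain ⟨g1, g2, g3, g4, g5⟩ := hku e he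
    refine CORNM.finish hp hL c0 hs2 c1 c2 (F := {e}) (by simpa using hE he) (fun e => (ku e).1)
      (fun e => (ku e).2) ?_ ?_ ?_ ?_
    · intro a ha
      rw [Finset.mem_singleton] at ha
      subst ha
      exact ⟨g1, g2, g3, g4, g5⟩
    · rw [Finset.sum_singleton, Finset.sum_singleton, Finset.card_singleton]
      omega
    · rw [Finset.sum_singleton, Finset.sum_singleton, Finset.card_singleton]
      omega
    · rw [Finset.sum_singleton, Finset.sum_singleton, Finset.card_singleton]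
      omega
  · have hn2 : 2 ≤ #E := by
      by_contra hlt
      exact h3 ⟨by omega, by omega⟩
    obtain ⟨F, hFm, hFmin⟩ := Finset.exists_min_image
      (E.powerset.filter (fun F => 2 ≤ #F ∧ s ≤ #F + (∑ e ∈ F, (ku e).1 + ∑ e ∈ F, (ku e).2)))
      (fun F => #F) ⟨E, by
        rw [Finset.mem_filter, Finset.mem_powerset]
        refine ⟨Finset.Subset.refl _, hn2, ?_⟩
        have := hlow E (Finset.Subset.refl _)
        omega⟩
    rw [Finset.mem_filter, Finset.mem_powerset] at hFm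
    obtain ⟨hFE, hF2, hFs⟩ := hFm
    have hlF := hlow F hFE
    refine CORNM.finish hp hL c0 hs2 c1 c2 (F := F) (hFE.trans hE) (fun e => (ku e).1)
      (fun e => (ku e).2) (fun a ha => hku a (hFE ha)) ?_ hFs (Or.inl (by omega))
    show 4 * (#F + (∑ e ∈ F, (ku e).1 + ∑ e ∈ F, (ku e).2)) ≤ p
    obtain ⟨e, he⟩ := Finset.card_pos.mp (by omega : 0 < #F)
    obtain ⟨g1, g2, g3, g4, g5⟩ := hku e (hFE he)
    have s1 := Finset.add_sum_erase F (fun e => (ku e).1) he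
    have s2 := Finset.add_sum_erase F (fun e => (ku e).2) he
    have s3 := Finset.card_erase_of_mem he
    by_cases hcard : #F = 2
    · obtain ⟨e', he'⟩ := Finset.card_pos.mp (by omega : 0 < #(F.erase e))
      obtain ⟨g1', g2', g3', g4', g5'⟩ := hku e' (hFE (Finset.mem_of_mem_erase he'))
      have hsing : F.erase e = {e'} := by
        have hc1 : #(F.erase e) = 1 := by omega
        obtain ⟨x, hx⟩ := Finset.card_eq_one.mp hc1
        rw [hx, Finset.mem_singleton] at he'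
        rw [hx, he']
      rw [hsing, Finset.sum_singleton] at s1 s2
      omega
    · by_contra hcon
      have hmem : F.erase e ∈ E.powerset.filter (fun F => 2 ≤ #F ∧
          s ≤ #F + (∑ e ∈ F, (ku e).1 + ∑ e ∈ F, (ku e).2)) := by
        rw [Finset.mem_filter, Finset.mem_powerset]
        refine ⟨(Finset.erase_subset _ _).trans hFE, by omega, by omega⟩
      have := hFmin _ hmem
      omega

end

end Pool.Agent.Lib.MPa7239a.R3X
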