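import Pool.Agent.Lib.MP_a7239a_co.R3X.Defs

/-!
# R3X, module COV: either bounded integer combinations represent everything or a multiple is bounded
-/

set_option autoImplicit false

universe u

open Finset

namespace Pool.Agent.Lib.MPa7239a.R3X

namespace COVM

/-- Dirichlet approximation in `ZMod p` -/
theorem dir (p : ℕ) [Fact p.Prime] (g : ZMod p) {n : ℕ} (hn : 0 < n) :
    ∃ a h : ℤ, 1 ≤ a ∧ a ≤ n ∧ (h : ZMod p) = a * g ∧ ((n : ℤ) + 1) * |h| ≤ p := by
  have hp : 0 < p := (Fact.out : p.Prime).pos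
  have hp' : (0 : ℝ) < p := by exact_mod_cast hp
  obtain ⟨j, k, hk0, hkn, hjk⟩ := Real.exists_int_int_abs_mul_sub_le ((g.val : ℝ) / p) hn
  refine ⟨k, k * g.val - j * p, hk0, hkn, ?_, ?_⟩
  · push_cast
    rw [ZMod.natCast_self, mul_zero, sub_zero, ZMod.natCast_zmod_val]
  · have h1 : |((k : ℝ) * ((g.val : ℝ) / p) - j) * p| ≤ 1 / ((n : ℝ) + 1) * p := by
      rw [abs_mul, abs_of_pos hp']
      exact mul_le_mul_of_nonneg_right hjk hp'.le
    have h2 : ((k : ℝ) * ((g.val : ℝ) / p) - j) * p = ((k * g.val - j * p : ℤ) : ℝ) := by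
      push_cast
      field_simp
    rw [h2] at h1
    have h3 : ((n : ℝ) + 1) * |((k * g.val - j * p : ℤ) : ℝ)| ≤ p := by
      have hn1 : (0 : ℝ) < (n : ℝ) + 1 := by positivity
      calc ((n : ℝ) + 1) * |((k * g.val - j * p : ℤ) : ℝ)| ≤ ((n : ℝ) + 1) * (1 / ((n : ℝ) + 1) * p) :=
            mul_le_mul_of_nonneg_left h1 hn1.le
        _ = p := by field_simp
    exact_mod_cast h3

/-- the absolute minimum is at most any representative -/
theorem natAbs_le {p : ℕ} [Fact p.Prime] {x : ZMod p} {y : ℤ} (h : (y : ZMod p) = x) :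
    x.valMinAbs.natAbs ≤ y.natAbs := by
  apply ZMod.natAbs_min_of_le_div_two p _ _ _ (ZMod.natAbs_valMinAbs_le x)
  rw [ZMod.coe_valMinAbs, h]

end COVM

open COVM in
theorem cov (r e : ℕ) (he : 1 ≤ e) : ∃ K : ℕ, ∀ (p : ℕ) [Fact p.Prime] {ι : Type u} [DecidableEq ι]
    (C : Finset ι) (γ : ι → ZMod p), #C ≤ r →
    (∀ z : ZMod p, ∃ j : ι → ℤ, (∀ i ∈ C, (e : ℤ) * |j i| ≤ p) ∧
      ∑ i ∈ C, (j i : ZMod p) * γ i = z) ∨
    ∃ t : ZMod p, t ≠ 0 ∧ ∀ i ∈ C, (t * γ i).valMinAbs.natAbs ≤ K := by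
  refine ⟨(4 * e) ^ (r + 3), ?_⟩
  intro p _ ι _ C γ hr
  by_cases hp : p ≤ (4 * e) ^ (r + 3)
  · right
    refine ⟨1, one_ne_zero, fun i _ => ?_⟩
    exact (ZMod.natAbs_valMinAbs_le _).trans ((Nat.div_le_self _ _).trans hp)
  push Not at hp
  by_cases h0 : ∀ i ∈ C, γ i = 0
  · right
    refine ⟨1, one_ne_zero, fun i hi => ?_⟩
    simp [h0 i hi]
  push Not at h0
  obtain ⟨i₁, hi₁, hγ⟩ := h0
  have hex : ∀ i : ι, ∃ a h : ℤ, 1 ≤ a ∧ a ≤ ((2 * e : ℕ) : ℤ) ∧ (h : ZMod p) = a * (γ i / γ i₁) ∧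
      (((2 * e : ℕ) : ℤ) + 1) * |h| ≤ p := fun i => dir p _ (by omega)
  choose a h ha1 ha2 hh hhp using hex
  have hpe : 64 * (e : ℤ) ^ 3 ≤ p := by
    have h1 : (4 * e) ^ 3 ≤ (4 * e) ^ (r + 3) := Nat.pow_le_pow_right (by omega) (by omega)
    have h2 : (4 * e) ^ 3 ≤ p := h1.trans hp.le
    have h3 : 64 * e ^ 3 ≤ p := by
      calc 64 * e ^ 3 = (4 * e) ^ 3 := by ring
        _ ≤ p := h2
    exact_mod_cast h3
  have he' : (1 : ℤ) ≤ e := by exact_mod_cast he
  by_cases hA : ∃ i ∈ C, 4 * (e : ℤ) ^ 2 < |h i|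
  · left
    obtain ⟨i, hi, hbig⟩ := hA
    intro z
    set Z : ℤ := (z / γ i₁).valMinAbs with hZ
    have hZp : 2 * |Z| ≤ p := by
      have h1 := ZMod.natAbs_valMinAbs_le (z / γ i₁)
      rw [← hZ] at h1
      have h2 : 2 * Z.natAbs ≤ p := by omega
      rw [Int.abs_eq_natAbs]
      exact_mod_cast h2
    have hh0 : h i ≠ 0 := by
      intro h1
      rw [h1, abs_zero] at hbig
      nlinarith
    set s : ℤ := Z / h i with hs
    set q : ℤ := Z % h i with hq
    have hsq : h i * s + q = Z := Int.mul_ediv_add_emod Z (h i)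
    have hq0 : 0 ≤ q := Int.emod_nonneg _ hh0
    have hq1 : q < |h i| := Int.emod_lt_abs _ hh0
    have hsle : |h i| * |s| ≤ |Z| + |h i| := by
      rw [← abs_mul]
      have : h i * s = Z - q := by linarith
      rw [this]
      calc |Z - q| ≤ |Z| + |q| := abs_sub _ _
        _ ≤ |Z| + |h i| := by rw [abs_of_nonneg hq0]; linarith
    refine ⟨fun k => (if k = i then a i * s else 0) + (if k = i₁ then q else 0), ?_, ?_⟩
    · intro k _
      have h1 : |(if k = i then a i * s else 0) + (if k = i₁ then q else 0)| ≤ a i * |s| + q := by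
        refine (abs_add_le _ _).trans (add_le_add ?_ ?_)
        · split_ifs
          · rw [abs_mul, abs_of_nonneg (by linarith [ha1 i] : (0 : ℤ) ≤ a i)]
          · rw [abs_zero]
            exact mul_nonneg (by linarith [ha1 i]) (abs_nonneg _)
        · split_ifs
          · rw [abs_of_nonneg hq0]
          · rw [abs_zero]; exact hq0
      refine (mul_le_mul_of_nonneg_left h1 (by linarith)).trans ?_
      have hs0 := abs_nonneg s
      have hh' := abs_nonneg (h i)
      have h2 : 4 * (e : ℤ) ^ 2 * |s| ≤ |Z| + 4 * (e : ℤ) ^ 2 := by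
        rcases eq_or_lt_of_le hs0 with h3 | h3
        · rw [← h3]
          have := abs_nonneg Z
          nlinarith
        · have h4 : 0 ≤ (|h i| - 4 * (e : ℤ) ^ 2) * (|s| - 1) :=
            mul_nonneg (by linarith) (by linarith)
          nlinarith
      have h5 : a i * |s| ≤ 2 * e * |s| := by
        apply mul_le_mul_of_nonneg_right _ hs0
        have := ha2 i
        push_cast at this
        exact this
      have h6 : (e : ℤ) * (a i * |s|) ≤ e * (2 * e * |s|) := mul_le_mul_of_nonneg_left h5 (by linarith)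
      have h7 : (e : ℤ) * q ≤ e * |h i| := mul_le_mul_of_nonneg_left hq1.le (by linarith)
      have h8 := hhp i
      push_cast at h8
      have h9 : (8 : ℤ) * (e : ℤ) ^ 2 ≤ 64 * (e : ℤ) ^ 3 := by nlinarith [sq_nonneg (e : ℤ)]
      nlinarith
    · have hk : (a i : ZMod p) * γ i = h i * γ i₁ := by
        rw [hh i]
        field_simp
      have hz : (Z : ZMod p) = z / γ i₁ := by rw [hZ, ZMod.coe_valMinAbs]
      push_cast
      simp only [add_mul, Finset.sum_add_distrib, ite_mul, zero_mul, Finset.sum_ite_eq',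
        if_pos hi, if_pos hi₁]
      have h10 : (Z : ZMod p) = h i * s + q := by
        rw [← hsq]; push_cast; rfl
      calc (a i : ZMod p) * s * γ i + q * γ i₁ = ((a i : ZMod p) * γ i) * s + q * γ i₁ := by ring
        _ = (h i * s + q) * γ i₁ := by rw [hk]; ring
        _ = z := by
          rw [← h10, hz]
          field_simp
  · right
    push Not at hA
    have ha0 : ∀ k, (a k : ZMod p) ≠ 0 := by
      intro k h1
      rw [ZMod.intCast_zmod_eq_zero_iff_dvd] at h1
      have h2 := Int.le_of_dvd (by linarith [ha1 k]) h1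
      have h3 := ha2 k
      push_cast at h3
      have h9 : (2 : ℤ) * e < 64 * (e : ℤ) ^ 3 := by nlinarith [sq_nonneg (e : ℤ)]
      linarith
    refine ⟨(∏ k ∈ C, (a k : ZMod p)) / γ i₁, ?_, ?_⟩
    · exact div_ne_zero (Finset.prod_ne_zero_iff.mpr fun k _ => ha0 k) hγ
    · intro i hi
      have h1 : (((∏ k ∈ C.erase i, a k) * h i : ℤ) : ZMod p) =
          (∏ k ∈ C, (a k : ZMod p)) / γ i₁ * γ i := by
        rw [← Finset.mul_prod_erase C _ hi]
        push_cast
        rw [hh i]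
        ring
      refine (natAbs_le h1).trans ?_
      rw [Int.natAbs_mul]
      have h2 : (∏ k ∈ C.erase i, a k).natAbs ≤ (4 * e) ^ r := by
        have h3 : (∏ k ∈ C.erase i, a k).natAbs = ∏ k ∈ C.erase i, (a k).natAbs := by
          rw [← Int.natAbsHom_apply, map_prod]
          rfl
        rw [h3]
        calc ∏ k ∈ C.erase i, (a k).natAbs ≤ ∏ _k ∈ C.erase i, (4 * e) := by
              apply Finset.prod_le_prod'
              intro k _
              have h4 := ha1 k
              have h5 := ha2 k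
              omega
          _ = (4 * e) ^ #(C.erase i) := by rw [Finset.prod_const]
          _ ≤ (4 * e) ^ r := Nat.pow_le_pow_right (by omega)
              ((Finset.card_le_card (Finset.erase_subset i C)).trans hr)
      have h6 : (h i).natAbs ≤ (4 * e) ^ 3 := by
        have h7 := hA i hi
        rw [Int.abs_eq_natAbs] at h7
        have h8 : (h i).natAbs ≤ 4 * e ^ 2 := by exact_mod_cast h7
        refine h8.trans ?_
        have : 4 * e ^ 2 ≤ 64 * e ^ 3 := by nlinarith [sq_nonneg e, Nat.one_le_iff_ne_zero.mp he]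
        calc 4 * e ^ 2 ≤ 64 * e ^ 3 := this
          _ = (4 * e) ^ 3 := by ring
      calc (∏ k ∈ C.erase i, a k).natAbs * (h i).natAbs ≤ (4 * e) ^ r * (4 * e) ^ 3 := Nat.mul_le_mul h2 h6
        _ = (4 * e) ^ (r + 3) := by rw [pow_add]

end Pool.Agent.Lib.MPa7239a.R3X
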