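import Pool.Agent.Lib.MP_a7239a_co.R3X.LXO

/-!
# R3X, module COV4: covers of a box by half planes
-/

open Finset

namespace Pool.Agent.Lib.MPa7239a.R3X

theorem Cap.up {μ : ℤ × ℤ → ℝ} {V : Finset (ℤ × ℤ)} {w w' : ℤ × ℤ} {o : Lx} {s F : ℝ}
    (h : Cap μ V w o s F) (hw : o.le w w') : Cap μ V w' o s F where
  cert := h.cert
  ge := by
    have h1 := h.ge
    have h2 : o.B w ≤ o.B w' := by
      rcases hw with h3 | h3
      · exact h3.le
      · exact h3.1.le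
    linarith
  F0 := h.F0
  mass := fun T hT h1 => h.mass T hT (fun v hv => o.trans hw (h1 v hv))

namespace COV4M

/-- half planes with their data -/
abbrev Dt : Type := (ℤ × ℤ) × Lx × ℝ × ℝ

open Classical in
/-- the points of the box in the half plane -/
noncomputable def U (K : ℕ) (τ : Dt) : Finset (ℤ × ℤ) :=
  (box K).filter (fun x => τ.2.1.le τ.1 x)

/-- the admissible half planes -/
def Ad (μ : ℤ × ℤ → ℝ) (V : Finset (ℤ × ℤ)) (K : ℕ) (τ : Dt) : Prop :=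
  τ.1 ∈ box K ∧ Cap μ V τ.1 τ.2.1 τ.2.2.1 τ.2.2.2

/-- a cover by admissible half planes -/
def Cv (μ : ℤ × ℤ → ℝ) (V : Finset (ℤ × ℤ)) (K : ℕ) (C : Finset Dt) : Prop :=
  (∀ τ ∈ C, Ad μ V K τ) ∧ ∀ x ∈ box K, ∃ τ ∈ C, τ.2.1.le τ.1 x

theorem exists_cv {μ : ℤ × ℤ → ℝ} {V : Finset (ℤ × ℤ)} {K : ℕ}
    (hcap : ∀ w ∈ box K, ∃ (o : Lx) (s F : ℝ), Cap μ V w o s F) :
    ∃ C : Finset Dt, Cv μ V K C := by
  classical
  choose o s F h using hcap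
  refine ⟨(box K).attach.image (fun w => (w.1, o w.1 w.2, s w.1 w.2, F w.1 w.2)), ?_, ?_⟩
  · intro τ hτ
    obtain ⟨w, -, rfl⟩ := mem_image.1 hτ
    exact ⟨w.2, h w.1 w.2⟩
  · intro x hx
    exact ⟨(x, o x hx, s x hx, F x hx), mem_image.2 ⟨⟨x, hx⟩, mem_attach _ _, rfl⟩,
      Lx.refl _ _⟩

theorem exists_least (o : Lx) {S : Finset (ℤ × ℤ)} (hS : S.Nonempty) :
    ∃ x ∈ S, ∀ y ∈ S, o.le x y := by
  classical
  induction hS using Finset.Nonempty.cons_induction with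
  | singleton a => exact ⟨a, mem_singleton_self a, fun y hy => by
      rw [mem_singleton.1 hy]; exact o.refl a⟩
  | cons a s ha hs ih =>
    obtain ⟨x, hx, hxy⟩ := ih
    rcases o.total a x with h | h
    · refine ⟨a, mem_cons_self a s, fun y hy => ?_⟩
      rcases mem_cons.1 hy with rfl | hy
      · exact o.refl _
      · exact o.trans h (hxy y hy)
    · refine ⟨x, mem_cons_of_mem hx, fun y hy => ?_⟩
      rcases mem_cons.1 hy with rfl | hy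
      · exact h
      · exact hxy y hy

theorem sum_insert_le (f : Dt → ℕ) [DecidableEq Dt] (C : Finset Dt) (τ : Dt) :
    ∑ σ ∈ insert τ C, f σ ≤ f τ + ∑ σ ∈ C, f σ := by
  by_cases h : τ ∈ C
  · rw [insert_eq_of_mem h]
    exact Nat.le_add_left _ _
  · rw [sum_insert h]

theorem private_of_min {μ : ℤ × ℤ → ℝ} {V : Finset (ℤ × ℤ)} {K : ℕ} {C : Finset Dt}
    (hC : Cv μ V K C)
    (hmin : ∀ C' : Finset Dt, Cv μ V K C' → ∑ τ ∈ C, #(U K τ) ≤ ∑ τ ∈ C', #(U K τ)) :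
    ∀ τ ∈ C, ∀ σ ∈ C, τ ≠ σ → ¬ σ.2.1.le σ.1 τ.1 := by
  classical
  intro τ hτ σ hσ hne hle
  have hsum : ∑ ρ ∈ C, #(U K ρ) = #(U K τ) + ∑ ρ ∈ C.erase τ, #(U K ρ) :=
    (add_sum_erase C (fun ρ => #(U K ρ)) hτ).symm
  have hτU : τ.1 ∈ U K τ := by
    unfold U
    exact mem_filter.2 ⟨(hC.1 τ hτ).1, Lx.refl _ _⟩
  have hσ' : σ ∈ C.erase τ := mem_erase.2 ⟨hne.symm, hσ⟩
  by_cases hS : ((U K τ).erase τ.1).Nonempty
  · obtain ⟨x, hx, hxm⟩ := exists_least τ.2.1 hS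
    have hx1 := mem_erase.1 hx
    have hx2 : x ∈ box K ∧ τ.2.1.le τ.1 x := by
      have := hx1.2
      unfold U at this
      exact mem_filter.1 this
    set τ' : Dt := (x, τ.2) with hτ'
    have hU : U K τ' ⊆ (U K τ).erase τ.1 := by
      intro y hy
      unfold U at hy
      have hy1 := mem_filter.1 hy
      refine mem_erase.2 ⟨?_, ?_⟩
      · rintro rfl
        exact hx1.1 (τ.2.1.antisymm hy1.2 hx2.2)
      · unfold U
        exact mem_filter.2 ⟨hy1.1, τ.2.1.trans hx2.2 hy1.2⟩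
    have hcv : Cv μ V K (insert τ' (C.erase τ)) := by
      refine ⟨?_, ?_⟩
      · intro ρ hρ
        rcases mem_insert.1 hρ with rfl | hρ
        · exact ⟨hx2.1, (hC.1 τ hτ).2.up hx2.2⟩
        · exact hC.1 ρ (mem_of_mem_erase hρ)
      · intro y hy
        obtain ⟨ρ, hρ, hρy⟩ := hC.2 y hy
        by_cases h1 : ρ = τ
        · subst h1
          by_cases h2 : y = ρ.1
          · subst h2
            exact ⟨σ, mem_insert_of_mem hσ', hle⟩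
          · refine ⟨τ', mem_insert_self _ _, hxm y (mem_erase.2 ⟨h2, ?_⟩)⟩
            unfold U
            exact mem_filter.2 ⟨hy, hρy⟩
        · exact ⟨ρ, mem_insert_of_mem (mem_erase.2 ⟨h1, hρ⟩), hρy⟩
    have h1 := hmin _ hcv
    have h2 := sum_insert_le (fun ρ => #(U K ρ)) (C.erase τ) τ'
    have h3 : #(U K τ') < #(U K τ) := by
      have h4 := card_le_card hU
      rw [card_erase_of_mem hτU] at h4
      have h5 : 0 < #(U K τ) := card_pos.2 ⟨_, hτU⟩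
      omega
    have h2' : ∑ σ ∈ insert τ' (C.erase τ), #(U K σ) ≤
        #(U K τ') + ∑ ρ ∈ C.erase τ, #(U K ρ) := h2
    omega
  · have hcv : Cv μ V K (C.erase τ) := by
      refine ⟨fun ρ hρ => hC.1 ρ (mem_of_mem_erase hρ), ?_⟩
      intro y hy
      obtain ⟨ρ, hρ, hρy⟩ := hC.2 y hy
      by_cases h1 : ρ = τ
      · subst h1
        by_cases h2 : y = ρ.1
        · subst h2
          exact ⟨σ, hσ', hle⟩
        · exfalso
          refine hS ⟨y, mem_erase.2 ⟨h2, ?_⟩⟩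
          unfold U
          exact mem_filter.2 ⟨hy, hρy⟩
      · exact ⟨ρ, mem_erase.2 ⟨h1, hρ⟩, hρy⟩
    have h1 := hmin _ hcv
    have h5 : 0 < #(U K τ) := card_pos.2 ⟨_, hτU⟩
    omega

theorem parity {μ : ℤ × ℤ → ℝ} {V : Finset (ℤ × ℤ)} {K : ℕ} {C : Finset Dt}
    (hC : Cv μ V K C) (hpr : ∀ τ ∈ C, ∀ σ ∈ C, τ ≠ σ → ¬ σ.2.1.le σ.1 τ.1) :
    ∀ τ ∈ C, ∀ σ ∈ C, τ ≠ σ → ¬ (2 ∣ (τ.1 - σ.1).1 ∧ 2 ∣ (τ.1 - σ.1).2) := by
  rintro τ hτ σ hσ hne ⟨⟨a, ha⟩, b, hb⟩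
  simp only [Prod.fst_sub, Prod.snd_sub] at ha hb
  set m : ℤ × ℤ := (σ.1.1 + a, σ.1.2 + b) with hm
  have hmm : τ.1 + σ.1 = m + m := by
    ext
    · simp only [hm, Prod.fst_add]; omega
    · simp only [hm, Prod.snd_add]; omega
  have hmb : m ∈ box K := by
    have h1 := (hC.1 τ hτ).1
    have h2 := (hC.1 σ hσ).1
    simp only [box, mem_product, mem_Icc] at h1 h2 ⊢
    simp only [hm]
    omega
  obtain ⟨ρ, hρ, hρm⟩ := hC.2 m hmb
  have key : ∀ τ ∈ C, ∀ σ ∈ C, τ ≠ σ → τ.1 + σ.1 = m + m → ρ.2.1.le m τ.1 → False := by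
    intro τ hτ σ hσ hne hmm h
    by_cases h1 : ρ = τ
    · subst h1
      have h2 : ρ.1 = m := ρ.2.1.antisymm hρm h
      have h3 : σ.1 = ρ.1 := by
        have : ρ.1 + σ.1 = ρ.1 + ρ.1 := by rw [hmm, h2]
        exact add_left_cancel this
      exact hpr σ hσ ρ hρ hne.symm (h3 ▸ ρ.2.1.refl _)
    · exact hpr τ hτ ρ hρ (Ne.symm h1) (ρ.2.1.trans hρm h)
  rcases ρ.2.1.mid hmm with h | h
  · exact key τ hτ σ hσ hne hmm h
  · exact key σ hσ τ hτ hne.symm (by rw [add_comm]; exact hmm) h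

theorem card_le_four {C : Finset Dt}
    (hpar : ∀ τ ∈ C, ∀ σ ∈ C, τ ≠ σ → ¬ (2 ∣ (τ.1 - σ.1).1 ∧ 2 ∣ (τ.1 - σ.1).2)) :
    #C ≤ 4 := by
  classical
  have h : #C ≤ #(univ : Finset (ZMod 2 × ZMod 2)) := by
    refine card_le_card_of_injOn (fun τ => ((τ.1.1 : ZMod 2), (τ.1.2 : ZMod 2)))
      (fun _ _ => mem_coe.2 (mem_univ _)) ?_
    intro τ hτ σ hσ h
    by_contra hne
    refine hpar τ hτ σ hσ hne ⟨?_, ?_⟩
    · have h1 : ((τ.1.1 : ℤ) : ZMod 2) = ((σ.1.1 : ℤ) : ZMod 2) := (Prod.ext_iff.1 h).1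
      have h2 := (ZMod.intCast_eq_intCast_iff_dvd_sub _ _ _).1 h1.symm
      simpa using h2
    · have h1 : ((τ.1.2 : ℤ) : ZMod 2) = ((σ.1.2 : ℤ) : ZMod 2) := (Prod.ext_iff.1 h).2
      have h2 := (ZMod.intCast_eq_intCast_iff_dvd_sub _ _ _).1 h1.symm
      simpa using h2
  simpa using h

theorem mass_le {μ : ℤ × ℤ → ℝ} {V : Finset (ℤ × ℤ)} {K : ℕ} (hV : V ⊆ box K)
    (hpos : ∀ v ∈ V, 0 ≤ μ v) {C : Finset Dt} (hC : Cv μ V K C) :
    ∑ v ∈ V, μ v ≤ #C := by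
  classical
  have h1 : ∑ v ∈ V, μ v ≤ ∑ v ∈ V, ∑ τ ∈ C, if τ.2.1.le τ.1 v then μ v else 0 := by
    refine sum_le_sum fun v hv => ?_
    obtain ⟨τ, hτ, h⟩ := hC.2 v (hV hv)
    calc μ v = if τ.2.1.le τ.1 v then μ v else 0 := by rw [if_pos h]
      _ ≤ ∑ τ ∈ C, if τ.2.1.le τ.1 v then μ v else 0 := by
        refine single_le_sum (f := fun τ : Dt => if τ.2.1.le τ.1 v then μ v else 0)
          (fun σ _ => ?_) hτ
        show 0 ≤ (if σ.2.1.le σ.1 v then μ v else 0)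
        split_ifs
        · exact hpos v hv
        · exact le_rfl
  have h2 : ∀ τ ∈ C, ∑ v ∈ V, (if τ.2.1.le τ.1 v then μ v else 0) ≤ 1 := by
    intro τ hτ
    rw [← sum_filter]
    exact (hC.1 τ hτ).2.mass _ (filter_subset _ _) (fun v hv => (mem_filter.1 hv).2)
  rw [sum_comm] at h1
  have h3 := sum_le_sum h2
  simp only [sum_const, nsmul_eq_mul, mul_one] at h3
  linarith

end COV4M

open COV4M in
theorem cover_four {μ : ℤ × ℤ → ℝ} {V : Finset (ℤ × ℤ)} {K : ℕ} (hV : V ⊆ box K)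
    (hpos : ∀ v ∈ V, 0 ≤ μ v) (hcap : ∀ w ∈ box K, ∃ (o : Lx) (s F : ℝ), Cap μ V w o s F)
    (htot : 3 < ∑ v ∈ V, μ v) :
    ∃ (w : Fin 4 → ℤ × ℤ) (o : Fin 4 → Lx) (s F : Fin 4 → ℝ), (∀ i, w i ∈ box K) ∧
      (∀ i, Cap μ V (w i) (o i) (s i) (F i)) ∧ (∀ x ∈ box K, ∃ i, (o i).le (w i) x) ∧
      (∀ i j, i ≠ j → ¬ (o i).le (w i) (w j)) ∧
      (∀ i j, i ≠ j → ¬ (2 ∣ (w i - w j).1 ∧ 2 ∣ (w i - w j).2)) := by
  classical
  obtain ⟨C₀, hC₀⟩ := exists_cv hcap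
  obtain ⟨C, hC, hmin⟩ := (measure (fun C : Finset Dt => ∑ τ ∈ C, #(U K τ))).wf.has_min
    {C | Cv μ V K C} ⟨C₀, hC₀⟩
  have hmin' : ∀ C' : Finset Dt, Cv μ V K C' → ∑ τ ∈ C, #(U K τ) ≤ ∑ τ ∈ C', #(U K τ) := by
    intro C' hC'
    exact not_lt.1 (hmin C' hC')
  have hpr := private_of_min hC hmin'
  have hpar := parity hC hpr
  have h4 : #C = 4 := by
    have h1 := card_le_four hpar
    have h2 := mass_le hV hpos hC
    have h3 : (3 : ℝ) < #C := lt_of_lt_of_le htot h2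
    have h3' : 3 < #C := by exact_mod_cast h3
    omega
  let e : Fin 4 ≃ C := (C.equivFinOfCardEq h4).symm
  have he : ∀ i j, i ≠ j → (e i).1 ≠ (e j).1 := by
    intro i j hij h
    exact hij (e.injective (Subtype.ext h))
  refine ⟨fun i => (e i).1.1, fun i => (e i).1.2.1, fun i => (e i).1.2.2.1,
    fun i => (e i).1.2.2.2, fun i => (hC.1 _ (e i).2).1, fun i => (hC.1 _ (e i).2).2, ?_, ?_, ?_⟩
  · intro x hx
    obtain ⟨τ, hτ, h⟩ := hC.2 x hx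
    refine ⟨e.symm ⟨τ, hτ⟩, ?_⟩
    dsimp only
    rw [Equiv.apply_symm_apply]
    exact h
  · intro i j hij
    exact hpr _ (e j).2 _ (e i).2 (he j i hij.symm)
  · intro i j hij
    exact hpar _ (e i).2 _ (e j).2 (he i j hij)

end Pool.Agent.Lib.MPa7239a.R3X
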