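import Pool.Agent.Lib.MP_a7239a_co.R3X.Defs

/-! # R3X/DUAL (helper29) -/

set_option autoImplicit false

universe u

open Finset
open scoped Pointwise

namespace Pool.Agent.Lib.MPa7239a.R3X

open Pool.Agent.Lib.MPa7239a.GC (Hit)

section
variable {p : ℕ} [Fact p.Prime] {G : Type u} [AddCommGroup G] [Module (ZMod p) G] [Fintype G]
  [DecidableEq G]

theorem DUALM.cl_congr {A : Finset G} {α β α' β' : G →ₗ[ZMod p] ZMod p} {x y x' y' : ZMod p}
    (h : ∀ a, (α' a = x' ∧ β' a = y') ↔ (α a = x ∧ β a = y)) :
    cl A α' β' x' y' = cl A α β x y := by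
  ext a
  rw [mem_cl, mem_cl, h a]

theorem DUALM.ker_congr {α β α' β' : G →ₗ[ZMod p] ZMod p}
    (h : ∀ a, (α' a = 0 ∧ β' a = 0) ↔ (α a = 0 ∧ β a = 0)) :
    (LinearMap.ker α' ⊓ LinearMap.ker β' : Submodule (ZMod p) G) =
      LinearMap.ker α ⊓ LinearMap.ker β := by
  ext a
  rw [Submodule.mem_inf, Submodule.mem_inf, LinearMap.mem_ker, LinearMap.mem_ker,
    LinearMap.mem_ker, LinearMap.mem_ker, h a]

theorem frm_swap {A : Finset G} {α β : G →ₗ[ZMod p] ZMod p} {a₀ b₀ : ZMod p} {g : ℕ}
    {s : Fin 4 → ℕ} (f : Frm A α β a₀ b₀ g s) :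
    Frm A α (((g : ZMod p) - 1) • α - β) a₀ (((g : ZMod p) - 1) * a₀ - b₀ - 1) g
      ![s 1, s 0, s 3, s 2] := by
  have hap : ∀ a, (((g : ZMod p) - 1) • α - β) a = ((g : ZMod p) - 1) * α a - β a := by
    intro a
    rw [LinearMap.sub_apply, LinearMap.smul_apply, smul_eq_mul]
  refine ⟨?_, f.g1, f.g2, ?_, ?_, ?_, ?_, ?_, ?_⟩
  · rw [DUALM.ker_congr (α := α) (β := β), f.hL]
    intro a
    rw [hap]
    constructor
    · rintro ⟨h1, h2⟩
      refine ⟨h1, ?_⟩
      rw [h1] at h2
      linear_combination -h2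
    · rintro ⟨h1, h2⟩
      refine ⟨h1, ?_⟩
      rw [h1, h2]
      ring
  · intro i
    fin_cases i
    · exact f.s1 1
    · exact f.s1 0
    · exact f.s1 3
    · exact f.s1 2
  · intro i
    fin_cases i
    · exact f.s2 1
    · exact f.s2 0
    · exact f.s2 3
    · exact f.s2 2
  · rw [DUALM.cl_congr (α := α) (β := β) (x := a₀) (y := b₀ + 1)]
    · exact f.c1
    · intro a
      rw [hap]
      constructor
      · rintro ⟨h1, h2⟩
        refine ⟨h1, ?_⟩
        rw [h1] at h2
        linear_combination -h2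
      · rintro ⟨h1, h2⟩
        refine ⟨h1, ?_⟩
        rw [h1, h2]
        ring
  · rw [DUALM.cl_congr (α := α) (β := β) (x := a₀) (y := b₀)]
    · exact f.c0
    · intro a
      rw [hap]
      constructor
      · rintro ⟨h1, h2⟩
        refine ⟨h1, ?_⟩
        rw [h1] at h2
        linear_combination -h2
      · rintro ⟨h1, h2⟩
        refine ⟨h1, ?_⟩
        rw [h1, h2]
        ring
  · rw [DUALM.cl_congr (α := α) (β := β) (x := a₀ + 1) (y := b₀ + g)]
    · exact f.c3
    · intro a
      rw [hap]
      constructor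
      · rintro ⟨h1, h2⟩
        refine ⟨h1, ?_⟩
        rw [h1] at h2
        linear_combination -h2
      · rintro ⟨h1, h2⟩
        refine ⟨h1, ?_⟩
        rw [h1, h2]
        ring
  · rw [DUALM.cl_congr (α := α) (β := β) (x := a₀ + 1) (y := b₀)]
    · exact f.c2
    · intro a
      rw [hap]
      constructor
      · rintro ⟨h1, h2⟩
        refine ⟨h1, ?_⟩
        rw [h1] at h2
        linear_combination -h2
      · rintro ⟨h1, h2⟩
        refine ⟨h1, ?_⟩
        rw [h1, h2]
        ring

theorem frm_dual {A : Finset G} {α β : G →ₗ[ZMod p] ZMod p} {a₀ b₀ : ZMod p} {g : ℕ}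
    {s : Fin 4 → ℕ} (f : Frm A α β a₀ b₀ g s) :
    ∃ (β' : G →ₗ[ZMod p] ZMod p) (b₀' : ZMod p) (g' : ℕ) (s' : Fin 4 → ℕ),
      Frm A (-α) β' (-a₀ - 1) b₀' g' s' ∧ s' 0 = s 2 ∧ s' 1 = s 3 ∧
      (s' 2 = s 0 ∧ s' 3 = s 1 ∨ s' 2 = s 1 ∧ s' 3 = s 0) ∧
      ((g : ZMod p) * g' = 1 ∨ (g : ZMod p) * g' = -1) ∧
      (∀ e : G, -α e = -a₀ - 1 → β' e = b₀' → α e = a₀ + 1 ∧ β e = b₀) ∧
      (∀ e : G, -α e = -a₀ - 1 → β' e = b₀' + 1 → α e = a₀ + 1 ∧ β e = b₀ + g) ∧
      (∀ e : G, -α e = -a₀ → (β' e = b₀' ∨ β' e = b₀' + g') →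
        α e = a₀ ∧ (β e = b₀ ∨ β e = b₀ + 1)) := by
  have hg1 := f.g1
  have hg2 := f.g2
  have hg0 : (g : ZMod p) ≠ 0 := by
    intro h
    rw [ZMod.natCast_eq_zero_iff] at h
    exact absurd (Nat.le_of_dvd (by omega) h) (by omega)
  set γ : ZMod p := (g : ZMod p)⁻¹ with hγ
  have hgγ : (g : ZMod p) * γ = 1 := mul_inv_cancel₀ hg0
  have hγ0 : γ ≠ 0 := inv_ne_zero hg0
  have hcan : ∀ a b : ZMod p, γ * a = γ * b → a = b := fun a b h => mul_left_cancel₀ hγ0 h
  have hp1 : 1 < p := (Fact.out : p.Prime).one_lt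
  have hp2 : p ≠ 2 := by omega
  have hodd : ¬ 2 ∣ p := by
    intro h
    exact hp2 ((Nat.prime_dvd_prime_iff_eq Nat.prime_two Fact.out).1 h).symm
  have hv0 : γ.val ≠ 0 := by
    intro h
    exact hγ0 ((ZMod.val_eq_zero γ).1 h)
  have hvlt : γ.val < p := ZMod.val_lt γ
  have hvc : ((γ.val : ℕ) : ZMod p) = γ := ZMod.natCast_zmod_val γ
  rcases Nat.lt_or_ge (2 * γ.val) p with hc | hc
  · -- `g' = γ.val`
    have hap : ∀ a, (γ • β) a = γ * β a := by
      intro a
      rw [LinearMap.smul_apply, smul_eq_mul]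
    have hna : ∀ a, (-α) a = -α a := fun a => LinearMap.neg_apply α a
    refine ⟨γ • β, γ * b₀, γ.val, ![s 2, s 3, s 0, s 1], ?_, rfl, rfl, Or.inl ⟨rfl, rfl⟩,
      Or.inl ?_, ?_, ?_, ?_⟩
    · refine ⟨?_, by omega, hc, ?_, ?_, ?_, ?_, ?_, ?_⟩
      · rw [DUALM.ker_congr (α := α) (β := β), f.hL]
        intro a
        rw [hap, hna, neg_eq_zero, mul_eq_zero]
        constructor
        · rintro ⟨h1, h2 | h2⟩
          · exact absurd h2 hγ0
          · exact ⟨h1, h2⟩
        · rintro ⟨h1, h2⟩
          exact ⟨h1, Or.inr h2⟩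
      · intro i
        fin_cases i
        · exact f.s1 2
        · exact f.s1 3
        · exact f.s1 0
        · exact f.s1 1
      · intro i
        fin_cases i
        · exact f.s2 2
        · exact f.s2 3
        · exact f.s2 0
        · exact f.s2 1
      · rw [DUALM.cl_congr (α := α) (β := β) (x := a₀ + 1) (y := b₀)]
        · exact f.c2
        · intro a
          rw [hap, hna]
          constructor
          · rintro ⟨h1, h2⟩
            exact ⟨by linear_combination -h1, hcan _ _ h2⟩
          · rintro ⟨h1, h2⟩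
            exact ⟨by linear_combination -h1, by rw [h2]⟩
      · rw [DUALM.cl_congr (α := α) (β := β) (x := a₀ + 1) (y := b₀ + g)]
        · exact f.c3
        · intro a
          rw [hap, hna]
          constructor
          · rintro ⟨h1, h2⟩
            exact ⟨by linear_combination -h1, hcan _ _ (by linear_combination h2 - hgγ)⟩
          · rintro ⟨h1, h2⟩
            exact ⟨by linear_combination -h1, by rw [h2]; linear_combination hgγ⟩
      · rw [DUALM.cl_congr (α := α) (β := β) (x := a₀) (y := b₀)]
        · exact f.c0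
        · intro a
          rw [hap, hna]
          constructor
          · rintro ⟨h1, h2⟩
            exact ⟨by linear_combination -h1, hcan _ _ h2⟩
          · rintro ⟨h1, h2⟩
            exact ⟨by linear_combination -h1, by rw [h2]⟩
      · rw [DUALM.cl_congr (α := α) (β := β) (x := a₀) (y := b₀ + 1)]
        · exact f.c1
        · intro a
          rw [hap, hna, hvc]
          constructor
          · rintro ⟨h1, h2⟩
            exact ⟨by linear_combination -h1, hcan _ _ (by linear_combination h2)⟩
          · rintro ⟨h1, h2⟩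
            exact ⟨by linear_combination -h1, by rw [h2]; ring⟩
    · rw [hvc]; exact hgγ
    · intro e h1 h2
      rw [hap] at h2
      exact ⟨by linear_combination -h1, hcan _ _ h2⟩
    · intro e h1 h2
      rw [hap] at h2
      exact ⟨by linear_combination -h1, hcan _ _ (by linear_combination h2 - hgγ)⟩
    · intro e h1 h2
      rw [hap, hvc] at h2
      refine ⟨by linear_combination -h1, ?_⟩
      rcases h2 with h2 | h2
      · exact Or.inl (hcan _ _ h2)
      · exact Or.inr (hcan _ _ (by linear_combination h2))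
  · -- `g' = p - γ.val`
    have hgc : (((p - γ.val : ℕ)) : ZMod p) = -γ := by
      rw [Nat.cast_sub hvlt.le, ZMod.natCast_self, hvc, zero_sub]
    have hap : ∀ a, (γ • β + γ • α) a = γ * β a + γ * α a := by
      intro a
      rw [LinearMap.add_apply, LinearMap.smul_apply, LinearMap.smul_apply, smul_eq_mul,
        smul_eq_mul]
    have hna : ∀ a, (-α) a = -α a := fun a => LinearMap.neg_apply α a
    refine ⟨γ • β + γ • α, γ * b₀ + γ * (a₀ + 1), p - γ.val, ![s 2, s 3, s 1, s 0], ?_, rfl, rfl,
      Or.inr ⟨rfl, rfl⟩, Or.inr ?_, ?_, ?_, ?_⟩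
    · refine ⟨?_, by omega, by omega, ?_, ?_, ?_, ?_, ?_, ?_⟩
      · rw [DUALM.ker_congr (α := α) (β := β), f.hL]
        intro a
        rw [hap, hna, neg_eq_zero]
        constructor
        · rintro ⟨h1, h2⟩
          rw [h1, mul_zero, add_zero, mul_eq_zero] at h2
          rcases h2 with h2 | h2
          · exact absurd h2 hγ0
          · exact ⟨h1, h2⟩
        · rintro ⟨h1, h2⟩
          rw [h1, h2]
          simp
      · intro i
        fin_cases i
        · exact f.s1 2
        · exact f.s1 3
        · exact f.s1 1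
        · exact f.s1 0
      · intro i
        fin_cases i
        · exact f.s2 2
        · exact f.s2 3
        · exact f.s2 1
        · exact f.s2 0
      · rw [DUALM.cl_congr (α := α) (β := β) (x := a₀ + 1) (y := b₀)]
        · exact f.c2
        · intro a
          rw [hap, hna]
          constructor
          · rintro ⟨h1, h2⟩
            exact ⟨by linear_combination -h1,
              hcan _ _ (by linear_combination h2 + γ * h1)⟩
          · rintro ⟨h1, h2⟩
            exact ⟨by linear_combination -h1, by rw [h1, h2]⟩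
      · rw [DUALM.cl_congr (α := α) (β := β) (x := a₀ + 1) (y := b₀ + g)]
        · exact f.c3
        · intro a
          rw [hap, hna]
          constructor
          · rintro ⟨h1, h2⟩
            exact ⟨by linear_combination -h1,
              hcan _ _ (by linear_combination h2 + γ * h1 - hgγ)⟩
          · rintro ⟨h1, h2⟩
            exact ⟨by linear_combination -h1, by rw [h1, h2]; linear_combination hgγ⟩
      · rw [DUALM.cl_congr (α := α) (β := β) (x := a₀) (y := b₀ + 1)]
        · exact f.c1
        · intro a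
          rw [hap, hna]
          constructor
          · rintro ⟨h1, h2⟩
            exact ⟨by linear_combination -h1,
              hcan _ _ (by linear_combination h2 + γ * h1)⟩
          · rintro ⟨h1, h2⟩
            exact ⟨by linear_combination -h1, by rw [h1, h2]; ring⟩
      · rw [DUALM.cl_congr (α := α) (β := β) (x := a₀) (y := b₀)]
        · exact f.c0
        · intro a
          rw [hap, hna, hgc]
          constructor
          · rintro ⟨h1, h2⟩
            exact ⟨by linear_combination -h1,
              hcan _ _ (by linear_combination h2 + γ * h1)⟩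
          · rintro ⟨h1, h2⟩
            exact ⟨by linear_combination -h1, by rw [h1, h2]; ring⟩
    · rw [hgc]; linear_combination -hgγ
    · intro e h1 h2
      rw [hap] at h2
      exact ⟨by linear_combination -h1, hcan _ _ (by linear_combination h2 + γ * h1)⟩
    · intro e h1 h2
      rw [hap] at h2
      exact ⟨by linear_combination -h1, hcan _ _ (by linear_combination h2 + γ * h1 - hgγ)⟩
    · intro e h1 h2
      rw [hap, hgc] at h2
      refine ⟨by linear_combination -h1, ?_⟩
      rcases h2 with h2 | h2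
      · exact Or.inr (hcan _ _ (by linear_combination h2 + γ * h1))
      · exact Or.inl (hcan _ _ (by linear_combination h2 + γ * h1))

end

end Pool.Agent.Lib.MPa7239a.R3X
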