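import Pool.Agent.Lib.MP_a7239a_co.R3X.ENDNF

/-!
# Rank three, primes, exact value: the end, two directions
-/

set_option autoImplicit false

open Finset

namespace Pool.Agent.Lib.MPa7239a.R3X

variable {p : ℕ} [Fact p.Prime] {ι : Type*} [DecidableEq ι]

namespace END51M

open ENDM

/-- two lines of a plane -/
theorem plane2 (hp : 1000 ≤ p) {B₀ B₁ : Finset ι} {f v : ι → ZMod p} {c : ZMod p}
    (hd : Disjoint B₀ B₁) (hf0 : Set.InjOn f B₀) (hf1 : Set.InjOn f B₁)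
    (hv0 : ∀ a ∈ B₀, v a = 0) (hv1 : ∀ a ∈ B₁, v a = c) (h0 : 49 * p ≤ 50 * #B₀)
    (h1 : 49 * p ≤ 50 * #B₁) {k₀ k₁ : ℕ} (hk0 : k₀ ≤ #B₀) (hk1 : k₁ ≤ #B₁)
    (hg : (2 ≤ k₀ ∧ k₀ + 2 ≤ #B₀) ∨ (2 ≤ k₁ ∧ k₁ + 2 ≤ #B₁)) (t : ZMod p) :
    ∃ T ⊆ B₀ ∪ B₁, #T = k₀ + k₁ ∧ ∑ a ∈ T, v a = (k₁ : ZMod p) * c ∧ ∑ a ∈ T, f a = t := by
  have key : ∀ T₀ ⊆ B₀, ∀ T₁ ⊆ B₁, #T₀ = k₀ → #T₁ = k₁ →
      ∑ a ∈ T₀, f a + ∑ a ∈ T₁, f a = t →
      ∃ T ⊆ B₀ ∪ B₁, #T = k₀ + k₁ ∧ ∑ a ∈ T, v a = (k₁ : ZMod p) * c ∧ ∑ a ∈ T, f a = t := by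
    intro T₀ hT₀ T₁ hT₁ h0 h1 hs
    have hdT : Disjoint T₀ T₁ := disjoint_of_subset_left hT₀ (disjoint_of_subset_right hT₁ hd)
    refine ⟨T₀ ∪ T₁, union_subset_union hT₀ hT₁, ?_, ?_, ?_⟩
    · rw [card_union_of_disjoint hdT, h0, h1]
    · rw [sum_union hdT, sum_congr rfl fun a ha => hv0 a (hT₀ ha),
        sum_congr rfl fun a ha => hv1 a (hT₁ ha), sum_const, sum_const, h1, nsmul_eq_mul]
      simp
    · rw [sum_union hdT, hs]
  rcases hg with ⟨hg1, hg2⟩ | ⟨hg1, hg2⟩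
  · obtain ⟨T₁, hT₁, hT₁c⟩ := exists_subset_card_eq hk1
    obtain ⟨T₀, hT₀, hT₀c, hT₀s⟩ := nf (by omega) hf0 (by omega) hg1 hg2 (t - ∑ a ∈ T₁, f a)
    exact key T₀ hT₀ T₁ hT₁ hT₀c hT₁c (by rw [hT₀s]; ring)
  · obtain ⟨T₀, hT₀, hT₀c⟩ := exists_subset_card_eq hk0
    obtain ⟨T₁, hT₁, hT₁c, hT₁s⟩ := nf (by omega) hf1 (by omega) hg1 hg2 (t - ∑ a ∈ T₀, f a)
    exact key T₀ hT₀ T₁ hT₁ hT₀c hT₁c (by rw [hT₁s]; ring)

omit [Fact p.Prime] in
theorem choose2 {k n₀ n₁ : ℕ} (hp : 1000 ≤ p) (h0 : 49 * p ≤ 50 * n₀)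
    (h1 : 49 * p ≤ 50 * n₁) (hk : 2 ≤ k) (hk3 : k + 3 ≤ p) :
    ∃ k₀ k₁, k₀ + k₁ = k ∧ k₀ ≤ n₀ ∧ k₁ ≤ n₁ ∧
      ((2 ≤ k₀ ∧ k₀ + 2 ≤ n₀) ∨ (2 ≤ k₁ ∧ k₁ + 2 ≤ n₁)) := by
  by_cases h : k + 2 ≤ n₀
  · exact ⟨k, 0, by omega, by omega, by omega, Or.inl ⟨hk, h⟩⟩
  · exact ⟨k - k / 2, k / 2, by omega, by omega, by omega, Or.inr ⟨by omega, by omega⟩⟩

/-- the hit -/
theorem finish {A : Finset ι} {x y z : ι → ZMod p} (hNH : NH A x y z) {e : ι} (he : e ∈ A)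
    (he0 : x e ≠ 0) (he1 : x e ≠ 1) {T₀ T₁ : Finset ι} (hT₀ : T₀ ⊆ A) (hT₁ : T₁ ⊆ A)
    (hx0 : ∀ a ∈ T₀, x a = 0) (hx1 : ∀ a ∈ T₁, x a = 1) (hc : 1 + #T₀ + #T₁ = p)
    (hx : x e + (#T₁ : ZMod p) = 0) (hy : y e + (∑ a ∈ T₀, y a + ∑ a ∈ T₁, y a) = 0)
    (hz : z e + (∑ a ∈ T₀, z a + ∑ a ∈ T₁, z a) = 0) : False := by
  have hd : Disjoint T₀ T₁ := by
    rw [disjoint_left]
    intro a ha ha1
    have h1 := hx0 a ha
    rw [hx1 a ha1] at h1
    exact one_ne_zero h1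
  have he : e ∉ T₀ ∪ T₁ ∧ e ∈ A := by
    refine ⟨?_, he⟩
    rw [mem_union]
    rintro (h | h)
    · exact he0 (hx0 e h)
    · exact he1 (hx1 e h)
  refine hNH (insert e (T₀ ∪ T₁)) ?_ ?_ ?_ ?_ ?_
  · rw [insert_subset_iff]
    exact ⟨he.2, union_subset hT₀ hT₁⟩
  · rw [card_insert_of_notMem he.1, card_union_of_disjoint hd]
    omega
  · rw [sum_insert he.1, sum_union hd, sum_congr rfl hx0, sum_congr rfl hx1, sum_const,
      sum_const, nsmul_eq_mul, nsmul_eq_mul, mul_zero, mul_one, zero_add, hx]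
  · rw [sum_insert he.1, sum_union hd, hy]
  · rw [sum_insert he.1, sum_union hd, hz]

/-- exactly one element of the plane `x = 0` -/
theorem one {A : Finset ι} {x y z : ι → ZMod p} {γ : ZMod p} (hp : 1000 ≤ p)
    (hinj : Set.InjOn (fun a => (x a, y a, z a)) A) (hNH : NH A x y z) (hγ : γ ≠ 0)
    (h0 : 49 * p ≤ 50 * #{a ∈ A | x a = 0 ∧ y a = 0})
    (h2 : 49 * p ≤ 50 * #{a ∈ A | x a = 1 ∧ z a = 0})
    (h3 : 49 * p ≤ 50 * #{a ∈ A | x a = 1 ∧ z a = γ}) {e : ι} (he : e ∈ A)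
    (he0 : x e ≠ 0) (he1 : x e ≠ 1) (hx : x e = 2) : False := by
  set O : Finset ι := {a ∈ A | x a = 0 ∧ y a = 0} with hO
  set P : Finset ι := {a ∈ A | x a = 1 ∧ z a = 0} with hP
  set Q : Finset ι := {a ∈ A | x a = 1 ∧ z a = γ} with hQ
  have hzO : Set.InjOn z O := by
    intro a ha b hb hab
    have ha' := mem_filter.1 (mem_coe.1 ha)
    have hb' := mem_filter.1 (mem_coe.1 hb)
    apply hinj ha'.1 hb'.1
    simp only [ha'.2.1, ha'.2.2, hb'.2.1, hb'.2.2, hab]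
  have hyP : Set.InjOn y P := by
    intro a ha b hb hab
    have ha' := mem_filter.1 (mem_coe.1 ha)
    have hb' := mem_filter.1 (mem_coe.1 hb)
    apply hinj ha'.1 hb'.1
    simp only [ha'.2.1, ha'.2.2, hb'.2.1, hb'.2.2, hab]
  have hyQ : Set.InjOn y Q := by
    intro a ha b hb hab
    have ha' := mem_filter.1 (mem_coe.1 ha)
    have hb' := mem_filter.1 (mem_coe.1 hb)
    apply hinj ha'.1 hb'.1
    simp only [ha'.2.1, ha'.2.2, hb'.2.1, hb'.2.2, hab]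
  have hPp : #P ≤ p := by
    have := card_le_card_of_injOn y (fun a _ => mem_univ (y a)) hyP
    rwa [card_univ, ZMod.card] at this
  have hQp : #Q ≤ p := by
    have := card_le_card_of_injOn y (fun a _ => mem_univ (y a)) hyQ
    rwa [card_univ, ZMod.card] at this
  -- the number `i` of elements of `Q`
  set a₀ : ℕ := max 2 (p - 2 - #P) with ha₀
  have ha₀' : 50 * a₀ ≤ p + 100 := by omega
  have hI : ∃ i, a₀ ≤ i ∧ i + 2 ≤ #Q ∧ ∃ a ∈ O, z e + z a + (i : ZMod p) * γ = 0 := by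
    by_contra hcon
    push Not at hcon
    have hd : Disjoint (O.image z)
        ((Icc a₀ (#Q - 2)).image (fun i : ℕ => -z e - (i : ZMod p) * γ)) := by
      rw [disjoint_left]
      intro c hc hc2
      obtain ⟨a, ha, rfl⟩ := mem_image.1 hc
      obtain ⟨i, hi, hi2⟩ := mem_image.1 hc2
      rw [mem_Icc] at hi
      exact hcon i hi.1 (by omega) a ha (by linear_combination -hi2)
    have h4 := card_le_univ (O.image z ∪
      (Icc a₀ (#Q - 2)).image (fun i : ℕ => -z e - (i : ZMod p) * γ))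
    have hinj2 : Set.InjOn (fun i : ℕ => -z e - (i : ZMod p) * γ) (Icc a₀ (#Q - 2)) := by
      intro i hi j hj hij
      simp only at hij
      have h5 : (i : ZMod p) * γ = (j : ZMod p) * γ := by linear_combination -hij
      have h6 := mul_right_cancel₀ hγ h5
      rw [ZMod.natCast_eq_natCast_iff] at h6
      have hi' := mem_Icc.1 (mem_coe.1 hi)
      have hj' := mem_Icc.1 (mem_coe.1 hj)
      exact Nat.ModEq.eq_of_lt_of_lt h6 (by omega) (by omega)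
    rw [card_union_of_disjoint hd, card_image_of_injOn hzO, card_image_of_injOn hinj2,
      Nat.card_Icc, ZMod.card] at h4
    omega
  obtain ⟨i, hi1, hi2, a, ha, hai⟩ := hI
  have hd : Disjoint P Q := by
    rw [disjoint_left]
    intro b hb hb2
    have h1 := (mem_filter.1 hb).2.2
    rw [(mem_filter.1 hb2).2.2] at h1
    exact hγ h1
  obtain ⟨T₁, hT₁, hT₁c, hT₁v, hT₁f⟩ := plane2 hp (B₀ := P) (B₁ := Q) (f := y) (v := z) (c := γ)
    hd hyP hyQ (fun b hb => (mem_filter.1 hb).2.2) (fun b hb => (mem_filter.1 hb).2.2) h2 h3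
    (k₀ := p - 2 - i) (k₁ := i) (by omega) (by omega) (Or.inr ⟨by omega, by omega⟩) (-y e)
  have ha' := mem_filter.1 ha
  refine finish hNH he he0 he1 (T₀ := {a}) (T₁ := T₁) (by simpa using ha'.1) ?_ ?_ ?_ ?_ ?_ ?_ ?_
  · intro b hb
    rcases mem_union.1 (hT₁ hb) with h | h
    · exact (mem_filter.1 h).1
    · exact (mem_filter.1 h).1
  · intro b hb
    rw [mem_singleton.1 hb]
    exact ha'.2.1
  · intro b hb
    rcases mem_union.1 (hT₁ hb) with h | h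
    · exact (mem_filter.1 h).2.1
    · exact (mem_filter.1 h).2.1
  · rw [card_singleton, hT₁c]
    omega
  · have h5 : p - 2 - i + i = p - 2 := by omega
    rw [hT₁c, h5, hx, Nat.cast_sub (by omega), ZMod.natCast_self]
    push_cast
    ring
  · rw [sum_singleton, hT₁f, ha'.2.2]
    ring
  · rw [sum_singleton, hT₁v]
    linear_combination hai

end END51M

open END51M in
/-- two lines `y = 0, β` in the plane `x = 0` and two lines `z = 0, γ` in the plane `x = 1`, and an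
element outside these planes -/
theorem end51 {A : Finset ι} {x y z : ι → ZMod p} {β γ : ZMod p} (hp : 1000 ≤ p)
    (hinj : Set.InjOn (fun a => (x a, y a, z a)) A) (hNH : NH A x y z) (hβ : β ≠ 0) (hγ : γ ≠ 0)
    (h0 : 49 * p ≤ 50 * #{a ∈ A | x a = 0 ∧ y a = 0})
    (h1 : 49 * p ≤ 50 * #{a ∈ A | x a = 0 ∧ y a = β})
    (h2 : 49 * p ≤ 50 * #{a ∈ A | x a = 1 ∧ z a = 0})
    (h3 : 49 * p ≤ 50 * #{a ∈ A | x a = 1 ∧ z a = γ}) {e : ι} (he : e ∈ A)
    (he0 : x e ≠ 0) (he1 : x e ≠ 1) : False := by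
  have hp0 : NeZero p := ⟨by omega⟩
  -- the counts
  set k₁ : ℕ := (-x e).val with hk₁
  have hk1p : k₁ < p := ZMod.val_lt _
  have hk1c : (k₁ : ZMod p) = -x e := ZMod.natCast_zmod_val _
  have hk1 : 1 ≤ k₁ := by
    rcases Nat.eq_zero_or_pos k₁ with h | h
    · rw [h] at hk1c
      exfalso
      apply he0
      rw [Nat.cast_zero] at hk1c
      exact neg_eq_zero.1 hk1c.symm
    · exact h
  have hk2 : k₁ ≠ p - 1 := by
    intro h
    rw [h, Nat.cast_sub (by omega), ZMod.natCast_self] at hk1c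
    apply he1
    push_cast at hk1c
    linear_combination hk1c
  -- the case of one element in the plane `x = 0`
  by_cases hone : k₁ = p - 2
  · refine one hp hinj hNH hγ h0 h2 h3 he he0 he1 ?_
    rw [hone, Nat.cast_sub (by omega), ZMod.natCast_self] at hk1c
    push_cast at hk1c
    linear_combination hk1c
  by_cases hone' : k₁ = 1
  · have hx1 : x e = -1 := by
      rw [hone'] at hk1c
      push_cast at hk1c
      linear_combination hk1c
    have hfil : ∀ c : ZMod p, ∀ w : ι → ZMod p, ∀ t : ZMod p,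
        ({a ∈ A | (1 - x a) = 1 - c ∧ w a = t} : Finset ι) = {a ∈ A | x a = c ∧ w a = t} := by
      intro c w t
      ext a
      rw [mem_filter, mem_filter]
      constructor
      · rintro ⟨h, h', h''⟩
        exact ⟨h, by linear_combination -h', h''⟩
      · rintro ⟨h, h', h''⟩
        exact ⟨h, by rw [h'], h''⟩
    have hf0 : ∀ w : ι → ZMod p, ∀ t : ZMod p,
        ({a ∈ A | (1 - x a) = 0 ∧ w a = t} : Finset ι) = {a ∈ A | x a = 1 ∧ w a = t} := by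
      intro w t
      rw [← hfil 1 w t]
      simp only [sub_self]
    have hf1 : ∀ w : ι → ZMod p, ∀ t : ZMod p,
        ({a ∈ A | (1 - x a) = 1 ∧ w a = t} : Finset ι) = {a ∈ A | x a = 0 ∧ w a = t} := by
      intro w t
      rw [← hfil 0 w t]
      simp only [sub_zero]
    refine one (A := A) (x := fun a => 1 - x a) (y := z) (z := y) (γ := β) hp ?_ ?_ hβ ?_ ?_ ?_ he
      ?_ ?_ ?_
    · intro a ha b hb hab
      simp only [Prod.mk.injEq] at hab
      apply hinj ha hb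
      simp only [Prod.mk.injEq]
      exact ⟨by linear_combination -hab.1, hab.2.2, hab.2.1⟩
    · intro T hT hTc h1 h2 h3
      refine hNH T hT hTc ?_ h3 h2
      rw [sum_sub_distrib, sum_const, hTc, nsmul_eq_mul, ZMod.natCast_self, zero_mul, zero_sub,
        neg_eq_zero] at h1
      exact h1
    · rw [hf0]
      exact h2
    · rw [hf1]
      exact h0
    · rw [hf1]
      exact h1
    · intro h
      exact he1 (by linear_combination -h)
    · intro h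
      exact he0 (by linear_combination -h)
    · simp only [hx1]
      ring
  -- the general case
  obtain ⟨i₀, i₁, hi, hi0, hi1, hig⟩ := choose2 hp h2 h3 (k := k₁) (by omega) (by omega)
  obtain ⟨j₀, j₁, hj, hj0, hj1, hjg⟩ := choose2 hp h0 h1 (k := p - 1 - k₁) (by omega) (by omega)
  have hinjz : ∀ c d : ZMod p, Set.InjOn z ({a ∈ A | x a = c ∧ y a = d} : Finset ι) := by
    intro c d a ha b hb hab
    have ha' := mem_filter.1 (mem_coe.1 ha)
    have hb' := mem_filter.1 (mem_coe.1 hb)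
    apply hinj ha'.1 hb'.1
    simp only [ha'.2.1, ha'.2.2, hb'.2.1, hb'.2.2, hab]
  have hinjy : ∀ c d : ZMod p, Set.InjOn y ({a ∈ A | x a = c ∧ z a = d} : Finset ι) := by
    intro c d a ha b hb hab
    have ha' := mem_filter.1 (mem_coe.1 ha)
    have hb' := mem_filter.1 (mem_coe.1 hb)
    apply hinj ha'.1 hb'.1
    simp only [ha'.2.1, ha'.2.2, hb'.2.1, hb'.2.2, hab]
  have hdy : ∀ c d d' : ZMod p, d ≠ d' → ∀ w : ι → ZMod p,
      Disjoint ({a ∈ A | x a = c ∧ w a = d} : Finset ι) {a ∈ A | x a = c ∧ w a = d'} := by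
    intro c d d' hdd w
    rw [disjoint_left]
    intro a ha ha2
    have h4 := (mem_filter.1 ha).2.2
    rw [(mem_filter.1 ha2).2.2] at h4
    exact hdd h4.symm
  obtain ⟨T₀, hT₀, hT₀c, hT₀v, hT₀f⟩ := plane2 hp (f := z) (v := y) (c := β)
    (hdy 0 0 β hβ.symm y) (hinjz 0 0) (hinjz 0 β) (fun b hb => (mem_filter.1 hb).2.2)
    (fun b hb => (mem_filter.1 hb).2.2) h0 h1 hj0 hj1 hjg (-z e - (i₁ : ZMod p) * γ)
  obtain ⟨T₁, hT₁, hT₁c, hT₁v, hT₁f⟩ := plane2 hp (f := y) (v := z) (c := γ)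
    (hdy 1 0 γ hγ.symm z) (hinjy 1 0) (hinjy 1 γ) (fun b hb => (mem_filter.1 hb).2.2)
    (fun b hb => (mem_filter.1 hb).2.2) h2 h3 hi0 hi1 hig (-y e - (j₁ : ZMod p) * β)
  refine finish hNH he he0 he1 (T₀ := T₀) (T₁ := T₁) ?_ ?_ ?_ ?_ ?_ ?_ ?_ ?_
  · intro b hb
    rcases mem_union.1 (hT₀ hb) with h | h
    · exact (mem_filter.1 h).1
    · exact (mem_filter.1 h).1
  · intro b hb
    rcases mem_union.1 (hT₁ hb) with h | h
    · exact (mem_filter.1 h).1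
    · exact (mem_filter.1 h).1
  · intro b hb
    rcases mem_union.1 (hT₀ hb) with h | h
    · exact (mem_filter.1 h).2.1
    · exact (mem_filter.1 h).2.1
  · intro b hb
    rcases mem_union.1 (hT₁ hb) with h | h
    · exact (mem_filter.1 h).2.1
    · exact (mem_filter.1 h).2.1
  · rw [hT₀c, hT₁c, hi, hj]
    omega
  · rw [hT₁c, hi, hk1c]
    ring
  · rw [hT₀v, hT₁f]
    ring
  · rw [hT₀f, hT₁v]
    ring

end Pool.Agent.Lib.MPa7239a.R3X
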