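import Pool.Agent.Lib.MP_a7239a_co.R3X.Defs
import Pool.Agent.Lib.MP_a7239a_co.R3X.END51
import Pool.Agent.Lib.MP_a7239a_co.R3.PLANE
import Pool.Agent.Lib.MP_a7239a_co.R3.CARD

/-!
# Rank three, primes, exact value: the end (module ENDA of the Spec)
-/

set_option autoImplicit false

universe u

open Finset
open scoped Pointwise

namespace Pool.Agent.Lib.MPa7239a.R3X

open Pool.Agent.Lib.MPa7239a.GC (Hit)

variable {p : ℕ} [Fact p.Prime] {G : Type u} [AddCommGroup G] [Module (ZMod p) G] [Fintype G]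
  [DecidableEq G]

namespace ENDABM

omit [Fintype G] [DecidableEq G] in
/-- three affine coordinates -/
theorem nh_of {A : Finset G} (hA : ¬ Hit A p 0) {α β γ : G →ₗ[ZMod p] ZMod p}
    (hinj : ∀ v : G, α v = 0 → β v = 0 → γ v = 0 → v = 0) {a b c t : ZMod p} (ht : t ≠ 0) :
    NH A (fun v => t * (α v - a)) (fun v => β v - b) (fun v => γ v - c) := by
  intro T hT hTc h1 h2 h3
  apply hA
  refine ⟨T, hT, hTc, ?_⟩
  apply hinj
  · rw [← mul_sum, sum_sub_distrib, sum_const, hTc, nsmul_eq_mul, ZMod.natCast_self, zero_mul,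
      sub_zero] at h1
    rw [map_sum]
    exact (mul_eq_zero.1 h1).resolve_left ht
  · rw [sum_sub_distrib, sum_const, hTc, nsmul_eq_mul, ZMod.natCast_self, zero_mul,
      sub_zero] at h2
    rw [map_sum]
    exact h2
  · rw [sum_sub_distrib, sum_const, hTc, nsmul_eq_mul, ZMod.natCast_self, zero_mul,
      sub_zero] at h3
    rw [map_sum]
    exact h3

omit [Fintype G] [DecidableEq G] in
theorem inj_of {A : Finset G} {α β γ : G →ₗ[ZMod p] ZMod p}
    (hinj : ∀ v : G, α v = 0 → β v = 0 → γ v = 0 → v = 0) {a b c t : ZMod p} (ht : t ≠ 0) :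
    Set.InjOn (fun v => (t * (α v - a), β v - b, γ v - c)) (A : Set G) := by
  intro v _ w _ h
  simp only [Prod.mk.injEq] at h
  rw [← sub_eq_zero]
  have h1 := mul_left_cancel₀ ht h.1
  apply hinj
  · rw [map_sub]
    linear_combination h1
  · rw [map_sub]
    linear_combination h.2.1
  · rw [map_sub]
    linear_combination h.2.2

omit [Fintype G] [DecidableEq G] in
/-- a linear form which does not vanish on a line is injective on it -/
theorem line_inj {L : Submodule (ZMod p) G} (hL : Nat.card L = p) {γ : G →ₗ[ZMod p] ZMod p}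
    (h : ∃ x ∈ L, γ x ≠ 0) {x : G} (hx : x ∈ L) (hx0 : γ x = 0) : x = 0 := by
  have h1 := R3.card_inf_ker L h
  rw [hL] at h1
  have hp0 : 0 < p := (Fact.out : p.Prime).pos
  have h2 : Nat.card (L ⊓ LinearMap.ker γ : Submodule (ZMod p) G) = 1 :=
    Nat.eq_of_mul_eq_mul_left hp0 (by rw [h1, mul_one])
  have hmem : x ∈ (L ⊓ LinearMap.ker γ : Submodule (ZMod p) G) := ⟨hx, hx0⟩
  have hsub := (Nat.card_eq_one_iff_unique.1 h2).1
  have := hsub.elim ⟨x, hmem⟩ 0
  exact congrArg Subtype.val this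

omit [DecidableEq G] in
theorem exists_form {L : Submodule (ZMod p) G} (hL : Nat.card L = p) :
    ∃ γ : G →ₗ[ZMod p] ZMod p, ∃ x ∈ L, γ x ≠ 0 := by
  have hp1 : 1 < p := (Fact.out : p.Prime).one_lt
  obtain ⟨x, hx, hx0⟩ : ∃ x ∈ L, x ≠ 0 := by
    by_contra hcon
    push Not at hcon
    have hb : L = ⊥ := by
      rw [Submodule.eq_bot_iff]
      exact hcon
    rw [hb] at hL
    have : Nat.card (⊥ : Submodule (ZMod p) G) = 1 := by
      rw [Nat.card_eq_one_iff_unique]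
      exact ⟨inferInstance, inferInstance⟩
    omega
  by_contra hcon
  push Not at hcon
  apply hx0
  rw [← Module.forall_dual_apply_eq_zero_iff (ZMod p)]
  intro γ
  exact hcon γ x hx

end ENDABM

open ENDABM

theorem end_a (hp : 1000 ≤ p) (hG : Nat.card G = p ^ 3) {A : Finset G} (hcard : #A + 3 = 4 * p)
    {α β₀ β₁ : G →ₗ[ZMod p] ZMod p} {x₀ x₁ y₀ y₀' y₁ y₁' : ZMod p} (hx : x₀ ≠ x₁)
    (hy₀ : y₀ ≠ y₀') (hy₁ : y₁ ≠ y₁')
    (hL₀ : Nat.card (LinearMap.ker α ⊓ LinearMap.ker β₀ : Submodule (ZMod p) G) = p)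
    (hL₁ : Nat.card (LinearMap.ker α ⊓ LinearMap.ker β₁ : Submodule (ZMod p) G) = p)
    (hne : (LinearMap.ker α ⊓ LinearMap.ker β₀ : Submodule (ZMod p) G) ≠
      LinearMap.ker α ⊓ LinearMap.ker β₁)
    (h1 : 50 * p ≤ 50 * #(cl A α β₀ x₀ y₀) + p) (h2 : 50 * p ≤ 50 * #(cl A α β₀ x₀ y₀') + p)
    (h3 : 50 * p ≤ 50 * #(cl A α β₁ x₁ y₁) + p) (h4 : 50 * p ≤ 50 * #(cl A α β₁ x₁ y₁') + p) :
    Hit A p 0 := by
  by_contra hA
  have hform : ∃ x ∈ (LinearMap.ker α ⊓ LinearMap.ker β₀ : Submodule (ZMod p) G), β₁ x ≠ 0 := by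
    by_contra hcon
    push Not at hcon
    apply hne
    apply SetLike.coe_injective
    apply Set.eq_of_subset_of_ncard_le
    · intro x hx
      exact ⟨hx.1, hcon x hx⟩
    · have e1 : Set.ncard ((LinearMap.ker α ⊓ LinearMap.ker β₀ : Submodule (ZMod p) G) : Set G) =
          p := hL₀
      have e2 : Set.ncard ((LinearMap.ker α ⊓ LinearMap.ker β₁ : Submodule (ZMod p) G) : Set G) =
          p := hL₁
      rw [e1, e2]
    · exact Set.toFinite _
  have hinj : ∀ v : G, α v = 0 → β₀ v = 0 → β₁ v = 0 → v = 0 := by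
    intro v h1 h2 h3
    exact line_inj hL₀ hform (x := v) ⟨h1, h2⟩ h3
  have ht : (x₁ - x₀)⁻¹ ≠ 0 := inv_ne_zero (sub_ne_zero.2 hx.symm)
  have hxx : (x₁ - x₀)⁻¹ * (x₁ - x₀) = 1 := inv_mul_cancel₀ (sub_ne_zero.2 hx.symm)
  have f0 : ∀ v : G, (x₁ - x₀)⁻¹ * (α v - x₀) = 0 ↔ α v = x₀ := by
    intro v
    rw [mul_eq_zero]
    constructor
    · rintro (h | h)
      · exact absurd h ht
      · exact sub_eq_zero.1 h
    · intro h
      exact Or.inr (sub_eq_zero.2 h)
  have f1 : ∀ v : G, (x₁ - x₀)⁻¹ * (α v - x₀) = 1 ↔ α v = x₁ := by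
    intro v
    constructor
    · intro h
      have := mul_left_cancel₀ ht (h.trans hxx.symm)
      linear_combination this
    · intro h
      rw [h]
      exact hxx
  -- the exceptional element
  have hα : α ≠ 0 := by
    rintro rfl
    apply hx
    have n0 : 0 < #(cl A (0 : G →ₗ[ZMod p] ZMod p) β₀ x₀ y₀) := by omega
    have n1 : 0 < #(cl A (0 : G →ₗ[ZMod p] ZMod p) β₁ x₁ y₁) := by omega
    obtain ⟨v, hv⟩ := card_pos.1 n0
    obtain ⟨w, hw⟩ := card_pos.1 n1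
    have e1 := (mem_cl.1 hv).2.1
    have e2 := (mem_cl.1 hw).2.1
    rw [← e1, ← e2]
    rfl
  obtain ⟨e, he, he0, he1⟩ : ∃ e ∈ A, α e ≠ x₀ ∧ α e ≠ x₁ := by
    by_contra hcon
    push Not at hcon
    have r0 := R3.row_le (by omega) hG hA hα x₀
    have r1 := R3.row_le (by omega) hG hA hα x₁
    have hsub : A ⊆ {a ∈ A | α a = x₀} ∪ {a ∈ A | α a = x₁} := by
      intro a ha
      rw [mem_union, mem_filter, mem_filter]
      by_cases h : α a = x₀
      · exact Or.inl ⟨ha, h⟩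
      · exact Or.inr ⟨ha, hcon a ha h⟩
    have := (card_le_card hsub).trans (card_union_le _ _)
    omega
  refine end51 (A := A) (x := fun v => (x₁ - x₀)⁻¹ * (α v - x₀)) (y := fun v => β₀ v - y₀)
    (z := fun v => β₁ v - y₁) (β := y₀' - y₀) (γ := y₁' - y₁) hp (inj_of hinj ht)
    (nh_of hA hinj ht) (sub_ne_zero.2 hy₀.symm) (sub_ne_zero.2 hy₁.symm) ?_ ?_ ?_ ?_ he ?_ ?_
  · simp only [f0, sub_eq_zero]
    change 49 * p ≤ 50 * #(cl A α β₀ x₀ y₀)
    omega
  · simp only [f0, sub_left_inj]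
    change 49 * p ≤ 50 * #(cl A α β₀ x₀ y₀')
    omega
  · simp only [f1, sub_eq_zero]
    change 49 * p ≤ 50 * #(cl A α β₁ x₁ y₁)
    omega
  · simp only [f1, sub_left_inj]
    change 49 * p ≤ 50 * #(cl A α β₁ x₁ y₁')
    omega
  · intro h
    exact he0 ((f0 e).1 h)
  · intro h
    exact he1 ((f1 e).1 h)

end Pool.Agent.Lib.MPa7239a.R3X
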