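import Pool.Agent.Lib.MP_a7239a_co.R3X.ARI
import Pool.Agent.Lib.MP_a7239a_co.R3X.COMP

/-!
# R3X: module TYA
-/

set_option autoImplicit false

open Finset

namespace Pool.Agent.Lib.MPa7239a.R3X

open Pool.Agent.Lib.MPa7239a.GC (Hit)

section
variable {p : ℕ} [Fact p.Prime] {G : Type*} [AddCommGroup G] [Module (ZMod p) G] [Fintype G]
  [DecidableEq G]

/-- an exceptional element of type A gives a hit, or it is near a corner -/
theorem type_a (hp : 1000 ≤ p) {A : Finset G} {α β : G →ₗ[ZMod p] ZMod p} {a₀ b₀ : ZMod p}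
    {g : ℕ} {s : Fin 4 → ℕ} (f : Frm A α β a₀ b₀ g s) {e : G} (he : e ∈ A)
    (h0 : ¬ (α e = a₀ ∧ (β e = b₀ ∨ β e = b₀ + 1)))
    (h1 : ¬ (α e = a₀ + 1 ∧ (β e = b₀ ∨ β e = b₀ + g))) {k : ℕ} (hx : α e = a₀ - k)
    (hgk : g + k + 2 ≤ p) (h4 : 4 * (k + 1) ≤ 3 * p) :
    Hit A p 0 ∨ Nr p α β a₀ b₀ e ∨
      Nr p α (((g : ZMod p) - 1) • α - β) a₀ (((g : ZMod p) - 1) * a₀ - b₀ - 1) e := by
  have hp1 : Fact (1 < p) := ⟨by omega⟩
  have hne0 : ¬ (k = 0 ∧ β e - b₀ = 0) := by
    rintro ⟨hk, hy⟩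
    apply h0
    rw [hx, hk, sub_eq_zero.1 hy]
    simp
  have hne1 : ¬ (k = 0 ∧ β e - b₀ = 1) := by
    rintro ⟨hk, hy⟩
    apply h0
    rw [hx, hk]
    refine ⟨by simp, Or.inr ?_⟩
    rw [← hy]
    ring
  have hg0 : (g : ZMod p) ≠ 0 := by
    intro h
    rw [ZMod.natCast_eq_zero_iff] at h
    have := Nat.le_of_dvd f.g1 h
    have := f.g2
    omega
  have hcl : ∀ i : Fin 4, #(cl A α β (![a₀, a₀, a₀ + 1, a₀ + 1] i)
      (![b₀, b₀ + 1, b₀, b₀ + (g : ZMod p)] i)) + s i = p := by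
    intro i
    fin_cases i
    · exact f.c0
    · exact f.c1
    · exact f.c2
    · exact f.c3
  rcases arith hp f.g1 f.g2 (f.s1 0) (f.s1 1) (f.s2 0) (f.s2 1) hgk h4 hne0 hne1 with
    ⟨kO, kX, t, ht, hsum, hkO, hkX, hval, hgood⟩ | ⟨u, hu1, hu2, hu3, hu4⟩ | ⟨u, hu1, hu2, hu3, hu4⟩
  · left
    have hkcast : ((k - t : ℕ) : ZMod p) = k - t := by rw [Nat.cast_sub ht]
    have hsumc : (kO : ZMod p) + kX + k + 1 = 0 := by
      have : ((kO + kX + k + 1 : ℕ) : ZMod p) = (p : ZMod p) := by rw [hsum]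
      push_cast at this
      rw [this, ZMod.natCast_self]
    have hs2 := f.s2 2
    have hs3 := f.s2 3
    refine comp (by omega) f.hL (F := {e}) (by simpa using he) (ι := Fin 4)
      (x := ![a₀, a₀, a₀ + 1, a₀ + 1]) (y := ![b₀, b₀ + 1, b₀, b₀ + (g : ZMod p)]) ?_
      (k := ![kO, kX, k - t, t]) ?_ ?_ ?_ ?_ ?_ ?_ ?_
    · intro i j hij hij'
      have ha : a₀ ≠ a₀ + 1 := by simp
      have hb : b₀ ≠ b₀ + 1 := by simp
      have hb' : b₀ ≠ b₀ + (g : ZMod p) := by simpa using hg0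
      fin_cases i <;> fin_cases j <;> first
        | rfl
        | exact absurd hij ha
        | exact absurd hij ha.symm
        | exact absurd hij' hb
        | exact absurd hij' hb.symm
        | exact absurd hij' hb'
        | exact absurd hij' hb'.symm
    · intro i
      have hi := hcl i
      have h5 : ![kO, kX, k - t, t] i + s i ≤ p := by
        fin_cases i
        · exact hkO
        · exact hkX
        · show k - t + s 2 ≤ p
          omega
        · show t + s 3 ≤ p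
          omega
      omega
    · intro i
      have hi := hcl i
      have hsi := f.s2 i
      omega
    · intro a ha i
      rw [mem_singleton] at ha
      rw [ha]
      fin_cases i
      · exact fun h => h0 ⟨h.1, Or.inl h.2⟩
      · exact fun h => h0 ⟨h.1, Or.inr h.2⟩
      · exact fun h => h1 ⟨h.1, Or.inl h.2⟩
      · exact fun h => h1 ⟨h.1, Or.inr h.2⟩
    · rw [card_singleton, Fin.sum_univ_four]
      show 1 + (kO + kX + (k - t) + t) = p
      omega
    · rw [sum_singleton, Fin.sum_univ_four]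
      show α e + ((kO : ZMod p) * a₀ + kX * a₀ + ((k - t : ℕ) : ZMod p) * (a₀ + 1) +
        t * (a₀ + 1)) = 0
      rw [hkcast, hx]
      linear_combination a₀ * hsumc
    · rw [sum_singleton, Fin.sum_univ_four]
      show β e + ((kO : ZMod p) * b₀ + kX * (b₀ + 1) + ((k - t : ℕ) : ZMod p) * b₀ +
        t * (b₀ + g)) = 0
      rw [hkcast]
      linear_combination b₀ * hsumc + hval
    · left
      rcases hgood with ⟨h5, h6⟩ | ⟨h5, h6⟩
      · refine ⟨1, h5, ?_⟩
        have := hcl 1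
        show kX + 2 ≤ _
        omega
      · refine ⟨2, h5, ?_⟩
        have := hcl 2
        show k - t + 2 ≤ _
        omega
  · right
    left
    refine ⟨k, u, hu1, hu2, hu3, hx, ?_⟩
    linear_combination hu4
  · right
    right
    refine ⟨k, u, hu1, hu2, hu3, hx, ?_⟩
    show ((g : ZMod p) - 1) * α e - β e = _
    rw [hx]
    linear_combination hu4

end

end Pool.Agent.Lib.MPa7239a.R3X
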