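import Pool.Agent.Lib.MP_a7239a_co.R3X.DUAL
import Pool.Agent.Lib.MP_a7239a_co.R3X.TYA
import Pool.Agent.Lib.MP_a7239a_co.R3X.CORN

/-!
# R3X: module ENDB
-/

set_option autoImplicit false

universe u

open Finset
open scoped Pointwise

namespace Pool.Agent.Lib.MPa7239a.R3X

open Pool.Agent.Lib.MPa7239a.GC (Hit)

section
variable {p : ℕ} [Fact p.Prime] {G : Type u} [AddCommGroup G] [Module (ZMod p) G] [Fintype G]
  [DecidableEq G]

namespace ENDBM

theorem corner_frm (hp : 1000 ≤ p) {A : Finset G} {α β : G →ₗ[ZMod p] ZMod p} {a₀ b₀ : ZMod p}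
    {g : ℕ} {s : Fin 4 → ℕ} (f : Frm A α β a₀ b₀ g s) {E : Finset G} (hE : E ⊆ A)
    (hnr : ∀ e ∈ E, Nr p α β a₀ b₀ e) (hno : ¬ Hit A p 0) : #E + 1 ≤ s 0 := by
  by_contra hc
  apply hno
  have h1 := f.s1 0
  refine corner hp f.hL f.c0 h1 (f.s2 0) ?_ ?_ hE hnr (by omega) (by omega) (by omega)
  · have h2 := f.c1
    have h3 := f.s2 1
    omega
  · have h2 := f.c2
    have h3 := f.s2 2
    omega

omit [Fintype G] in
/-- the four classes and the exceptional elements -/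
theorem count (A : Finset G) (α β : G →ₗ[ZMod p] ZMod p) {a₀ b₀ : ZMod p} {g : ℕ}
    {s : Fin 4 → ℕ} (f : Frm A α β a₀ b₀ g s) (hcard : #A + 3 = 4 * p) :
    s 0 + s 1 + s 2 + s 3 ≤ #{e ∈ A | ¬ (α e = a₀ ∧ (β e = b₀ ∨ β e = b₀ + 1)) ∧
      ¬ (α e = a₀ + 1 ∧ (β e = b₀ ∨ β e = b₀ + g))} + 3 := by
  have hsub : A ⊆ {e ∈ A | ¬ (α e = a₀ ∧ (β e = b₀ ∨ β e = b₀ + 1)) ∧
      ¬ (α e = a₀ + 1 ∧ (β e = b₀ ∨ β e = b₀ + g))} ∪ (cl A α β a₀ b₀ ∪ (cl A α β a₀ (b₀ + 1) ∪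
      (cl A α β (a₀ + 1) b₀ ∪ cl A α β (a₀ + 1) (b₀ + g)))) := by
    intro e he
    simp only [mem_union, mem_filter, mem_cl]
    tauto
  have h1 := (Finset.card_le_card hsub).trans (Finset.card_union_le _ _)
  have h2 := Finset.card_union_le (cl A α β a₀ b₀) (cl A α β a₀ (b₀ + 1) ∪
      (cl A α β (a₀ + 1) b₀ ∪ cl A α β (a₀ + 1) (b₀ + g)))
  have h3 := Finset.card_union_le (cl A α β a₀ (b₀ + 1))
      (cl A α β (a₀ + 1) b₀ ∪ cl A α β (a₀ + 1) (b₀ + g))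
  have h4 := Finset.card_union_le (cl A α β (a₀ + 1) b₀) (cl A α β (a₀ + 1) (b₀ + g))
  have c0 := f.c0
  have c1 := f.c1
  have c2 := f.c2
  have c3 := f.c3
  omega

/-- one of the two types -/
theorem types (hp : 1000 ≤ p) {g g' k k' : ℕ} (hg : 2 * g < p) (hg' : 2 * g' < p)
    (hgg : (g : ZMod p) * g' = 1 ∨ (g : ZMod p) * g' = -1) (hk : k + k' + 1 = p) :
    (g + k + 2 ≤ p ∧ 4 * (k + 1) ≤ 3 * p) ∨ (g' + k' + 2 ≤ p ∧ 4 * (k' + 1) ≤ 3 * p) := by
  by_contra hc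
  rw [not_or] at hc
  obtain ⟨h1, h2⟩ := hc
  -- both equal to (p-1)/2
  have hodd : p % 2 = 1 := by
    rcases (Fact.out : p.Prime).eq_two_or_odd with h | h
    · omega
    · exact h
  have e1 : 2 * g + 1 = p := by omega
  have e2 : 2 * g' + 1 = p := by omega
  have f1 : (2 : ZMod p) * g = -1 := by
    have : ((2 * g + 1 : ℕ) : ZMod p) = 0 := by rw [e1]; exact ZMod.natCast_self p
    push_cast at this
    linear_combination this
  have f2 : (2 : ZMod p) * g' = -1 := by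
    have : ((2 * g' + 1 : ℕ) : ZMod p) = 0 := by rw [e2]; exact ZMod.natCast_self p
    push_cast at this
    linear_combination this
  have f3 : (4 : ZMod p) * ((g : ZMod p) * g') = 1 := by
    linear_combination (2 * (g' : ZMod p)) * f1 - f2
  rcases hgg with h | h
  · rw [h] at f3
    have h3 : ((3 : ℕ) : ZMod p) = 0 := by push_cast; linear_combination f3
    rw [ZMod.natCast_eq_zero_iff] at h3
    have := Nat.le_of_dvd (by norm_num) h3
    omega
  · rw [h] at f3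
    have h5 : ((5 : ℕ) : ZMod p) = 0 := by push_cast; linear_combination -f3
    rw [ZMod.natCast_eq_zero_iff] at h5
    have := Nat.le_of_dvd (by norm_num) h5
    omega

end ENDBM

theorem end_b (hp : 1000 ≤ p) {A : Finset G} (hcard : #A + 3 = 4 * p)
    {α β : G →ₗ[ZMod p] ZMod p} {a₀ b₀ : ZMod p} {g : ℕ} {s : Fin 4 → ℕ}
    (f : Frm A α β a₀ b₀ g s) : Hit A p 0 := by
  classical
  by_contra hno
  obtain ⟨β', b₀', g', s', f', hs0, hs1, -, hgg, hd1, hd2, hd3⟩ := frm_dual f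
  set E : Finset G := {e ∈ A | ¬ (α e = a₀ ∧ (β e = b₀ ∨ β e = b₀ + 1)) ∧
      ¬ (α e = a₀ + 1 ∧ (β e = b₀ ∨ β e = b₀ + g))} with hE
  have hcount := ENDBM.count A α β f hcard
  rw [← hE] at hcount
  set N0 : G → Prop := fun e => Nr p α β a₀ b₀ e with hN0
  set N1 : G → Prop := fun e =>
    Nr p α (((g : ZMod p) - 1) • α - β) a₀ (((g : ZMod p) - 1) * a₀ - b₀ - 1) e with hN1
  set N2 : G → Prop := fun e => Nr p (-α) β' (-a₀ - 1) b₀' e with hN2
  set N3 : G → Prop := fun e =>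
    Nr p (-α) (((g' : ZMod p) - 1) • (-α) - β') (-a₀ - 1)
      (((g' : ZMod p) - 1) * (-a₀ - 1) - b₀' - 1) e with hN3
  have hnear : ∀ e ∈ E, N0 e ∨ N1 e ∨ N2 e ∨ N3 e := by
    intro e he
    rw [hE, mem_filter] at he
    obtain ⟨heA, h0, h1⟩ := he
    have hp0 : 0 < p := (Fact.out : p.Prime).pos
    obtain ⟨k, hk, hkp⟩ : ∃ k : ℕ, α e = a₀ - k ∧ k < p := by
      refine ⟨(a₀ - α e).val, ?_, ZMod.val_lt _⟩
      rw [ZMod.natCast_zmod_val]
      ring
    obtain ⟨k', hkk'⟩ : ∃ k', k + k' + 1 = p := ⟨p - 1 - k, by omega⟩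
    have hkc : ((k' : ℕ) : ZMod p) = -1 - k := by
      have : ((k + k' + 1 : ℕ) : ZMod p) = 0 := by rw [hkk']; exact ZMod.natCast_self p
      push_cast at this
      linear_combination this
    rcases ENDBM.types hp f.g2 f'.g2 hgg hkk' with ⟨ha, hb⟩ | ⟨ha, hb⟩
    · rcases type_a hp f heA h0 h1 hk ha hb with h | h | h
      · exact absurd h hno
      · exact Or.inl h
      · exact Or.inr (Or.inl h)
    · have h0' : ¬ ((-α) e = -a₀ - 1 ∧ (β' e = b₀' ∨ β' e = b₀' + 1)) := by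
        rintro ⟨hx, hy | hy⟩
        · obtain ⟨h2, h3⟩ := hd1 e hx hy
          exact h1 ⟨h2, Or.inl h3⟩
        · obtain ⟨h2, h3⟩ := hd2 e hx hy
          exact h1 ⟨h2, Or.inr h3⟩
      have h1' : ¬ ((-α) e = -a₀ - 1 + 1 ∧ (β' e = b₀' ∨ β' e = b₀' + g')) := by
        rintro ⟨hx, hy⟩
        rw [sub_add_cancel] at hx
        exact h0 (hd3 e hx hy)
      have hx' : (-α) e = -a₀ - 1 - k' := by
        rw [LinearMap.neg_apply, hk, hkc]
        ring
      rcases type_a hp f' heA h0' h1' hx' ha hb with h | h | h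
      · exact absurd h hno
      · exact Or.inr (Or.inr (Or.inl h))
      · exact Or.inr (Or.inr (Or.inr h))
  have hsub : E ⊆ {e ∈ A | N0 e} ∪ ({e ∈ A | N1 e} ∪ ({e ∈ A | N2 e} ∪ {e ∈ A | N3 e})) := by
    intro e he
    have hA : e ∈ A := (mem_filter.1 he).1
    simp only [mem_union, mem_filter]
    rcases hnear e he with h | h | h | h
    · exact Or.inl ⟨hA, h⟩
    · exact Or.inr (Or.inl ⟨hA, h⟩)
    · exact Or.inr (Or.inr (Or.inl ⟨hA, h⟩))
    · exact Or.inr (Or.inr (Or.inr ⟨hA, h⟩))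
  have k0 := (Finset.card_le_card hsub).trans (Finset.card_union_le _ _)
  have k1 := Finset.card_union_le {e ∈ A | N1 e} ({e ∈ A | N2 e} ∪ {e ∈ A | N3 e})
  have k2 := Finset.card_union_le {e ∈ A | N2 e} {e ∈ A | N3 e}
  have m0 := ENDBM.corner_frm hp f (E := {e ∈ A | N0 e}) (filter_subset _ _)
    (fun e he => (mem_filter.1 he).2) hno
  have m1 := ENDBM.corner_frm hp (frm_swap f) (E := {e ∈ A | N1 e}) (filter_subset _ _)
    (fun e he => (mem_filter.1 he).2) hno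
  have m2 := ENDBM.corner_frm hp f' (E := {e ∈ A | N2 e}) (filter_subset _ _)
    (fun e he => (mem_filter.1 he).2) hno
  have m3 := ENDBM.corner_frm hp (frm_swap f') (E := {e ∈ A | N3 e}) (filter_subset _ _)
    (fun e he => (mem_filter.1 he).2) hno
  have m1' : #{e ∈ A | N1 e} + 1 ≤ s 1 := m1
  have m3' : #{e ∈ A | N3 e} + 1 ≤ s' 1 := m3
  rw [hs0] at m2
  rw [hs1] at m3'
  omega

end

end Pool.Agent.Lib.MPa7239a.R3X
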