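import Mathlib

/-!
# Rank three, primes, exact value: sums of a given number of elements of almost full lines
-/

set_option autoImplicit false

open Finset

namespace Pool.Agent.Lib.MPa7239a.R3X

variable {p : ℕ} [Fact p.Prime] {ι : Type*} [DecidableEq ι]

/-- no `p` elements of `A` have sum zero in the three coordinates -/
def NH (A : Finset ι) (x y z : ι → ZMod p) : Prop :=
  ∀ T ⊆ A, #T = p → ∑ a ∈ T, x a = 0 → ∑ a ∈ T, y a = 0 → ∑ a ∈ T, z a = 0 → False

namespace ENDM

/-- `2 j` elements in pairs of sum `c` -/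
theorem pairs (hp : 100 ≤ p) {B : Finset (ZMod p)} (c : ZMod p) (j : ℕ)
    (h : 2 * j + p + 1 ≤ 2 * #B) :
    ∃ T ⊆ B, #T = 2 * j ∧ ∑ b ∈ T, b = (j : ZMod p) * c := by
  set S : Finset (ZMod p) := {y ∈ B | c - y ∈ B ∧ c - y ≠ y} with hS
  have hSc : 2 * #B ≤ #S + p + 1 := by
    have h1 : #B ≤ #{y ∈ B | c - y ∈ B} + (p - #B) := by
      have h2 : B \ {y ∈ B | c - y ∈ B} ⊆ (univ \ B).image (fun y => c - y) := by
        intro y hy
        rw [mem_sdiff, mem_filter, not_and] at hy
        rw [mem_image]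
        refine ⟨c - y, ?_, by ring⟩
        rw [mem_sdiff]
        exact ⟨mem_univ _, hy.2 hy.1⟩
      have h3 := (card_le_card h2).trans card_image_le
      rw [card_sdiff_of_subset (filter_subset _ _), card_sdiff_of_subset (subset_univ _),
        card_univ, ZMod.card] at h3
      omega
    have h2 : #{y ∈ B | c - y ∈ B} ≤ #S + 1 := by
      have h3 : {y ∈ B | c - y ∈ B} ⊆ S ∪ {y ∈ B | c - y = y} := by
        intro y hy
        rw [mem_filter] at hy
        by_cases h : c - y = y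
        · exact mem_union_right _ (mem_filter.2 ⟨hy.1, h⟩)
        · exact mem_union_left _ (mem_filter.2 ⟨hy.1, hy.2, h⟩)
      have h4 : #{y ∈ B | c - y = y} ≤ 1 := by
        rw [card_le_one]
        intro a ha b hb
        rw [mem_filter] at ha hb
        have h5 : 2 * a = 2 * b := by
          have e1 : c = 2 * a := by linear_combination ha.2
          have e2 : c = 2 * b := by linear_combination hb.2
          rw [← e1, ← e2]
        have h6 : (2 : ZMod p) * (a - b) = 0 := by linear_combination h5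
        rcases mul_eq_zero.1 h6 with h7 | h7
        · exfalso
          have h9 : ((2 : ℕ) : ZMod p) = 0 := by
            push_cast
            linear_combination h7
          rw [ZMod.natCast_eq_zero_iff] at h9
          have := Nat.le_of_dvd (by norm_num) h9
          omega
        · exact sub_eq_zero.1 h7
      have h5 := (card_le_card h3).trans (card_union_le _ _)
      omega
    have h3 : #B ≤ p := by
      have := card_le_univ B
      rwa [ZMod.card] at this
    omega
  -- induction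
  have key : ∀ i : ℕ, 2 * i ≤ #S → ∃ T ⊆ S, #T = 2 * i ∧ (∀ y ∈ T, c - y ∈ T) ∧
      ∑ b ∈ T, b = (i : ZMod p) * c := by
    intro i
    induction i with
    | zero =>
      intro _
      exact ⟨∅, empty_subset _, by simp, by simp, by simp⟩
    | succ i ih =>
      intro hi
      obtain ⟨T, hT, hTc, hTi, hTs⟩ := ih (by omega)
      obtain ⟨y, hy, hyT⟩ := exists_mem_notMem_of_card_lt_card (show #T < #S by omega)
      have hyS := hy
      rw [hS, mem_filter] at hy
      have hy'T : c - y ∉ T := by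
        intro h
        apply hyT
        have := hTi _ h
        rwa [sub_sub_cancel] at this
      have hy'S : c - y ∈ S := by
        rw [hS, mem_filter]
        refine ⟨hy.2.1, ?_, ?_⟩
        · rw [sub_sub_cancel]
          exact hy.1
        · rw [sub_sub_cancel]
          exact fun h => hy.2.2 h.symm
      have hyn : y ∉ insert (c - y) T := by
        rw [mem_insert]
        rintro (h | h)
        · exact hy.2.2 h.symm
        · exact hyT h
      refine ⟨insert y (insert (c - y) T), ?_, ?_, ?_, ?_⟩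
      · intro a ha
        rw [mem_insert, mem_insert] at ha
        rcases ha with rfl | rfl | ha
        · exact hyS
        · exact hy'S
        · exact hT ha
      · rw [card_insert_of_notMem hyn, card_insert_of_notMem hy'T, hTc]
        omega
      · intro a ha
        rw [mem_insert, mem_insert] at ha
        rw [mem_insert, mem_insert]
        rcases ha with rfl | rfl | ha
        · exact Or.inr (Or.inl rfl)
        · left
          ring
        · exact Or.inr (Or.inr (hTi a ha))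
      · rw [sum_insert hyn, sum_insert hy'T, hTs]
        push_cast
        ring
  obtain ⟨T, hT, hTc, -, hTs⟩ := key j (by omega)
  exact ⟨T, hT.trans (filter_subset _ _), hTc, hTs⟩

/-- `k <= #B / 2` -/
theorem nfHalf (hp : 100 ≤ p) {B : Finset (ZMod p)} (hB : 7 * p ≤ 8 * #B) {k : ℕ} (hk : 2 ≤ k)
    (hk2 : 2 * k ≤ #B) (t : ZMod p) : ∃ T ⊆ B, #T = k ∧ ∑ b ∈ T, b = t := by
  have hBp : #B ≤ p := by
    have := card_le_univ B
    rwa [ZMod.card] at this
  rcases Nat.even_or_odd' k with ⟨j, rfl | rfl⟩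
  · have hj : (j : ZMod p) ≠ 0 := by
      rw [Ne, ZMod.natCast_eq_zero_iff]
      intro h
      have := Nat.le_of_dvd (by omega) h
      omega
    obtain ⟨T, hT, hTc, hTs⟩ := pairs hp (B := B) (t / j) j (by omega)
    refine ⟨T, hT, hTc, ?_⟩
    rw [hTs]
    field_simp
  · have hj : (j : ZMod p) ≠ 0 := by
      rw [Ne, ZMod.natCast_eq_zero_iff]
      intro h
      have := Nat.le_of_dvd (by omega) h
      omega
    obtain ⟨b, hb⟩ : B.Nonempty := by
      rw [← card_pos]
      omega
    have hbc : #(B.erase b) = #B - 1 := card_erase_of_mem hb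
    obtain ⟨T, hT, hTc, hTs⟩ := pairs hp (B := B.erase b) ((t - b) / j) j (by omega)
    have hbT : b ∉ T := fun h => notMem_erase b B (hT h)
    refine ⟨insert b T, ?_, ?_, ?_⟩
    · rw [insert_subset_iff]
      exact ⟨hb, hT.trans (erase_subset _ _)⟩
    · rw [card_insert_of_notMem hbT, hTc]
    · rw [sum_insert hbT, hTs]
      field_simp
      ring

/-- all the sums of `k` elements, `2 <= k <= #B - 2` -/
theorem nfZ (hp : 100 ≤ p) {B : Finset (ZMod p)} (hB : 7 * p ≤ 8 * #B) {k : ℕ} (hk : 2 ≤ k)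
    (hk2 : k + 2 ≤ #B) (t : ZMod p) : ∃ T ⊆ B, #T = k ∧ ∑ b ∈ T, b = t := by
  rcases le_or_gt (2 * k) #B with h | h
  · exact nfHalf hp hB hk h t
  · obtain ⟨T, hT, hTc, hTs⟩ := nfHalf hp hB (k := #B - k) (by omega) (by omega)
      (∑ b ∈ B, b - t)
    refine ⟨B \ T, sdiff_subset, ?_, ?_⟩
    · rw [card_sdiff_of_subset hT, hTc]
      omega
    · have := sum_sdiff (f := fun b => b) hT
      rw [hTs] at this
      linear_combination this

omit [DecidableEq ι] in
/-- pull back along an injective function -/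
theorem pull {B : Finset ι} {f : ι → ZMod p} (hf : Set.InjOn f B) {T : Finset (ZMod p)}
    (hT : T ⊆ B.image f) : ∃ T' ⊆ B, #T' = #T ∧ ∑ a ∈ T', f a = ∑ b ∈ T, b := by
  refine ⟨{a ∈ B | f a ∈ T}, filter_subset _ _, ?_, ?_⟩
  · have h1 : ({a ∈ B | f a ∈ T}).image f = T := by
      ext b
      rw [mem_image]
      constructor
      · rintro ⟨a, ha, rfl⟩
        exact (mem_filter.1 ha).2
      · intro hb
        obtain ⟨a, ha, rfl⟩ := mem_image.1 (hT hb)
        exact ⟨a, mem_filter.2 ⟨ha, hb⟩, rfl⟩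
    have h2 : Set.InjOn f ({a ∈ B | f a ∈ T} : Finset ι) :=
      hf.mono (by
        intro a ha
        exact (mem_filter.1 (mem_coe.1 ha)).1)
    rw [← card_image_of_injOn h2, h1]
  · have h1 : ({a ∈ B | f a ∈ T}).image f = T := by
      ext b
      rw [mem_image]
      constructor
      · rintro ⟨a, ha, rfl⟩
        exact (mem_filter.1 ha).2
      · intro hb
        obtain ⟨a, ha, rfl⟩ := mem_image.1 (hT hb)
        exact ⟨a, mem_filter.2 ⟨ha, hb⟩, rfl⟩
    have h2 : Set.InjOn f ({a ∈ B | f a ∈ T} : Finset ι) :=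
      hf.mono (by
        intro a ha
        exact (mem_filter.1 (mem_coe.1 ha)).1)
    rw [← h1, sum_image h2, h1]

omit [DecidableEq ι] in
theorem nf (hp : 100 ≤ p) {B : Finset ι} {f : ι → ZMod p} (hf : Set.InjOn f B)
    (hB : 7 * p ≤ 8 * #B) {k : ℕ} (hk : 2 ≤ k) (hk2 : k + 2 ≤ #B) (t : ZMod p) :
    ∃ T ⊆ B, #T = k ∧ ∑ a ∈ T, f a = t := by
  have hc : #(B.image f) = #B := card_image_of_injOn hf
  obtain ⟨T, hT, hTc, hTs⟩ := nfZ hp (B := B.image f) (by rw [hc]; exact hB) hk
    (by rw [hc]; exact hk2) t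
  obtain ⟨T', hT', hTc', hTs'⟩ := pull hf hT
  exact ⟨T', hT', by rw [hTc', hTc], by rw [hTs', hTs]⟩

/-- many sums of `k` elements, `1 <= k <= #B - 1` -/
theorem nf1 (hp : 100 ≤ p) {B : Finset ι} {f : ι → ZMod p} (hf : Set.InjOn f B)
    (hB : 7 * p ≤ 8 * #B) {k : ℕ} (hk : 1 ≤ k) (hk2 : k + 1 ≤ #B) :
    ∃ S : Finset (ZMod p), 7 * p ≤ 8 * #S ∧ ∀ s ∈ S, ∃ T ⊆ B, #T = k ∧ ∑ a ∈ T, f a = s := by
  by_cases h : 2 ≤ k ∧ k + 2 ≤ #B
  · refine ⟨univ, ?_, fun s _ => nf hp hf hB h.1 h.2 s⟩
    rw [card_univ, ZMod.card]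
    omega
  · have hc : #(B.image f) = #B := card_image_of_injOn hf
    rcases Nat.lt_or_ge k 2 with h1 | h1
    · refine ⟨B.image f, by rw [hc]; exact hB, ?_⟩
      intro s hs
      obtain ⟨a, ha, rfl⟩ := mem_image.1 hs
      refine ⟨{a}, by simpa using ha, ?_, by simp⟩
      rw [card_singleton]
      omega
    · have h2 : k = #B - 1 := by omega
      refine ⟨(B.image f).image (fun s => ∑ a ∈ B, f a - s), ?_, ?_⟩
      · rw [card_image_of_injective _ (sub_right_injective), hc]
        exact hB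
      · intro s hs
        obtain ⟨s', hs', rfl⟩ := mem_image.1 hs
        obtain ⟨a, ha, rfl⟩ := mem_image.1 hs'
        refine ⟨B.erase a, erase_subset _ _, ?_, ?_⟩
        · rw [card_erase_of_mem ha, h2]
        · rw [← add_sum_erase B f ha]
          ring

/-- pigeonhole -/
theorem pigeon {S₁ S₂ : Finset (ZMod p)} (h₁ : 7 * p ≤ 8 * #S₁) (h₂ : 7 * p ≤ 8 * #S₂)
    (t : ZMod p) : ∃ s₁ ∈ S₁, ∃ s₂ ∈ S₂, s₁ + s₂ = t := by
  by_contra hcon
  push Not at hcon
  have hp0 : 0 < p := (Fact.out : p.Prime).pos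
  have h3 : Disjoint (S₁.image (fun s => t - s)) S₂ := by
    rw [disjoint_left]
    intro a ha ha2
    obtain ⟨s, hs, rfl⟩ := mem_image.1 ha
    exact hcon s hs _ ha2 (by ring)
  have h4 := card_le_univ (S₁.image (fun s => t - s) ∪ S₂)
  rw [card_union_of_disjoint h3, card_image_of_injective _ (sub_right_injective), ZMod.card]
    at h4
  omega

end ENDM

open ENDM

variable {κ : Type*} [Fintype κ] [DecidableEq κ]

/-- good counts: some `2 <= k <= size - 2` or two `1 <= k <= size - 1` -/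
def Good (n k : κ → ℕ) : Prop :=
  (∃ i, 2 ≤ k i ∧ k i + 2 ≤ n i) ∨
    ∃ i j, i ≠ j ∧ 1 ≤ k i ∧ k i + 1 ≤ n i ∧ 1 ≤ k j ∧ k j + 1 ≤ n j

theorem goodsum (hp : 100 ≤ p) {B : κ → Finset ι} {f : ι → ZMod p}
    (hf : ∀ i, Set.InjOn f (B i)) (hB : ∀ i, 7 * p ≤ 8 * #(B i)) {k : κ → ℕ}
    (hk : ∀ i, k i ≤ #(B i)) (hg : Good (fun i => #(B i)) k) (t : ZMod p) :
    ∃ T : κ → Finset ι, (∀ i, T i ⊆ B i ∧ #(T i) = k i) ∧ ∑ i, ∑ a ∈ T i, f a = t := by
  have h0 : ∀ i, ∃ T ⊆ B i, #T = k i := fun i => exists_subset_card_eq (hk i)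
  choose T₀ hT₀ hT₀c using h0
  rcases hg with ⟨i, hi1, hi2⟩ | ⟨i, j, hij, hi1, hi2, hj1, hj2⟩
  · obtain ⟨T, hT, hTc, hTs⟩ := nf hp (hf i) (hB i) hi1 hi2
      (t - ∑ j ∈ univ.erase i, ∑ a ∈ T₀ j, f a)
    refine ⟨Function.update T₀ i T, ?_, ?_⟩
    · intro j
      by_cases h : j = i
      · subst h
        rw [Function.update_self]
        exact ⟨hT, hTc⟩
      · rw [Function.update_of_ne h]
        exact ⟨hT₀ j, hT₀c j⟩
    · rw [← add_sum_erase univ _ (mem_univ i), Function.update_self, hTs]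
      have : ∑ j ∈ univ.erase i, ∑ a ∈ Function.update T₀ i T j, f a =
          ∑ j ∈ univ.erase i, ∑ a ∈ T₀ j, f a := by
        apply sum_congr rfl
        intro j hj
        rw [Function.update_of_ne (ne_of_mem_erase hj)]
      rw [this]
      ring
  · obtain ⟨S₁, hS₁, h1⟩ := nf1 hp (hf i) (hB i) hi1 hi2
    obtain ⟨S₂, hS₂, h2⟩ := nf1 hp (hf j) (hB j) hj1 hj2
    obtain ⟨s₁, hs₁, s₂, hs₂, hs⟩ := pigeon hS₁ hS₂
      (t - ∑ l ∈ (univ.erase i).erase j, ∑ a ∈ T₀ l, f a)
    obtain ⟨T₁, hT₁, hT₁c, hT₁s⟩ := h1 s₁ hs₁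
    obtain ⟨T₂, hT₂, hT₂c, hT₂s⟩ := h2 s₂ hs₂
    have hji : j ∈ univ.erase i := mem_erase.2 ⟨hij.symm, mem_univ _⟩
    refine ⟨Function.update (Function.update T₀ i T₁) j T₂, ?_, ?_⟩
    · intro l
      by_cases h : l = j
      · subst h
        rw [Function.update_self]
        exact ⟨hT₂, hT₂c⟩
      · rw [Function.update_of_ne h]
        by_cases h' : l = i
        · subst h'
          rw [Function.update_self]
          exact ⟨hT₁, hT₁c⟩
        · rw [Function.update_of_ne h']
          exact ⟨hT₀ l, hT₀c l⟩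
    · rw [← add_sum_erase univ _ (mem_univ i), ← add_sum_erase _ _ hji, Function.update_self,
        Function.update_of_ne hij, Function.update_self, hT₁s, hT₂s]
      have : ∑ l ∈ (univ.erase i).erase j, ∑ a ∈ Function.update (Function.update T₀ i T₁) j T₂ l,
          f a = ∑ l ∈ (univ.erase i).erase j, ∑ a ∈ T₀ l, f a := by
        apply sum_congr rfl
        intro l hl
        rw [Function.update_of_ne (ne_of_mem_erase hl),
          Function.update_of_ne (ne_of_mem_erase (mem_of_mem_erase hl))]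
      rw [this]
      linear_combination hs

/-- a subset between `F₀` and `E` whose weight is just above `s` -/
theorem between {w : ι → ℕ} {s m : ℕ} {F₀ : Finset ι} : ∀ (n : ℕ) {E : Finset ι}, #E ≤ n →
    F₀ ⊆ E → (∀ e ∈ E, w e ≤ m) → s ≤ ∑ e ∈ E, w e →
    ∃ F, F₀ ⊆ F ∧ F ⊆ E ∧ s ≤ ∑ e ∈ F, w e ∧ (∑ e ∈ F, w e ≤ s + m ∨ F = F₀) := by
  intro n
  induction n with
  | zero =>
    intro E hn h0 hw hs
    have hE : E = ∅ := card_eq_zero.1 (by omega)
    have hF : F₀ = ∅ := subset_empty.1 (hE ▸ h0)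
    exact ⟨E, h0, subset_rfl, hs, Or.inr (by rw [hE, hF])⟩
  | succ n ih =>
    intro E hn h0 hw hs
    by_cases h : ∃ e ∈ E, e ∉ F₀
    · obtain ⟨e, he, heF⟩ := h
      have hsum := add_sum_erase E w he
      by_cases h2 : s ≤ ∑ a ∈ E.erase e, w a
      · obtain ⟨F, hF1, hF2, hF3, hF4⟩ := ih (E := E.erase e) (by
          rw [card_erase_of_mem he]; omega) (by
          intro a ha
          exact mem_erase.2 ⟨fun hh => heF (hh ▸ ha), h0 ha⟩)
          (fun a ha => hw a (mem_of_mem_erase ha)) h2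
        exact ⟨F, hF1, hF2.trans (erase_subset _ _), hF3, hF4⟩
      · have := hw e he
        exact ⟨E, h0, subset_rfl, hs, Or.inl (by omega)⟩
    · push Not at h
      have : E = F₀ := Subset.antisymm h h0
      exact ⟨E, h0, subset_rfl, hs, Or.inr this⟩

/-- `F` and good counts in almost full lines: a hit -/
theorem goodhit (hp : 100 ≤ p) {A F : Finset ι} {x y z : ι → ZMod p} (hNH : NH A x y z)
    (hF : F ⊆ A) {B : κ → Finset ι} (hBA : ∀ i, B i ⊆ A) (hFB : ∀ i, Disjoint F (B i))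
    (hBB : ∀ i j, i ≠ j → Disjoint (B i) (B j)) {u v : κ → ZMod p}
    (hu : ∀ i, ∀ a ∈ B i, x a = u i) (hv : ∀ i, ∀ a ∈ B i, y a = v i)
    (hf : ∀ i, Set.InjOn z (B i)) (hB : ∀ i, 7 * p ≤ 8 * #(B i)) {k : κ → ℕ}
    (hk : ∀ i, k i ≤ #(B i)) (hg : Good (fun i => #(B i)) k) (hc : #F + ∑ i, k i = p)
    (hx : ∑ a ∈ F, x a + ∑ i, (k i : ZMod p) * u i = 0)
    (hy : ∑ a ∈ F, y a + ∑ i, (k i : ZMod p) * v i = 0) : False := by
  obtain ⟨T, hT, hTs⟩ := goodsum hp hf hB hk hg (-∑ a ∈ F, z a)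
  have hdT : Set.PairwiseDisjoint (↑(univ : Finset κ)) T := by
    intro i _ j _ hij
    exact disjoint_of_subset_left (hT i).1 (disjoint_of_subset_right (hT j).1 (hBB i j hij))
  have hdF : Disjoint F (univ.biUnion T) := by
    rw [disjoint_biUnion_right]
    intro i _
    exact disjoint_of_subset_right (hT i).1 (hFB i)
  refine hNH (F ∪ univ.biUnion T) ?_ ?_ ?_ ?_ ?_
  · apply union_subset hF
    rw [biUnion_subset]
    intro i _
    exact (hT i).1.trans (hBA i)
  · rw [card_union_of_disjoint hdF, card_biUnion (fun i hi j hj hij => hdT hi hj hij), ← hc]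
    congr 1
    exact sum_congr rfl fun i _ => (hT i).2
  · rw [sum_union hdF, sum_biUnion hdT, ← hx]
    congr 1
    apply sum_congr rfl
    intro i _
    rw [sum_congr rfl fun a ha => hu i a ((hT i).1 ha), sum_const, (hT i).2, nsmul_eq_mul]
  · rw [sum_union hdF, sum_biUnion hdT, ← hy]
    congr 1
    apply sum_congr rfl
    intro i _
    rw [sum_congr rfl fun a ha => hv i a ((hT i).1 ha), sum_const, (hT i).2, nsmul_eq_mul]
  · rw [sum_union hdF, sum_biUnion hdT, hTs]
    ring

end Pool.Agent.Lib.MPa7239a.R3X
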