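import Pool.Agent.Lib.MP_a7239a_co.R3X.ROUNDW
import Pool.Agent.Lib.MP_a7239a_co.R3.GREEDY

/-!
# R3X: module FILLW
-/

set_option autoImplicit false

universe u

open Finset

namespace Pool.Agent.Lib.MPa7239a.R3X

open Pool.Agent.Lib.MPa7239a.GC (Hit)
open Pool.Agent.Lib.MPa7239a.R3 (Exch)

/-- two rounds fill the subspace, or one round is stuck -/
theorem fillw (e : ℕ) (he : 1 ≤ e) : ∃ W p₀ : ℕ, ∀ (p : ℕ) [Fact p.Prime], p₀ ≤ p →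
    ∀ (G : Type u) [AddCommGroup G] [Module (ZMod p) G] [Fintype G] [DecidableEq G]
      (H : Submodule (ZMod p) G) (d : ℕ), (d = 2 ∨ d = 3) → Nat.card H = p ^ d →
      ∀ (A C : Finset G), #A ≤ 5 * p → (∀ a ∈ A, ∃ x ∈ C, a - x ∈ H) →
      (∃ (m : ℕ) (P : Finset G) (σ : G), e * m ≤ p ∧ P ⊆ A ∧ #P = 2 * m ∧
        ∀ g, g - σ ∈ H → Hit P m g) ∨
      (∃ (ξ : G →ₗ[ZMod p] ZMod p) (B C' : Finset G), (∃ h ∈ H, ξ h ≠ 0) ∧ B ⊆ A ∧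
        e * #A ≤ e * #B + p ∧ #C' ≤ #C ∧
        ∀ a ∈ B, ∃ x ∈ C', a - x ∈ H ∧ (ξ (a - x)).valMinAbs.natAbs ≤ W) := by
  obtain ⟨W, p₀, hW⟩ := round_w.{u} e he
  refine ⟨W, p₀, ?_⟩
  intro p _ hp G _ _ _ _ H d hd hH A C hA hC
  rcases hW p hp G H d hd hH A C hA hC with
    ⟨m₁, P₁, Q₁, σ₁, Y₁, hm₁, hE₁, hY₁⟩ | ⟨ξ, B, C', hξ, hBA, hB, hC', hall⟩
  · have hsub : P₁ ∪ Q₁ ⊆ A := union_subset hE₁.subX hE₁.subZ
    have hcard : #(P₁ ∪ Q₁) = 2 * m₁ := by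
      rw [card_union_of_disjoint hE₁.disj, hE₁.cardP, hE₁.cardQ]
      ring
    have hA' : #(A \ (P₁ ∪ Q₁)) + 2 * m₁ = #A := by
      rw [← hcard]
      exact card_sdiff_add_card_eq_card hsub
    rcases hW p hp G H d hd hH (A \ (P₁ ∪ Q₁)) C (by omega)
      (fun a ha => hC a (mem_sdiff.1 ha).1) with
      ⟨m₂, P₂, Q₂, σ₂, Y₂, hm₂, hE₂, hY₂⟩ | ⟨ξ, B, C', hξ, hBA, hB, hC', hall⟩
    · left
      obtain ⟨P, Q, σ, Y, -, -, hE, hfull⟩ := R3.two_rounds hE₁ hE₂ hY₁ hY₂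
      refine ⟨m₁ + m₂, P ∪ Q, σ, ?_, union_subset hE.subX hE.subZ, ?_, ?_⟩
      · rw [Nat.mul_add]
        have e1 : 4 * e * m₁ = 4 * (e * m₁) := Nat.mul_assoc _ _ _
        have e2 : 4 * e * m₂ = 4 * (e * m₂) := Nat.mul_assoc _ _ _
        omega
      · rw [card_union_of_disjoint hE.disj, hE.cardP, hE.cardQ]
        ring
      · intro g hg
        have h := hE.hit (g - σ) (hfull _ hg)
        rwa [add_sub_cancel] at h
    · right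
      refine ⟨ξ, B, C', hξ, hBA.trans sdiff_subset, ?_, hC', hall⟩
      have e1 : 4 * e * m₁ = 4 * (e * m₁) := Nat.mul_assoc _ _ _
      have e2 : 2 * e * #(A \ (P₁ ∪ Q₁)) = 2 * (e * #(A \ (P₁ ∪ Q₁))) := Nat.mul_assoc _ _ _
      have e3 : 2 * e * #B = 2 * (e * #B) := Nat.mul_assoc _ _ _
      have e4 : e * #A = e * #(A \ (P₁ ∪ Q₁)) + 2 * (e * m₁) := by
        rw [← hA']
        ring
      omega
  · right
    refine ⟨ξ, B, C', hξ, hBA, ?_, hC', hall⟩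
    have e2 : 2 * e * #A = 2 * (e * #A) := Nat.mul_assoc _ _ _
    have e3 : 2 * e * #B = 2 * (e * #B) := Nat.mul_assoc _ _ _
    omega

end Pool.Agent.Lib.MPa7239a.R3X
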