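import Pool.Agent.Lib.MP_a7239a_co.R3X.Defs
import Pool.Agent.Lib.MP_a7239a_co.R3.CARD
import Mathlib.LinearAlgebra.Dual.Lemmas

/-!
# R3X: module FRMX
-/

set_option autoImplicit false

universe u

open Finset
open scoped Pointwise

namespace Pool.Agent.Lib.MPa7239a.R3X

open Pool.Agent.Lib.MPa7239a.GC (Hit)
open Pool.Agent.Lib.MPa7239a.R3 (Exch)

variable {p : ℕ} [Fact p.Prime] {G : Type u} [AddCommGroup G] [Module (ZMod p) G] [Fintype G]
  [DecidableEq G]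

namespace FRMXM

omit [Fintype G] [DecidableEq G] in
theorem comb {α β₀ β₁ : G →ₗ[ZMod p] ZMod p}
    (h : (LinearMap.ker α ⊓ LinearMap.ker β₀ : Submodule (ZMod p) G) ≤ LinearMap.ker β₁) :
    ∃ c d : ZMod p, β₁ = c • α + d • β₀ := by
  have h1 : β₁ ∈ Submodule.span (ZMod p) (Set.range ![α, β₀]) := by
    refine mem_span_of_iInf_ker_le_ker (L := ![α, β₀]) ?_
    refine le_trans ?_ h
    refine le_inf ?_ ?_
    · exact iInf_le (fun i => LinearMap.ker (![α, β₀] i)) 0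
    · exact iInf_le (fun i => LinearMap.ker (![α, β₀] i)) 1
  have h2 : Set.range ![α, β₀] = {α, β₀} := by
    simp only [Matrix.range_cons, Matrix.range_empty, Set.union_empty]
    rfl
  rw [h2, Submodule.mem_span_pair] at h1
  obtain ⟨c, d, h⟩ := h1
  exact ⟨c, d, h.symm⟩

omit [DecidableEq G] in
theorem card_ker (hG : Nat.card G = p ^ 3) (α : G →ₗ[ZMod p] ZMod p) :
    p ^ 2 ≤ Nat.card (LinearMap.ker α) := by
  have hp : p.Prime := Fact.out
  by_cases h : ∃ x ∈ (⊤ : Submodule (ZMod p) G), α x ≠ 0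
  · have h1 := R3.card_inf_ker ⊤ h
    rw [top_inf_eq] at h1
    have h2 : Nat.card (⊤ : Submodule (ZMod p) G) = p ^ 3 := by
      rw [← hG]
      exact Nat.card_congr (Submodule.topEquiv (R := ZMod p) (M := G)).toEquiv
    rw [h2] at h1
    have h3 : p * Nat.card (LinearMap.ker α) = p * p ^ 2 := by
      rw [h1]
      ring
    exact (Nat.eq_of_mul_eq_mul_left hp.pos h3).ge
  · push Not at h
    have h1 : LinearMap.ker α = ⊤ := by
      rw [eq_top_iff]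
      intro x _
      exact h x Submodule.mem_top
    have h2 : Nat.card (⊤ : Submodule (ZMod p) G) = p ^ 3 := by
      rw [← hG]
      exact Nat.card_congr (Submodule.topEquiv (R := ZMod p) (M := G)).toEquiv
    rw [h1, h2]
    exact Nat.pow_le_pow_right hp.pos (by norm_num)

omit [DecidableEq G] in
theorem class_lt (hp : 1000 ≤ p) {A : Finset G} (hA : ¬ Hit A p 0)
    {α β : G →ₗ[ZMod p] ZMod p}
    (hL : Nat.card (LinearMap.ker α ⊓ LinearMap.ker β : Submodule (ZMod p) G) = p)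
    (x y : ZMod p) : #(cl A α β x y) < p := by
  classical
  by_contra hc
  rw [not_lt] at hc
  have hne : (cl A α β x y).Nonempty := by
    rw [← Finset.card_pos]
    omega
  obtain ⟨a₀, ha₀⟩ := hne
  rw [mem_cl] at ha₀
  obtain ⟨h0A, h0x, h0y⟩ := ha₀
  let F : Finset G := univ.filter fun g => α g = x ∧ β g = y
  let L : Finset G := univ.filter fun g => g ∈ (LinearMap.ker α ⊓ LinearMap.ker β :
    Submodule (ZMod p) G)
  have hLc : #L = p := by
    rw [← hL, Nat.card_eq_fintype_card, Fintype.card_subtype]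
  have hFc : #F ≤ p := by
    rw [← hLc]
    refine Finset.card_le_card_of_injOn (fun g => g - a₀) (fun g hg => ?_) ?_
    · have hg' : g ∈ F := hg
      rw [mem_filter] at hg'
      change g - a₀ ∈ L
      rw [mem_filter]
      refine ⟨mem_univ _, ?_, ?_⟩
      · change g - a₀ ∈ LinearMap.ker α
        rw [LinearMap.mem_ker, map_sub, hg'.2.1, h0x, sub_self]
      · change g - a₀ ∈ LinearMap.ker β
        rw [LinearMap.mem_ker, map_sub, hg'.2.2, h0y, sub_self]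
    · intro g _ g' _ h
      exact sub_left_injective h
  have hsub : cl A α β x y ⊆ F := by
    intro g hg
    rw [mem_cl] at hg
    rw [mem_filter]
    exact ⟨mem_univ _, hg.2⟩
  have hEq : cl A α β x y = F := Finset.eq_of_subset_of_card_le hsub (hFc.trans hc)
  have hcard : #F = p := le_antisymm hFc (by rw [← hEq]; exact hc)
  apply hA
  refine ⟨F, ?_, hcard, ?_⟩
  · rw [← hEq]
    exact Finset.filter_subset _ _
  · have hS : ∑ a ∈ F, a = ∑ a ∈ F, (a₀ + a₀ - a) := by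
      refine Finset.sum_nbij' (fun a => a₀ + a₀ - a) (fun a => a₀ + a₀ - a) ?_ ?_ ?_ ?_ ?_
      · intro a ha
        rw [mem_filter] at ha ⊢
        refine ⟨mem_univ _, ?_, ?_⟩
        · rw [map_sub, map_add, h0x, ha.2.1]
          ring
        · rw [map_sub, map_add, h0y, ha.2.2]
          ring
      · intro a ha
        rw [mem_filter] at ha ⊢
        refine ⟨mem_univ _, ?_, ?_⟩
        · rw [map_sub, map_add, h0x, ha.2.1]
          ring
        · rw [map_sub, map_add, h0y, ha.2.2]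
          ring
      · intro a _
        abel
      · intro a _
        abel
      · intro a _
        abel
    rw [Finset.sum_sub_distrib, Finset.sum_const, hcard] at hS
    have hz : p • (a₀ + a₀) = 0 := by
      rw [← Nat.cast_smul_eq_nsmul (ZMod p), ZMod.natCast_self, zero_smul]
    rw [hz, zero_sub] at hS
    have h2 : (2 : ZMod p) • (∑ a ∈ F, a) = 0 := by
      rw [two_smul]
      nth_rewrite 1 [hS]
      rw [neg_add_cancel]
    have h2ne : (2 : ZMod p) ≠ 0 := by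
      intro h
      have : ((2 : ℕ) : ZMod p) = 0 := by exact_mod_cast h
      rw [ZMod.natCast_eq_zero_iff] at this
      have := Nat.le_of_dvd (by norm_num) this
      omega
    rcases smul_eq_zero.1 h2 with h | h
    · exact absurd h h2ne
    · exact h

omit [Fintype G] [DecidableEq G] in
theorem cl_eq (A : Finset G) (α β : G →ₗ[ZMod p] ZMod p) {κ τ l x y x' y' : ZMod p}
    (hκ : κ ≠ 0) (hτ : τ ≠ 0) (hx : x' = κ * x) (hy : y' = τ * y - l * (κ * x)) :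
    cl A (κ • α) (τ • β - l • (κ • α)) x' y' = cl A α β x y := by
  ext a
  rw [mem_cl, mem_cl]
  simp only [LinearMap.smul_apply, LinearMap.sub_apply, smul_eq_mul]
  constructor
  · rintro ⟨ha, h1, h2⟩
    have e1 : α a = x := by
      rw [hx] at h1
      exact mul_left_cancel₀ hκ h1
    rw [hy, e1] at h2
    have e2 : τ * β a = τ * y := by
      linear_combination h2
    exact ⟨ha, e1, mul_left_cancel₀ hτ e2⟩
  · rintro ⟨ha, h1, h2⟩
    refine ⟨ha, ?_, ?_⟩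
    · rw [h1, hx]
    · rw [h1, h2, hy]

omit [Fintype G] [DecidableEq G] in
theorem ker_eq (α β : G →ₗ[ZMod p] ZMod p) {κ τ : ZMod p} (l : ZMod p)
    (hκ : κ ≠ 0) (hτ : τ ≠ 0) :
    (LinearMap.ker (κ • α) ⊓ LinearMap.ker (τ • β - l • (κ • α)) : Submodule (ZMod p) G) =
      LinearMap.ker α ⊓ LinearMap.ker β := by
  ext g
  rw [Submodule.mem_inf, Submodule.mem_inf]
  simp only [LinearMap.mem_ker, LinearMap.smul_apply, LinearMap.sub_apply, smul_eq_mul]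
  constructor
  · rintro ⟨h1, h2⟩
    have e1 : α g = 0 := by
      rcases mul_eq_zero.1 h1 with h | h
      · exact absurd h hκ
      · exact h
    rw [e1, mul_zero, mul_zero, sub_zero] at h2
    rcases mul_eq_zero.1 h2 with h | h
    · exact absurd h hτ
    · exact ⟨e1, h⟩
  · rintro ⟨h1, h2⟩
    rw [h1, h2]
    simp

omit [DecidableEq G] in
theorem core (hp : 1000 ≤ p) {A : Finset G} (hA : ¬ Hit A p 0)
    {α β : G →ₗ[ZMod p] ZMod p} {x₀ x₁ y₀ y₀' z z' : ZMod p} (hx : x₀ ≠ x₁)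
    (hy₀ : y₀ ≠ y₀') (hz : z ≠ z')
    (hL : Nat.card (LinearMap.ker α ⊓ LinearMap.ker β : Submodule (ZMod p) G) = p)
    (h1 : 50 * p ≤ 50 * #(cl A α β x₀ y₀) + p) (h2 : 50 * p ≤ 50 * #(cl A α β x₀ y₀') + p)
    (h3 : 50 * p ≤ 50 * #(cl A α β x₁ z) + p) (h4 : 50 * p ≤ 50 * #(cl A α β x₁ z') + p)
    (hg : 2 * ((y₀' - y₀)⁻¹ * (z' - z)).val < p) :
    ∃ (α' β' : G →ₗ[ZMod p] ZMod p) (a₀ b₀ : ZMod p) (g : ℕ) (s : Fin 4 → ℕ),
      Frm A α' β' a₀ b₀ g s := by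
  have hpp : p.Prime := Fact.out
  have hx' : x₁ - x₀ ≠ 0 := sub_ne_zero.2 (Ne.symm hx)
  have hy' : y₀' - y₀ ≠ 0 := sub_ne_zero.2 (Ne.symm hy₀)
  have hz' : z' - z ≠ 0 := sub_ne_zero.2 (Ne.symm hz)
  obtain ⟨κ, hκ⟩ : ∃ κ, κ = (x₁ - x₀)⁻¹ := ⟨_, rfl⟩
  obtain ⟨τ, hτ⟩ : ∃ τ, τ = (y₀' - y₀)⁻¹ := ⟨_, rfl⟩
  have hκ0 : κ ≠ 0 := by
    rw [hκ]
    exact inv_ne_zero hx'
  have hτ0 : τ ≠ 0 := by
    rw [hτ]
    exact inv_ne_zero hy'
  have hκ1 : κ * (x₁ - x₀) = 1 := by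
    rw [hκ]
    exact inv_mul_cancel₀ hx'
  have hτ1 : τ * (y₀' - y₀) = 1 := by
    rw [hτ]
    exact inv_mul_cancel₀ hy'
  obtain ⟨l, hl⟩ : ∃ l, l = τ * z - τ * y₀ := ⟨_, rfl⟩
  rw [← hτ] at hg
  obtain ⟨γ, hγ⟩ : ∃ γ, γ = τ * (z' - z) := ⟨_, rfl⟩
  rw [← hγ] at hg
  have hγ0 : γ ≠ 0 := by
    rw [hγ]
    exact mul_ne_zero hτ0 hz'
  have hgv : ((γ.val : ℕ) : ZMod p) = γ := ZMod.natCast_zmod_val γ
  have hg1 : 1 ≤ γ.val := by
    rcases Nat.eq_zero_or_pos γ.val with h | h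
    · exact absurd ((ZMod.val_eq_zero γ).1 h) hγ0
    · exact h
  have q0 := class_lt hp hA hL x₀ y₀
  have q1 := class_lt hp hA hL x₀ y₀'
  have q2 := class_lt hp hA hL x₁ z
  have q3 := class_lt hp hA hL x₁ z'
  refine ⟨κ • α, τ • β - l • (κ • α), κ * x₀, τ * y₀ - l * (κ * x₀), γ.val,
    ![p - #(cl A α β x₀ y₀), p - #(cl A α β x₀ y₀'), p - #(cl A α β x₁ z),
      p - #(cl A α β x₁ z')], ?_⟩
  have e0 : cl A (κ • α) (τ • β - l • (κ • α)) (κ * x₀) (τ * y₀ - l * (κ * x₀)) =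
      cl A α β x₀ y₀ := cl_eq A α β hκ0 hτ0 rfl rfl
  have e1 : cl A (κ • α) (τ • β - l • (κ • α)) (κ * x₀) (τ * y₀ - l * (κ * x₀) + 1) =
      cl A α β x₀ y₀' := by
    refine cl_eq A α β hκ0 hτ0 rfl ?_
    linear_combination -hτ1
  have e2 : cl A (κ • α) (τ • β - l • (κ • α)) (κ * x₀ + 1) (τ * y₀ - l * (κ * x₀)) =
      cl A α β x₁ z := by
    refine cl_eq A α β hκ0 hτ0 ?_ ?_
    · linear_combination -hκ1
    · linear_combination l * hκ1 + hl
  have e3 : cl A (κ • α) (τ • β - l • (κ • α)) (κ * x₀ + 1)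
      (τ * y₀ - l * (κ * x₀) + ((γ.val : ℕ) : ZMod p)) = cl A α β x₁ z' := by
    rw [hgv]
    refine cl_eq A α β hκ0 hτ0 ?_ ?_
    · linear_combination -hκ1
    · linear_combination l * hκ1 + hl + hγ
  refine ⟨?_, hg1, hg, ?_, ?_, ?_, ?_, ?_, ?_⟩
  · rw [ker_eq α β l hκ0 hτ0, hL]
  · intro i
    fin_cases i
    · change 1 ≤ p - #(cl A α β x₀ y₀)
      omega
    · change 1 ≤ p - #(cl A α β x₀ y₀')
      omega
    · change 1 ≤ p - #(cl A α β x₁ z)
      omega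
    · change 1 ≤ p - #(cl A α β x₁ z')
      omega
  · intro i
    fin_cases i
    · change 50 * (p - #(cl A α β x₀ y₀)) ≤ p
      omega
    · change 50 * (p - #(cl A α β x₀ y₀')) ≤ p
      omega
    · change 50 * (p - #(cl A α β x₁ z)) ≤ p
      omega
    · change 50 * (p - #(cl A α β x₁ z')) ≤ p
      omega
  · rw [e0]
    change #(cl A α β x₀ y₀) + (p - #(cl A α β x₀ y₀)) = p
    omega
  · rw [e1]
    change #(cl A α β x₀ y₀') + (p - #(cl A α β x₀ y₀')) = p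
    omega
  · rw [e2]
    change #(cl A α β x₁ z) + (p - #(cl A α β x₁ z)) = p
    omega
  · rw [e3]
    change #(cl A α β x₁ z') + (p - #(cl A α β x₁ z')) = p
    omega

end FRMXM

open FRMXM in
theorem to_frame (hp : 1000 ≤ p) (hG : Nat.card G = p ^ 3) {A : Finset G} (hA : ¬ Hit A p 0)
    {α β₀ β₁ : G →ₗ[ZMod p] ZMod p} {x₀ x₁ y₀ y₀' y₁ y₁' : ZMod p} (hx : x₀ ≠ x₁)
    (hy₀ : y₀ ≠ y₀') (hy₁ : y₁ ≠ y₁')
    (hL₀ : Nat.card (LinearMap.ker α ⊓ LinearMap.ker β₀ : Submodule (ZMod p) G) = p)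
    (heq : (LinearMap.ker α ⊓ LinearMap.ker β₀ : Submodule (ZMod p) G) =
      LinearMap.ker α ⊓ LinearMap.ker β₁)
    (h1 : 50 * p ≤ 50 * #(cl A α β₀ x₀ y₀) + p) (h2 : 50 * p ≤ 50 * #(cl A α β₀ x₀ y₀') + p)
    (h3 : 50 * p ≤ 50 * #(cl A α β₁ x₁ y₁) + p) (h4 : 50 * p ≤ 50 * #(cl A α β₁ x₁ y₁') + p) :
    ∃ (α' β' : G →ₗ[ZMod p] ZMod p) (a₀ b₀ : ZMod p) (g : ℕ) (s : Fin 4 → ℕ),
      Frm A α' β' a₀ b₀ g s := by
  have hpp : p.Prime := Fact.out
  obtain ⟨c, d, hcd⟩ := comb (α := α) (β₀ := β₀) (β₁ := β₁) (by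
    rw [heq]
    exact inf_le_right)
  have hd : d ≠ 0 := by
    intro h
    rw [h, zero_smul, add_zero] at hcd
    have h5 : (LinearMap.ker α ⊓ LinearMap.ker β₁ : Submodule (ZMod p) G) = LinearMap.ker α := by
      refine le_antisymm inf_le_left (le_inf le_rfl ?_)
      intro x hx'
      rw [LinearMap.mem_ker] at hx' ⊢
      rw [hcd, LinearMap.smul_apply, hx', smul_zero]
    rw [heq, h5] at hL₀
    have h6 := card_ker hG α
    rw [hL₀] at h6
    nlinarith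
  have hcl : ∀ y : ZMod p, cl A α β₁ x₁ y = cl A α β₀ x₁ (d⁻¹ * (y - c * x₁)) := by
    intro y
    ext a
    rw [mem_cl, mem_cl, hcd]
    simp only [LinearMap.add_apply, LinearMap.smul_apply, smul_eq_mul]
    constructor
    · rintro ⟨ha, h5, h6⟩
      refine ⟨ha, h5, ?_⟩
      rw [← h6, h5, add_sub_cancel_left, ← mul_assoc, inv_mul_cancel₀ hd, one_mul]
    · rintro ⟨ha, h5, h6⟩
      refine ⟨ha, h5, ?_⟩
      rw [h6, h5, ← mul_assoc, mul_inv_cancel₀ hd, one_mul]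
      ring
  rw [hcl] at h3 h4
  obtain ⟨z, hz⟩ : ∃ z, z = d⁻¹ * (y₁ - c * x₁) := ⟨_, rfl⟩
  obtain ⟨z', hz'⟩ : ∃ z', z' = d⁻¹ * (y₁' - c * x₁) := ⟨_, rfl⟩
  rw [← hz] at h3
  rw [← hz'] at h4
  have hzz : z ≠ z' := by
    intro h
    rw [hz, hz'] at h
    have := mul_left_cancel₀ (inv_ne_zero hd) h
    exact hy₁ (by linear_combination this)
  have hne0 : (y₀' - y₀)⁻¹ * (z' - z) ≠ 0 :=
    mul_ne_zero (inv_ne_zero (sub_ne_zero.2 (Ne.symm hy₀))) (sub_ne_zero.2 (Ne.symm hzz))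
  by_cases hg : 2 * ((y₀' - y₀)⁻¹ * (z' - z)).val < p
  · exact core hp hA hx hy₀ hzz hL₀ h1 h2 h3 h4 hg
  · refine core hp hA hx hy₀ (Ne.symm hzz) hL₀ h1 h2 h4 h3 ?_
    have hneg : (y₀' - y₀)⁻¹ * (z - z') = -((y₀' - y₀)⁻¹ * (z' - z)) := by ring
    have : NeZero ((y₀' - y₀)⁻¹ * (z' - z)) := ⟨hne0⟩
    rw [hneg, ZMod.val_neg_of_ne_zero]
    have hodd : ¬ 2 ∣ p := by
      intro h
      have := (Nat.prime_dvd_prime_iff_eq Nat.prime_two hpp).1 h
      omega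
    have hlt := ZMod.val_lt ((y₀' - y₀)⁻¹ * (z' - z))
    omega

end Pool.Agent.Lib.MPa7239a.R3X
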