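import Pool.Agent.Lib.MP_a7239a_co.R3X.Defs

/-!
# Module GROW: growth in one of `d` independent directions (Loomis-Whitney)
-/

set_option autoImplicit false

universe u

open Finset
open scoped Pointwise

namespace Pool.Agent.Lib.MPa7239a.R3X

namespace GROWM

/-- Loomis-Whitney in dimension three. -/
theorem lw {α A B C : Type*} [DecidableEq α] [DecidableEq A] [DecidableEq B] [DecidableEq C]
    (Y : Finset α) (a : α → A) (b : α → B) (c : α → C)
    (hinj : ∀ y ∈ Y, ∀ y' ∈ Y, a y = a y' → b y = b y' → c y = c y' → y = y') :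
    #Y ^ 2 ≤ #(Y.image fun y => (a y, b y)) *
      (#(Y.image fun y => (b y, c y)) * #(Y.image fun y => (a y, c y))) := by
  classical
  have h1 : #Y = ∑ v ∈ Y.image (fun y => (a y, b y)), #{y ∈ Y | (a y, b y) = v} :=
    card_eq_sum_card_image _ _
  have h2 : #Y ^ 2 ≤ #(Y.image fun y => (a y, b y)) *
      ∑ v ∈ Y.image (fun y => (a y, b y)), #{y ∈ Y | (a y, b y) = v} ^ 2 := by
    conv_lhs => rw [h1]
    exact sq_sum_le_card_mul_sum_sq
  refine h2.trans (Nat.mul_le_mul_left _ ?_)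
  have h3 : ∑ v ∈ Y.image (fun y => (a y, b y)), #{y ∈ Y | (a y, b y) = v} ^ 2 =
      #{q ∈ Y ×ˢ Y | (a q.1, b q.1) = (a q.2, b q.2)} := by
    have h4 : {q ∈ Y ×ˢ Y | (a q.1, b q.1) = (a q.2, b q.2)} =
        (Y.image (fun y => (a y, b y))).biUnion
          (fun v => {y ∈ Y | (a y, b y) = v} ×ˢ {y ∈ Y | (a y, b y) = v}) := by
      ext q
      simp only [mem_filter, mem_product, mem_biUnion, mem_image]
      constructor
      · rintro ⟨⟨hq1, hq2⟩, hq⟩
        exact ⟨(a q.1, b q.1), ⟨q.1, hq1, rfl⟩, ⟨hq1, rfl⟩, hq2, hq.symm⟩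
      · rintro ⟨v, -, ⟨hq1, h1⟩, hq2, h2⟩
        exact ⟨⟨hq1, hq2⟩, h1.trans h2.symm⟩
    rw [h4, card_biUnion]
    · refine sum_congr rfl fun v _ => ?_
      rw [card_product, sq]
    · intro v _ w _ hvw
      rw [Function.onFun, disjoint_left]
      intro q hq hq'
      simp only [mem_product, mem_filter] at hq hq'
      exact hvw (hq.1.2.symm.trans hq'.1.2)
  rw [h3, ← card_product]
  refine card_le_card_of_injOn (fun q => ((b q.1, c q.1), (a q.2, c q.2))) ?_ ?_
  · intro q hq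
    simp only [coe_filter, mem_product, Set.mem_ofPred_eq] at hq
    simp only [coe_product, Set.mem_prod, mem_coe]
    exact ⟨mem_image_of_mem (fun y => (b y, c y)) hq.1.1,
      mem_image_of_mem (fun y => (a y, c y)) hq.1.2⟩
  · rintro ⟨y, z⟩ hq ⟨y', z'⟩ hq' h
    simp only [coe_filter, mem_product, Set.mem_ofPred_eq, Prod.mk.injEq] at hq hq' h
    obtain ⟨⟨hy, hz⟩, ha, hb⟩ := hq
    obtain ⟨⟨hy', hz'⟩, ha', hb'⟩ := hq'
    obtain ⟨⟨h1, h2⟩, h3, h4⟩ := h
    have e1 : y = y' := hinj _ hy _ hy' (by rw [ha, h3, ← ha']) h1 h2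
    have e2 : z = z' := hinj _ hz _ hz' h3 (by rw [← hb, h1, hb']) h4
    rw [e1, e2]

theorem close {d g r n p : ℕ} (hp : 0 < p) (hd : 1 ≤ d) (h1 : r * p ≤ g * p + n)
    (h2 : 2 ^ d * n ≤ p ^ d) (h3 : n ^ (d - 1) ≤ r ^ d) : n ^ (d - 1) ≤ (2 * g) ^ d := by
  have h4 : (2 * n) ^ d ≤ (p * r) ^ d := by
    have h5 : (2 * n) ^ d = (2 ^ d * n) * n ^ (d - 1) := by
      obtain ⟨e, rfl⟩ : ∃ e, d = e + 1 := ⟨d - 1, by omega⟩
      rw [mul_pow, Nat.add_sub_cancel, pow_succ n]
      ring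
    rw [h5, mul_pow]
    exact Nat.mul_le_mul h2 h3
  have h5 : 2 * n ≤ p * r := (Nat.pow_le_pow_iff_left (by omega)).1 h4
  have h6 : r * p ≤ 2 * g * p := by nlinarith
  exact h3.trans (Nat.pow_le_pow_left (Nat.le_of_mul_le_mul_right h6 hp) _)

section
variable {p : ℕ} [Fact p.Prime] {G : Type u} [AddCommGroup G] [Module (ZMod p) G]
  [DecidableEq G]

theorem bdry (Y : Finset G) (δ : G) (h0 : δ ≠ 0) {κ : Type*} [DecidableEq κ] (π : G → κ)
    (hπ : ∀ y, π (y + δ) = π y) :
    #(Y.image π) * p ≤ #((Y + {δ}) \ Y) * p + #Y := by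
  classical
  set F := Y.image π with hF
  set Z := ((Y + {δ}) \ Y).image π with hZ
  have hfib : ∀ v ∈ F \ Z, p ≤ #{y ∈ Y | π y = v} := by
    intro v hv
    rw [mem_sdiff, hF, mem_image] at hv
    obtain ⟨⟨y, hy, hyv⟩, hvZ⟩ := hv
    have hall : ∀ n : ℕ, y + n • δ ∈ Y ∧ π (y + n • δ) = v := by
      intro n
      induction n with
      | zero => simpa using ⟨hy, hyv⟩
      | succ n ih =>
        have e : y + (n + 1) • δ = y + n • δ + δ := by rw [succ_nsmul, add_assoc]
        have h2 : π (y + (n + 1) • δ) = v := by rw [e, hπ, ih.2]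
        refine ⟨?_, h2⟩
        by_contra hno
        refine hvZ ?_
        rw [hZ, mem_image]
        refine ⟨y + (n + 1) • δ, ?_, h2⟩
        rw [mem_sdiff]
        refine ⟨?_, hno⟩
        rw [e]
        exact add_mem_add ih.1 (mem_singleton_self _)
    have h1 : #(univ : Finset (ZMod p)) ≤ #{y ∈ Y | π y = v} := by
      refine card_le_card_of_injOn (fun n : ZMod p => y + n • δ) ?_ ?_
      · intro n _
        have e : n • δ = n.val • δ := by
          conv_lhs => rw [← ZMod.natCast_zmod_val n]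
          rw [Nat.cast_smul_eq_nsmul]
        simp only [coe_filter, Set.mem_ofPred_eq, e]
        exact hall n.val
      · intro n _ m _ h
        simp only [add_right_inj] at h
        by_contra hnm
        have h3 : (n - m) • δ = 0 := by rw [sub_smul, h, sub_self]
        rcases smul_eq_zero.1 h3 with h4 | h4
        · exact hnm (sub_eq_zero.1 h4)
        · exact h0 h4
    rwa [card_univ, ZMod.card] at h1
  have h1 : #F ≤ #(F \ Z) + #Z := by
    exact card_le_card_sdiff_add_card (s := F) (t := Z)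
  have h2 : #Z ≤ #((Y + {δ}) \ Y) := card_image_le
  have h3 : #(F \ Z) * p ≤ #Y := by
    calc #(F \ Z) * p = ∑ _v ∈ F \ Z, p := by rw [sum_const, smul_eq_mul]
      _ ≤ ∑ v ∈ F \ Z, #{y ∈ Y | π y = v} := sum_le_sum hfib
      _ ≤ ∑ v ∈ F, #{y ∈ Y | π y = v} := sum_le_sum_of_subset sdiff_subset
      _ = #Y := (card_eq_sum_card_image _ _).symm
  calc #F * p ≤ (#(F \ Z) + #Z) * p := Nat.mul_le_mul_right _ h1
    _ = #(F \ Z) * p + #Z * p := add_mul _ _ _
    _ ≤ #Y + #((Y + {δ}) \ Y) * p := Nat.add_le_add h3 (Nat.mul_le_mul_right _ h2)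
    _ = #((Y + {δ}) \ Y) * p + #Y := add_comm _ _

omit [DecidableEq G] in
/-- coordinates -/
theorem coords [Finite G] (H : Submodule (ZMod p) G) {d : ℕ} (hH : Nat.card H = p ^ d)
    {δ : Fin d → G} (hδ : ∀ i, δ i ∈ H) (hli : LinearIndependent (ZMod p) δ) :
    ∃ f : Fin d → (G →ₗ[ZMod p] ZMod p), (∀ i j, f i (δ j) = if i = j then 1 else 0) ∧
      ∀ y ∈ H, ∀ y' ∈ H, (∀ i, f i y = f i y') → y = y' := by
  classical
  have hfr : Module.finrank (ZMod p) H = d := by
    have h1 := Module.natCard_eq_pow_finrank (K := ZMod p) (V := H)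
    rw [hH, Nat.card_zmod] at h1
    exact (Nat.pow_right_injective (Fact.out (p := p.Prime)).two_le h1).symm
  let δ' : Fin d → H := fun i => ⟨δ i, hδ i⟩
  have hli' : LinearIndependent (ZMod p) δ' := by
    refine LinearIndependent.of_comp H.subtype ?_
    exact hli
  let b := basisOfLinearIndependentOfCardEqFinrank' δ' hli' (by rw [hfr, Fintype.card_fin])
  have hb : ∀ i, b i = δ' i := fun i => by
    simp [b]
  choose f hf using fun i => LinearMap.exists_extend (b.coord i)
  have hf' : ∀ i (y : H), f i y = b.coord i y := fun i y => by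
    rw [← hf i]
    rfl
  refine ⟨f, ?_, ?_⟩
  · intro i j
    have h1 : f i (δ j) = f i ((δ' j : H) : G) := rfl
    rw [h1, hf', ← hb, Module.Basis.coord_apply, Module.Basis.repr_self, Finsupp.single_apply]
    by_cases h : i = j
    · simp [h]
    · rw [if_neg h, if_neg (fun h' => h h'.symm)]
  · intro y hy y' hy' h
    have h1 : (⟨y, hy⟩ : H) = ⟨y', hy'⟩ := by
      refine b.ext_elem fun i => ?_
      rw [← Module.Basis.coord_apply, ← Module.Basis.coord_apply, ← hf', ← hf']
      exact h i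
    exact congrArg Subtype.val h1

end

end GROWM

open GROWM

section
variable {p : ℕ} [Fact p.Prime] {G : Type u} [AddCommGroup G] [Module (ZMod p) G] [Fintype G]
  [DecidableEq G]

theorem grow (H : Submodule (ZMod p) G) {d : ℕ} (hd : d = 2 ∨ d = 3) (hH : Nat.card H = p ^ d)
    {Y : Finset G} (hY : ∀ y ∈ Y, y ∈ H) (h2 : 2 ^ d * #Y ≤ p ^ d) {δ : Fin d → G}
    (hδ : ∀ i, δ i ∈ H) (hli : LinearIndependent (ZMod p) δ) :
    ∃ i, #Y ^ (d - 1) ≤ (2 * #((Y + {δ i}) \ Y)) ^ d := by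
  classical
  have hp : 0 < p := (Fact.out (p := p.Prime)).pos
  obtain ⟨f, hf, hinj⟩ := coords H hH hδ hli
  have h0 : ∀ i, δ i ≠ 0 := fun i => hli.ne_zero i
  rcases hd with rfl | rfl
  · have hπ : ∀ i j, i ≠ j → ∀ y, f i (y + δ j) = f i y := fun i j hij y => by
      rw [map_add, hf, if_neg hij, add_zero]
    have b0 := bdry (p := p) Y (δ 0) (h0 0) (f 1) (hπ 1 0 (by decide))
    have b1 := bdry (p := p) Y (δ 1) (h0 1) (f 0) (hπ 0 1 (by decide))
    have hc : #Y ≤ #(Y.image (f 0)) * #(Y.image (f 1)) := by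
      rw [← card_product]
      refine card_le_card_of_injOn (fun y => (f 0 y, f 1 y)) ?_ ?_
      · intro y hy
        simp only [coe_product, Set.mem_prod, mem_coe]
        exact ⟨mem_image_of_mem _ hy, mem_image_of_mem _ hy⟩
      · intro y hy y' hy' h
        simp only [Prod.mk.injEq] at h
        refine hinj _ (hY _ hy) _ (hY _ hy') fun i => ?_
        fin_cases i
        · exact h.1
        · exact h.2
    rcases le_total #(Y.image (f 0)) #(Y.image (f 1)) with h | h
    · refine ⟨0, close hp (by norm_num) b0 h2 ?_⟩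
      simp only [Nat.add_one_sub_one, pow_one]
      rw [sq]
      exact hc.trans (Nat.mul_le_mul_right _ h)
    · refine ⟨1, close hp (by norm_num) b1 h2 ?_⟩
      simp only [Nat.add_one_sub_one, pow_one]
      rw [sq]
      exact hc.trans (Nat.mul_le_mul_left _ h)
  · have hπ : ∀ i j k, i ≠ k → j ≠ k → ∀ y, (f i (y + δ k), f j (y + δ k)) = (f i y, f j y) :=
      fun i j k hik hjk y => by
        rw [map_add, map_add, hf, hf, if_neg hik, if_neg hjk, add_zero, add_zero]
    have b0 := bdry (p := p) Y (δ 2) (h0 2) (fun y => (f 0 y, f 1 y))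
      (hπ 0 1 2 (by decide) (by decide))
    have b1 := bdry (p := p) Y (δ 0) (h0 0) (fun y => (f 1 y, f 2 y))
      (hπ 1 2 0 (by decide) (by decide))
    have b2 := bdry (p := p) Y (δ 1) (h0 1) (fun y => (f 0 y, f 2 y))
      (hπ 0 2 1 (by decide) (by decide))
    have hc := lw Y (fun y => f 0 y) (fun y => f 1 y) (fun y => f 2 y) (by
      intro y hy y' hy' e0 e1 e2
      refine hinj _ (hY _ hy) _ (hY _ hy') fun i => ?_
      fin_cases i
      · exact e0
      · exact e1
      · exact e2)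
    set r0 := #(Y.image fun y => (f 0 y, f 1 y))
    set r1 := #(Y.image fun y => (f 1 y, f 2 y))
    set r2 := #(Y.image fun y => (f 0 y, f 2 y))
    have key : ∀ r : ℕ, r0 ≤ r → r1 ≤ r → r2 ≤ r → #Y ^ (3 - 1) ≤ r ^ 3 := by
      intro r h0 h1 h2
      calc #Y ^ (3 - 1) = #Y ^ 2 := rfl
        _ ≤ r0 * (r1 * r2) := hc
        _ ≤ r * (r * r) := Nat.mul_le_mul h0 (Nat.mul_le_mul h1 h2)
        _ = r ^ 3 := by ring
    rcases le_total r0 r1 with h | h
    · rcases le_total r1 r2 with h' | h'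
      · exact ⟨1, close hp (by norm_num) b2 h2 (key r2 (h.trans h') h' le_rfl)⟩
      · exact ⟨0, close hp (by norm_num) b1 h2 (key r1 h le_rfl h')⟩
    · rcases le_total r0 r2 with h' | h'
      · exact ⟨1, close hp (by norm_num) b2 h2 (key r2 h' (h.trans h') le_rfl)⟩
      · exact ⟨2, close hp (by norm_num) b0 h2 (key r0 le_rfl h h')⟩

end

end Pool.Agent.Lib.MPa7239a.R3X
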