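import Pool.Agent.Lib.MP_a7239a_co.R3X.Defs
import Pool.Agent.Lib.MP_a7239a_co.R3.KSUM
import Pool.Agent.Lib.MP_a7239a_co.R3.PLANE

/-! # R3X: module KROWS. A complete set in a plane direction gives two rich planes -/

set_option autoImplicit false

open Finset
open scoped Pointwise

namespace Pool.Agent.Lib.MPa7239a.R3X

open Pool.Agent.Lib.MPa7239a.GC (Hit)

universe u

section
variable {p : ℕ} [Fact p.Prime] {G : Type u} [AddCommGroup G] [Module (ZMod p) G] [Fintype G]
  [DecidableEq G]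

theorem krows (hp : 11 ≤ p) (hG : Nat.card G = p ^ 3) {A : Finset G} (hA : ¬ Hit A p 0)
    (hcard : #A + 3 = 4 * p) {P : Finset G} {m : ℕ} (hP : P ⊆ A) (hPm : #P = 2 * m)
    (hm : 8 * m ≤ p) {ξ : G →ₗ[ZMod p] ZMod p} (hξ : ξ ≠ 0) {σ : G}
    (hfill : ∀ g, g - σ ∈ LinearMap.ker ξ → Hit P m g) : Rich p A (3 * m + 1) := by
  have hA₂ : #(A \ P) + 2 * m + 3 = 4 * p := by
    have h1 := Finset.card_sdiff_of_subset hP
    have h2 := Finset.card_le_card hP
    omega
  have hno : ¬ (p + (p - m) ≤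
      (∑ v : ZMod p, min (p - m) #{a ∈ A \ P | ξ a = v}) + 1) := by
    intro h
    obtain ⟨T, hT, hTc, hTs⟩ := R3.ksum h (-ξ σ)
    obtain ⟨T', hT', hTc', hTs'⟩ := hfill (-∑ a ∈ T, a) (by
      rw [LinearMap.mem_ker, map_sub, map_neg, map_sum, hTs]
      ring)
    have hd : Disjoint T T' := by
      rw [Finset.disjoint_left]
      intro a ha ha'
      exact (Finset.mem_sdiff.1 (hT ha)).2 (hT' ha')
    refine hA ⟨T ∪ T', Finset.union_subset (hT.trans Finset.sdiff_subset) (hT'.trans hP), ?_, ?_⟩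
    · rw [Finset.card_union_of_disjoint hd]
      omega
    · rw [Finset.sum_union hd, hTs']
      abel
  have hle : ∀ v, #{a ∈ A \ P | ξ a = v} ≤ #{a ∈ A | ξ a = v} := fun v =>
    Finset.card_le_card (Finset.filter_subset_filter _ Finset.sdiff_subset)
  have hrow : ∀ v, #{a ∈ A \ P | ξ a = v} ≤ 2 * p - 2 := fun v =>
    (hle v).trans (R3.row_le hp hG hA hξ v)
  have hsum : ∑ v : ZMod p, #{a ∈ A \ P | ξ a = v} = #(A \ P) := by
    rw [← Finset.card_eq_sum_card_fiberwise (f := ξ) (t := univ) (fun a _ => by simp)]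
  generalize hn : (fun v : ZMod p => #{a ∈ A \ P | ξ a = v}) = n at *
  have hn' : ∀ v, #{a ∈ A \ P | ξ a = v} = n v := fun v => congrFun hn v
  simp only [hn'] at hno hle hrow hsum
  obtain ⟨v₀, -, hv₀⟩ := Finset.exists_max_image (univ : Finset (ZMod p)) n
    ⟨0, Finset.mem_univ _⟩
  obtain ⟨v₁, hv₁, hv₁'⟩ := Finset.exists_max_image ((univ : Finset (ZMod p)).erase v₀) n (by
    rw [← Finset.card_pos, Finset.card_erase_of_mem (Finset.mem_univ _), Finset.card_univ,
      ZMod.card]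
    omega)
  have hne : v₀ ≠ v₁ := fun h => (Finset.mem_erase.1 hv₁).1 h.symm
  rw [← Finset.add_sum_erase _ _ (Finset.mem_univ v₀), ← Finset.add_sum_erase _ _ hv₁] at hno hsum
  have h3 : ∑ v ∈ (univ.erase v₀).erase v₁, min (p - m) (n v) =
      ∑ v ∈ (univ.erase v₀).erase v₁, n v := by
    refine Finset.sum_congr rfl fun v hv => ?_
    by_contra hlt
    have hlt' : p - m < n v := by
      by_contra h
      exact hlt (min_eq_right (by omega))
    have h1 := hv₁' v (Finset.mem_of_mem_erase hv)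
    have h0 := hv₀ v (Finset.mem_univ _)
    have h4 := Finset.single_le_sum (f := fun v => min (p - m) (n v))
      (fun i _ => Nat.zero_le _) hv
    rw [min_eq_left hlt'.le] at h4
    rw [min_eq_left (hlt'.le.trans h1), min_eq_left (hlt'.le.trans h0)] at hno
    omega
  rw [h3] at hno
  refine ⟨ξ, v₀, v₁, hξ, hne, ?_, ?_⟩
  · have h1 := hle v₀
    have h2 := hrow v₀
    have h4 := hrow v₁
    omega
  · have h1 := hle v₁
    have h2 := hrow v₀
    have h4 := hrow v₁
    omega

end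

end Pool.Agent.Lib.MPa7239a.R3X
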