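import Pool.Agent.Lib.MP_a7239a_co.R3X.Defs

/-!
# Module LATC: change of lattice
-/

set_option autoImplicit false

open Finset

namespace Pool.Agent.Lib.MPa7239a.R3X

namespace LATCM

/-- the linear combination of `f₁` and `f₂` with coefficients `x` -/
def cb (f₁ f₂ x : ℤ × ℤ) : ℤ × ℤ := x.1 • f₁ + x.2 • f₂

theorem cb_fst (f₁ f₂ x : ℤ × ℤ) : (cb f₁ f₂ x).1 = x.1 * f₁.1 + x.2 * f₂.1 := by
  simp [cb]

theorem cb_snd (f₁ f₂ x : ℤ × ℤ) : (cb f₁ f₂ x).2 = x.1 * f₁.2 + x.2 * f₂.2 := by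
  simp [cb]

theorem cb_inj {f₁ f₂ : ℤ × ℤ} (h : f₁.1 * f₂.2 - f₁.2 * f₂.1 ≠ 0) {x y : ℤ × ℤ}
    (hxy : cb f₁ f₂ x = cb f₁ f₂ y) : x = y := by
  have h1 := congrArg Prod.fst hxy
  have h2 := congrArg Prod.snd hxy
  rw [cb_fst, cb_fst] at h1
  rw [cb_snd, cb_snd] at h2
  have h3 : (x.1 - y.1) * (f₁.1 * f₂.2 - f₁.2 * f₂.1) = 0 := by linear_combination f₂.2 * h1 - f₂.1 * h2
  have h4 : (x.2 - y.2) * (f₁.1 * f₂.2 - f₁.2 * f₂.1) = 0 := by linear_combination f₁.1 * h2 - f₁.2 * h1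
  have h5 : x.1 - y.1 = 0 := (mul_eq_zero.1 h3).resolve_right h
  have h6 : x.2 - y.2 = 0 := (mul_eq_zero.1 h4).resolve_right h
  exact Prod.ext (by omega) (by omega)

/-- the lattice of differences has a basis of two elements -/
theorem basis_two {V : Finset (ℤ × ℤ)} {v₀ : ℤ × ℤ}
    (hV : ∀ u : ℤ × ℤ, u ≠ 0 → ∃ v ∈ V, lf u v ≠ lf u v₀) :
    ∃ f₁ f₂ : ℤ × ℤ, f₁.1 * f₂.2 - f₁.2 * f₂.1 ≠ 0 ∧
      f₁ ∈ Submodule.span ℤ ((fun v => v - v₀) '' (V : Set (ℤ × ℤ))) ∧
      f₂ ∈ Submodule.span ℤ ((fun v => v - v₀) '' (V : Set (ℤ × ℤ))) ∧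
      ∀ z ∈ Submodule.span ℤ ((fun v => v - v₀) '' (V : Set (ℤ × ℤ))), ∃ x, z = cb f₁ f₂ x := by
  classical
  set L := Submodule.span ℤ ((fun v => v - v₀) '' (V : Set (ℤ × ℤ))) with hL
  have hmem : ∀ v ∈ V, v - v₀ ∈ L := fun v hv => Submodule.subset_span ⟨v, hv, rfl⟩
  obtain ⟨n, b⟩ := Submodule.basisOfPid (Module.Basis.finTwoProd ℤ) L
  have hn : n ≤ 2 := by
    have h1 : LinearIndependent ℤ (fun i => ((b i : L) : ℤ × ℤ)) :=
      b.linearIndependent.map' L.subtype (Submodule.ker_subtype L)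
    have h2 := h1.fintype_card_le_finrank
    rw [Fintype.card_fin, Module.finrank_eq_card_basis (Module.Basis.finTwoProd ℤ),
      Fintype.card_fin] at h2
    exact h2
  have hline : ∀ f : ℤ × ℤ, (∀ z ∈ L, ∃ t : ℤ, z = t • f) → False := by
    intro f hf
    obtain ⟨u, hu0, hu⟩ : ∃ u : ℤ × ℤ, u ≠ 0 ∧ lf u f = 0 := by
      by_cases h : f = 0
      · exact ⟨(1, 0), by simp, by simp [h, lf]⟩
      · refine ⟨(-f.2, f.1), ?_, by simp only [lf]; ring⟩
        intro h'
        rw [Prod.mk_eq_zero] at h'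
        exact h (Prod.ext h'.2 (by simpa using h'.1))
    obtain ⟨v, hv, hne⟩ := hV u hu0
    obtain ⟨t, ht⟩ := hf _ (hmem v hv)
    apply hne
    have h1 : v.1 - v₀.1 = t * f.1 := by simpa using congrArg Prod.fst ht
    have h2 : v.2 - v₀.2 = t * f.2 := by simpa using congrArg Prod.snd ht
    simp only [lf] at hu ⊢
    linear_combination u.1 * h1 + u.2 * h2 + t * hu
  obtain rfl | rfl | rfl : n = 0 ∨ n = 1 ∨ n = 2 := by omega
  · exfalso
    refine hline 0 fun z hz => ⟨0, ?_⟩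
    have h1 := b.sum_repr ⟨z, hz⟩
    rw [Fin.sum_univ_zero] at h1
    have h2 := congrArg Subtype.val h1
    simpa using h2.symm
  · exfalso
    refine hline (b 0 : L) fun z hz => ⟨b.repr ⟨z, hz⟩ 0, ?_⟩
    have h1 := b.sum_repr ⟨z, hz⟩
    rw [Fin.sum_univ_one] at h1
    have h2 := congrArg Subtype.val h1
    exact h2.symm
  · have hlin : ∀ s t : ℤ, s • ((b 0 : L) : ℤ × ℤ) + t • ((b 1 : L) : ℤ × ℤ) = 0 → s = 0 ∧ t = 0 := by
      intro s t h
      have h1 := Fintype.linearIndependent_iff.1 b.linearIndependent ![s, t] (by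
        rw [Fin.sum_univ_two]
        exact Subtype.ext h)
      exact ⟨h1 0, h1 1⟩
    refine ⟨(b 0 : L), (b 1 : L), ?_, (b 0).2, (b 1).2, ?_⟩
    · intro hdet
      set f := ((b 0 : L) : ℤ × ℤ)
      set g := ((b 1 : L) : ℤ × ℤ)
      have h1 := hlin g.2 (-f.2) (by
        refine Prod.ext ?_ ?_
        · simp only [Prod.fst_add, Prod.smul_fst, smul_eq_mul, Prod.fst_zero]
          linear_combination hdet
        · simp only [Prod.snd_add, Prod.smul_snd, smul_eq_mul, Prod.snd_zero]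
          ring)
      have h2 := hlin g.1 (-f.1) (by
        refine Prod.ext ?_ ?_
        · simp only [Prod.fst_add, Prod.smul_fst, smul_eq_mul, Prod.fst_zero]
          ring
        · simp only [Prod.snd_add, Prod.smul_snd, smul_eq_mul, Prod.snd_zero]
          linear_combination -hdet)
      have h3 := hlin 1 0 (by
        refine Prod.ext ?_ ?_
        · simp only [one_smul, zero_smul, add_zero, Prod.fst_zero]
          linarith [h2.2]
        · simp only [one_smul, zero_smul, add_zero, Prod.snd_zero]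
          linarith [h1.2])
      exact one_ne_zero h3.1
    · intro z hz
      refine ⟨(b.repr ⟨z, hz⟩ 0, b.repr ⟨z, hz⟩ 1), ?_⟩
      have h1 := b.sum_repr ⟨z, hz⟩
      rw [Fin.sum_univ_two] at h1
      exact (congrArg Subtype.val h1).symm

end LATCM

open LATCM

theorem lat_change {V : Finset (ℤ × ℤ)} {v₀ : ℤ × ℤ} (hv₀ : v₀ ∈ V)
    (hV : ∀ u : ℤ × ℤ, u ≠ 0 → ∃ v ∈ V, lf u v ≠ lf u v₀) :
    ∃ (f₁ f₂ : ℤ × ℤ), f₁.1 * f₂.2 - f₁.2 * f₂.1 ≠ 0 ∧ ∃ V' : Finset (ℤ × ℤ),
      V = V'.image (fun x => v₀ + x.1 • f₁ + x.2 • f₂) ∧ ∀ w, InLat V' w := by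
  classical
  obtain ⟨f₁, f₂, hdet, h1, h2, h3⟩ := basis_two hV
  set L := Submodule.span ℤ ((fun v => v - v₀) '' (V : Set (ℤ × ℤ))) with hL
  choose! X hX using h3
  have hmem : ∀ v ∈ V, v - v₀ ∈ L := fun v hv => Submodule.subset_span ⟨v, hv, rfl⟩
  refine ⟨f₁, f₂, hdet, V.image (fun v => X (v - v₀)), ?_, ?_⟩
  · ext v
    simp only [mem_image, exists_exists_and_eq_and]
    constructor
    · intro hv
      refine ⟨v, hv, ?_⟩
      have h4 := hX _ (hmem v hv)
      rw [cb] at h4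
      rw [add_assoc, ← h4]
      abel
    · rintro ⟨v', hv', rfl⟩
      have h4 := hX _ (hmem v' hv')
      rw [cb] at h4
      rw [add_assoc, ← h4]
      simpa using hv'
  · intro w
    have key : ∀ z ∈ L, ∃ j : ℤ × ℤ → ℤ,
        z = ∑ x ∈ V.image (fun v => X (v - v₀)), j x • cb f₁ f₂ x := by
      intro z hz
      induction hz using Submodule.span_induction with
      | mem z hz =>
        obtain ⟨v, hv, rfl⟩ := hz
        refine ⟨fun x => if x = X (v - v₀) then 1 else 0, ?_⟩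
        have h6 : X (v - v₀) ∈ V.image (fun v => X (v - v₀)) := mem_image.2 ⟨v, hv, rfl⟩
        rw [sum_eq_single_of_mem _ h6]
        · simp only [if_true, one_smul]
          exact hX _ (hmem v hv)
        · intro x _ hx
          simp only [if_neg hx, zero_smul]
      | zero => exact ⟨0, by simp⟩
      | add z z' _ _ hz hz' =>
        obtain ⟨j, hj⟩ := hz
        obtain ⟨j', hj'⟩ := hz'
        refine ⟨j + j', ?_⟩
        rw [hj, hj', ← sum_add_distrib]
        exact sum_congr rfl fun x _ => by rw [Pi.add_apply, add_smul]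
      | smul a z _ hz =>
        obtain ⟨j, hj⟩ := hz
        refine ⟨a • j, ?_⟩
        rw [hj, smul_sum]
        exact sum_congr rfl fun x _ => by rw [Pi.smul_apply, smul_eq_mul, mul_smul]
    have hw : cb f₁ f₂ w ∈ L := L.add_mem (L.smul_mem _ h1) (L.smul_mem _ h2)
    obtain ⟨j, hj⟩ := key _ hw
    have h5 : w = (∑ x ∈ V.image (fun v => X (v - v₀)), j x * x.1,
        ∑ x ∈ V.image (fun v => X (v - v₀)), j x * x.2) := by
      refine cb_inj hdet (hj.trans ?_)
      refine Prod.ext ?_ ?_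
      · rw [Prod.fst_sum, cb_fst, sum_mul, sum_mul, ← sum_add_distrib]
        refine sum_congr rfl fun x _ => ?_
        rw [Prod.smul_fst, cb_fst, smul_eq_mul]
        ring
      · rw [Prod.snd_sum, cb_snd, sum_mul, sum_mul, ← sum_add_distrib]
        refine sum_congr rfl fun x _ => ?_
        rw [Prod.smul_snd, cb_snd, smul_eq_mul]
        ring
    have h0 : (0 : ℤ × ℤ) ∈ V.image (fun v => X (v - v₀)) := by
      rw [mem_image]
      refine ⟨v₀, hv₀, ?_⟩
      refine cb_inj hdet ?_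
      rw [← hX _ (hmem v₀ hv₀), sub_self]
      simp [cb]
    refine ⟨fun x => j x + if x = 0 then
      1 - ∑ y ∈ V.image (fun v => X (v - v₀)), j y else 0, ?_, ?_, ?_⟩
    · rw [sum_add_distrib, sum_ite_eq', if_pos h0]
      ring
    · rw [congrArg Prod.fst h5]
      refine sum_congr rfl fun x _ => ?_
      by_cases hx : x = 0
      · subst hx
        simp
      · simp only [if_neg hx, add_zero]
    · rw [congrArg Prod.snd h5]
      refine sum_congr rfl fun x _ => ?_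
      by_cases hx : x = 0
      · subst hx
        simp
      · simp only [if_neg hx, add_zero]

end Pool.Agent.Lib.MPa7239a.R3X
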