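import Pool.Agent.Lib.MP_a7239a_co.R3X.Defs

/-!
# R3X, module LXO: the lexicographic order
-/

open Finset

namespace Pool.Agent.Lib.MPa7239a.R3X

namespace LXOM

theorem B_add (o : Lx) (x y : ℤ × ℤ) : o.B (x + y) = o.B x + o.B y := by
  simp only [Lx.B, Prod.fst_add, Prod.snd_add, Int.cast_add]
  ring

theorem A_add (o : Lx) (x y : ℤ × ℤ) : o.A (x + y) = o.A x + o.A y := by
  simp only [Lx.A, Prod.fst_add, Prod.snd_add, Int.cast_add]
  ring

theorem ext_of (o : Lx) {x y : ℤ × ℤ} (hB : o.B x = o.B y) (hA : o.A x = o.A y) : x = y := by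
  have hd := o.det
  simp only [Lx.B] at hB
  simp only [Lx.A] at hA
  have h1 : (o.b1 * o.a2 - o.b2 * o.a1) * ((x.1 : ℝ) - y.1) = 0 := by
    linear_combination o.a2 * hB - o.b2 * hA
  have h2 : (o.b1 * o.a2 - o.b2 * o.a1) * ((x.2 : ℝ) - y.2) = 0 := by
    linear_combination o.b1 * hA - o.a1 * hB
  have h3 : (x.1 : ℝ) = y.1 := by
    rcases mul_eq_zero.mp h1 with h | h
    · exact absurd h hd
    · linarith
  have h4 : (x.2 : ℝ) = y.2 := by
    rcases mul_eq_zero.mp h2 with h | h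
    · exact absurd h hd
    · linarith
  exact Prod.ext (by exact_mod_cast h3) (by exact_mod_cast h4)

theorem sum_B (o : Lx) {ι : Type*} (I : Finset ι) {z : ι → ℤ × ℤ} {l : ι → ℝ} {x : ℤ × ℤ}
    (hx1 : ∑ i ∈ I, l i * ((z i).1 : ℝ) = x.1)
    (hx2 : ∑ i ∈ I, l i * ((z i).2 : ℝ) = x.2) : ∑ i ∈ I, l i * o.B (z i) = o.B x := by
  have : ∑ i ∈ I, l i * o.B (z i)
      = o.b1 * ∑ i ∈ I, l i * ((z i).1 : ℝ) + o.b2 * ∑ i ∈ I, l i * ((z i).2 : ℝ) := by
    rw [mul_sum, mul_sum, ← sum_add_distrib]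
    refine sum_congr rfl fun i _ => ?_
    simp only [Lx.B]
    ring
  rw [this, hx1, hx2]
  rfl

theorem sum_A (o : Lx) {ι : Type*} (I : Finset ι) {z : ι → ℤ × ℤ} {l : ι → ℝ} {x : ℤ × ℤ}
    (hx1 : ∑ i ∈ I, l i * ((z i).1 : ℝ) = x.1)
    (hx2 : ∑ i ∈ I, l i * ((z i).2 : ℝ) = x.2) : ∑ i ∈ I, l i * o.A (z i) = o.A x := by
  have : ∑ i ∈ I, l i * o.A (z i)
      = o.a1 * ∑ i ∈ I, l i * ((z i).1 : ℝ) + o.a2 * ∑ i ∈ I, l i * ((z i).2 : ℝ) := by
    rw [mul_sum, mul_sum, ← sum_add_distrib]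
    refine sum_congr rfl fun i _ => ?_
    simp only [Lx.A]
    ring
  rw [this, hx1, hx2]
  rfl

/-- an average of numbers at most `c` which is at least `c` has all terms of positive weight equal to `c` -/
theorem avg_eq {ι : Type*} (I : Finset ι) {l t : ι → ℝ} {c : ℝ} (hl : ∀ i ∈ I, 0 ≤ l i)
    (h1 : ∑ i ∈ I, l i = 1) (ht : ∀ i ∈ I, l i ≠ 0 → t i ≤ c) (hc : c ≤ ∑ i ∈ I, l i * t i) :
    (∀ i ∈ I, l i ≠ 0 → t i = c) ∧ ∑ i ∈ I, l i * t i = c := by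
  have h2 : ∑ i ∈ I, l i * (c - t i) = c - ∑ i ∈ I, l i * t i := by
    have : ∑ i ∈ I, l i * (c - t i) = (∑ i ∈ I, l i) * c - ∑ i ∈ I, l i * t i := by
      rw [sum_mul, ← sum_sub_distrib]
      exact sum_congr rfl fun i _ => by ring
    rw [this, h1, one_mul]
  have h3 : ∀ i ∈ I, 0 ≤ l i * (c - t i) := by
    intro i hi
    by_cases h0 : l i = 0
    · rw [h0, zero_mul]
    · exact mul_nonneg (hl i hi) (by linarith [ht i hi h0])
  have h4 : ∑ i ∈ I, l i * (c - t i) = 0 :=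
    le_antisymm (by rw [h2]; linarith) (sum_nonneg h3)
  refine ⟨fun i hi h0 => ?_, by linarith⟩
  have h5 := (sum_eq_zero_iff_of_nonneg h3).mp h4 i hi
  rcases mul_eq_zero.mp h5 with h | h
  · exact absurd h h0
  · linarith

end LXOM

theorem Lx.refl (o : Lx) (x : ℤ × ℤ) : o.le x x := Or.inr ⟨rfl, le_rfl⟩

theorem Lx.total (o : Lx) (x y : ℤ × ℤ) : o.le x y ∨ o.le y x := by
  rcases lt_trichotomy (o.B x) (o.B y) with h | h | h
  · exact Or.inl (Or.inl h)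
  · rcases le_total (o.A x) (o.A y) with h' | h'
    · exact Or.inl (Or.inr ⟨h, h'⟩)
    · exact Or.inr (Or.inr ⟨h.symm, h'⟩)
  · exact Or.inr (Or.inl h)

theorem Lx.trans (o : Lx) {x y z : ℤ × ℤ} (h : o.le x y) (h' : o.le y z) : o.le x z := by
  rcases h with h | ⟨h1, h2⟩ <;> rcases h' with h' | ⟨h3, h4⟩
  · exact Or.inl (h.trans h')
  · exact Or.inl (by rw [← h3]; exact h)
  · exact Or.inl (by rw [h1]; exact h')
  · exact Or.inr ⟨h1.trans h3, h2.trans h4⟩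

theorem Lx.antisymm (o : Lx) {x y : ℤ × ℤ} (h : o.le x y) (h' : o.le y x) : x = y := by
  rcases h with h | ⟨h1, h2⟩ <;> rcases h' with h' | ⟨h3, h4⟩
  · exact absurd h' (not_lt.mpr h.le)
  · exact absurd h (by rw [h3]; exact lt_irrefl _)
  · exact absurd h' (by rw [h1]; exact lt_irrefl _)
  · exact LXOM.ext_of o h1 (le_antisymm h2 h4)

theorem Lx.add_right (o : Lx) {x y : ℤ × ℤ} (z : ℤ × ℤ) : o.le (x + z) (y + z) ↔ o.le x y := by
  unfold Lx.le
  rw [LXOM.B_add, LXOM.B_add, LXOM.A_add, LXOM.A_add]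
  constructor
  · rintro (h | ⟨h1, h2⟩)
    · exact Or.inl (by linarith)
    · exact Or.inr ⟨by linarith, by linarith⟩
  · rintro (h | ⟨h1, h2⟩)
    · exact Or.inl (by linarith)
    · exact Or.inr ⟨by linarith, by linarith⟩

/-- `m` is the midpoint of `x`, `y`: not both are smaller -/
theorem Lx.mid (o : Lx) {x y m : ℤ × ℤ} (h : x + y = m + m) : o.le m x ∨ o.le m y := by
  have hB : o.B x + o.B y = o.B m + o.B m := by
    rw [← LXOM.B_add, ← LXOM.B_add, h]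
  have hA : o.A x + o.A y = o.A m + o.A m := by
    rw [← LXOM.A_add, ← LXOM.A_add, h]
  rcases lt_trichotomy (o.B x) (o.B m) with h1 | h1 | h1
  · exact Or.inr (Or.inl (by linarith))
  · rcases le_total (o.A m) (o.A x) with h2 | h2
    · exact Or.inl (Or.inr ⟨h1.symm, h2⟩)
    · exact Or.inr (Or.inr ⟨by linarith, by linarith⟩)
  · exact Or.inl (Or.inl h1)

/-- a point `≥ w` which is a convex combination of points `≤ w` is `w`, and so are the points used -/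
theorem Lx.hull (o : Lx) {ι : Type*} (I : Finset ι) {z : ι → ℤ × ℤ} {l : ι → ℝ} {x w : ℤ × ℤ}
    (hl : ∀ i ∈ I, 0 ≤ l i) (h1 : ∑ i ∈ I, l i = 1) (hx1 : ∑ i ∈ I, l i * ((z i).1 : ℝ) = x.1)
    (hx2 : ∑ i ∈ I, l i * ((z i).2 : ℝ) = x.2) (hz : ∀ i ∈ I, o.le (z i) w) (hw : o.le w x) :
    x = w ∧ ∀ i ∈ I, l i ≠ 0 → z i = w := by
  have hB := LXOM.sum_B o I hx1 hx2
  have hA := LXOM.sum_A o I hx1 hx2
  have hwB : o.B w ≤ o.B x := by
    rcases hw with h | ⟨h, _⟩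
    · exact h.le
    · exact h.le
  have hzB : ∀ i ∈ I, l i ≠ 0 → o.B (z i) ≤ o.B w := by
    intro i hi _
    rcases hz i hi with h | ⟨h, _⟩
    · exact h.le
    · exact h.le
  obtain ⟨e1, e2⟩ := LXOM.avg_eq I hl h1 hzB (by rw [hB]; exact hwB)
  have hxB : o.B x = o.B w := by rw [← hB, e2]
  have hwA : o.A w ≤ o.A x := by
    rcases hw with h | ⟨_, h⟩
    · exact absurd h (by rw [hxB]; exact lt_irrefl _)
    · exact h
  have hzA : ∀ i ∈ I, l i ≠ 0 → o.A (z i) ≤ o.A w := by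
    intro i hi h0
    rcases hz i hi with h | ⟨_, h⟩
    · exact absurd h (by rw [e1 i hi h0]; exact lt_irrefl _)
    · exact h
  obtain ⟨e3, e4⟩ := LXOM.avg_eq I hl h1 hzA (by rw [hA]; exact hwA)
  refine ⟨LXOM.ext_of o hxB (by rw [← hA, e4]), fun i hi h0 => ?_⟩
  exact LXOM.ext_of o (e1 i hi h0) (e3 i hi h0)

end Pool.Agent.Lib.MPa7239a.R3X
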