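import Pool.Agent.Lib.MP_a7239a_co.R3X.Defs
import Pool.Agent.Lib.MP_a7239a_co.R3.FILLZ

/-! # R3X/RND (helper88): from an average to a zero sum -/

set_option autoImplicit false

universe u

open Finset
open scoped Pointwise

namespace Pool.Agent.Lib.MPa7239a.R3X

open Pool.Agent.Lib.MPa7239a.GC (Hit)
open Pool.Agent.Lib.MPa7239a.R3 (Exch)

namespace RNDM

theorem log_grow (C p : ℕ) (hp : 2 ^ (4 * C) ≤ p) : C * (Nat.log 2 p + 1) ≤ p := by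
  have hp0 : p ≠ 0 := (lt_of_lt_of_le (Nat.two_pow_pos _) hp).ne'
  set n := Nat.log 2 p with hn
  have h1 : 4 * C ≤ n := by
    rw [hn]
    exact (Nat.le_log_iff_pow_le (by norm_num) hp0).2 hp
  have h2 : 2 ^ n ≤ p := Nat.pow_log_le_self 2 hp0
  set k := n / 2 with hk
  have h3 : k + 1 ≤ 2 ^ k := Nat.lt_two_pow_self
  have h4 : 2 * C ≤ 2 ^ k := by
    have h5 : 2 * C < 2 ^ (2 * C) := Nat.lt_two_pow_self
    have h6 : 2 ^ (2 * C) ≤ 2 ^ k := Nat.pow_le_pow_right (by norm_num) (by omega)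
    omega
  calc C * (n + 1) ≤ C * (2 * (k + 1)) := Nat.mul_le_mul_left _ (by omega)
    _ = 2 * C * (k + 1) := by ring
    _ ≤ 2 ^ k * 2 ^ k := Nat.mul_le_mul h4 h3
    _ = 2 ^ (k + k) := by rw [pow_add]
    _ ≤ 2 ^ n := Nat.pow_le_pow_right (by norm_num) (by omega)
    _ ≤ p := h2

/-- integer combinations with the sums `e` -/
def Rep (S : Finset (ℤ × ℤ)) (e : ℤ × ℤ × ℤ) (c : ℤ × ℤ → ℤ) : Prop :=
  ∑ v ∈ S, c v = e.1 ∧ ∑ v ∈ S, c v * v.1 = e.2.1 ∧ ∑ v ∈ S, c v * v.2 = e.2.2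

theorem bounded_rep (K M : ℕ) : ∃ C : ℕ, ∀ S ⊆ box K, ∀ e : ℤ × ℤ × ℤ,
    |e.1| ≤ M → |e.2.1| ≤ M → |e.2.2| ≤ M → (∃ c, Rep S e c) →
    ∃ c, Rep S e c ∧ ∀ v ∈ S, |c v| ≤ C := by
  classical
  have key : ∀ t : Finset (ℤ × ℤ) × (ℤ × ℤ × ℤ), ∃ b : ℕ, (∃ c, Rep t.1 t.2 c) →
      ∃ c, Rep t.1 t.2 c ∧ ∀ v ∈ t.1, |c v| ≤ b := by
    intro t
    by_cases h : ∃ c, Rep t.1 t.2 c
    · obtain ⟨c, hc⟩ := h
      refine ⟨t.1.sup fun v => (c v).natAbs, fun _ => ⟨c, hc, fun v hv => ?_⟩⟩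
      have := Finset.le_sup (f := fun v => (c v).natAbs) hv
      rw [Int.abs_eq_natAbs]
      exact_mod_cast this
    · exact ⟨0, fun h' => absurd h' h⟩
  choose b hb using key
  let T : Finset (Finset (ℤ × ℤ) × (ℤ × ℤ × ℤ)) :=
    (box K).powerset ×ˢ (Icc (-(M : ℤ)) M ×ˢ (Icc (-(M : ℤ)) M ×ˢ Icc (-(M : ℤ)) M))
  refine ⟨T.sup b, fun S hS e h1 h2 h3 h => ?_⟩
  obtain ⟨c, hc, hcb⟩ := hb (S, e) h
  refine ⟨c, hc, fun v hv => (hcb v hv).trans ?_⟩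
  have hmem : (S, e) ∈ T := by
    simp only [T, mem_product, mem_powerset, mem_Icc]
    exact ⟨hS, abs_le.1 h1, abs_le.1 h2, abs_le.1 h3⟩
  exact_mod_cast Finset.le_sup (f := b) hmem

theorem mem_box {K : ℕ} {v : ℤ × ℤ} : v ∈ box K ↔ |v.1| ≤ K ∧ |v.2| ≤ K := by
  rw [box, mem_product, mem_Icc, mem_Icc, abs_le, abs_le]

theorem card_box (K : ℕ) : #(box K) = (2 * K + 1) ^ 2 := by
  rw [box, card_product, Int.card_Icc, sq]
  have : ((K : ℤ) + 1 - -(K : ℤ)).toNat = 2 * K + 1 := by omega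
  rw [this]

/-- rounding -/
theorem round (K : ℕ) : ∃ C : ℕ, ∀ S ⊆ box K, ∀ w : ℤ × ℤ, InLat S w → ∀ k : ℤ × ℤ → ℝ,
    ∑ v ∈ S, k v = 1 → ∑ v ∈ S, k v * (v.1 : ℝ) = w.1 → ∑ v ∈ S, k v * (v.2 : ℝ) = w.2 →
    ∀ p : ℕ, ∃ n : ℤ × ℤ → ℤ, ∑ v ∈ S, n v = p ∧ ∑ v ∈ S, n v * v.1 = p * w.1 ∧
      ∑ v ∈ S, n v * v.2 = p * w.2 ∧ ∀ v ∈ S, |(n v : ℝ) - p * k v| ≤ C := by
  obtain ⟨C, hC⟩ := bounded_rep K ((2 * K + 1) ^ 2 * (K + 1))
  refine ⟨C + 1, fun S hS w hw k h1 h2 h3 p => ?_⟩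
  obtain ⟨j, j1, j2, j3⟩ := hw
  -- the bound of the errors
  have hbd : ∀ (f : ℤ × ℤ → ℤ), (∀ v ∈ S, |f v| ≤ K + 1) → ∀ (x : ℤ) (y : ℝ),
      ∑ v ∈ S, k v * (f v : ℝ) = y → y = x →
      |(p : ℤ) * x - ∑ v ∈ S, ⌊(p : ℝ) * k v⌋ * f v| ≤ ((2 * K + 1) ^ 2 * (K + 1) : ℕ) := by
    intro f hf x y hy hyx
    have e1 : (((p : ℤ) * x - ∑ v ∈ S, ⌊(p : ℝ) * k v⌋ * f v : ℤ) : ℝ) =
        ∑ v ∈ S, Int.fract ((p : ℝ) * k v) * f v := by
      push_cast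
      rw [← hyx, ← hy, Finset.mul_sum, ← Finset.sum_sub_distrib]
      refine Finset.sum_congr rfl fun v _ => ?_
      have := Int.floor_add_fract ((p : ℝ) * k v)
      have h' : Int.fract ((p : ℝ) * k v) = (p : ℝ) * k v - ⌊(p : ℝ) * k v⌋ := rfl
      rw [h']
      ring
    have e2 : |∑ v ∈ S, Int.fract ((p : ℝ) * k v) * f v| ≤ ((2 * K + 1) ^ 2 * (K + 1) : ℕ) := by
      calc |∑ v ∈ S, Int.fract ((p : ℝ) * k v) * f v|
          ≤ ∑ v ∈ S, |Int.fract ((p : ℝ) * k v) * f v| := Finset.abs_sum_le_sum_abs _ _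
        _ ≤ ∑ v ∈ S, ((K : ℝ) + 1) := by
            refine Finset.sum_le_sum fun v hv => ?_
            rw [abs_mul, abs_of_nonneg (Int.fract_nonneg _)]
            have h5 : |(f v : ℝ)| ≤ (K : ℝ) + 1 := by exact_mod_cast hf v hv
            calc Int.fract ((p : ℝ) * k v) * |(f v : ℝ)| ≤ 1 * ((K : ℝ) + 1) :=
                  mul_le_mul (Int.fract_lt_one _).le h5 (abs_nonneg _) zero_le_one
              _ = (K : ℝ) + 1 := one_mul _
        _ = #S * ((K : ℝ) + 1) := by rw [Finset.sum_const, nsmul_eq_mul]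
        _ ≤ ((2 * K + 1) ^ 2 : ℕ) * ((K : ℝ) + 1) := by
            have := Finset.card_le_card hS
            rw [card_box] at this
            have h6 : (#S : ℝ) ≤ ((2 * K + 1) ^ 2 : ℕ) := by exact_mod_cast this
            exact mul_le_mul_of_nonneg_right h6 (by positivity)
        _ = ((2 * K + 1) ^ 2 * (K + 1) : ℕ) := by push_cast; ring
    rw [← e1] at e2
    exact_mod_cast e2
  have hb1 := hbd (fun _ => 1) (fun v _ => by simp) 1 1 (by simpa using h1) (by simp)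
  have hb2 := hbd (fun v => v.1) (fun v hv => by
    have := (mem_box.1 (hS hv)).1
    show |v.1| ≤ (K : ℤ) + 1
    omega) w.1 _ h2 rfl
  have hb3 := hbd (fun v => v.2) (fun v hv => by
    have := (mem_box.1 (hS hv)).2
    show |v.2| ≤ (K : ℤ) + 1
    omega) w.2 _ h3 rfl
  simp only [mul_one] at hb1
  obtain ⟨c, ⟨c1, c2, c3⟩, hcb⟩ := hC S hS ((p : ℤ) - ∑ v ∈ S, ⌊(p : ℝ) * k v⌋,
    (p : ℤ) * w.1 - ∑ v ∈ S, ⌊(p : ℝ) * k v⌋ * v.1,
    (p : ℤ) * w.2 - ∑ v ∈ S, ⌊(p : ℝ) * k v⌋ * v.2) hb1 hb2 hb3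
    ⟨fun v => p * j v - ⌊(p : ℝ) * k v⌋, by
      refine ⟨?_, ?_, ?_⟩
      · simp only
        rw [Finset.sum_sub_distrib, ← Finset.mul_sum, j1, mul_one]
      · simp only
        rw [← j2, Finset.mul_sum, ← Finset.sum_sub_distrib]
        exact Finset.sum_congr rfl fun v _ => by ring
      · simp only
        rw [← j3, Finset.mul_sum, ← Finset.sum_sub_distrib]
        exact Finset.sum_congr rfl fun v _ => by ring⟩
  simp only at c1 c2 c3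
  refine ⟨fun v => ⌊(p : ℝ) * k v⌋ + c v, ?_, ?_, ?_, fun v hv => ?_⟩
  · rw [Finset.sum_add_distrib, c1]; ring
  · have : ∀ v : ℤ × ℤ, (⌊(p : ℝ) * k v⌋ + c v) * v.1 = ⌊(p : ℝ) * k v⌋ * v.1 + c v * v.1 :=
      fun v => by ring
    simp only [this]
    rw [Finset.sum_add_distrib, c2]; ring
  · have : ∀ v : ℤ × ℤ, (⌊(p : ℝ) * k v⌋ + c v) * v.2 = ⌊(p : ℝ) * k v⌋ * v.2 + c v * v.2 :=
      fun v => by ring
    simp only [this]
    rw [Finset.sum_add_distrib, c3]; ring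
  · have h4 : |(c v : ℝ)| ≤ C := by exact_mod_cast hcb v hv
    have h5 := Int.fract_nonneg ((p : ℝ) * k v)
    have h6 := Int.fract_lt_one ((p : ℝ) * k v)
    have h7 := Int.floor_add_fract ((p : ℝ) * k v)
    rw [abs_le] at h4 ⊢
    push_cast
    constructor <;> linarith

theorem cast_ne {K p : ℕ} (hp : 2 * K < p) {a b : ℤ} (ha : |a| ≤ K) (hb : |b| ≤ K)
    (h : (a : ZMod p) = (b : ZMod p)) : a = b := by
  rw [ZMod.intCast_eq_intCast_iff_dvd_sub] at h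
  have h1 : b - a = 0 := by
    apply Int.eq_zero_of_abs_lt_dvd h
    rw [abs_le] at ha hb
    rw [abs_lt]
    constructor <;> omega
  omega

end RNDM

open RNDM

theorem round_hit (K : ℕ) {θ : ℝ} (hθ : 0 < θ) : ∃ p₀ : ℕ, ∀ (p : ℕ) [Fact p.Prime], p₀ ≤ p →
    ∀ (G : Type u) [AddCommGroup G] [Module (ZMod p) G] [Fintype G] [DecidableEq G]
      (A : Finset G) (ξ ζ : G →ₗ[ZMod p] ZMod p) (x₀ z₀ : ZMod p),
      Nat.card (LinearMap.ker ξ ⊓ LinearMap.ker ζ : Submodule (ZMod p) G) = p →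
      ∀ (S : Finset (ℤ × ℤ)) (w : ℤ × ℤ), S ⊆ box K → InLat S w →
      Avg (fun v => (cnt A ξ ζ x₀ z₀ v : ℝ) / p) S θ w → Hit A p 0 := by
  classical
  obtain ⟨C, hC⟩ := RNDM.round K
  set c : ℕ := ⌈2 / θ⌉₊ with hcdef
  have hcpos : 1 ≤ c := Nat.one_le_iff_ne_zero.2 (Nat.ceil_pos.2 (by positivity)).ne'
  have hcθ : 2 ≤ c * θ := by
    have := Nat.le_ceil (2 / θ)
    rw [← hcdef] at this
    rwa [div_le_iff₀ hθ] at this
  refine ⟨max (2 ^ (4 * (512 * c ^ 2))) (max (2 * K + 1) (c * C)), ?_⟩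
  intro p hpf hp G _ _ _ _ A ξ ζ x₀ z₀ hL S w hS hw hA
  have hp1 : 2 ^ (4 * (512 * c ^ 2)) ≤ p := (le_max_left _ _).trans hp
  have hp2 : 2 * K < p := ((le_max_left _ _).trans (le_max_right _ _)).trans hp
  have hp3 : c * C ≤ p := ((le_max_right _ _).trans (le_max_right _ _)).trans hp
  have hppos : 0 < p := hpf.out.pos
  have hpr : (0 : ℝ) < p := by exact_mod_cast hppos
  have hlog := log_grow (512 * c ^ 2) p hp1
  set l := Nat.log 2 p + 1 with hl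
  have hlp : p < 2 ^ l := Nat.lt_pow_succ_log_self (by norm_num) p
  obtain ⟨k, hk, k1, k2, k3⟩ := hA
  obtain ⟨n, n1, n2, n3, hn⟩ := hC S hS w hw k k1 k2 k3 p
  have hCθ : (C : ℝ) ≤ p * θ / 2 := by
    have h1 : (c : ℝ) * C ≤ p := by exact_mod_cast hp3
    have h2 : (0 : ℝ) ≤ C := Nat.cast_nonneg C
    have h3 : 2 * (C : ℝ) ≤ c * θ * C := mul_le_mul_of_nonneg_right hcθ h2
    have h4 : c * θ * C ≤ p * θ := by
      calc c * θ * C = (c * C) * θ := by ring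
        _ ≤ p * θ := mul_le_mul_of_nonneg_right h1 hθ.le
    linarith
  have hnlow : ∀ v ∈ S, p * θ / 2 ≤ (n v : ℝ) := by
    intro v hv
    have h1 := (abs_le.1 (hn v hv)).1
    have h2 : (p : ℝ) * θ ≤ p * k v := mul_le_mul_of_nonneg_left (hk v hv).1 hpr.le
    linarith
  have hnup : ∀ v ∈ S, (n v : ℝ) + p * θ / 2 ≤ cnt A ξ ζ x₀ z₀ v := by
    intro v hv
    have h1 := (abs_le.1 (hn v hv)).2
    have h2 : (p : ℝ) * (k v + θ) ≤ p * (cnt A ξ ζ x₀ z₀ v / p) :=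
      mul_le_mul_of_nonneg_left (hk v hv).2 hpr.le
    rw [mul_div_cancel₀ _ hpr.ne'] at h2
    linarith
  have hn0 : ∀ v ∈ S, 0 ≤ n v := by
    intro v hv
    have h1 := hnlow v hv
    have h2 : 0 ≤ p * θ / 2 := by positivity
    exact_mod_cast h2.trans h1
  have hnnat : ∀ v ∈ S, ((n v).toNat : ℤ) = n v := fun v hv => Int.toNat_of_nonneg (hn0 v hv)
  have hnle : ∀ v ∈ S, (n v).toNat ≤ #(cl A ξ ζ (x₀ + (v.1 : ZMod p)) (z₀ + (v.2 : ZMod p))) := by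
    intro v hv
    have h1 := hnup v hv
    have h2 : 0 ≤ p * θ / 2 := by positivity
    have h3 : (n v : ℝ) ≤ cnt A ξ ζ x₀ z₀ v := by linarith
    have h4 : n v ≤ (cnt A ξ ζ x₀ z₀ v : ℤ) := by exact_mod_cast h3
    have h5 := hnnat v hv
    unfold cnt at h4
    omega
  -- the chosen sets
  have hex : ∀ v : ℤ × ℤ, ∃ X : Finset G, v ∈ S →
      X ⊆ cl A ξ ζ (x₀ + (v.1 : ZMod p)) (z₀ + (v.2 : ZMod p)) ∧ #X = (n v).toNat := by
    intro v
    by_cases hv : v ∈ S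
    · obtain ⟨X, hX1, hX2⟩ := Finset.exists_subset_card_eq (hnle v hv)
      exact ⟨X, fun _ => ⟨hX1, hX2⟩⟩
    · exact ⟨∅, fun h => absurd h hv⟩
  choose X hX using hex
  -- a class of `S`
  have hSne : S.Nonempty := by
    rw [Finset.nonempty_iff_ne_empty]
    rintro rfl
    simp at k1
  obtain ⟨v₀, hv₀⟩ := hSne
  set L : Submodule (ZMod p) G := LinearMap.ker ξ ⊓ LinearMap.ker ζ with hLdef
  set Cl : ℤ × ℤ → Finset G := fun v => cl A ξ ζ (x₀ + (v.1 : ZMod p)) (z₀ + (v.2 : ZMod p))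
    with hCl
  have hclξ : ∀ v, ∀ a ∈ Cl v, ξ a = x₀ + (v.1 : ZMod p) := fun v a ha => (mem_cl.1 ha).2.1
  have hclζ : ∀ v, ∀ a ∈ Cl v, ζ a = z₀ + (v.2 : ZMod p) := fun v a ha => (mem_cl.1 ha).2.2
  have hclA : ∀ v, Cl v ⊆ A := fun v a ha => (mem_cl.1 ha).1
  have hXc : ∀ v ∈ S, X v ⊆ Cl v := fun v hv => (hX v hv).1
  have hXn : ∀ v ∈ S, #(X v) = (n v).toNat := fun v hv => (hX v hv).2
  have hdisj : ∀ v ∈ S, ∀ v' ∈ S, v ≠ v' → Disjoint (Cl v) (Cl v') := by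
    intro v hv v' hv' hne
    rw [Finset.disjoint_left]
    intro a ha ha'
    apply hne
    have h1 := (hclξ v a ha).symm.trans (hclξ v' a ha')
    have h2 := (hclζ v a ha).symm.trans (hclζ v' a ha')
    have b1 := mem_box.1 (hS hv)
    have b2 := mem_box.1 (hS hv')
    exact Prod.ext (cast_ne hp2 b1.1 b2.1 (add_left_cancel h1))
      (cast_ne hp2 b1.2 b2.2 (add_left_cancel h2))
  have hXcard : ∀ v ∈ S, (#(X v) : ZMod p) = (n v : ZMod p) := by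
    intro v hv
    rw [hXn v hv]
    have := hnnat v hv
    have h2 : (((n v).toNat : ℤ) : ZMod p) = ((n v : ℤ) : ZMod p) := by rw [this]
    exact_mod_cast h2
  -- the sums over all classes
  have hsumξ : ξ (∑ v ∈ S, ∑ x ∈ X v, x) = 0 := by
    rw [map_sum]
    have h1 : ∀ v ∈ S, ξ (∑ x ∈ X v, x) = ((n v * v.1 : ℤ) : ZMod p) + ((n v : ℤ) : ZMod p) * x₀ := by
      intro v hv
      rw [map_sum, Finset.sum_congr rfl (fun x hx => hclξ v x (hXc v hv hx)), Finset.sum_const,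
        nsmul_eq_mul, hXcard v hv]
      push_cast
      ring
    rw [Finset.sum_congr rfl h1, Finset.sum_add_distrib, ← Finset.sum_mul]
    have h2 : (∑ v ∈ S, ((n v * v.1 : ℤ) : ZMod p)) = (((p : ℤ) * w.1 : ℤ) : ZMod p) := by
      rw [← n2]; push_cast; rfl
    have h3 : (∑ v ∈ S, ((n v : ℤ) : ZMod p)) = (((p : ℤ) : ℤ) : ZMod p) := by
      rw [← n1]; push_cast; rfl
    rw [h2, h3]
    simp
  have hsumζ : ζ (∑ v ∈ S, ∑ x ∈ X v, x) = 0 := by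
    rw [map_sum]
    have h1 : ∀ v ∈ S, ζ (∑ x ∈ X v, x) = ((n v * v.2 : ℤ) : ZMod p) + ((n v : ℤ) : ZMod p) * z₀ := by
      intro v hv
      rw [map_sum, Finset.sum_congr rfl (fun x hx => hclζ v x (hXc v hv hx)), Finset.sum_const,
        nsmul_eq_mul, hXcard v hv]
      push_cast
      ring
    rw [Finset.sum_congr rfl h1, Finset.sum_add_distrib, ← Finset.sum_mul]
    have h2 : (∑ v ∈ S, ((n v * v.2 : ℤ) : ZMod p)) = (((p : ℤ) * w.2 : ℤ) : ZMod p) := by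
      rw [← n3]; push_cast; rfl
    have h3 : (∑ v ∈ S, ((n v : ℤ) : ZMod p)) = (((p : ℤ) : ℤ) : ZMod p) := by
      rw [← n1]; push_cast; rfl
    rw [h2, h3]
    simp
  -- fill in one class
  have hXreal : ((n v₀).toNat : ℝ) = (n v₀ : ℝ) := by
    have := hnnat v₀ hv₀
    exact_mod_cast this
  have hXbig : p ≤ c * #(X v₀) := by
    have h1 := hnlow v₀ hv₀
    have h2 : (p : ℝ) ≤ c * (n v₀ : ℝ) := by
      calc (p : ℝ) ≤ c * θ / 2 * p := by nlinarith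
        _ = c * (p * θ / 2) := by ring
        _ ≤ c * (n v₀ : ℝ) := mul_le_mul_of_nonneg_left h1 (Nat.cast_nonneg c)
    rw [hXn v₀ hv₀]
    rw [← hXreal] at h2
    exact_mod_cast h2
  have hZcard : #(Cl v₀ \ X v₀) + #(X v₀) = #(Cl v₀) :=
    Finset.card_sdiff_add_card_eq_card (hXc v₀ hv₀)
  have hZbig : 256 * c * l + 1 ≤ #(Cl v₀ \ X v₀) := by
    have h1 := hnup v₀ hv₀
    have h2 : (p : ℝ) * θ / 2 ≤ #(Cl v₀ \ X v₀) := by
      have h3 : (#(Cl v₀ \ X v₀) : ℝ) + #(X v₀) = #(Cl v₀) := by exact_mod_cast hZcard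
      have h4 : (#(X v₀) : ℝ) = n v₀ := by rw [hXn v₀ hv₀, hXreal]
      have h5 : (cnt A ξ ζ x₀ z₀ v₀ : ℝ) = #(Cl v₀) := rfl
      linarith
    have h3 : (p : ℝ) ≤ c * #(Cl v₀ \ X v₀) := by
      calc (p : ℝ) ≤ c * θ / 2 * p := by nlinarith
        _ = c * (p * θ / 2) := by ring
        _ ≤ c * #(Cl v₀ \ X v₀) := mul_le_mul_of_nonneg_left h2 (Nat.cast_nonneg c)
    have h4 : p ≤ c * #(Cl v₀ \ X v₀) := by exact_mod_cast h3
    have h5 : c * (512 * c * l) ≤ c * #(Cl v₀ \ X v₀) := by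
      calc c * (512 * c * l) = 512 * c ^ 2 * l := by ring
        _ ≤ p := hlog
        _ ≤ _ := h4
    have h6 : 512 * c * l ≤ #(Cl v₀ \ X v₀) := Nat.le_of_mul_le_mul_left h5 hcpos
    have h7 : 1 ≤ c * l := Nat.mul_pos hcpos (by omega)
    have h8 : 512 * c * l = 512 * (c * l) := by ring
    have h9 : 256 * c * l = 256 * (c * l) := by ring
    omega
  have hsplit : ∑ v ∈ S.erase v₀, ∑ x ∈ X v, x + ∑ x ∈ X v₀, x = ∑ v ∈ S, ∑ x ∈ X v, x :=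
    Finset.sum_erase_add _ _ hv₀
  obtain ⟨T, hT, hTc, hTs⟩ := R3.fillz L hL (X := X v₀) (Z := Cl v₀ \ X v₀)
    Finset.disjoint_sdiff (fun a ha b hb => by
      have ha' := hXc v₀ hv₀ ha
      have hb' := (Finset.mem_sdiff.1 hb).1
      rw [hLdef, Submodule.mem_inf, LinearMap.mem_ker, LinearMap.mem_ker, map_sub, map_sub,
        hclξ v₀ a ha', hclξ v₀ b hb', hclζ v₀ a ha', hclζ v₀ b hb']
      exact ⟨sub_self _, sub_self _⟩) hcpos hlp hlog hXbig hZbig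
    (g := -∑ v ∈ S.erase v₀, ∑ x ∈ X v, x) (by
      have h1 : -∑ v ∈ S.erase v₀, ∑ x ∈ X v, x - ∑ x ∈ X v₀, x =
          -∑ v ∈ S, ∑ x ∈ X v, x := by rw [← hsplit]; abel
      rw [h1, hLdef, Submodule.mem_inf, LinearMap.mem_ker, LinearMap.mem_ker, map_neg, map_neg,
        hsumξ, hsumζ, neg_zero]
      exact ⟨rfl, rfl⟩)
  have hTcl : T ⊆ Cl v₀ := by
    refine hT.trans (Finset.union_subset (hXc v₀ hv₀) Finset.sdiff_subset)
  have hpw : ∀ v ∈ S.erase v₀, ∀ v' ∈ S.erase v₀, v ≠ v' → Disjoint (X v) (X v') := by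
    intro v hv v' hv' hne
    have h1 := Finset.mem_of_mem_erase hv
    have h2 := Finset.mem_of_mem_erase hv'
    exact (hdisj v h1 v' h2 hne).mono (hXc v h1) (hXc v' h2)
  have hTd : Disjoint T ((S.erase v₀).biUnion X) := by
    rw [Finset.disjoint_biUnion_right]
    intro v hv
    have h1 := Finset.mem_of_mem_erase hv
    exact (hdisj v₀ hv₀ v h1 (Finset.ne_of_mem_erase hv).symm).mono hTcl (hXc v h1)
  refine ⟨T ∪ (S.erase v₀).biUnion X, ?_, ?_, ?_⟩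
  · refine Finset.union_subset (hTcl.trans (hclA v₀)) ?_
    rw [Finset.biUnion_subset]
    intro v hv
    exact (hXc v (Finset.mem_of_mem_erase hv)).trans (hclA v)
  · rw [Finset.card_union_of_disjoint hTd, hTc, Finset.card_biUnion hpw]
    have h1 : ((#(X v₀) + ∑ v ∈ S.erase v₀, #(X v) : ℕ) : ℤ) = p := by
      rw [add_comm, Finset.sum_erase_add _ _ hv₀]
      push_cast
      rw [← n1]
      exact Finset.sum_congr rfl fun v hv => by rw [hXn v hv, hnnat v hv]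
    exact_mod_cast h1
  · rw [Finset.sum_union hTd, hTs, Finset.sum_biUnion hpw]
    abel

end Pool.Agent.Lib.MPa7239a.R3X
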