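import Pool.Agent.Lib.MP_a7239a_co.R3X.Defs
import Pool.Agent.Lib.MP_a7239a_co.R3.FILLZ

/-! # R3X: module RESV. A reserve in every class -/

set_option autoImplicit false

open Finset
open scoped Pointwise

namespace Pool.Agent.Lib.MPa7239a.R3X

open Pool.Agent.Lib.MPa7239a.GC (Hit)

universe u

theorem RESVM.biglog (D : ℕ) : ∃ p₀ : ℕ, ∀ p, p₀ ≤ p → ∃ l, p < 2 ^ l ∧ D * l + D ≤ p := by
  refine ⟨2 ^ (2 * D + 4), fun p hp => ⟨Nat.log 2 p + 1, Nat.lt_pow_succ_log_self (by norm_num) p,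
    ?_⟩⟩
  have hp0 : p ≠ 0 := by
    have : 0 < 2 ^ (2 * D + 4) := by positivity
    omega
  have h1 : 2 * D + 4 ≤ Nat.log 2 p := (Nat.le_log_iff_pow_le (by norm_num) hp0).2 hp
  have h2 : 2 ^ Nat.log 2 p ≤ p := Nat.pow_log_le_self 2 hp0
  set t := Nat.log 2 p
  have h3 : ∀ n : ℕ, 4 ≤ n → n ^ 2 ≤ 2 ^ n := by
    intro n hn
    induction n, hn using Nat.le_induction with
    | base => norm_num
    | succ n hn ih =>
      have : (n + 1) ^ 2 ≤ 2 * n ^ 2 := by nlinarith
      calc (n + 1) ^ 2 ≤ 2 * n ^ 2 := this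
        _ ≤ 2 * 2 ^ n := Nat.mul_le_mul_left _ ih
        _ = 2 ^ (n + 1) := by ring
  have h4 := h3 t (by omega)
  refine le_trans ?_ (h4.trans h2)
  nlinarith

theorem reserve (c q e : ℕ) (hq : 1 ≤ q) : ∃ p₀ : ℕ, ∀ (p : ℕ) [Fact p.Prime], p₀ ≤ p →
    ∀ (G : Type u) [AddCommGroup G] [Module (ZMod p) G] [Fintype G] [DecidableEq G]
      (A : Finset G) (ξ η : G →ₗ[ZMod p] ZMod p),
      Nat.card (LinearMap.ker ξ ⊓ LinearMap.ker η : Submodule (ZMod p) G) = p →
      ∀ (C : Finset (ZMod p × ZMod p)) (M : ℕ), C.Nonempty → #C ≤ c →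
      (∀ v ∈ C, p ≤ q * #(cl A ξ η v.1 v.2)) → 4 * q * M ≤ p → p ≤ e * M →
      ∃ P ⊆ A, #P = 2 * (M * #C) ∧ ∀ j : ZMod p × ZMod p → ℤ, (∀ v ∈ C, 2 * |j v| ≤ M) →
        ∑ v ∈ C, j v = 0 → ∀ g : G, ξ g = ∑ v ∈ C, ((M + j v : ℤ) : ZMod p) * v.1 →
          η g = ∑ v ∈ C, ((M + j v : ℤ) : ZMod p) * v.2 → Hit P (M * #C) g := by
  obtain ⟨p₀, hp₀⟩ := RESVM.biglog (2048 * e ^ 2 + 2 * e)
  refine ⟨p₀, ?_⟩
  intro p _ hp G _ _ _ _ A ξ η hL C M hC _ hcl hM hpe
  obtain ⟨l, hl1, hl2⟩ := hp₀ p hp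
  have hppos : 0 < p := (Fact.out : p.Prime).pos
  have he : 1 ≤ e := by
    rcases Nat.eq_zero_or_pos e with h | h
    · subst h
      omega
    · exact h
  -- the reserves
  have hex : ∀ v ∈ C, ∃ Pv ⊆ cl A ξ η v.1 v.2, #Pv = 2 * M := by
    intro v hv
    refine Finset.exists_subset_card_eq ?_
    have h1 := hcl v hv
    have h2 : 4 * M ≤ #(cl A ξ η v.1 v.2) := by
      by_contra h
      have h3 : q * #(cl A ξ η v.1 v.2) < q * (4 * M) :=
        Nat.mul_lt_mul_of_pos_left (by omega) hq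
      have h4 : q * (4 * M) = 4 * q * M := by ring
      omega
    omega
  choose! P hP hPc using hex
  have hdisj : ∀ (S : ZMod p × ZMod p → Finset G), (∀ v ∈ C, S v ⊆ cl A ξ η v.1 v.2) →
      (C : Set (ZMod p × ZMod p)).PairwiseDisjoint S := by
    intro S hS v hv w hw hvw
    rw [Function.onFun, Finset.disjoint_left]
    intro a ha ha'
    have h1 := mem_cl.1 (hS v hv ha)
    have h2 := mem_cl.1 (hS w hw ha')
    exact hvw (Prod.ext (h1.2.1.symm.trans h2.2.1) (h1.2.2.symm.trans h2.2.2))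
  refine ⟨C.biUnion P, ?_, ?_, ?_⟩
  · intro a ha
    obtain ⟨v, hv, hav⟩ := Finset.mem_biUnion.1 ha
    exact (mem_cl.1 (hP v hv hav)).1
  · rw [Finset.card_biUnion (hdisj P hP), Finset.sum_congr rfl hPc, Finset.sum_const,
      smul_eq_mul]
    ring
  · intro j hj hj0 g hg1 hg2
    have hj' : ∀ v ∈ C, -(M : ℤ) ≤ 2 * j v ∧ 2 * j v ≤ M := by
      intro v hv
      have h1 := hj v hv
      have h2 := neg_abs_le (j v)
      have h3 := le_abs_self (j v)
      constructor <;> omega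
    have hX : ∀ v ∈ C, ∃ Xv ⊆ P v, (#Xv : ℤ) = M + j v := by
      intro v hv
      have h1 := hj' v hv
      obtain ⟨Xv, hXv, hXc⟩ := Finset.exists_subset_card_eq (s := P v) (n := (M + j v).toNat) (by
        rw [hPc v hv]
        omega)
      exact ⟨Xv, hXv, by omega⟩
    choose! X hX hXc using hX
    obtain ⟨w, hw⟩ := hC
    have hXP : #(X w) ≤ #(P w) := Finset.card_le_card (hX w hw)
    -- fill in the class `w`
    set L : Submodule (ZMod p) G := LinearMap.ker ξ ⊓ LinearMap.ker η with hLdef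
    have hval : ∀ v ∈ C, ∀ S ⊆ P v, ξ (∑ a ∈ S, a) = (#S : ZMod p) * v.1 ∧
        η (∑ a ∈ S, a) = (#S : ZMod p) * v.2 := by
      intro v hv S hS
      rw [map_sum, map_sum]
      constructor
      · rw [Finset.sum_congr rfl (fun a ha => (mem_cl.1 (hP v hv (hS ha))).2.1),
          Finset.sum_const, nsmul_eq_mul]
      · rw [Finset.sum_congr rfl (fun a ha => (mem_cl.1 (hP v hv (hS ha))).2.2),
          Finset.sum_const, nsmul_eq_mul]
    have hXz : ∀ v ∈ C, (#(X v) : ZMod p) = ((M + j v : ℤ) : ZMod p) := by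
      intro v hv
      rw [← hXc v hv]
      simp
    have hjw := hj' w hw
    have hcw := hXc w hw
    have hc2 : #(P w \ X w) = 2 * M - #(X w) := by
      rw [Finset.card_sdiff_of_subset (hX w hw), hPc w hw]
    have hfill : Hit (X w ∪ (P w \ X w)) #(X w) (g - ∑ v ∈ C.erase w, ∑ a ∈ X v, a) := by
      refine R3.fillz L hL Finset.disjoint_sdiff (c := 2 * e) (l := l) ?_ (by omega) hl1 ?_ ?_ ?_ ?_
      · intro a ha b hb
        have h1 := mem_cl.1 (hP w hw (hX w hw ha))
        have h2 := mem_cl.1 (hP w hw (Finset.mem_sdiff.1 hb).1)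
        rw [hLdef, Submodule.mem_inf, LinearMap.mem_ker, LinearMap.mem_ker, map_sub, map_sub,
          h1.2.1, h2.2.1, h1.2.2, h2.2.2, sub_self, sub_self]
        exact ⟨rfl, rfl⟩
      · refine le_trans ?_ hl2
        nlinarith [Nat.zero_le (e * l), Nat.zero_le e]
      · have h1 : M ≤ 2 * #(X w) := by omega
        calc p ≤ e * M := hpe
          _ ≤ e * (2 * #(X w)) := Nat.mul_le_mul_left _ h1
          _ = 2 * e * #(X w) := by ring
      · have h1 : M ≤ 2 * #(P w \ X w) := by omega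
        have h2 : 2 * e * (256 * (2 * e) * l + 1) ≤ 2 * e * #(P w \ X w) := by
          calc 2 * e * (256 * (2 * e) * l + 1) ≤ (2048 * e ^ 2 + 2 * e) * l +
                (2048 * e ^ 2 + 2 * e) := by
                nlinarith [Nat.zero_le (e * l), Nat.zero_le (e ^ 2 * l), Nat.zero_le (e ^ 2)]
            _ ≤ p := hl2
            _ ≤ e * M := hpe
            _ ≤ e * (2 * #(P w \ X w)) := Nat.mul_le_mul_left _ h1
            _ = 2 * e * #(P w \ X w) := by ring
        exact Nat.le_of_mul_le_mul_left h2 (by omega)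
      · have hs1 : ∑ v ∈ C, (#(X v) : ZMod p) * v.1 = ∑ v ∈ C, ((M + j v : ℤ) : ZMod p) * v.1 :=
          Finset.sum_congr rfl fun v hv => by rw [hXz v hv]
        have hs2 : ∑ v ∈ C, (#(X v) : ZMod p) * v.2 = ∑ v ∈ C, ((M + j v : ℤ) : ZMod p) * v.2 :=
          Finset.sum_congr rfl fun v hv => by rw [hXz v hv]
        have h1 : ξ (∑ v ∈ C.erase w, ∑ a ∈ X v, a) + ξ (∑ a ∈ X w, a) = ξ g := by
          rw [map_sum ξ, hg1, ← hs1, ← Finset.sum_erase_add _ _ hw, (hval w hw _ (hX w hw)).1,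
            Finset.sum_congr rfl (fun v hv => (hval v (Finset.mem_of_mem_erase hv) _
            (hX v (Finset.mem_of_mem_erase hv))).1)]
        have h2 : η (∑ v ∈ C.erase w, ∑ a ∈ X v, a) + η (∑ a ∈ X w, a) = η g := by
          rw [map_sum η, hg2, ← hs2, ← Finset.sum_erase_add _ _ hw, (hval w hw _ (hX w hw)).2,
            Finset.sum_congr rfl (fun v hv => (hval v (Finset.mem_of_mem_erase hv) _
            (hX v (Finset.mem_of_mem_erase hv))).2)]
        rw [hLdef, Submodule.mem_inf, LinearMap.mem_ker, LinearMap.mem_ker, sub_sub, map_sub,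
          map_sub, map_add, map_add, h1, h2, sub_self, sub_self]
        exact ⟨rfl, rfl⟩
    obtain ⟨T, hT, hTc, hTs⟩ := hfill
    rw [Finset.union_sdiff_of_subset (hX w hw)] at hT
    have hY : ∀ v ∈ C, Function.update X w T v ⊆ P v := by
      intro v hv
      by_cases h : v = w
      · subst h
        rw [Function.update_self]
        exact hT
      · rw [Function.update_of_ne h]
        exact hX v hv
    have hYd := hdisj (Function.update X w T) (fun v hv => (hY v hv).trans (hP v hv))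
    have hne : ∀ v ∈ C.erase w, Function.update X w T v = X v := fun v hv =>
      Function.update_of_ne (Finset.ne_of_mem_erase hv) _ _
    refine ⟨C.biUnion (Function.update X w T), ?_, ?_, ?_⟩
    · exact Finset.biUnion_subset.2 fun v hv => (hY v hv).trans (Finset.subset_biUnion_of_mem P hv)
    · rw [Finset.card_biUnion hYd, ← Finset.sum_erase_add _ _ hw, Function.update_self, hTc,
        Finset.sum_congr rfl (fun v hv => by rw [hne v hv]),
        Finset.sum_erase_add C (fun v => #(X v)) hw]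
      have h1 : ((∑ v ∈ C, #(X v) : ℕ) : ℤ) = ((M * #C : ℕ) : ℤ) := by
        rw [Nat.cast_sum, Finset.sum_congr rfl hXc, Finset.sum_add_distrib, hj0,
          Finset.sum_const, nsmul_eq_mul]
        push_cast
        ring
      exact_mod_cast h1
    · rw [Finset.sum_biUnion hYd, ← Finset.sum_erase_add _ _ hw, Function.update_self, hTs,
        Finset.sum_congr rfl (fun v hv => by rw [hne v hv])]
      abel

end Pool.Agent.Lib.MPa7239a.R3X
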