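import Pool.Agent.Lib.MP_a7239a_co.R3X.Defs
import Pool.Agent.Lib.MP_a7239a_co.R3X.KROWS
import Pool.Agent.Lib.MP_a7239a_co.R3X.COV
import Pool.Agent.Lib.MP_a7239a_co.R3X.RESV
import Pool.Agent.Lib.MP_a7239a_co.R3.PLANE

/-! # R3X/ROWS (helper54): two rich planes or bounded second coordinates -/

set_option autoImplicit false

universe u

open Finset
open scoped Pointwise

namespace Pool.Agent.Lib.MPa7239a.R3X

open Pool.Agent.Lib.MPa7239a.GC (Hit)
open Pool.Agent.Lib.MPa7239a.R3 (Exch)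

namespace ROWSM

variable {p : ℕ} [Fact p.Prime] {G : Type u} [AddCommGroup G] [Module (ZMod p) G] [Fintype G]
  [DecidableEq G]

omit [DecidableEq G] in
/-- `ξ ≠ 0` as the common kernel is a line -/
theorem ne_zero (hG : Nat.card G = p ^ 3) {ξ η : G →ₗ[ZMod p] ZMod p}
    (hL : Nat.card (LinearMap.ker ξ ⊓ LinearMap.ker η : Submodule (ZMod p) G) = p) : ξ ≠ 0 := by
  rintro rfl
  have hp : p.Prime := Fact.out
  rw [LinearMap.ker_zero, top_inf_eq] at hL
  have h1 : Module.finrank (ZMod p) G = 3 := by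
    have h := Module.natCard_eq_pow_finrank (K := ZMod p) (V := G)
    rw [hG, Nat.card_eq_fintype_card, ZMod.card p] at h
    exact (Nat.pow_right_injective hp.two_le h).symm
  have h2 := LinearMap.finrank_range_add_finrank_ker η
  have h3 : Module.finrank (ZMod p) (LinearMap.range η) ≤ 1 := by
    have h := Submodule.finrank_le (LinearMap.range η)
    rwa [Module.finrank_self] at h
  have h4 := Module.natCard_eq_pow_finrank (K := ZMod p) (V := LinearMap.ker η)
  rw [hL, Nat.card_eq_fintype_card, ZMod.card p] at h4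
  have h5 : p ^ 1 = p ^ Module.finrank (ZMod p) (LinearMap.ker η) := by rw [pow_one]; exact h4
  have h6 := Nat.pow_right_injective hp.two_le h5
  omega

/-- the relation `D [v] - a [v₁] - (D - a) [v₀]` -/
def rel (D a : ℤ) (v₀ v₁ v u : ZMod p × ZMod p) : ℤ :=
  (if u = v then D else 0) - (if u = v₁ then a else 0) - (if u = v₀ then D - a else 0)

omit [Fact p.Prime] in
theorem rel_sum {C : Finset (ZMod p × ZMod p)} {v₀ v₁ v : ZMod p × ZMod p} (h0 : v₀ ∈ C)
    (h1 : v₁ ∈ C) (hv : v ∈ C) (D a : ℤ) {R : Type*} [CommRing R] (φ : ZMod p × ZMod p → R) :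
    ∑ u ∈ C, (rel D a v₀ v₁ v u : R) * φ u = D * φ v - a * φ v₁ - (D - a) * φ v₀ := by
  have h : ∀ u, (rel D a v₀ v₁ v u : R) * φ u = (if u = v then (D : R) * φ u else 0) -
      (if u = v₁ then (a : R) * φ u else 0) - (if u = v₀ then ((D : R) - a) * φ u else 0) := by
    intro u
    unfold rel
    push_cast
    split_ifs <;> ring
  simp_rw [h]
  rw [sum_sub_distrib, sum_sub_distrib, sum_ite_eq', sum_ite_eq', sum_ite_eq', if_pos hv,
    if_pos h1, if_pos h0]

omit [Fact p.Prime] in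
theorem rel_abs {W : ℤ} (hW : 0 ≤ W) {D a : ℤ} (hD : |D| ≤ 2 * W) (ha : |a| ≤ 2 * W)
    (v₀ v₁ v u : ZMod p × ZMod p) : |rel D a v₀ v₁ v u| ≤ 8 * W := by
  unfold rel
  rw [abs_le] at *
  split_ifs <;> constructor <;> linarith

end ROWSM

theorem rows_three (e c q W : ℕ) (he : 1 ≤ e) (hq : 1 ≤ q) : ∃ K p₀ : ℕ,
    ∀ (p : ℕ) [Fact p.Prime], p₀ ≤ p →
    ∀ (G : Type u) [AddCommGroup G] [Module (ZMod p) G] [Fintype G] [DecidableEq G],
      Nat.card G = p ^ 3 → ∀ (A : Finset G), ¬ Hit A p 0 → #A + 3 = 4 * p →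
      ∀ (ξ η : G →ₗ[ZMod p] ZMod p),
      Nat.card (LinearMap.ker ξ ⊓ LinearMap.ker η : Submodule (ZMod p) G) = p →
      ∀ (C : Finset (ZMod p × ZMod p)) (x₀ : ZMod p) (t₀ : ℕ), #C ≤ c → e * t₀ ≤ p →
      (∀ v ∈ C, p ≤ q * #(cl A ξ η v.1 v.2)) →
      (∀ v ∈ C, (v.1 - x₀).valMinAbs.natAbs ≤ W) →
      4 * p ≤ #{a ∈ A | (ξ a, η a) ∈ C} + t₀ →
      (∃ t, e * t ≤ p ∧ Rich p A t) ∨
      ∃ (ζ : G →ₗ[ZMod p] ZMod p) (z₀ : ZMod p),
        Nat.card (LinearMap.ker ξ ⊓ LinearMap.ker ζ : Submodule (ZMod p) G) = p ∧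
        ∀ a ∈ A, (ξ a, η a) ∈ C → (ζ a - z₀).valMinAbs.natAbs ≤ K := by
  obtain ⟨B, hB⟩ : ∃ B, B = 16 * e * (c + 1) * (q + 1) := ⟨_, rfl⟩
  obtain ⟨e', he'⟩ : ∃ e', e' = 32 * (W + 1) * (c + 1) * B := ⟨_, rfl⟩
  have hB0 : 1 ≤ B := by rw [hB]; exact Nat.one_le_iff_ne_zero.2 (by positivity)
  have he0 : 1 ≤ e' := by rw [he']; exact Nat.one_le_iff_ne_zero.2 (by positivity)
  obtain ⟨K, hK⟩ := cov.{0} c e' he0
  obtain ⟨p₁, hp₁⟩ := reserve.{u} c q (2 * B) hq
  refine ⟨K, p₁ + B + 2 * e + 11, ?_⟩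
  intro p _ hp G _ _ _ _ hG A hA hcard ξ η hL C x₀ t₀ hC ht₀ hcl hW hbig
  have hp' : p.Prime := Fact.out
  have hξ : ξ ≠ 0 := ROWSM.ne_zero hG hL
  -- two rows
  have hrows : ∃ v₀ ∈ C, ∃ v₁ ∈ C, v₀.1 ≠ v₁.1 := by
    by_contra hno
    push Not at hno
    have h1 : #{a ∈ A | (ξ a, η a) ∈ C} ≤ 2 * p - 2 := by
      rcases C.eq_empty_or_nonempty with h0 | ⟨v, hv⟩
      · rw [h0]; simp
      · refine (card_le_card ?_).trans (R3.row_le (by omega) hG hA hξ v.1)
        intro a ha
        rw [mem_filter] at ha ⊢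
        exact ⟨ha.1, hno _ ha.2 _ hv⟩
    have h2 : t₀ ≤ e * t₀ := Nat.le_mul_of_pos_left _ he
    omega
  obtain ⟨v₀, hv₀, v₁, hv₁, hne⟩ := hrows
  obtain ⟨X, hX⟩ : ∃ X : ZMod p × ZMod p → ℤ, X = fun v => (v.1 - x₀).valMinAbs := ⟨_, rfl⟩
  have hXc : ∀ v, ((X v : ℤ) : ZMod p) = v.1 - x₀ := by
    intro v; rw [hX]; exact ZMod.coe_valMinAbs _
  have hXW : ∀ v ∈ C, |X v| ≤ W := by
    intro v hv
    have := hW v hv
    rw [hX, Int.abs_eq_natAbs]
    exact_mod_cast this
  obtain ⟨D, hD⟩ : ∃ D, D = X v₁ - X v₀ := ⟨_, rfl⟩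
  have hDc : (D : ZMod p) = v₁.1 - v₀.1 := by
    rw [hD]; push_cast; rw [hXc, hXc]; ring
  have hD0 : (D : ZMod p) ≠ 0 := by
    rw [hDc]; exact sub_ne_zero.2 (Ne.symm hne)
  have hDW : |D| ≤ 2 * (W : ℤ) := by
    rw [hD]
    have h1 := abs_le.1 (hXW v₁ hv₁)
    have h2 := abs_le.1 (hXW v₀ hv₀)
    rw [abs_le]; constructor <;> linarith
  have haW : ∀ v ∈ C, |X v - X v₀| ≤ 2 * (W : ℤ) := by
    intro v hv
    have h1 := abs_le.1 (hXW v hv)
    have h2 := abs_le.1 (hXW v₀ hv₀)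
    rw [abs_le]; constructor <;> linarith
  obtain ⟨γ, hγ⟩ : ∃ γ : ZMod p × ZMod p → ZMod p, γ = fun v =>
    (D : ZMod p) * (v.2 - v₀.2) - ((X v - X v₀ : ℤ) : ZMod p) * (v₁.2 - v₀.2) := ⟨_, rfl⟩
  rcases hK p C γ hC with hall | ⟨t, ht, htK⟩
  · -- every second coordinate is reached
    left
    obtain ⟨M, hM⟩ : ∃ M, M = p / B := ⟨_, rfl⟩
    have hMB : B * M ≤ p := by rw [hM]; exact Nat.mul_div_le p B
    have hM1 : 1 ≤ M := by
      rw [hM]; exact (Nat.one_le_div_iff (by omega)).2 (by omega)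
    have hMB' : p ≤ 2 * B * M := by
      have h1 : p < B * (M + 1) := by
        rw [hM]; exact Nat.lt_mul_div_succ p (by omega)
      have h2 : B * (M + 1) ≤ B * (M + M) := Nat.mul_le_mul_left _ (by omega)
      have h3 : B * (M + M) = 2 * B * M := by ring
      omega
    have hCne : C.Nonempty := ⟨v₀, hv₀⟩
    have h4 : 4 * q * M ≤ p := by
      refine le_trans ?_ hMB
      refine Nat.mul_le_mul_right _ ?_
      rw [hB]
      calc 4 * q ≤ 16 * 1 * (0 + 1) * (q + 1) := by omega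
        _ ≤ 16 * e * (c + 1) * (q + 1) := by gcongr; exact Nat.zero_le c
    obtain ⟨P, hPA, hPc, hP⟩ := hp₁ p (by omega) G A ξ η hL C M hCne hC hcl h4 hMB'
    have hm16 : 16 * e * (M * #C) ≤ p := by
      refine le_trans ?_ hMB
      rw [hB]
      have h1 : #C ≤ (c + 1) * (q + 1) :=
        hC.trans ((Nat.le_succ c).trans (Nat.le_mul_of_pos_right _ (Nat.succ_pos q)))
      calc 16 * e * (M * #C) ≤ 16 * e * (M * ((c + 1) * (q + 1))) := by gcongr
        _ = 16 * e * (c + 1) * (q + 1) * M := by ring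
    have hm8 : 8 * (M * #C) ≤ p := by
      refine le_trans ?_ hm16
      exact Nat.mul_le_mul_right _ (by omega)
    obtain ⟨σ, hσ⟩ := LinearMap.surjective hξ (∑ v ∈ C, (M : ZMod p) * v.1)
    refine ⟨3 * (M * #C) + 1, ?_, krows (by omega) hG hA hcard hPA hPc hm8 hξ (σ := σ) ?_⟩
    · have h1 : e * (3 * (M * #C) + 1) = 3 * (e * (M * #C)) + e := by ring
      have h2 : 16 * e * (M * #C) = 16 * (e * (M * #C)) := by ring
      omega
    · intro g hg
      rw [LinearMap.mem_ker, map_sub, sub_eq_zero] at hg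
      obtain ⟨i, hi, his⟩ := hall (η g - ∑ v ∈ C, (M : ZMod p) * v.2)
      obtain ⟨j, hj⟩ : ∃ j : ZMod p × ZMod p → ℤ, j = fun u =>
        ∑ v ∈ C, i v * ROWSM.rel D (X v - X v₀) v₀ v₁ v u := ⟨_, rfl⟩
      -- the three sums
      have key : ∀ {R : Type} [CommRing R] (φ : ZMod p × ZMod p → R),
          ∑ u ∈ C, (j u : R) * φ u = ∑ v ∈ C, (i v : R) * ((D : R) * φ v -
            ((X v - X v₀ : ℤ) : R) * φ v₁ - ((D : R) - ((X v - X v₀ : ℤ) : R)) * φ v₀) := by
        intro R _ φ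
        rw [hj]
        push_cast
        simp_rw [sum_mul]
        rw [sum_comm]
        refine sum_congr rfl fun v hv => ?_
        have h := ROWSM.rel_sum hv₀ hv₁ hv D (X v - X v₀) φ
        push_cast at h
        rw [← h, mul_sum]
        exact sum_congr rfl fun u _ => by ring
      have hsum : ∑ v ∈ C, j v = 0 := by
        have h := key (R := ℤ) (fun _ => 1)
        simp only [mul_one, Int.cast_id] at h
        rw [h]
        refine sum_eq_zero fun v _ => ?_
        ring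
      have hfst : ∑ v ∈ C, (j v : ZMod p) * v.1 = 0 := by
        rw [key (fun v => v.1)]
        refine sum_eq_zero fun v _ => ?_
        push_cast
        rw [hXc, hXc, hDc]
        ring
      have hsnd : ∑ v ∈ C, (j v : ZMod p) * v.2 = η g - ∑ v ∈ C, (M : ZMod p) * v.2 := by
        rw [key (fun v => v.2), ← his]
        refine sum_congr rfl fun v _ => ?_
        rw [hγ]
        push_cast
        ring
      have hbd : ∀ v ∈ C, 2 * |j v| ≤ (M : ℤ) := by
        intro u _
        have h1 : |j u| ≤ ∑ v ∈ C, |i v| * (8 * W) := by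
          rw [hj]
          refine (abs_sum_le_sum_abs _ _).trans (sum_le_sum fun v hv => ?_)
          rw [abs_mul]
          exact mul_le_mul_of_nonneg_left
            (ROWSM.rel_abs (by positivity) hDW (haW v hv) _ _ _ _) (abs_nonneg _)
        have h2 : (e' : ℤ) * ∑ v ∈ C, |i v| * (8 * W) ≤ c * (8 * W * p) := by
          rw [mul_sum]
          calc ∑ v ∈ C, (e' : ℤ) * (|i v| * (8 * W)) ≤ ∑ v ∈ C, (8 * W * p : ℤ) := by
                refine sum_le_sum fun v hv => ?_
                have h := hi v hv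
                have h' : (e' : ℤ) * |i v| * (8 * W) ≤ p * (8 * W) :=
                  mul_le_mul_of_nonneg_right h (by positivity)
                linarith
            _ = #C * (8 * W * p) := by rw [sum_const, nsmul_eq_mul]
            _ ≤ c * (8 * W * p) := by
                have : (#C : ℤ) ≤ c := by exact_mod_cast hC
                exact mul_le_mul_of_nonneg_right this (by positivity)
        have h3 : (e' : ℤ) * (2 * |j u|) ≤ e' * M := by
          have h4 : (e' : ℤ) * |j u| ≤ c * (8 * W * p) :=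
            (mul_le_mul_of_nonneg_left h1 (by positivity)).trans h2
          have h5 : (p : ℤ) ≤ 2 * B * M := by exact_mod_cast hMB'
          have h6 : (c : ℤ) * (8 * W * p) ≤ c * (8 * W * (2 * B * M)) := by gcongr
          have h7 : (c : ℤ) * (8 * W * (2 * B * M)) * 2 ≤ 32 * (W + 1) * (c + 1) * B * M := by
            have : (0 : ℤ) ≤ B * M := by positivity
            have h8 : (c : ℤ) * W ≤ (W + 1) * (c + 1) := by
              have h8a : (0 : ℤ) ≤ (c : ℤ) := by positivity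
              have h8b : (0 : ℤ) ≤ (W : ℤ) := by positivity
              linarith [mul_comm (c : ℤ) W]
            have h8' := mul_le_mul_of_nonneg_right h8 this
            linarith
          have h9 : (e' : ℤ) = 32 * (W + 1) * (c + 1) * B := by rw [he']; push_cast; ring
          rw [h9] at h4 ⊢
          linarith
        exact le_of_mul_le_mul_left h3 (by exact_mod_cast he0)
      refine hP j hbd hsum g ?_ ?_
      · rw [hg, hσ]
        push_cast
        simp_rw [add_mul]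
        rw [sum_add_distrib, hfst, add_zero]
      · push_cast
        simp_rw [add_mul]
        rw [sum_add_distrib, hsnd]
        ring
  · -- bounded second coordinates
    right
    have htD : t * (D : ZMod p) ≠ 0 := mul_ne_zero ht hD0
    refine ⟨t • ((D : ZMod p) • η - (v₁.2 - v₀.2) • ξ),
      t * ((D : ZMod p) * v₀.2 - (v₁.2 - v₀.2) * v₀.1), ?_, ?_⟩
    · have h : (LinearMap.ker ξ ⊓ LinearMap.ker (t • ((D : ZMod p) • η - (v₁.2 - v₀.2) • ξ)) :
          Submodule (ZMod p) G) = LinearMap.ker ξ ⊓ LinearMap.ker η := by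
        ext x
        simp only [Submodule.mem_inf, LinearMap.mem_ker, LinearMap.smul_apply,
          LinearMap.sub_apply, smul_eq_mul]
        constructor
        · rintro ⟨h1, h2⟩
          refine ⟨h1, ?_⟩
          rw [h1, mul_zero, sub_zero, ← mul_assoc] at h2
          exact (mul_eq_zero.1 h2).resolve_left htD
        · rintro ⟨h1, h2⟩
          refine ⟨h1, ?_⟩
          rw [h1, h2]; ring
      rw [h, hL]
    · intro a _ haC
      have h := htK _ haC
      have h2 : (t • ((D : ZMod p) • η - (v₁.2 - v₀.2) • ξ)) a -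
          t * ((D : ZMod p) * v₀.2 - (v₁.2 - v₀.2) * v₀.1) = t * γ (ξ a, η a) := by
        rw [hγ]
        simp only [LinearMap.smul_apply, LinearMap.sub_apply, smul_eq_mul]
        push_cast
        rw [hXc, hXc]
        ring
      rw [h2]
      exact h

end Pool.Agent.Lib.MPa7239a.R3X
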