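import Pool.Agent.Lib.MP_a7239a_co.R3X.PGA

/-!
# R3X: module PLB
-/

set_option autoImplicit false

open Finset

namespace Pool.Agent.Lib.MPa7239a.R3X

namespace PLBM

theorem Avg.mono {μ μ' : ℤ × ℤ → ℝ} {S : Finset (ℤ × ℤ)} {θ θ' : ℝ} {w : ℤ × ℤ}
    (h : Avg μ S θ w) (hθ : θ' ≤ θ) (hμ : ∀ v ∈ S, μ v + θ' ≤ μ' v + θ) : Avg μ' S θ' w := by
  obtain ⟨k, hk, h1, h2, h3⟩ := h
  refine ⟨k, fun v hv => ⟨hθ.trans (hk v hv).1, ?_⟩, h1, h2, h3⟩
  have := (hk v hv).2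
  have := hμ v hv
  linarith

/-- a finite set of integers with a nonzero element generates `g ℤ`, `g ≠ 0` -/
theorem gcd_form (V : Finset ℤ) {x : ℤ} (hx : x ∈ V) (hx0 : x ≠ 0) :
    ∃ (g : ℤ) (e : ℤ → ℤ), g ≠ 0 ∧ (∀ v ∈ V, v = g * e v) ∧
      ∃ f : ℤ → ℤ, ∑ v ∈ V, f v * e v = 1 := by
  set I : Ideal ℤ := Ideal.span (V : Set ℤ) with hI
  set g : ℤ := Submodule.IsPrincipal.generator I with hg
  have hmem : ∀ v ∈ V, ∃ s : ℤ, v = g * s := by
    intro v hv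
    have h1 : v ∈ I := Ideal.subset_span hv
    obtain ⟨s, hs⟩ := (Submodule.IsPrincipal.mem_iff_eq_smul_generator I).1 h1
    exact ⟨s, by rw [hs, smul_eq_mul, mul_comm]⟩
  have hg0 : g ≠ 0 := by
    intro h0
    obtain ⟨s, hs⟩ := hmem x hx
    rw [h0, zero_mul] at hs
    exact hx0 hs
  choose! e he using hmem
  refine ⟨g, e, hg0, he, ?_⟩
  have h1 : g ∈ I := Submodule.IsPrincipal.generator_mem I
  obtain ⟨f, -, hf⟩ := (Submodule.mem_span_finset (R := ℤ) (M := ℤ)).1 h1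
  refine ⟨f, mul_left_cancel₀ hg0 ?_⟩
  calc g * ∑ v ∈ V, f v * e v = ∑ v ∈ V, f v • v := by
        rw [Finset.mul_sum]
        refine Finset.sum_congr rfl fun v hv => ?_
        rw [smul_eq_mul, mul_left_comm, ← he v hv]
    _ = g := hf
    _ = g * 1 := (mul_one g).symm

theorem sum_box_row {K : ℕ} {μ : ℤ × ℤ → ℝ} (hrow : ∀ v : ℤ × ℤ, v.2 ≠ 0 → μ v = 0) :
    ∑ v ∈ box K, μ v = ∑ x ∈ Icc (-(K : ℤ)) K, μ (x, 0) := by
  unfold box
  rw [Finset.sum_product]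
  refine Finset.sum_congr rfl fun x _ => ?_
  rw [Finset.sum_eq_single 0]
  · intro y _ hy
    exact hrow (x, y) hy
  · intro h0
    exact absurd (Finset.mem_Icc.2 ⟨by omega, by omega⟩) h0

/-- the limit statement -/
theorem row_zero {K : ℕ} {μ : ℤ × ℤ → ℝ} (h01 : ∀ v, 0 ≤ μ v ∧ μ v ≤ 1)
    (hrow : ∀ v : ℤ × ℤ, v.2 ≠ 0 → μ v = 0) (htot : 2 - 1 / 190 ≤ ∑ v ∈ box K, μ v)
    (hfree : ∀ θ : ℝ, 0 < θ → Free μ θ) :
    ∃ x₀ x₁ : ℤ, x₀ ≠ x₁ ∧ 1 - 1 / 90 ≤ μ (x₀, 0) ∧ 1 - 1 / 90 ≤ μ (x₁, 0) := by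
  classical
  rw [sum_box_row hrow] at htot
  set V : Finset ℤ := {x ∈ Icc (-(K : ℤ)) K | 0 < μ (x, 0)} with hV
  have hVpos : ∀ x ∈ V, 0 < μ (x, 0) := fun x hx => (Finset.mem_filter.1 hx).2
  have hVsum : ∑ x ∈ Icc (-(K : ℤ)) K, μ (x, 0) = ∑ x ∈ V, μ (x, 0) := by
    rw [hV, Finset.sum_filter]
    refine Finset.sum_congr rfl fun x _ => ?_
    split_ifs with h
    · rfl
    · exact le_antisymm (not_lt.1 h) (h01 _).1
  rw [hVsum] at htot
  -- two points
  have hcard : 1 < #V := by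
    by_contra hc
    have h1 : ∑ x ∈ V, μ (x, 0) ≤ #V • (1 : ℝ) := Finset.sum_le_card_nsmul _ _ _ fun x _ => (h01 _).2
    have h2 : ((#V : ℕ) : ℝ) ≤ 1 := by exact_mod_cast not_lt.1 hc
    rw [nsmul_eq_mul, mul_one] at h1
    linarith
  obtain ⟨X₀, hX₀, X₁, hX₁, hne⟩ := Finset.one_lt_card.1 hcard
  obtain ⟨g, e, hg0, he, f, hf⟩ := gcd_form (V.image fun x => x - X₀) (x := X₁ - X₀)
    (Finset.mem_image_of_mem _ hX₁) (sub_ne_zero.2 (Ne.symm hne))
  -- coordinates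
  set E : ℤ → ℤ := fun x => e (x - X₀) with hE
  have hEg : ∀ x ∈ V, x = X₀ + g * E x := by
    intro x hx
    have := he (x - X₀) (Finset.mem_image_of_mem (fun x => x - X₀) hx)
    rw [hE]
    linarith
  have hEinj : Set.InjOn E (V : Set ℤ) := by
    intro x hx y hy hxy
    rw [hEg x hx, hEg y hy, hxy]
  have hE0 : E X₀ = 0 := by
    have := hEg X₀ hX₀
    have h2 : g * E X₀ = 0 := by linarith
    exact (mul_eq_zero.1 h2).resolve_left hg0
  set V' : Finset ℤ := V.image E with hV'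
  set ν : ℤ → ℝ := fun t => μ (X₀ + g * t, 0) with hν
  have hνE : ∀ x ∈ V, ν (E x) = μ (x, 0) := by
    intro x hx
    rw [hν]
    simp only
    rw [← hEg x hx]
  have hpos' : ∀ t ∈ V', 0 < ν t := by
    intro t ht
    obtain ⟨x, hx, rfl⟩ := Finset.mem_image.1 ht
    rw [hνE x hx]
    exact hVpos x hx
  have htot' : 2 - 1 / 190 ≤ ∑ t ∈ V', ν t := by
    rw [hV', Finset.sum_image hEinj, Finset.sum_congr rfl hνE]
    exact htot
  have h0V' : (0 : ℤ) ∈ V' := by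
    rw [← hE0]; exact Finset.mem_image_of_mem _ hX₀
  -- integer combinations
  have hgen : ∀ w : ℤ, ∃ j : ℤ → ℤ, ∑ t ∈ V', j t = 1 ∧ ∑ t ∈ V', j t * t = w := by
    intro w
    have hf' : ∑ x ∈ V, f (x - X₀) * E x = 1 := by
      rw [Finset.sum_image (by intro x _ y _ h; simpa using h)] at hf
      exact hf
    -- coefficients on V'
    have hinv : ∃ F : ℤ → ℤ, ∀ x ∈ V, F (E x) = f (x - X₀) := by
      refine ⟨fun t => f (g * t), fun x hx => ?_⟩
      show f (g * E x) = f (x - X₀)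
      congr 1
      have := hEg x hx
      linarith
    obtain ⟨F, hF⟩ := hinv
    have hF1 : ∑ t ∈ V', F t * t = 1 := by
      rw [hV', Finset.sum_image hEinj, ← hf']
      refine Finset.sum_congr rfl fun x hx => ?_
      rw [hF x hx]
    refine ⟨fun t => w * F t + if t = 0 then 1 - w * ∑ s ∈ V', F s else 0, ?_, ?_⟩
    · rw [Finset.sum_add_distrib, Finset.sum_ite_eq' V' 0, if_pos h0V', ← Finset.mul_sum]
      ring
    · have : ∀ t ∈ V', (w * F t + if t = 0 then 1 - w * ∑ s ∈ V', F s else 0) * t =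
          w * (F t * t) := by
        intro t _
        split_ifs with h
        · rw [h]; ring
        · ring
      rw [Finset.sum_congr rfl this, ← Finset.mul_sum, hF1, mul_one]
  -- no average
  have hfree' : ∀ (k : ℤ → ℝ) (w : ℤ), (∀ t ∈ V', 0 < k t ∧ k t < ν t) → ∑ t ∈ V', k t = 1 →
      ∑ t ∈ V', k t * (t : ℝ) ≠ w := by
    intro k w hk h1 h2
    obtain ⟨j, hj1, hj2⟩ := hgen w
    -- the margin
    obtain ⟨θ, hθ0, hθ⟩ : ∃ θ : ℝ, 0 < θ ∧ ∀ t ∈ V', θ ≤ k t ∧ k t + θ ≤ ν t := by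
      obtain ⟨t₀, ht₀, hmin⟩ := Finset.exists_min_image V' (fun t => min (k t) (ν t - k t)) ⟨0, h0V'⟩
      refine ⟨min (k t₀) (ν t₀ - k t₀), lt_min (hk t₀ ht₀).1 (by linarith [(hk t₀ ht₀).2]), ?_⟩
      intro t ht
      have h3 := hmin t ht
      exact ⟨h3.trans (min_le_left _ _), by linarith [h3.trans (min_le_right _ _)]⟩
    -- the set in the plane
    set emb : ℤ → ℤ × ℤ := fun t => (X₀ + g * t, 0) with hemb
    have hembinj : Function.Injective emb := by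
      intro s t hst
      have h3 : X₀ + g * s = X₀ + g * t := (Prod.mk.inj hst).1
      exact mul_left_cancel₀ hg0 (by linarith)
    set rt : ℤ × ℤ → ℤ := Function.invFun emb with hrt
    have hrt' : ∀ t, rt (emb t) = t := Function.leftInverse_invFun hembinj
    refine hfree θ hθ0 (V'.image emb) (emb w) ?_ ?_
    · refine ⟨fun v => j (rt v), ?_, ?_, ?_⟩
      · rw [Finset.sum_image hembinj.injOn, ← hj1]
        exact Finset.sum_congr rfl fun t _ => by rw [hrt']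
      · rw [Finset.sum_image hembinj.injOn]
        have : ∀ t ∈ V', j (rt (emb t)) * (emb t).1 = X₀ * j t + g * (j t * t) := by
          intro t _
          rw [hrt', hemb]
          ring
        rw [Finset.sum_congr rfl this, Finset.sum_add_distrib, ← Finset.mul_sum, ← Finset.mul_sum,
          hj1, hj2, hemb]
        ring
      · rw [Finset.sum_image hembinj.injOn]
        have : ∀ t ∈ V', j (rt (emb t)) * (emb t).2 = 0 := by
          intro t _
          rw [hemb]; ring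
        rw [Finset.sum_congr rfl this, Finset.sum_const_zero]
    · refine ⟨fun v => k (rt v), ?_, ?_, ?_, ?_⟩
      · intro v hv
        obtain ⟨t, ht, rfl⟩ := Finset.mem_image.1 hv
        show θ ≤ k (rt (emb t)) ∧ k (rt (emb t)) + θ ≤ μ (emb t)
        rw [hrt']
        exact hθ t ht
      · rw [Finset.sum_image hembinj.injOn, ← h1]
        exact Finset.sum_congr rfl fun t _ => by rw [hrt']
      · rw [Finset.sum_image hembinj.injOn]
        have : ∀ t ∈ V', k (rt (emb t)) * ((emb t).1 : ℝ) = (X₀ : ℝ) * k t + g * (k t * (t : ℝ)) := by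
          intro t _
          rw [hrt', hemb]
          push_cast
          ring
        rw [Finset.sum_congr rfl this, Finset.sum_add_distrib, ← Finset.mul_sum, ← Finset.mul_sum,
          h1, h2, hemb]
        push_cast
        ring
      · rw [Finset.sum_image hembinj.injOn]
        have : ∀ t ∈ V', k (rt (emb t)) * ((emb t).2 : ℝ) = 0 := by
          intro t _
          rw [hemb]
          push_cast
          ring
        rw [Finset.sum_congr rfl this, Finset.sum_const_zero, hemb]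
        push_cast
        rfl
  obtain ⟨w, hw, hw1, hm, hm1⟩ := pg_one hpos' (fun t => (h01 _).2) htot' hgen hfree'
  refine ⟨X₀ + g * w, X₀ + g * (w + 1), ?_, hm, hm1⟩
  intro h
  apply hg0
  linarith

end PLBM

theorem planar_one (K : ℕ) : ∃ θ : ℝ, 0 < θ ∧ ∀ μ : ℤ × ℤ → ℝ, (∀ v, 0 ≤ μ v ∧ μ v ≤ 1) →
    (∀ v, v ∉ box K → μ v = 0) → (∀ v : ℤ × ℤ, v.2 ≠ 0 → μ v = 0) →
    2 - 1 / 190 ≤ ∑ v ∈ box K, μ v → Free μ θ →
    ∃ x₀ x₁ : ℤ, x₀ ≠ x₁ ∧ (x₀, 0) ∈ box K ∧ (x₁, 0) ∈ box K ∧ 1 - 1 / 60 ≤ μ (x₀, 0) ∧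
      1 - 1 / 60 ≤ μ (x₁, 0) := by
  by_contra hcon
  push Not at hcon
  have hpos : ∀ n : ℕ, (0 : ℝ) < 1 / ((n : ℝ) + 1) := fun n => by positivity
  choose μ h01 hbox hrow htot hfree hno using fun n : ℕ => hcon (1 / ((n : ℝ) + 1)) (hpos n)
  have hcomp : IsCompact (Set.univ.pi fun _ : ℤ × ℤ => Set.Icc (0 : ℝ) 1) :=
    isCompact_univ_pi fun _ => isCompact_Icc
  obtain ⟨a, ha, φ, hφ, hlim⟩ := hcomp.tendsto_subseq (x := μ)
    (fun n => fun v _ => ⟨(h01 n v).1, (h01 n v).2⟩)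
  have hlim' : ∀ v, Filter.Tendsto (fun n => μ (φ n) v) Filter.atTop (nhds (a v)) :=
    tendsto_pi_nhds.1 hlim
  have ha01 : ∀ v, 0 ≤ a v ∧ a v ≤ 1 := fun v => ha v (Set.mem_univ v)
  have habox : ∀ v, v ∉ box K → a v = 0 := by
    intro v hv
    refine tendsto_nhds_unique (hlim' v) ?_
    simp only [hbox _ v hv]
    exact tendsto_const_nhds
  have harow : ∀ v : ℤ × ℤ, v.2 ≠ 0 → a v = 0 := by
    intro v hv
    refine tendsto_nhds_unique (hlim' v) ?_
    simp only [hrow _ v hv]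
    exact tendsto_const_nhds
  have hatot : 2 - 1 / 190 ≤ ∑ v ∈ box K, a v :=
    ge_of_tendsto' (tendsto_finsetSum _ fun v _ => hlim' v) fun n => htot (φ n)
  have hafree : ∀ θ : ℝ, 0 < θ → Free a θ := by
    intro θ hθ S w hS hAvg
    have h1 : ∀ v ∈ S, ∀ᶠ n in Filter.atTop, a v - θ / 2 < μ (φ n) v := fun v _ =>
      (hlim' v).eventually (lt_mem_nhds (by linarith))
    have h2 : ∀ᶠ n in Filter.atTop, ∀ v ∈ S, a v - θ / 2 < μ (φ n) v :=
      (Filter.eventually_all_finset S).2 h1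
    have h3 : ∀ᶠ n : ℕ in Filter.atTop, 1 / ((n : ℝ) + 1) < θ / 2 :=
      (tendsto_one_div_add_atTop_nhds_zero_nat (𝕜 := ℝ)).eventually (gt_mem_nhds (by linarith))
    have h4 : ∀ᶠ n : ℕ in Filter.atTop, 1 / ((φ n : ℝ) + 1) < θ / 2 :=
      hφ.tendsto_atTop.eventually h3
    obtain ⟨n, hn2, hn4⟩ := (h2.and h4).exists
    refine hfree (φ n) S w hS (PLBM.Avg.mono hAvg (by linarith) ?_)
    intro v hv
    have := hn2 v hv
    linarith
  obtain ⟨x₀, x₁, hne, hx₀, hx₁⟩ := PLBM.row_zero ha01 harow hatot hafree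
  have hmem : ∀ x : ℤ, 1 - 1 / 90 ≤ a (x, 0) → (x, 0) ∈ box K := by
    intro x hx
    by_contra hc
    rw [habox _ hc] at hx
    norm_num at hx
  have e0 : ∀ᶠ n in Filter.atTop, 1 - 1 / 60 < μ (φ n) (x₀, 0) :=
    (hlim' (x₀, 0)).eventually (lt_mem_nhds (by linarith))
  have e1 : ∀ᶠ n in Filter.atTop, 1 - 1 / 60 < μ (φ n) (x₁, 0) :=
    (hlim' (x₁, 0)).eventually (lt_mem_nhds (by linarith))
  obtain ⟨n, hn0, hn1⟩ := (e0.and e1).exists
  have := hno (φ n) x₀ x₁ hne (hmem x₀ hx₀) (hmem x₁ hx₁) hn0.le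
  linarith

end Pool.Agent.Lib.MPa7239a.R3X
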