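import Pool.Agent.Lib.MP_a7239a_co.R3X.Defs
import Pool.Agent.Lib.MP_a7239a_co.R3X.FILLW
import Pool.Agent.Lib.MP_a7239a_co.R3X.PLB
import Pool.Agent.Lib.MP_a7239a_co.R3X.RND
import Pool.Agent.Lib.MP_a7239a_co.R3.CARD

set_option autoImplicit false

universe u

open Finset
open scoped Pointwise

namespace Pool.Agent.Lib.MPa7239a.R3X

open Pool.Agent.Lib.MPa7239a.GC (Hit)
open Pool.Agent.Lib.MPa7239a.R3 (Exch)

namespace STABM

section
variable {p : ℕ} [Fact p.Prime] {G : Type u} [AddCommGroup G] [Module (ZMod p) G] [Fintype G]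
  [DecidableEq G]

omit [DecidableEq G] in
theorem card_ker (hG : Nat.card G = p ^ 3) {α : G →ₗ[ZMod p] ZMod p} (hα : α ≠ 0) :
    Nat.card (LinearMap.ker α) = p ^ 2 := by
  have hp : p.Prime := Fact.out
  obtain ⟨x, hx⟩ : ∃ x, α x ≠ 0 := by
    by_contra h
    push Not at h
    exact hα (LinearMap.ext h)
  have h := R3.card_inf_ker (⊤ : Submodule (ZMod p) G) (ξ := α) ⟨x, trivial, hx⟩
  rw [top_inf_eq] at h
  have ht : Nat.card (⊤ : Submodule (ZMod p) G) = p ^ 3 := by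
    rw [← hG]
    exact Nat.card_congr (Equiv.Set.univ G)
  rw [ht] at h
  have : p * Nat.card (LinearMap.ker α) = p * p ^ 2 := by rw [h]; ring
  exact Nat.eq_of_mul_eq_mul_left hp.pos this

omit [DecidableEq G] in
/-- a class has at most `p` elements -/
theorem cl_le {α β : G →ₗ[ZMod p] ZMod p}
    (h : Nat.card (LinearMap.ker α ⊓ LinearMap.ker β : Submodule (ZMod p) G) = p)
    (A : Finset G) (x y : ZMod p) : #(cl A α β x y) ≤ p := by
  classical
  rcases (cl A α β x y).eq_empty_or_nonempty with h0 | ⟨a, ha⟩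
  · rw [h0]; simp
  have ha' := mem_cl.mp ha
  have hm : ∀ b ∈ cl A α β x y, b - a ∈ (LinearMap.ker α ⊓ LinearMap.ker β : Submodule _ G) := by
    intro b hb
    have hb' := mem_cl.mp hb
    simp only [Submodule.mem_inf, LinearMap.mem_ker, map_sub]
    rw [ha'.2.1, ha'.2.2, hb'.2.1, hb'.2.2]
    simp
  calc #(cl A α β x y) = #((cl A α β x y).attach) := (Finset.card_attach).symm
    _ ≤ #(Finset.univ : Finset (LinearMap.ker α ⊓ LinearMap.ker β : Submodule (ZMod p) G)) := by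
      refine Finset.card_le_card_of_injOn (fun b => ⟨b.1 - a, hm b.1 b.2⟩) (fun b _ => by simp) ?_
      intro b _ c _ hbc
      have : b.1 - a = c.1 - a := congrArg Subtype.val hbc
      exact Subtype.ext (sub_left_injective this)
    _ = p := by rw [Finset.card_univ, ← Nat.card_eq_fintype_card, h]

omit [Fintype G] in
/-- completing by a set of elements over `x` -/
theorem complete {A : Finset G} {α : G →ₗ[ZMod p] ZMod p} {x : ZMod p} {m : ℕ} {P : Finset G}
    {σ : G} (hm : m ≤ p) (hP : P ⊆ {a ∈ A | α a = x}) (hPm : #P = 2 * m)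
    (hc : p + m ≤ #{a ∈ A | α a = x})
    (hfill : ∀ g, g - σ ∈ LinearMap.ker α → Hit P m g) : Hit A p 0 := by
  classical
  obtain ⟨U₀, hU₀, hUc₀, hUs₀⟩ := hfill σ (by simp)
  have hx : ∀ S ⊆ ({a ∈ A | α a = x} : Finset G), ∑ a ∈ S, α a = (#S : ZMod p) * x := by
    intro S hS
    rw [Finset.sum_congr rfl fun a ha => (Finset.mem_filter.mp (hS ha)).2, Finset.sum_const,
      nsmul_eq_mul]
  have hσ : α σ = m * x := by
    rw [← hUs₀, map_sum, hx U₀ (hU₀.trans hP), hUc₀]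
  obtain ⟨T, hT, hTc⟩ : ∃ T ⊆ ({a ∈ A | α a = x} : Finset G) \ P, #T = p - m := by
    apply Finset.exists_subset_card_eq
    rw [Finset.card_sdiff_of_subset hP]
    omega
  have hTx := hx T (hT.trans Finset.sdiff_subset)
  obtain ⟨U, hU, hUc, hUs⟩ := hfill (-∑ a ∈ T, a) (by
    rw [LinearMap.mem_ker, map_sub, map_neg, map_sum, hTx, hσ, hTc, Nat.cast_sub hm]
    simp)
  have hd : Disjoint U T := by
    rw [Finset.disjoint_left]
    intro a ha hb
    exact (Finset.mem_sdiff.mp (hT hb)).2 (hU ha)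
  refine ⟨U ∪ T, Finset.union_subset ?_ ?_, ?_, ?_⟩
  · exact (hU.trans hP).trans (Finset.filter_subset _ _)
  · exact (hT.trans Finset.sdiff_subset).trans (Finset.filter_subset _ _)
  · rw [Finset.card_union_of_disjoint hd, hUc, hTc]
    omega
  · rw [Finset.sum_union hd, hUs]
    simp

end

end STABM

theorem stab_two : ∃ p₀ : ℕ, ∀ (p : ℕ) [Fact p.Prime], p₀ ≤ p →
    ∀ (G : Type u) [AddCommGroup G] [Module (ZMod p) G] [Fintype G] [DecidableEq G],
      Nat.card G = p ^ 3 → ∀ (A : Finset G), ¬ Hit A p 0 → #A + 3 = 4 * p →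
      ∀ (α : G →ₗ[ZMod p] ZMod p) (x : ZMod p) (t : ℕ), α ≠ 0 → 200 * t ≤ p →
      2 * p ≤ #{a ∈ A | α a = x} + t →
      ∃ (β : G →ₗ[ZMod p] ZMod p) (y₀ y₁ : ZMod p), y₀ ≠ y₁ ∧
        Nat.card (LinearMap.ker α ⊓ LinearMap.ker β : Submodule (ZMod p) G) = p ∧
        50 * p ≤ 50 * #(cl A α β x y₀) + p ∧ 50 * p ≤ 50 * #(cl A α β x y₁) + p := by
  obtain ⟨W, p₁, hfill⟩ := fillw.{u} 4000 (by norm_num)
  obtain ⟨θ, hθ, hone⟩ := planar_one W
  obtain ⟨p₂, hround⟩ := round_hit.{u} W hθ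
  refine ⟨max (max p₁ p₂) (2 * W + 2), ?_⟩
  intro p _ hp G _ _ _ _ hG A hA hcard α x t hα ht hrow
  have hpp : p.Prime := Fact.out
  have hp1 : p₁ ≤ p := le_trans (le_trans (le_max_left _ _) (le_max_left _ _)) hp
  have hp2 : p₂ ≤ p := le_trans (le_trans (le_max_right _ _) (le_max_left _ _)) hp
  have hpW : 2 * W + 2 ≤ p := le_trans (le_max_right _ _) hp
  set B₀ : Finset G := {a ∈ A | α a = x} with hB₀
  have hB₀A : #B₀ ≤ #A := Finset.card_filter_le _ _
  have hne : B₀.Nonempty := by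
    rw [← Finset.card_pos]
    omega
  obtain ⟨a₀, ha₀⟩ := hne
  have hxa : ∀ a ∈ B₀, α a = x := fun a ha => (Finset.mem_filter.mp ha).2
  rcases hfill p hp1 G (LinearMap.ker α) 2 (Or.inl rfl) (STABM.card_ker hG hα) B₀ {a₀}
    (by omega) (fun a ha => ⟨a₀, by simp, by
      rw [LinearMap.mem_ker, map_sub, hxa a ha, hxa a₀ ha₀, sub_self]⟩) with
    ⟨m, P, σ, hm, hP, hPm, hf⟩ | ⟨ξ, B, C', ⟨h₀, hh₀, hξ⟩, hB, hBc, hC', hW⟩
  · exact absurd (STABM.complete (by omega) hP hPm (by rw [← hB₀]; omega) hf) hA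
  -- the class of `ξ`
  have hL : Nat.card (LinearMap.ker α ⊓ LinearMap.ker ξ : Submodule (ZMod p) G) = p := by
    have h := R3.card_inf_ker (LinearMap.ker α) (ξ := ξ) ⟨h₀, hh₀, hξ⟩
    rw [STABM.card_ker hG hα] at h
    exact Nat.eq_of_mul_eq_mul_left hpp.pos (by rw [h]; ring)
  have hL' : Nat.card (LinearMap.ker ξ ⊓ LinearMap.ker α : Submodule (ZMod p) G) = p := by
    rw [inf_comm]; exact hL
  have hBne : B.Nonempty := by
    rw [← Finset.card_pos]
    omega
  obtain ⟨b₀, hb₀⟩ := hBne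
  obtain ⟨c, hc, -⟩ := hW b₀ hb₀
  have hC1 : ∀ y ∈ C', y = c := by
    intro y hy
    exact Finset.card_le_one.mp (by simpa using hC') y hy c hc
  have hBc' : ∀ b ∈ B, (ξ (b - c)).valMinAbs.natAbs ≤ W := by
    intro b hb
    obtain ⟨y, hy, -, h⟩ := hW b hb
    rwa [hC1 y hy] at h
  set y : ZMod p := ξ c with hy
  set μ : ℤ × ℤ → ℝ := fun v =>
    if v ∈ box W ∧ v.2 = 0 then (cnt A ξ α y x v : ℝ) / p else 0 with hμ
  have hp0 : (0 : ℝ) < p := by exact_mod_cast hpp.pos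
  have hcnt : ∀ v, (cnt A ξ α y x v : ℝ) ≤ p := fun v => by
    exact_mod_cast STABM.cl_le hL' A _ _
  have h01 : ∀ v, 0 ≤ μ v ∧ μ v ≤ 1 := by
    intro v
    simp only [hμ]
    split_ifs
    · exact ⟨by positivity, (div_le_one hp0).mpr (hcnt v)⟩
    · exact ⟨le_refl _, zero_le_one⟩
  have hs : ∀ v, v ∉ box W → μ v = 0 := by
    intro v hv
    simp only [hμ]
    rw [if_neg fun h => hv h.1]
  have hs2 : ∀ v : ℤ × ℤ, v.2 ≠ 0 → μ v = 0 := by
    intro v hv
    simp only [hμ]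
    rw [if_neg fun h => hv h.2]
  have hmass : 2 - 1 / 190 ≤ ∑ v ∈ box W, μ v := by
    have h1 : ∑ v ∈ box W, μ v = (∑ v ∈ box W with v.2 = 0, (cnt A ξ α y x v : ℝ)) / p := by
      rw [Finset.sum_div, Finset.sum_filter]
      refine Finset.sum_congr rfl fun v hv => ?_
      simp only [hμ]
      by_cases h : v.2 = 0
      · rw [if_pos ⟨hv, h⟩, if_pos h]
      · rw [if_neg fun h' => h h'.2, if_neg h]
    have h2 : #B ≤ ∑ v ∈ box W with v.2 = 0, cnt A ξ α y x v := by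
      refine le_trans (Finset.card_le_card ?_) (Finset.card_biUnion_le
        (s := {v ∈ box W | v.2 = 0})
        (t := fun v : ℤ × ℤ => cl A ξ α (y + (v.1 : ZMod p)) (x + (v.2 : ZMod p))))
      intro b hb
      rw [Finset.mem_biUnion]
      have hbW := hBc' b hb
      refine ⟨((ξ (b - c)).valMinAbs, 0), ?_, ?_⟩
      · rw [Finset.mem_filter, box, Finset.mem_product, Finset.mem_Icc, Finset.mem_Icc]
        refine ⟨⟨⟨?_, ?_⟩, ?_, ?_⟩, rfl⟩ <;> simp only <;> omega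
      · rw [mem_cl]
        refine ⟨(Finset.mem_filter.mp (hB hb)).1, ?_, ?_⟩
        · simp only [ZMod.coe_valMinAbs, map_sub]
          rw [hy]
          abel
        · simp only [Int.cast_zero, add_zero]
          exact hxa b (hB hb)
    have h3 : (#B : ℝ) ≤ ∑ v ∈ box W with v.2 = 0, (cnt A ξ α y x v : ℝ) := by
      exact_mod_cast h2
    rw [h1, le_div_iff₀ hp0]
    have h4 : (4000 : ℝ) * #B₀ ≤ 4000 * #B + p := by exact_mod_cast hBc
    have h5 : (2 : ℝ) * p ≤ #B₀ + t := by exact_mod_cast hrow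
    have h6 : (200 : ℝ) * t ≤ p := by exact_mod_cast ht
    nlinarith
  have hfree : Free μ θ := by
    rintro S w hl ⟨k, h1, h2, h3, h4⟩
    have hv : ∀ v ∈ S, v ∈ box W ∧ v.2 = 0 := by
      intro v hv
      by_contra hn
      have := h1 v hv
      simp only [hμ] at this
      rw [if_neg hn] at this
      linarith
    refine hA (hround p hp2 G A ξ α y x hL' S w (fun v hv' => (hv v hv').1) hl
      ⟨k, fun v hv' => ?_, h2, h3, h4⟩)
    have := h1 v hv'
    simp only [hμ] at this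
    rwa [if_pos (hv v hv')] at this
  obtain ⟨x₀, x₁, hne, hx0, hx1, hm0, hm1⟩ := hone μ h01 hs hs2 hmass hfree
  have hcl : ∀ X : ℤ, (X, (0 : ℤ)) ∈ box W → 1 - 1 / 60 ≤ μ (X, 0) →
      50 * p ≤ 50 * #(cl A α ξ x (y + (X : ZMod p))) + p := by
    intro X hX hm
    simp only [hμ] at hm
    rw [if_pos ⟨hX, trivial⟩, le_div_iff₀ hp0] at hm
    have he : cnt A ξ α y x (X, 0) = #(cl A α ξ x (y + (X : ZMod p))) := by
      unfold cnt
      congr 1
      ext a
      rw [mem_cl, mem_cl]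
      simp only [Int.cast_zero, add_zero]
      tauto
    rw [he] at hm
    have : (50 : ℝ) * p ≤ 50 * #(cl A α ξ x (y + (X : ZMod p))) + p := by
      nlinarith
    exact_mod_cast this
  refine ⟨ξ, y + (x₀ : ZMod p), y + (x₁ : ZMod p), ?_, hL, hcl x₀ hx0 hm0, hcl x₁ hx1 hm1⟩
  intro h
  have h' : ((x₀ - x₁ : ℤ) : ZMod p) = 0 := by
    push_cast
    rw [sub_eq_zero]
    exact add_left_cancel h
  rw [ZMod.intCast_zmod_eq_zero_iff_dvd] at h'
  rw [box, Finset.mem_product, Finset.mem_Icc] at hx0 hx1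
  simp only at hx0 hx1
  have h0 : x₀ - x₁ ≠ 0 := sub_ne_zero.mpr hne
  have := Int.le_of_dvd (abs_pos.mpr h0) ((dvd_abs _ _).mpr h')
  have : |x₀ - x₁| ≤ 2 * W := by
    rw [abs_le]
    constructor <;> omega
  omega

end Pool.Agent.Lib.MPa7239a.R3X
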