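import Pool.Agent.Lib.MP_a7239a_co.R3X.FILLW
import Pool.Agent.Lib.MP_a7239a_co.R3X.KROWS
import Pool.Agent.Lib.MP_a7239a_co.R3X.ROWS
import Pool.Agent.Lib.MP_a7239a_co.R3X.RND
import Pool.Agent.Lib.MP_a7239a_co.R3X.PLAN
import Pool.Agent.Lib.MP_a7239a_co.R3X.STAB
import Pool.Agent.Lib.MP_a7239a_co.R3X.FRMX
import Pool.Agent.Lib.MP_a7239a_co.R3X.ENDA
import Pool.Agent.Lib.MP_a7239a_co.R3X.ENDB
import Pool.Agent.Lib.MP_a7239a_co.R3.PLANE
import Pool.Agent.Lib.MP_a7239a_co.R3.CARD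
import Pool.Agent.Lib.MP_a7239a_co.R3.GREEDY

/-! # R3X/MAINX: composition (`4 p - 3` elements of `ℤ_p ^ 3` contain `p` with sum `0`) -/

set_option autoImplicit false
set_option linter.unusedSectionVars false

universe u

open Finset

namespace Pool.Agent.Lib.MPa7239a.R3X

open Pool.Agent.Lib.MPa7239a.GC (Hit)

namespace MAINXM

section
variable {p : ℕ} [Fact p.Prime] {G : Type u} [AddCommGroup G] [Module (ZMod p) G] [Fintype G]
  [DecidableEq G]

/-- a class has at most `p` elements -/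
theorem cl_le {A : Finset G} {α β : G →ₗ[ZMod p] ZMod p}
    (hL : Nat.card (LinearMap.ker α ⊓ LinearMap.ker β : Submodule (ZMod p) G) = p)
    (x y : ZMod p) : #(cl A α β x y) ≤ p := by
  rcases (cl A α β x y).eq_empty_or_nonempty with h | ⟨a₀, ha₀⟩
  · rw [h]
    simp
  · have h1 : #((cl A α β x y).image (fun a => a - a₀)) = #(cl A α β x y) :=
      card_image_of_injective _ fun a b h => sub_left_injective h
    rw [← h1]
    refine le_trans (R3.GREEDYM.card_le_nat (LinearMap.ker α ⊓ LinearMap.ker β) ?_) hL.le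
    intro z hz
    obtain ⟨a, ha, rfl⟩ := mem_image.1 hz
    rw [mem_cl] at ha ha₀
    rw [Submodule.mem_inf, LinearMap.mem_ker, LinearMap.mem_ker, map_sub, map_sub, ha.2.1, ha.2.2,
      ha₀.2.1, ha₀.2.2, sub_self, sub_self]
    exact ⟨rfl, rfl⟩

omit [Fintype G] [DecidableEq G] in
theorem card_ker_ge (hG : Nat.card G = p ^ 3) (f : G →ₗ[ZMod p] ZMod p) :
    p ^ 2 ≤ Nat.card (LinearMap.ker f) := by
  have hp : 0 < p := (Fact.out : p.Prime).pos
  by_cases hf : ∃ x, f x ≠ 0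
  · obtain ⟨x, hx⟩ := hf
    have h := R3.card_inf_ker (⊤ : Submodule (ZMod p) G) (ξ := f) ⟨x, trivial, hx⟩
    rw [top_inf_eq] at h
    have h2 : Nat.card (⊤ : Submodule (ZMod p) G) = p ^ 3 := by
      rw [← hG]
      exact Nat.card_congr (Equiv.Set.univ G)
    rw [h2] at h
    have h3 : p * Nat.card (LinearMap.ker f) = p * p ^ 2 := by
      rw [h]
      ring
    exact (Nat.eq_of_mul_eq_mul_left hp h3).ge
  · push Not at hf
    have h1 : LinearMap.ker f = ⊤ := by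
      ext x
      simp [hf x]
    rw [h1]
    have h2 : Nat.card (⊤ : Submodule (ZMod p) G) = p ^ 3 := by
      rw [← hG]
      exact Nat.card_congr (Equiv.Set.univ G)
    rw [h2]
    exact Nat.pow_le_pow_right hp (by norm_num)

omit [Fintype G] [DecidableEq G] in
/-- independence modulo `p` -/
theorem comb_ne {ξ ζ : G →ₗ[ZMod p] ZMod p} (hG : Nat.card G = p ^ 3)
    (hL : Nat.card (LinearMap.ker ξ ⊓ LinearMap.ker ζ : Submodule (ZMod p) G) = p)
    {a b : ZMod p} (hab : a ≠ 0 ∨ b ≠ 0) : a • ξ + b • ζ ≠ 0 := by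
  have hp : 1 < p := (Fact.out : p.Prime).one_lt
  have hp2 : p < p ^ 2 := by nlinarith
  intro h
  have h0 : ∀ x, a * ξ x + b * ζ x = 0 := by
    intro x
    have := LinearMap.congr_fun h x
    simpa using this
  rcases hab with ha | hb
  · have h1 : (LinearMap.ker ξ ⊓ LinearMap.ker ζ : Submodule (ZMod p) G) = LinearMap.ker ζ := by
      apply inf_eq_right.2
      intro x hx
      rw [LinearMap.mem_ker] at hx ⊢
      have := h0 x
      rw [hx, mul_zero, add_zero] at this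
      exact (mul_eq_zero.1 this).resolve_left ha
    rw [h1] at hL
    have := card_ker_ge hG ζ
    omega
  · have h1 : (LinearMap.ker ξ ⊓ LinearMap.ker ζ : Submodule (ZMod p) G) = LinearMap.ker ξ := by
      apply inf_eq_left.2
      intro x hx
      rw [LinearMap.mem_ker] at hx ⊢
      have := h0 x
      rw [hx, mul_zero, zero_add] at this
      exact (mul_eq_zero.1 this).resolve_left hb
    rw [h1] at hL
    have := card_ker_ge hG ξ
    omega

theorem int_ne {p : ℕ} {a b : ℤ} (hne : a ≠ b) (h : |a - b| < p) : (a : ZMod p) ≠ (b : ZMod p) := by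
  intro he
  rw [ZMod.intCast_eq_intCast_iff_dvd_sub] at he
  have h3 : |b - a| < (p : ℤ) := by rwa [abs_sub_comm]
  have h4 := Int.eq_zero_of_abs_lt_dvd he h3
  omega

theorem mem_box {K : ℕ} {v : ℤ × ℤ} :
    v ∈ box K ↔ (-(K : ℤ) ≤ v.1 ∧ v.1 ≤ K) ∧ (-(K : ℤ) ≤ v.2 ∧ v.2 ≤ K) := by
  rw [box, mem_product, mem_Icc, mem_Icc]

/-- the sum of the counts over a part of the box is the number of elements -/
theorem sum_cnt {A : Finset G} {ξ ζ : G →ₗ[ZMod p] ZMod p} {x₀ z₀ : ZMod p} {K : ℕ}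
    (hK : 2 * K < p) {T : Finset (ℤ × ℤ)} (hT : T ⊆ box K) :
    ∑ v ∈ T, cnt A ξ ζ x₀ z₀ v =
      #(T.biUnion fun v => cl A ξ ζ (x₀ + (v.1 : ZMod p)) (z₀ + (v.2 : ZMod p))) := by
  rw [card_biUnion]
  · rfl
  · intro v hv v' hv' hne
    change Disjoint _ _
    rw [disjoint_left]
    intro a ha ha'
    rw [mem_cl] at ha ha'
    have h1 : (v.1 : ZMod p) = (v'.1 : ZMod p) := add_left_cancel (ha.2.1.symm.trans ha'.2.1)
    have h2 : (v.2 : ZMod p) = (v'.2 : ZMod p) := add_left_cancel (ha.2.2.symm.trans ha'.2.2)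
    have hb := mem_box.1 (hT hv)
    have hb' := mem_box.1 (hT hv')
    apply hne
    refine Prod.ext ?_ ?_
    · by_contra h
      exact int_ne h (by rw [abs_lt]; constructor <;> omega) h1
    · by_contra h
      exact int_ne h (by rw [abs_lt]; constructor <;> omega) h2

end

theorem planar_rich (K : ℕ) : ∃ p₀ : ℕ, ∀ (p : ℕ) [Fact p.Prime], p₀ ≤ p →
    ∀ (G : Type u) [AddCommGroup G] [Module (ZMod p) G] [Fintype G] [DecidableEq G],
      Nat.card G = p ^ 3 → ∀ (A : Finset G), ¬ Hit A p 0 →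
      ∀ (ξ ζ : G →ₗ[ZMod p] ZMod p) (x₀ z₀ : ZMod p),
      Nat.card (LinearMap.ker ξ ⊓ LinearMap.ker ζ : Submodule (ZMod p) G) = p →
      ∀ t₀ : ℕ, 10 ^ 6 * t₀ ≤ p →
      4 * p ≤ #{a ∈ A | (ξ a - x₀).valMinAbs.natAbs ≤ K ∧ (ζ a - z₀).valMinAbs.natAbs ≤ K} + t₀ →
      ∃ t, 200 * t ≤ p ∧ Rich p A t := by
  obtain ⟨θ, hθ, hpl⟩ := planar K
  obtain ⟨p₁, hr⟩ := round_hit.{u} K hθ
  refine ⟨p₁ + 2 * K + 8 * K ^ 2 + 1300, ?_⟩
  intro p _ hpp G _ _ _ _ hG A hA ξ ζ x₀ z₀ hL t₀ ht₀ h4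
  have hK : 2 * K < p := by omega
  have hp0 : (0 : ℝ) < p := by
    have : 0 < p := by omega
    exact_mod_cast this
  classical
  set μ : ℤ × ℤ → ℝ := fun v => if v ∈ box K then (cnt A ξ ζ x₀ z₀ v : ℝ) / p else 0 with hμ
  have hμin : ∀ v ∈ box K, μ v = (cnt A ξ ζ x₀ z₀ v : ℝ) / p := fun v hv => by
    simp only [hμ, hv, if_true]
  have hsum : ∀ T ⊆ box K, ∑ v ∈ T, μ v = ((∑ v ∈ T, cnt A ξ ζ x₀ z₀ v : ℕ) : ℝ) / p := by
    intro T hT
    rw [sum_congr rfl fun v hv => hμin v (hT hv), Nat.cast_sum, sum_div]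
  -- lines
  have hline : ∀ u ∈ box (2 * K), u ≠ 0 → ∀ c : ℤ,
      (((u.1 : ZMod p)) • ξ + ((u.2 : ZMod p)) • ζ ≠ 0) ∧
      ∑ v ∈ box K with lf u v = c, cnt A ξ ζ x₀ z₀ v ≤
        #{a ∈ A | ((((u.1 : ZMod p)) • ξ + ((u.2 : ZMod p)) • ζ : G →ₗ[ZMod p] ZMod p)) a =
          (u.1 : ZMod p) * x₀ + (u.2 : ZMod p) * z₀ + (c : ZMod p)} := by
    intro u hu hu0 c
    have hb := mem_box.1 hu
    push_cast at hb
    refine ⟨?_, ?_⟩
    · apply comb_ne hG hL
      by_contra hcon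
      push Not at hcon
      apply hu0
      refine Prod.ext ?_ ?_
      · by_contra h
        have := int_ne (p := p) (a := u.1) (b := 0) h (by
          rw [sub_zero, abs_lt]
          constructor <;> omega)
        exact this (by simpa using hcon.1)
      · by_contra h
        have := int_ne (p := p) (a := u.2) (b := 0) h (by
          rw [sub_zero, abs_lt]
          constructor <;> omega)
        exact this (by simpa using hcon.2)
    · rw [sum_cnt hK (filter_subset _ _)]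
      apply card_le_card
      intro a ha
      obtain ⟨v, hv, ha⟩ := mem_biUnion.1 ha
      rw [mem_cl] at ha
      rw [mem_filter] at hv ⊢
      refine ⟨ha.1, ?_⟩
      rw [LinearMap.add_apply, LinearMap.smul_apply, LinearMap.smul_apply, smul_eq_mul,
        smul_eq_mul, ha.2.1, ha.2.2, ← hv.2, lf]
      push_cast
      ring
  have q1 : ∀ v, 0 ≤ μ v ∧ μ v ≤ 1 := by
    -- between 0 and 1
    intro v
    by_cases hv : v ∈ box K
    · rw [hμin v hv]
      have h1 : (cnt A ξ ζ x₀ z₀ v : ℝ) ≤ p := by exact_mod_cast cl_le hL _ _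
      exact ⟨by positivity, (div_le_one hp0).2 h1⟩
    · simp only [hμ, hv, if_false]
      norm_num
  have q2 : ∀ v, v ∉ box K → μ v = 0 := by
    intro v hv
    simp only [hμ, hv, if_false]
  have q3 : 4 - 1 / 10 ^ 6 ≤ ∑ v ∈ box K, μ v := by
    -- total
    rw [hsum _ Subset.rfl, sum_cnt hK Subset.rfl, le_div_iff₀ hp0]
    have h1 : #{a ∈ A | (ξ a - x₀).valMinAbs.natAbs ≤ K ∧ (ζ a - z₀).valMinAbs.natAbs ≤ K} ≤
        #((box K).biUnion fun v => cl A ξ ζ (x₀ + (v.1 : ZMod p)) (z₀ + (v.2 : ZMod p))) := by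
      apply card_le_card
      intro a ha
      rw [mem_filter] at ha
      rw [mem_biUnion]
      refine ⟨((ξ a - x₀).valMinAbs, (ζ a - z₀).valMinAbs), ?_, ?_⟩
      · rw [mem_box]
        simp only
        omega
      · rw [mem_cl]
        refine ⟨ha.1, ?_, ?_⟩
        · simp only [ZMod.coe_valMinAbs]
          ring
        · simp only [ZMod.coe_valMinAbs]
          ring
    have h2 : 4 * p ≤ #((box K).biUnion fun v => cl A ξ ζ (x₀ + (v.1 : ZMod p))
        (z₀ + (v.2 : ZMod p))) + t₀ := by omega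
    have h3 : (4 * p : ℝ) ≤ (#((box K).biUnion fun v => cl A ξ ζ (x₀ + (v.1 : ZMod p))
        (z₀ + (v.2 : ZMod p))) : ℕ) + t₀ := by exact_mod_cast h2
    have h4 : (10 ^ 6 * t₀ : ℝ) ≤ p := by exact_mod_cast ht₀
    linarith
  have q4 : ∀ u ∈ box (2 * K), u ≠ 0 → ∀ c : ℤ, ∑ v ∈ box K with lf u v = c, μ v ≤ 2 := by
    -- lines
    intro u hu hu0 c
    have h1 := hline u hu hu0 c
    have h2 := R3.row_le (by omega) hG hA h1.1 ((u.1 : ZMod p) * x₀ + (u.2 : ZMod p) * z₀ + (c : ZMod p))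
    rw [hsum _ (filter_subset _ _), div_le_iff₀ hp0]
    have h3 : ∑ v ∈ box K with lf u v = c, cnt A ξ ζ x₀ z₀ v ≤ 2 * p := by omega
    exact_mod_cast h3
  have q5 : Free μ θ := by
    -- free
    intro S w hlat hav
    have hS : S ⊆ box K := by
      intro v hv
      by_contra hno
      obtain ⟨k, hk, _⟩ := hav
      have := hk v hv
      simp only [hμ, hno, if_false] at this
      linarith
    apply hA
    apply hr p (by omega) G A ξ ζ x₀ z₀ hL S w hS hlat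
    obtain ⟨k, hk, h1, h2, h3⟩ := hav
    refine ⟨k, fun v hv => ?_, h1, h2, h3⟩
    have := hk v hv
    rw [hμin v (hS hv)] at this
    exact this
  obtain ⟨u, c₀, c₁, hu0, hu, hc, hm₀, hm₁⟩ := hpl μ q1 q2 q3 q4 q5
  have hb := mem_box.1 hu
  push_cast at hb
  have hne : ∀ c : ℤ, 2 - 1 / 240 ≤ ∑ v ∈ box K with lf u v = c, μ v → |c| ≤ 4 * (K : ℤ) ^ 2 := by
    intro c hcm
    have : ({v ∈ box K | lf u v = c}).Nonempty := by
      by_contra h
      rw [not_nonempty_iff_eq_empty] at h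
      rw [h, sum_empty] at hcm
      norm_num at hcm
    obtain ⟨v, hv⟩ := this
    rw [mem_filter] at hv
    have hbv := mem_box.1 hv.1
    rw [← hv.2, lf, abs_le]
    constructor <;> nlinarith [hb.1.1, hb.1.2, hb.2.1, hb.2.2, hbv.1.1, hbv.1.2, hbv.2.1, hbv.2.2]
  have hc0 := hne c₀ hm₀
  have hc1 := hne c₁ hm₁
  refine ⟨p / 240 + 1, by omega, (u.1 : ZMod p) • ξ + (u.2 : ZMod p) • ζ,
    (u.1 : ZMod p) * x₀ + (u.2 : ZMod p) * z₀ + (c₀ : ZMod p),
    (u.1 : ZMod p) * x₀ + (u.2 : ZMod p) * z₀ + (c₁ : ZMod p), (hline u hu hu0 c₀).1, ?_, ?_, ?_⟩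
  · intro h
    refine int_ne hc ?_ (add_left_cancel h)
    rw [abs_le] at hc0 hc1
    have h8 : (8 * (K : ℤ) ^ 2) < p := by
      have : 8 * K ^ 2 < p := by omega
      exact_mod_cast this
    rw [abs_lt]
    constructor <;> linarith [hc0.1, hc0.2, hc1.1, hc1.2]
  · have h1 := (hline u hu hu0 c₀).2
    rw [hsum _ (filter_subset _ _), le_div_iff₀ hp0] at hm₀
    have h2 : ((∑ v ∈ box K with lf u v = c₀, cnt A ξ ζ x₀ z₀ v : ℕ) : ℝ) ≤
      (#{a ∈ A | ((((u.1 : ZMod p)) • ξ + ((u.2 : ZMod p)) • ζ : G →ₗ[ZMod p] ZMod p)) a =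
        (u.1 : ZMod p) * x₀ + (u.2 : ZMod p) * z₀ + (c₀ : ZMod p)} : ℕ) := by exact_mod_cast h1
    have h3 : (p : ℝ) < 240 * ((p / 240 : ℕ) + 1) := by
      have : p < 240 * (p / 240 + 1) := by omega
      exact_mod_cast this
    have h4 : ((2 * p : ℕ) : ℝ) ≤ ((#{a ∈ A | ((((u.1 : ZMod p)) • ξ + ((u.2 : ZMod p)) • ζ : G →ₗ[ZMod p] ZMod p)) a =
        (u.1 : ZMod p) * x₀ + (u.2 : ZMod p) * z₀ + (c₀ : ZMod p)} + (p / 240 + 1) : ℕ) : ℝ) := by
      push_cast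
      linarith
    exact_mod_cast h4
  · have h1 := (hline u hu hu0 c₁).2
    rw [hsum _ (filter_subset _ _), le_div_iff₀ hp0] at hm₁
    have h2 : ((∑ v ∈ box K with lf u v = c₁, cnt A ξ ζ x₀ z₀ v : ℕ) : ℝ) ≤
      (#{a ∈ A | ((((u.1 : ZMod p)) • ξ + ((u.2 : ZMod p)) • ζ : G →ₗ[ZMod p] ZMod p)) a =
        (u.1 : ZMod p) * x₀ + (u.2 : ZMod p) * z₀ + (c₁ : ZMod p)} : ℕ) := by exact_mod_cast h1
    have h3 : (p : ℝ) < 240 * ((p / 240 : ℕ) + 1) := by
      have : p < 240 * (p / 240 + 1) := by omega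
      exact_mod_cast this
    have h4 : ((2 * p : ℕ) : ℝ) ≤ ((#{a ∈ A | ((((u.1 : ZMod p)) • ξ + ((u.2 : ZMod p)) • ζ : G →ₗ[ZMod p] ZMod p)) a =
        (u.1 : ZMod p) * x₀ + (u.2 : ZMod p) * z₀ + (c₁ : ZMod p)} + (p / 240 + 1) : ℕ) : ℝ) := by
      push_cast
      linarith
    exact_mod_cast h4
/-- two rich planes give a hit -/
theorem rich_end : ∃ p₀ : ℕ, ∀ (p : ℕ) [Fact p.Prime], p₀ ≤ p →
    ∀ (G : Type u) [AddCommGroup G] [Module (ZMod p) G] [Fintype G] [DecidableEq G],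
      Nat.card G = p ^ 3 → ∀ (A : Finset G), #A + 3 = 4 * p →
      ∀ t : ℕ, 200 * t ≤ p → Rich p A t → Hit A p 0 := by
  obtain ⟨p₁, hst⟩ := stab_two.{u}
  refine ⟨p₁ + 1000, ?_⟩
  intro p _ hpp G _ _ _ _ hG A hcard t ht hR
  by_contra hA
  obtain ⟨α, x₀, x₁, hα, hx, h0, h1⟩ := hR
  obtain ⟨β₀, y₀, y₀', hy₀, hL₀, h00, h01⟩ :=
    hst p (by omega) G hG A hA hcard α x₀ t hα ht h0
  obtain ⟨β₁, y₁, y₁', hy₁, hL₁, h10, h11⟩ :=
    hst p (by omega) G hG A hA hcard α x₁ t hα ht h1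
  by_cases heq : (LinearMap.ker α ⊓ LinearMap.ker β₀ : Submodule (ZMod p) G) =
      LinearMap.ker α ⊓ LinearMap.ker β₁
  · obtain ⟨α', β', a₀, b₀, g, s, f⟩ := to_frame (by omega) hG hA hx hy₀ hy₁ hL₀ heq h00 h01 h10 h11
    exact hA (end_b (by omega) hcard f)
  · exact hA (end_a (by omega) hG hcard hx hy₀ hy₁ hL₀ hL₁ heq h00 h01 h10 h11)

section
variable {p : ℕ} [Fact p.Prime] {G : Type u} [AddCommGroup G] [Module (ZMod p) G] [Fintype G]
  [DecidableEq G]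

omit [Module (ZMod p) G] [Fact p.Prime] [Fintype G] in
/-- a full fill is a hit -/
theorem complete {A P : Finset G} {m : ℕ} (hP : P ⊆ A) (hPm : #P = 2 * m) (hmp : m ≤ p)
    (hc : p + m ≤ #A) (hf : ∀ g, Hit P m g) : Hit A p 0 := by
  obtain ⟨Q, hQ, hQc⟩ : ∃ Q ⊆ A \ P, #Q = p - m := by
    apply exists_subset_card_eq
    rw [card_sdiff_of_subset hP]
    omega
  obtain ⟨T, hT, hTc, hTs⟩ := hf (-∑ x ∈ Q, x)
  have hd : Disjoint T Q := by
    rw [disjoint_left]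
    intro x hx hx'
    exact (mem_sdiff.1 (hQ hx')).2 (hT hx)
  refine ⟨T ∪ Q, union_subset (hT.trans hP) (hQ.trans sdiff_subset), ?_, ?_⟩
  · rw [card_union_of_disjoint hd, hTc, hQc]
    omega
  · rw [sum_union hd, hTs]
    simp

omit [Fintype G] in
/-- the heavy classes of `B` -/
theorem heavy {A B : Finset G} (hB : B ⊆ A) (ξ η : G →ₗ[ZMod p] ZMod p) {c q : ℕ}
    (hc : #(B.image fun a => (ξ a, η a)) ≤ c) (hq : 1 ≤ q) :
    #B ≤ #{a ∈ A | (ξ a, η a) ∈
      (B.image fun a => (ξ a, η a)).filter fun v => p ≤ q * #(cl A ξ η v.1 v.2)} + c * (p / q) := by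
  classical
  set C' := B.image fun a => (ξ a, η a) with hC'
  set C := C'.filter fun v => p ≤ q * #(cl A ξ η v.1 v.2) with hC
  have h1 : B ⊆ {a ∈ A | (ξ a, η a) ∈ C} ∪ (C' \ C).biUnion fun v => cl A ξ η v.1 v.2 := by
    intro a ha
    rw [mem_union, mem_filter, mem_biUnion]
    by_cases h : (ξ a, η a) ∈ C
    · exact Or.inl ⟨hB ha, h⟩
    · right
      refine ⟨(ξ a, η a), mem_sdiff.2 ⟨mem_image_of_mem _ ha, h⟩, ?_⟩
      rw [mem_cl]
      exact ⟨hB ha, rfl, rfl⟩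
  have h2 : #((C' \ C).biUnion fun v => cl A ξ η v.1 v.2) ≤ #(C' \ C) * (p / q) := by
    apply card_biUnion_le_card_mul
    intro v hv
    rw [mem_sdiff, hC, mem_filter, not_and, not_le] at hv
    have := hv.2 hv.1
    rw [Nat.le_div_iff_mul_le (by omega)]
    rw [mul_comm]
    exact this.le
  have h3 : #(C' \ C) ≤ c := (card_le_card sdiff_subset).trans hc
  calc #B ≤ _ := card_le_card h1
    _ ≤ _ := card_union_le _ _
    _ ≤ _ := Nat.add_le_add_left (h2.trans (Nat.mul_le_mul_right _ h3)) _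

end

end MAINXM

open MAINXM in
/-- the upper bound: `4 p - 3` elements contain `p` with sum zero -/
theorem main_x : ∃ p₀ : ℕ, ∀ (p : ℕ) [Fact p.Prime], p₀ ≤ p →
    ∀ (G : Type u) [AddCommGroup G] [Module (ZMod p) G] [Fintype G] [DecidableEq G],
      Nat.card G = p ^ 3 → ∀ (A : Finset G), #A + 3 = 4 * p → Hit A p 0 := by
  obtain ⟨W, p₁, hfw⟩ := fillw.{u} (10 ^ 8) (by norm_num)
  set c : ℕ := (2 * W + 1) * (2 * W + 1) with hc
  set q : ℕ := 10 ^ 8 * c + 1 with hq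
  obtain ⟨K, p₂, hrt⟩ := rows_three.{u} 200 c q W (by norm_num) (by omega)
  obtain ⟨p₃, hpr⟩ := planar_rich.{u} (max K W)
  obtain ⟨p₄, hre⟩ := rich_end.{u}
  refine ⟨p₁ + p₂ + p₃ + p₄ + 10 ^ 8, ?_⟩
  intro p _ hpp G _ _ _ _ hG A hcard
  classical
  by_contra hA
  have hp0 : 0 < p := by omega
  have hcardG : Nat.card (⊤ : Submodule (ZMod p) G) = p ^ 3 := by
    rw [← hG]
    exact Nat.card_congr (Equiv.Set.univ G)
  -- first fill
  rcases hfw p (by omega) G ⊤ 3 (Or.inr rfl) hcardG A {0} (by omega)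
      (fun a _ => ⟨0, mem_singleton_self 0, trivial⟩) with
    ⟨m, P, σ, hm, hP, hPm, hf⟩ | ⟨ξ, B₁, C₁, ⟨h, _, hξh⟩, hB₁, hB₁c, hC₁, hw₁⟩
  · exact hA (complete hP hPm (by omega) (by omega) (fun g => hf g trivial))
  have hξ : ξ ≠ 0 := by
    rintro rfl
    exact hξh rfl
  have hker : Nat.card (LinearMap.ker ξ) = p ^ 2 := by
    have h1 := R3.card_inf_ker (⊤ : Submodule (ZMod p) G) (ξ := ξ) ⟨h, trivial, hξh⟩
    rw [top_inf_eq, hcardG] at h1
    have h3 : p * Nat.card (LinearMap.ker ξ) = p * p ^ 2 := by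
      rw [h1]
      ring
    exact Nat.eq_of_mul_eq_mul_left hp0 h3
  have hB₁ne : B₁.Nonempty := by
    rw [nonempty_iff_ne_empty]
    rintro rfl
    rw [card_empty] at hB₁c
    omega
  obtain ⟨b₁, hb₁⟩ := hB₁ne
  obtain ⟨x, hx, _⟩ := hw₁ b₁ hb₁
  have hC₁x : ∀ y ∈ C₁, y = x := by
    intro y hy
    rw [card_singleton] at hC₁
    exact card_le_one.1 hC₁ y hy x hx
  have hwin : ∀ a ∈ B₁, (ξ a - ξ x).valMinAbs.natAbs ≤ W := by
    intro a ha
    obtain ⟨y, hy, _, hyw⟩ := hw₁ a ha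
    rw [hC₁x y hy, map_sub] at hyw
    exact hyw
  -- rows
  obtain ⟨h₀, hh₀⟩ : ∃ h₀, ξ h₀ = 1 := LinearMap.surjective hξ 1
  set C : Finset G := (Icc (-(W : ℤ)) W).image fun k => x + ((k : ℤ) : ZMod p) • h₀ with hCdef
  have hCc : #C ≤ 2 * W + 1 := by
    refine card_image_le.trans ?_
    rw [Int.card_Icc]
    omega
  have hCcov : ∀ a ∈ B₁, ∃ y ∈ C, a - y ∈ LinearMap.ker ξ := by
    intro a ha
    refine ⟨x + (((ξ a - ξ x).valMinAbs : ℤ) : ZMod p) • h₀, ?_, ?_⟩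
    · rw [hCdef]
      apply mem_image_of_mem
      have := hwin a ha
      rw [mem_Icc]
      omega
    · rw [LinearMap.mem_ker, map_sub, map_add, map_smul, hh₀, ZMod.coe_valMinAbs]
      simp
  have hRich : ∀ t, 200 * t ≤ p → ¬ Rich p A t := fun t ht hR =>
    hA (hre p (by omega) G hG A hcard t ht hR)
  rcases hfw p (by omega) G (LinearMap.ker ξ) 2 (Or.inl rfl) hker B₁ C
      ((card_le_card hB₁).trans (by omega)) hCcov with
    ⟨m, P, σ, hm, hP, hPm, hf⟩ | ⟨η, B₂, C₂, ⟨h', hh', hηh⟩, hB₂, hB₂c, hC₂, hw₂⟩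
  · have hR := krows (by omega) hG hA hcard (hP.trans hB₁) hPm (by omega) hξ hf
    exact hRich _ (by omega) hR
  have hL : Nat.card (LinearMap.ker ξ ⊓ LinearMap.ker η : Submodule (ZMod p) G) = p := by
    have h1 := R3.card_inf_ker (LinearMap.ker ξ) (ξ := η) ⟨h', hh', hηh⟩
    rw [hker] at h1
    have h3 : p * Nat.card (LinearMap.ker ξ ⊓ LinearMap.ker η : Submodule (ZMod p) G) = p * p := by
      rw [h1]
      ring
    exact Nat.eq_of_mul_eq_mul_left hp0 h3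
  have hBA : B₂ ⊆ A := hB₂.trans hB₁
  -- the classes
  have hC'c : #(B₂.image fun a => (ξ a, η a)) ≤ c := by
    have h1 : (B₂.image fun a => (ξ a, η a)) ⊆ (C₂ ×ˢ Icc (-(W : ℤ)) W).image
        fun z => (ξ z.1, η z.1 + ((z.2 : ℤ) : ZMod p)) := by
      intro v hv
      obtain ⟨a, ha, rfl⟩ := mem_image.1 hv
      obtain ⟨y, hy, hay, hyw⟩ := hw₂ a ha
      rw [mem_image]
      refine ⟨(y, (η (a - y)).valMinAbs), ?_, ?_⟩
      · rw [mem_product, mem_Icc]
        refine ⟨hy, ?_⟩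
        simp only
        omega
      · rw [LinearMap.mem_ker, map_sub, sub_eq_zero] at hay
        simp only [ZMod.coe_valMinAbs, map_sub, hay]
        rw [Prod.mk.injEq]
        exact ⟨rfl, by ring⟩
    refine (card_le_card h1).trans (card_image_le.trans ?_)
    rw [card_product, Int.card_Icc, hc]
    apply Nat.mul_le_mul (hC₂.trans hCc)
    omega
  have hheavy := heavy hBA ξ η (q := q) hC'c (by omega)
  set D := (B₂.image fun a => (ξ a, η a)).filter fun v => p ≤ q * #(cl A ξ η v.1 v.2) with hD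
  have hDc : #D ≤ c := (card_le_card (filter_subset _ _)).trans hC'c
  have hcq : 10 ^ 8 * (c * (p / q)) ≤ p := by
    have h1 : q * (p / q) ≤ p := Nat.mul_div_le p q
    have h2 : 10 ^ 8 * c * (p / q) ≤ q * (p / q) := Nat.mul_le_mul_right _ (by omega)
    calc 10 ^ 8 * (c * (p / q)) = 10 ^ 8 * c * (p / q) := by ring
      _ ≤ _ := h2.trans h1
  obtain ⟨n, hn⟩ : ∃ n, n = c * (p / q) := ⟨_, rfl⟩
  rw [← hn] at hcq hheavy
  have hwinD : ∀ v ∈ D, (v.1 - ξ x).valMinAbs.natAbs ≤ W := by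
    intro v hv
    obtain ⟨a, ha, rfl⟩ := mem_image.1 (mem_filter.1 hv).1
    exact hwin a (hB₂ ha)
  have ht₀ : 4 * p ≤ #{a ∈ A | (ξ a, η a) ∈ D} + (5 + 2 * p / 10 ^ 8 + n) := by
    omega
  rcases hrt p (by omega) G hG A hA hcard ξ η hL D (ξ x) (5 + 2 * p / 10 ^ 8 + n) hDc (by omega)
      (fun v hv => (mem_filter.1 hv).2) hwinD ht₀ with ⟨t, ht, hR⟩ | ⟨ζ, z₀, hLζ, hwζ⟩
  · exact hRich t ht hR
  · obtain ⟨t, ht, hR⟩ := hpr p (by omega) G hG A hA ξ ζ (ξ x) z₀ hLζ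
      (5 + 2 * p / 10 ^ 8 + n) (by omega) (by
        refine ht₀.trans (Nat.add_le_add_right (card_le_card ?_) _)
        intro a ha
        rw [mem_filter] at ha ⊢
        refine ⟨ha.1, (hwinD _ ha.2).trans (le_max_right _ _), (hwζ a ha.1 ha.2).trans
          (le_max_left _ _)⟩)
    exact hRich t ht hR

end Pool.Agent.Lib.MPa7239a.R3X
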