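import Pool.Agent.Lib.MP_a7239a_co.R3X.Defs

/-!
# R3X, module MOM: first moments of the four quadrants
-/

open Finset

namespace Pool.Agent.Lib.MPa7239a.R3X

namespace MOMM

theorem out_add (a : Fin 2) (x : ℤ) : out a x + out (1 - a) x = -1 := by
  fin_cases a
  · simp only [out, Fin.zero_eta, if_true]
    rw [if_neg (by decide)]
    ring
  · simp only [out, Fin.mk_one]
    rw [if_neg (by decide), if_pos (by decide)]
    ring

theorem out_cases (a : Fin 2) (x : ℤ) :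
    (0 ≤ out a x ∧ ¬ 0 ≤ out (1 - a) x) ∨ (¬ 0 ≤ out a x ∧ 0 ≤ out (1 - a) x) := by
  have := out_add a x
  omega

theorem total {ι : Type*} {V : Finset ι} (X Y : ι → ℤ) (μ : ι → ℝ) (a b : Fin 2) :
    ∑ x ∈ V, μ x = ∑ x ∈ V with 0 ≤ out a (X x) ∧ 0 ≤ out b (Y x), μ x +
      ∑ x ∈ V with 0 ≤ out (1 - a) (X x) ∧ 0 ≤ out b (Y x), μ x +
      ∑ x ∈ V with 0 ≤ out a (X x) ∧ 0 ≤ out (1 - b) (Y x), μ x +
      ∑ x ∈ V with 0 ≤ out (1 - a) (X x) ∧ 0 ≤ out (1 - b) (Y x), μ x := by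
  simp only [sum_filter]
  rw [← sum_add_distrib, ← sum_add_distrib, ← sum_add_distrib]
  refine sum_congr rfl fun x _ => ?_
  rcases out_cases a (X x) with h1 | h1 <;> rcases out_cases b (Y x) with h2 | h2 <;>
    simp [h1.1, h1.2, h2.1, h2.2]

end MOMM

open MOMM in
theorem moment {ι : Type*} {V : Finset ι} {X Y : ι → ℤ} {μ : ι → ℝ} (hpos : ∀ v ∈ V, 0 ≤ μ v)
    (htot : 4 - 1 / 10 ^ 6 ≤ ∑ v ∈ V, μ v) {P Q F' F : Fin 2 → Fin 2 → ℝ}
    (h0 : ∀ a b, 0 ≤ P a b ∧ 0 ≤ Q a b ∧ 0 < P a b + Q a b ∧ 0 ≤ F a b ∧ F a b ≤ F' a b)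
    (hf : ∀ a b, ∑ x ∈ V, μ x * max 0 (F' a b + P a b * out a (X x) + Q a b * out b (Y x)) ≤
      F a b)
    (hQ : ∀ a b, ∑ x ∈ V with 0 ≤ out a (X x) ∧ 0 ≤ out b (Y x), μ x ≤ 1) (a b : Fin 2) :
    (∑ x ∈ V with 0 ≤ out a (X x) ∧ 0 ≤ out b (Y x), μ x * out a (X x) ≤
      2 / 10 ^ 6 * (1 + ∑ x ∈ V with 0 ≤ out (1 - a) (X x) ∧ 0 ≤ out b (Y x),
        μ x * out (1 - a) (X x))) ∨
    (P a b = 0 ∧ F' a b = 0 ∧ ∀ x ∈ V, 0 < μ x → out b (Y x) ≤ 0) := by
  classical
  obtain ⟨hP, hQ0, hPQ, hF, hFF⟩ := h0 a b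
  set p := P a b with hp
  set q := Q a b with hq
  set G := F' a b with hG
  set S := {x ∈ V | 0 ≤ out a (X x) ∧ 0 ≤ out b (Y x)} with hS
  set T := {x ∈ V | 0 ≤ out (1 - a) (X x) ∧ 0 ≤ out b (Y x)} with hT
  have hf0 := hf a b
  rw [← hp, ← hq, ← hG] at hf0
  -- masses
  have htt := total (V := V) X Y μ a b
  have hM1 := hQ a b
  have hM2 := hQ (1 - a) b
  have hM3 := hQ a (1 - b)
  have hM4 := hQ (1 - a) (1 - b)
  rw [← hS] at hM1
  rw [← hT] at hM2
  rw [← hS, ← hT] at htt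
  set M := ∑ x ∈ S, μ x with hM
  set M' := ∑ x ∈ T, μ x with hM'
  have hMge : 1 - 1 / 10 ^ 6 ≤ M := by linarith
  have hM'ge : 1 - 1 / 10 ^ 6 ≤ M' := by linarith
  -- moments
  set A := ∑ x ∈ S, μ x * (out a (X x) : ℝ) with hA
  set A' := ∑ x ∈ T, μ x * (out (1 - a) (X x) : ℝ) with hA'
  set B := ∑ x ∈ S, μ x * (out b (Y x) : ℝ) with hB
  set B' := ∑ x ∈ T, μ x * (out b (Y x) : ℝ) with hB'
  have hSV : S ⊆ V := filter_subset _ _
  have hTV : T ⊆ V := filter_subset _ _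
  have hA0 : 0 ≤ A := sum_nonneg fun x hx => mul_nonneg (hpos x (hSV hx))
    (by exact_mod_cast (mem_filter.1 hx).2.1)
  have hA'0 : 0 ≤ A' := sum_nonneg fun x hx => mul_nonneg (hpos x (hTV hx))
    (by exact_mod_cast (mem_filter.1 hx).2.1)
  have hB0 : 0 ≤ B := sum_nonneg fun x hx => mul_nonneg (hpos x (hSV hx))
    (by exact_mod_cast (mem_filter.1 hx).2.2)
  have hB'0 : 0 ≤ B' := sum_nonneg fun x hx => mul_nonneg (hpos x (hTV hx))
    (by exact_mod_cast (mem_filter.1 hx).2.2)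
  have hdisj : Disjoint S T := by
    refine disjoint_left.2 fun x hx hx' => ?_
    have h1 := (mem_filter.1 hx).2.1
    have h2 := (mem_filter.1 hx').2.1
    have := out_add a (X x)
    omega
  have hsum : ∑ x ∈ S, μ x * (G + p * out a (X x) + q * out b (Y x)) +
      ∑ x ∈ T, μ x * (G + p * out a (X x) + q * out b (Y x)) ≤ G := by
    rw [← sum_union hdisj]
    refine le_trans (sum_le_sum (g := fun x => μ x * max 0 (G + p * out a (X x) +
      q * out b (Y x))) fun x hx => ?_) ?_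
    · refine mul_le_mul_of_nonneg_left (le_max_right _ _) (hpos x ?_)
      exact union_subset hSV hTV hx
    · refine le_trans (sum_le_sum_of_subset_of_nonneg (union_subset hSV hTV)
        fun x hx _ => mul_nonneg (hpos x hx) (le_max_left _ _)) (hf0.trans hFF)
  have hsumS : ∑ x ∈ S, μ x * (G + p * out a (X x) + q * out b (Y x)) ≤ G := by
    refine le_trans (sum_le_sum (g := fun x => μ x * max 0 (G + p * out a (X x) +
      q * out b (Y x))) fun x hx => ?_) ?_
    · exact mul_le_mul_of_nonneg_left (le_max_right _ _) (hpos x (hSV hx))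
    · exact le_trans (sum_le_sum_of_subset_of_nonneg hSV
        fun x hx _ => mul_nonneg (hpos x hx) (le_max_left _ _)) (hf0.trans hFF)
  have hS1 : ∑ x ∈ S, μ x * (G + p * out a (X x) + q * out b (Y x)) = G * M + p * A + q * B := by
    rw [hM, hA, hB, mul_sum, mul_sum, mul_sum, ← sum_add_distrib, ← sum_add_distrib]
    exact sum_congr rfl fun x _ => by ring
  have hT1 : ∑ x ∈ T, μ x * (G + p * out a (X x) + q * out b (Y x)) =
      G * M' - p * (M' + A') + q * B' := by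
    have h1 : ∀ x, (out a (X x) : ℝ) = -1 - (out (1 - a) (X x) : ℝ) := by
      intro x
      have := out_add a (X x)
      have h2 : ((out a (X x) + out (1 - a) (X x) : ℤ) : ℝ) = ((-1 : ℤ) : ℝ) := by rw [this]
      push_cast at h2
      linarith
    rw [hM', hA', hB', mul_sum, ← sum_add_distrib, mul_sum, mul_sum, ← sum_sub_distrib,
      ← sum_add_distrib]
    refine sum_congr rfl fun x _ => ?_
    rw [h1 x]
    ring
  have hG0 : 0 ≤ G := hF.trans hFF
  rcases hP.eq_or_lt with hp0 | hp0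
  · right
    rw [← hp0] at hS1 hT1 hsum
    have hG1 : G = 0 := by
      have h1 : G * M + q * B + (G * M' + q * B') ≤ G := by
        rw [hS1, hT1] at hsum
        linarith
      have h2 : 0 ≤ q * B := mul_nonneg hQ0 hB0
      have h3 : 0 ≤ q * B' := mul_nonneg hQ0 hB'0
      nlinarith [mul_le_mul_of_nonneg_left hMge hG0, mul_le_mul_of_nonneg_left hM'ge hG0]
    refine ⟨hp0.symm, hG1, fun x hx hμ => ?_⟩
    have hq0 : 0 < q := by linarith
    have h1 : ∑ x ∈ V, μ x * max 0 (G + p * out a (X x) + q * out b (Y x)) ≤ 0 :=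
      hf0.trans (hFF.trans hG1.le)
    have h2 : μ x * max 0 (G + p * out a (X x) + q * out b (Y x)) ≤ 0 :=
      le_trans (single_le_sum (f := fun x => μ x * max 0 (G + p * out a (X x) +
        q * out b (Y x))) (fun y hy => mul_nonneg (hpos y hy) (le_max_left _ _)) hx) h1
    by_contra h3
    have h4 : (0 : ℝ) < out b (Y x) := by exact_mod_cast not_le.1 h3
    have h5 : 0 < max 0 (G + p * out a (X x) + q * out b (Y x)) := by
      refine lt_of_lt_of_le ?_ (le_max_right _ _)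
      rw [hG1, ← hp0]
      have := mul_pos hq0 h4
      linarith
    have := mul_pos hμ h5
    linarith
  · left
    have h1 : p * A ≤ 1 / 10 ^ 6 * G := by
      rw [hS1] at hsumS
      have h2 : 0 ≤ q * B := mul_nonneg hQ0 hB0
      nlinarith [mul_le_mul_of_nonneg_left hMge hG0]
    have h2 : (1 - 2 / 10 ^ 6) * G ≤ p * (1 + A') := by
      rw [hS1, hT1] at hsum
      have h3 : 0 ≤ q * B := mul_nonneg hQ0 hB0
      have h4 : 0 ≤ q * B' := mul_nonneg hQ0 hB'0
      have h5 : 0 ≤ p * A := mul_nonneg hp0.le hA0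
      have h6 : p * M' ≤ p * 1 := mul_le_mul_of_nonneg_left hM2 hp0.le
      nlinarith [mul_le_mul_of_nonneg_left hMge hG0, mul_le_mul_of_nonneg_left hM'ge hG0]
    have h3 : p * A ≤ p * (2 / 10 ^ 6 * (1 + A')) := by
      have h4 : G ≤ 2 * (p * (1 + A')) := by linarith
      calc p * A ≤ 1 / 10 ^ 6 * G := h1
        _ ≤ 1 / 10 ^ 6 * (2 * (p * (1 + A'))) := by
          exact mul_le_mul_of_nonneg_left h4 (by norm_num)
        _ = p * (2 / 10 ^ 6 * (1 + A')) := by ring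
    exact le_of_mul_le_mul_left h3 hp0

end Pool.Agent.Lib.MPa7239a.R3X
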