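import Pool.Agent.Lib.MP_a7239a_co.R3X.Defs

/-! # R3X/NF (helper29) -/

set_option autoImplicit false

universe u

open Finset
open scoped Pointwise

namespace Pool.Agent.Lib.MPa7239a.R3X

open Pool.Agent.Lib.MPa7239a.GC (Hit)

section
variable {p : ℕ} [Fact p.Prime] {G : Type u} [AddCommGroup G] [Module (ZMod p) G] [Fintype G]
  [DecidableEq G]

/-- two sets in one coset of `L` with more than `#L` elements together meet -/
theorem NFM.inter_card {L : Submodule (ZMod p) G} (hL : Nat.card L = p) {U V : Finset G} {z : G}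
    (hU : ∀ u ∈ U, u - z ∈ L) (hV : ∀ v ∈ V, v - z ∈ L) : #U + #V ≤ #(U ∩ V) + p := by
  classical
  have h1 : #(U ∪ V) ≤ p := by
    rw [← hL, Nat.card_eq_fintype_card, ← Finset.card_univ]
    refine Finset.card_le_card_of_injOn (fun u => if h : u - z ∈ L then (⟨u - z, h⟩ : L) else 0)
      (fun _ _ => Finset.mem_coe.2 (Finset.mem_univ _)) ?_
    intro a ha b hb hab
    have ha' : a - z ∈ L := by
      rcases Finset.mem_union.1 (Finset.mem_coe.1 ha) with h | h
      · exact hU a h
      · exact hV a h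
    have hb' : b - z ∈ L := by
      rcases Finset.mem_union.1 (Finset.mem_coe.1 hb) with h | h
      · exact hU b h
      · exact hV b h
    simp only [dif_pos ha', dif_pos hb'] at hab
    have := congrArg Subtype.val hab
    simpa using this
  have h2 := Finset.card_union_add_card_inter U V
  omega

/-- disjoint pairs `{y, c - y}` -/
theorem NFM.pairs {c : G} {S : Finset G} (hS : ∀ y ∈ S, c - y ∈ S) (hne : ∀ y ∈ S, c - y ≠ y)
    (j : ℕ) (hj : 2 * j ≤ #S) :
    ∃ T ⊆ S, #T = 2 * j ∧ (∀ y ∈ T, c - y ∈ T) ∧ ∑ y ∈ T, y = j • c := by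
  induction j with
  | zero => exact ⟨∅, Finset.empty_subset _, by simp, by simp, by simp⟩
  | succ j ih =>
    obtain ⟨T, hT, hTc, hTi, hTs⟩ := ih (by omega)
    have hlt : #T < #S := by omega
    obtain ⟨y, hyS, hyT⟩ := Finset.exists_mem_notMem_of_card_lt_card hlt
    have hcy : c - y ∉ T := by
      intro h
      have := hTi _ h
      rw [sub_sub_cancel] at this
      exact hyT this
    have hne' := hne y hyS
    have hy2 : y ∉ insert (c - y) T := by
      rw [Finset.mem_insert]
      rintro (h | h)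
      · exact hne' h.symm
      · exact hyT h
    refine ⟨insert y (insert (c - y) T), ?_, ?_, ?_, ?_⟩
    · intro z hz
      rcases Finset.mem_insert.1 hz with rfl | hz
      · exact hyS
      rcases Finset.mem_insert.1 hz with rfl | hz
      · exact hS y hyS
      · exact hT hz
    · rw [Finset.card_insert_of_notMem hy2, Finset.card_insert_of_notMem hcy, hTc]
      ring
    · intro z hz
      rcases Finset.mem_insert.1 hz with rfl | hz
      · simp
      rcases Finset.mem_insert.1 hz with rfl | hz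
      · simp
      · exact Finset.mem_insert_of_mem (Finset.mem_insert_of_mem (hTi z hz))
    · rw [Finset.sum_insert hy2, Finset.sum_insert hcy, hTs]
      rw [succ_nsmul]
      abel

/-- the even case -/
theorem NFM.even (hp : 3 ≤ p) {L : Submodule (ZMod p) G} (hL : Nat.card L = p) {B : Finset G}
    {x : G} (hB : ∀ b ∈ B, b - x ∈ L) {j : ℕ} (h1 : 1 ≤ j) (hj : j < p)
    (hs : 2 * j + p + 1 ≤ 2 * #B) {g : G} (hg : g - (2 * j) • x ∈ L) : Hit B (2 * j) g := by
  have hj0 : ((j : ℕ) : ZMod p) ≠ 0 := by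
    intro h
    rw [ZMod.natCast_eq_zero_iff] at h
    exact absurd (Nat.le_of_dvd (by omega) h) (by omega)
  have h20 : (2 : ZMod p) ≠ 0 := by
    have : ((2 : ℕ) : ZMod p) ≠ 0 := by
      intro h
      rw [ZMod.natCast_eq_zero_iff] at h
      exact absurd (Nat.le_of_dvd (by omega) h) (by omega)
    simpa using this
  set c : G := 2 • x + ((j : ZMod p))⁻¹ • (g - (2 * j) • x) with hc
  have hjc : j • c = g := by
    have h2 : j • ((j : ZMod p)⁻¹ • (g - (2 * j) • x)) = g - (2 * j) • x := by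
      rw [← Nat.cast_smul_eq_nsmul (ZMod p), smul_smul, mul_inv_cancel₀ hj0, one_smul]
    rw [hc, smul_add, h2, smul_smul, mul_comm j 2]
    abel
  have hcL : c - 2 • x ∈ L := by
    rw [hc, add_sub_cancel_left]
    exact L.smul_mem _ hg
  set V : Finset G := B.image (fun y => c - y) with hV
  have hVc : #V = #B := Finset.card_image_of_injective _ (fun a b h => by simpa using h)
  have hVL : ∀ v ∈ V, v - x ∈ L := by
    intro v hv
    obtain ⟨y, hy, rfl⟩ := Finset.mem_image.1 hv
    have : c - y - x = (c - 2 • x) - (y - x) := by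
      rw [two_nsmul]; abel
    rw [this]
    exact L.sub_mem hcL (hB y hy)
  have hI := NFM.inter_card hL hB hVL
  set S : Finset G := (B ∩ V).filter (fun y => c - y ≠ y) with hS
  have hfix : #((B ∩ V).filter (fun y => ¬ c - y ≠ y)) ≤ 1 := by
    rw [Finset.card_le_one]
    intro a ha b hb
    rw [Finset.mem_filter, Finset.mem_inter, not_not] at ha hb
    have h1 : a - b ∈ L := by
      have : a - b = (a - x) - (b - x) := by abel
      rw [this]
      exact L.sub_mem (hB a ha.1.1) (hB b hb.1.1)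
    have h2 : (2 : ZMod p) • (a - b) = 0 := by
      have ha2 : c = a + a := by
        have := ha.2
        rw [sub_eq_iff_eq_add] at this
        exact this
      have hb2 : c = b + b := by
        have := hb.2
        rw [sub_eq_iff_eq_add] at this
        exact this
      rw [two_smul]
      have : a - b + (a - b) = (a + a) - (b + b) := by abel
      rw [this, ← ha2, ← hb2, sub_self]
    rcases smul_eq_zero.1 h2 with h | h
    · exact absurd h h20
    · exact sub_eq_zero.1 h
  have hsplit := Finset.card_filter_add_card_filter_not (s := B ∩ V) (fun y => c - y ≠ y)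
  have hScard : 2 * j ≤ #S := by
    rw [hS]
    omega
  have hS1 : ∀ y ∈ S, c - y ∈ S := by
    intro y hy
    rw [hS, Finset.mem_filter, Finset.mem_inter] at hy ⊢
    obtain ⟨⟨hyB, hyV⟩, hyne⟩ := hy
    obtain ⟨z, hz, hzy⟩ := Finset.mem_image.1 hyV
    have : c - y = z := by rw [← hzy]; abel
    refine ⟨⟨?_, ?_⟩, ?_⟩
    · rw [this]; exact hz
    · exact Finset.mem_image.2 ⟨y, hyB, rfl⟩
    · intro h
      apply hyne
      rw [sub_sub_cancel] at h
      exact h.symm
  have hS2 : ∀ y ∈ S, c - y ≠ y := fun y hy => (Finset.mem_filter.1 hy).2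
  obtain ⟨T, hT, hTc, -, hTs⟩ := NFM.pairs hS1 hS2 j hScard
  refine ⟨T, ?_, hTc, ?_⟩
  · intro z hz
    have := hT hz
    rw [hS, Finset.mem_filter, Finset.mem_inter] at this
    exact this.1.1
  · rw [hTs, hjc]

/-- `2 <= k <= #B / 2` -/
theorem NFM.half (hp : 100 ≤ p) {L : Submodule (ZMod p) G} (hL : Nat.card L = p) {B : Finset G}
    {x : G} (hB : ∀ b ∈ B, b - x ∈ L) (hBp : #B ≤ p) (hs : 7 * p ≤ 8 * #B) {k : ℕ} (h2 : 2 ≤ k)
    (hk : 2 * k ≤ #B) {g : G} (hg : g - k • x ∈ L) : Hit B k g := by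
  rcases Nat.even_or_odd' k with ⟨j, hj | hj⟩
  · subst hj
    exact NFM.even (by omega) hL hB (by omega) (by omega) (by omega) hg
  · have hne : B.Nonempty := by
      rw [← Finset.card_pos]; omega
    obtain ⟨b, hb⟩ := hne
    have hBe : #(B.erase b) = #B - 1 := Finset.card_erase_of_mem hb
    have hg' : (g - b) - (2 * j) • x ∈ L := by
      have : (g - b) - (2 * j) • x = (g - k • x) - (b - x) := by
        rw [hj, add_smul, one_smul]; abel
      rw [this]
      exact L.sub_mem hg (hB b hb)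
    obtain ⟨T, hT, hTc, hTs⟩ := NFM.even (p := p) (by omega) hL (B := B.erase b) (x := x)
      (fun a ha => hB a (Finset.mem_of_mem_erase ha)) (j := j) (by omega) (by omega) (by omega) hg'
    have hbT : b ∉ T := fun h => Finset.notMem_erase b B (hT h)
    refine ⟨insert b T, ?_, ?_, ?_⟩
    · intro z hz
      rcases Finset.mem_insert.1 hz with rfl | hz
      · exact hb
      · exact Finset.mem_of_mem_erase (hT hz)
    · rw [Finset.card_insert_of_notMem hbT, hTc, hj]
    · rw [Finset.sum_insert hbT, hTs]; abel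

theorem NFM.sum_mem {L : Submodule (ZMod p) G} {B : Finset G} {x : G} (hB : ∀ b ∈ B, b - x ∈ L) :
    ∑ b ∈ B, b - #B • x ∈ L := by
  have : ∑ b ∈ B, b - #B • x = ∑ b ∈ B, (b - x) := by
    rw [Finset.sum_sub_distrib, Finset.sum_const]
  rw [this]
  exact L.sum_mem hB

theorem NFM.compl {B : Finset G} {k : ℕ} (hk : k ≤ #B) {g : G}
    (h : Hit B (#B - k) (∑ b ∈ B, b - g)) : Hit B k g := by
  obtain ⟨T, hT, hTc, hTs⟩ := h
  refine ⟨B \ T, Finset.sdiff_subset, ?_, ?_⟩
  · rw [Finset.card_sdiff_of_subset hT, hTc]; omega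
  · have h1 : ∑ x ∈ B \ T, x + ∑ x ∈ T, x = ∑ x ∈ B, x := Finset.sum_sdiff hT
    rw [hTs] at h1
    have h2 : ∑ x ∈ B \ T, x = ∑ b ∈ B, b - (∑ b ∈ B, b - g) := eq_sub_of_add_eq h1
    rw [h2, sub_sub_cancel]

theorem NFM.card_le {L : Submodule (ZMod p) G} (hL : Nat.card L = p) {B : Finset G} {x : G}
    (hB : ∀ b ∈ B, b - x ∈ L) : #B ≤ p := by
  have h := NFM.inter_card hL hB hB
  rw [Finset.inter_self] at h
  omega

theorem nf (hp : 100 ≤ p) {L : Submodule (ZMod p) G} (hL : Nat.card L = p) {B : Finset G} {x : G}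
    (hB : ∀ b ∈ B, b - x ∈ L) (hs : 7 * p ≤ 8 * #B) {k : ℕ} (h2 : 2 ≤ k) (hk : k + 2 ≤ #B) {g : G}
    (hg : g - k • x ∈ L) : Hit B k g := by
  have hBp : #B ≤ p := NFM.card_le hL hB
  rcases Nat.lt_or_ge #B (2 * k) with h | h
  · apply NFM.compl (by omega)
    have hg' : (∑ b ∈ B, b - g) - (#B - k) • x ∈ L := by
      have h1 : (#B - k) • x = #B • x - k • x := by
        rw [eq_sub_iff_add_eq, ← add_smul]
        congr 1
        omega
      have : (∑ b ∈ B, b - g) - (#B - k) • x = (∑ b ∈ B, b - #B • x) - (g - k • x) := by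
        rw [h1]; abel
      rw [this]
      exact L.sub_mem (NFM.sum_mem hB) hg
    exact NFM.half hp hL hB hBp hs (by omega) (by omega) hg'
  · exact NFM.half hp hL hB hBp hs h2 h hg

theorem NFM.union {B B' : Finset G} (hd : Disjoint B B') {k k' : ℕ} {g h : G} (h1 : Hit B k g)
    (h2 : Hit B' k' h) : Hit (B ∪ B') (k + k') (g + h) := by
  obtain ⟨T, hT, hTc, hTs⟩ := h1
  obtain ⟨T', hT', hTc', hTs'⟩ := h2
  have hdT : Disjoint T T' := hd.mono hT hT'
  refine ⟨T ∪ T', Finset.union_subset_union hT hT', ?_, ?_⟩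
  · rw [Finset.card_union_of_disjoint hdT, hTc, hTc']
  · rw [Finset.sum_union hdT, hTs, hTs']

theorem NFM.hit_mem {L : Submodule (ZMod p) G} {B : Finset G} {x : G} (hB : ∀ b ∈ B, b - x ∈ L)
    {k : ℕ} {g : G} (h : Hit B k g) : g - k • x ∈ L := by
  obtain ⟨T, hT, hTc, hTs⟩ := h
  have := NFM.sum_mem (L := L) (B := T) (x := x) (fun b hb => hB b (hT hb))
  rw [hTc, hTs] at this
  exact this

/-- some `k` elements -/
theorem NFM.exists_hit {B : Finset G} {k : ℕ} (hk : k ≤ #B) : ∃ g, Hit B k g := by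
  obtain ⟨T, hT, hTc⟩ := Finset.exists_subset_card_eq hk
  exact ⟨_, T, hT, hTc, rfl⟩

/-- `#B` sums of `k` elements, if `k = 1` or `k = #B - 1` -/
theorem NFM.one {B : Finset G} {k : ℕ} (h : k = 1 ∨ k + 1 = #B) :
    ∃ U : Finset G, #U = #B ∧ ∀ s ∈ U, Hit B k s := by
  rcases h with h | h
  · refine ⟨B, rfl, ?_⟩
    intro s hs
    refine ⟨{s}, by simpa using hs, ?_, ?_⟩
    · rw [h]; simp
    · simp
  · refine ⟨B.image (fun b => ∑ a ∈ B, a - b), ?_, ?_⟩
    · exact Finset.card_image_of_injective _ (fun a b h => by simpa using h)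
    · intro s hs
      obtain ⟨b, hb, rfl⟩ := Finset.mem_image.1 hs
      refine ⟨B.erase b, Finset.erase_subset _ _, ?_, ?_⟩
      · rw [Finset.card_erase_of_mem hb]; omega
      · have h1 : ∑ x ∈ B.erase b, x + b = ∑ x ∈ B, x := Finset.sum_erase_add B (fun b : G => b) hb
        exact eq_sub_of_add_eq h1

theorem nf2 (hp : 100 ≤ p) {L : Submodule (ZMod p) G} (hL : Nat.card L = p) {B B' : Finset G}
    (hd : Disjoint B B') {x x' : G} (hB : ∀ b ∈ B, b - x ∈ L) (hB' : ∀ b ∈ B', b - x' ∈ L)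
    (hs : 7 * p ≤ 8 * #B) (hs' : 7 * p ≤ 8 * #B') {k k' : ℕ} (h1 : 1 ≤ k) (hk : k + 1 ≤ #B)
    (h1' : 1 ≤ k') (hk' : k' + 1 ≤ #B') {g : G} (hg : g - k • x - k' • x' ∈ L) :
    Hit (B ∪ B') (k + k') g := by
  by_cases hA : 2 ≤ k ∧ k + 2 ≤ #B
  · obtain ⟨h, hh⟩ := NFM.exists_hit (B := B') (k := k') (by omega)
    have hm := NFM.hit_mem hB' hh
    have h3 : (g - h) - k • x ∈ L := by
      have : (g - h) - k • x = (g - k • x - k' • x') - (h - k' • x') := by abel
      rw [this]
      exact L.sub_mem hg hm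
    have h4 := NFM.union hd (nf hp hL hB hs hA.1 hA.2 h3) hh
    rwa [sub_add_cancel] at h4
  by_cases hA' : 2 ≤ k' ∧ k' + 2 ≤ #B'
  · obtain ⟨h, hh⟩ := NFM.exists_hit (B := B) (k := k) (by omega)
    have hm := NFM.hit_mem hB hh
    have h3 : (g - h) - k' • x' ∈ L := by
      have : (g - h) - k' • x' = (g - k • x - k' • x') - (h - k • x) := by abel
      rw [this]
      exact L.sub_mem hg hm
    have h4 := NFM.union hd hh (nf hp hL hB' hs' hA'.1 hA'.2 h3)
    rwa [add_sub_cancel] at h4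
  obtain ⟨U, hUc, hU⟩ := NFM.one (B := B) (k := k) (by omega)
  obtain ⟨V, hVc, hV⟩ := NFM.one (B := B') (k := k') (by omega)
  set V' : Finset G := V.image (fun v => g - v) with hV'
  have hVc' : #V' = #V := Finset.card_image_of_injective _ (fun a b h => by simpa using h)
  have hI := NFM.inter_card hL (U := U) (V := V') (z := k • x)
    (fun u hu => NFM.hit_mem hB (hU u hu)) (by
      intro v hv
      obtain ⟨w, hw, rfl⟩ := Finset.mem_image.1 hv
      have h3 := NFM.hit_mem hB' (hV w hw)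
      have : g - w - k • x = (g - k • x - k' • x') - (w - k' • x') := by abel
      rw [this]
      exact L.sub_mem hg h3)
  have hne : (U ∩ V').Nonempty := by
    rw [← Finset.card_pos]; omega
  obtain ⟨s, hs⟩ := hne
  obtain ⟨hs1, hs2⟩ := Finset.mem_inter.1 hs
  obtain ⟨v, hv, hvs⟩ := Finset.mem_image.1 hs2
  have h4 := NFM.union hd (hU s hs1) (hV v hv)
  rwa [← hvs, sub_add_cancel] at h4

end

end Pool.Agent.Lib.MPa7239a.R3X
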