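import Pool.Agent.Lib.MP_a7239a_co.R3X.CERT

/-!
# R3X: module PGA
-/

set_option autoImplicit false

open Finset

namespace Pool.Agent.Lib.MPa7239a.R3X

namespace PGAM

theorem cert1 {μ : ℤ → ℝ} {V : Finset ℤ} (hpos : ∀ v ∈ V, 0 < μ v) (h1 : 1 < ∑ v ∈ V, μ v)
    {x y : ℤ} (hx : x ∈ V) (hy : y ∈ V) (hxy : x ≠ y) {w : ℤ}
    (hfree : ∀ k : ℤ → ℝ, (∀ v ∈ V, 0 < k v ∧ k v < μ v) → ∑ v ∈ V, k v = 1 →
      ∑ v ∈ V, k v * (v : ℝ) ≠ w) :
    ∃ b F : ℝ, b ≠ 0 ∧ 0 ≤ F ∧ ∑ v ∈ V, μ v * max 0 (b * ((v : ℝ) - w) + F) ≤ F := by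
  have hxy' : (x : ℝ) - y ≠ 0 := by
    rw [sub_ne_zero]
    exact_mod_cast hxy
  have hspan : Submodule.span ℝ ((fun v : ℤ => (((v : ℝ), (1 : ℝ)) : ℝ × ℝ)) '' (V : Set ℤ)) =
      ⊤ := by
    rw [eq_top_iff]
    rintro ⟨a, c⟩ _
    have hX : (((x : ℝ), (1 : ℝ)) : ℝ × ℝ) ∈
        Submodule.span ℝ ((fun v : ℤ => (((v : ℝ), (1 : ℝ)) : ℝ × ℝ)) '' (V : Set ℤ)) :=
      Submodule.subset_span ⟨x, hx, rfl⟩
    have hY : (((y : ℝ), (1 : ℝ)) : ℝ × ℝ) ∈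
        Submodule.span ℝ ((fun v : ℤ => (((v : ℝ), (1 : ℝ)) : ℝ × ℝ)) '' (V : Set ℤ)) :=
      Submodule.subset_span ⟨y, hy, rfl⟩
    have h : ((a, c) : ℝ × ℝ) = ((a - c * y) / (x - y)) • (((x : ℝ), (1 : ℝ)) : ℝ × ℝ) +
        (c - (a - c * y) / (x - y)) • (((y : ℝ), (1 : ℝ)) : ℝ × ℝ) := by
      ext
      · simp only [Prod.smul_mk, smul_eq_mul, Prod.mk_add_mk]
        field_simp
        ring
      · simp only [Prod.smul_mk, smul_eq_mul, Prod.mk_add_mk]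
        ring
    rw [h]
    exact Submodule.add_mem _ (Submodule.smul_mem _ _ hX) (Submodule.smul_mem _ _ hY)
  obtain ⟨φ, hφ, hc⟩ := cert (E := ℝ × ℝ) V (fun v : ℤ => (((v : ℝ), (1 : ℝ)) : ℝ × ℝ)) hspan hpos
    (t := ((w : ℝ), 1)) (by
      rintro ⟨k, hk, hs⟩
      have e1 := congrArg Prod.fst hs
      have e2 := congrArg Prod.snd hs
      rw [Prod.fst_sum] at e1
      rw [Prod.snd_sum] at e2
      simp only [Prod.smul_mk, smul_eq_mul, mul_one] at e1 e2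
      exact hfree k hk e2 e1)
  have hval : ∀ a c : ℝ, φ (a, c) = a * φ (1, 0) + c * φ (0, 1) := by
    intro a c
    have : ((a, c) : ℝ × ℝ) = a • ((1, 0) : ℝ × ℝ) + c • ((0, 1) : ℝ × ℝ) := by
      ext <;> simp
    rw [this, map_add, map_smul, map_smul, smul_eq_mul, smul_eq_mul]
  have hrw : ∀ v : ℤ, φ ((v : ℝ), 1) = φ (1, 0) * ((v : ℝ) - w) + φ ((w : ℝ), 1) := by
    intro v
    rw [hval v 1, hval w 1]
    ring
  have hc' : ∑ v ∈ V, μ v * max 0 (φ (1, 0) * ((v : ℝ) - w) + φ ((w : ℝ), 1)) ≤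
      φ ((w : ℝ), 1) := by
    refine le_trans (le_of_eq ?_) hc
    refine Finset.sum_congr rfl fun v _ => ?_
    rw [← hrw v]
  have hF : 0 ≤ φ ((w : ℝ), 1) :=
    le_trans (Finset.sum_nonneg fun v hv => mul_nonneg (hpos v hv).le (le_max_left _ _)) hc'
  refine ⟨φ (1, 0), φ ((w : ℝ), 1), ?_, hF, hc'⟩
  intro hb
  have hs : φ (0, 1) ≠ 0 := by
    intro h0
    apply hφ
    ext
    · simpa using hb
    · simpa using h0
  have hw : φ ((w : ℝ), 1) = φ (0, 1) := by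
    rw [hval w 1, hb]
    ring
  rw [hw] at hc' hF
  rw [hb] at hc'
  have hs' : 0 < φ (0, 1) := lt_of_le_of_ne hF (Ne.symm hs)
  have h2 : (∑ v ∈ V, μ v) * φ (0, 1) ≤ φ (0, 1) := by
    refine le_trans (le_of_eq ?_) hc'
    rw [Finset.sum_mul]
    refine Finset.sum_congr rfl fun v _ => ?_
    rw [zero_mul, zero_add, max_eq_right hF]
  have h3 : (1 : ℝ) * φ (0, 1) < (∑ v ∈ V, μ v) * φ (0, 1) := mul_lt_mul_of_pos_right h1 hs'
  linarith

theorem half {V : Finset ℤ} {μ d : ℤ → ℝ} (hpos : ∀ v ∈ V, 0 < μ v) (hle : ∀ v, μ v ≤ 1) {w : ℤ}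
    (hd : ∀ v, d v = 0 → v = w) {P F : ℝ} (hP : 0 < P) (hF : 0 ≤ F)
    (hc : ∑ v ∈ V, μ v * max 0 (P * d v + F) ≤ F) :
    ∑ v ∈ V with 0 ≤ d v, μ v ≤ 1 := by
  have hA : ∑ v ∈ V with 0 ≤ d v, μ v * (P * d v + F) ≤ F := by
    refine le_trans ?_ hc
    rw [Finset.sum_filter]
    refine Finset.sum_le_sum fun v hv => ?_
    split_ifs with h
    · exact mul_le_mul_of_nonneg_left (le_max_right _ _) (hpos v hv).le
    · exact mul_nonneg (hpos v hv).le (le_max_left _ _)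
  rcases hF.eq_or_lt with h0 | h0
  · have hall : ∀ v ∈ V.filter (fun v => 0 ≤ d v), v = w := by
      intro v hv
      rw [mem_filter] at hv
      apply hd
      by_contra hne
      have hdpos : 0 < d v := lt_of_le_of_ne hv.2 (Ne.symm hne)
      have h1 : μ v * (P * d v + F) ≤ ∑ v ∈ V with 0 ≤ d v, μ v * (P * d v + F) := by
        refine Finset.single_le_sum (f := fun v => μ v * (P * d v + F)) (fun u hu => ?_)
          (mem_filter.2 hv)
        rw [mem_filter] at hu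
        exact mul_nonneg (hpos u hu.1).le (add_nonneg (mul_nonneg hP.le hu.2) hF)
      have h2 : 0 < μ v * (P * d v + F) :=
        mul_pos (hpos v hv.1) (add_pos_of_pos_of_nonneg (mul_pos hP hdpos) hF)
      linarith
    have hsub : V.filter (fun v => 0 ≤ d v) ⊆ {w} := by
      intro v hv
      rw [mem_singleton]
      exact hall v hv
    rcases Finset.subset_singleton_iff.1 hsub with h | h
    · rw [h, Finset.sum_empty]
      exact zero_le_one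
    · rw [h, Finset.sum_singleton]
      exact hle w
  · have h1 : (∑ v ∈ V with 0 ≤ d v, μ v) * F ≤ 1 * F := by
      rw [Finset.sum_mul, one_mul]
      refine le_trans (Finset.sum_le_sum fun v hv => ?_) hA
      rw [mem_filter] at hv
      refine mul_le_mul_of_nonneg_left ?_ (hpos v hv.1).le
      linarith [mul_nonneg hP.le hv.2]
    exact le_of_mul_le_mul_right h1 h0

theorem mom {V : Finset ℤ} {μ d : ℤ → ℝ} (hpos : ∀ v ∈ V, 0 < μ v) {P F : ℝ}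
    (hc : ∑ v ∈ V, μ v * max 0 (P * d v + F) ≤ F) :
    P * (∑ v ∈ V with 0 ≤ d v, μ v * d v) + F * (∑ v ∈ V with 0 ≤ d v, μ v) ≤ F ∧
    P * (∑ v ∈ V with 0 ≤ d v, μ v * d v) + F * (∑ v ∈ V with 0 ≤ d v, μ v) +
      F * (∑ v ∈ V with ¬ 0 ≤ d v, μ v) - P * (∑ v ∈ V with ¬ 0 ≤ d v, μ v * (- d v - 1)) -
      P * (∑ v ∈ V with ¬ 0 ≤ d v, μ v) ≤ F := by
  have hsplit := Finset.sum_filter_add_sum_filter_not V (fun v => 0 ≤ d v)
    (fun v => μ v * max 0 (P * d v + F))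
  have h1 : P * (∑ v ∈ V with 0 ≤ d v, μ v * d v) + F * (∑ v ∈ V with 0 ≤ d v, μ v) ≤
      ∑ v ∈ V with 0 ≤ d v, μ v * max 0 (P * d v + F) := by
    rw [Finset.mul_sum, Finset.mul_sum, ← Finset.sum_add_distrib]
    refine Finset.sum_le_sum fun v hv => ?_
    rw [mem_filter] at hv
    have := mul_le_mul_of_nonneg_left (le_max_right 0 (P * d v + F)) (hpos v hv.1).le
    refine le_trans (le_of_eq ?_) this
    ring
  have h2 : F * (∑ v ∈ V with ¬ 0 ≤ d v, μ v) - P * (∑ v ∈ V with ¬ 0 ≤ d v, μ v * (- d v - 1)) -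
      P * (∑ v ∈ V with ¬ 0 ≤ d v, μ v) ≤
      ∑ v ∈ V with ¬ 0 ≤ d v, μ v * max 0 (P * d v + F) := by
    rw [Finset.mul_sum, Finset.mul_sum, Finset.mul_sum, ← Finset.sum_sub_distrib,
      ← Finset.sum_sub_distrib]
    refine Finset.sum_le_sum fun v hv => ?_
    rw [mem_filter] at hv
    have := mul_le_mul_of_nonneg_left (le_max_right 0 (P * d v + F)) (hpos v hv.1).le
    refine le_trans (le_of_eq ?_) this
    ring
  have h3 : 0 ≤ ∑ v ∈ V with ¬ 0 ≤ d v, μ v * max 0 (P * d v + F) := by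
    refine Finset.sum_nonneg fun v hv => ?_
    rw [mem_filter] at hv
    exact mul_nonneg (hpos v hv.1).le (le_max_left _ _)
  constructor
  · linarith
  · linarith

/-- the two inequalities of one side in numbers -/
theorem side {P F A B α β : ℝ} (hP : 0 < P) (hF : 0 ≤ F) (hA : 1 - 1 / 190 ≤ A) (hB1 : B ≤ 1)
    (htot : 2 - 1 / 190 ≤ A + B) (hα : 0 ≤ α) (h1 : P * α + F * A ≤ F)
    (h2 : P * α + F * A + F * B - P * β - P * B ≤ F) : α ≤ 1 / 189 * (1 + β) := by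
  have h3 : P * α ≤ 1 / 190 * F := by
    have : F * (1 - 1 / 190) ≤ F * A := mul_le_mul_of_nonneg_left hA hF
    linarith
  have h4 : F * (189 / 190) ≤ P * (1 + β) := by
    have e1 : F * (2 - 1 / 190) ≤ F * (A + B) := mul_le_mul_of_nonneg_left htot hF
    have e2 : P * B ≤ P * 1 := mul_le_mul_of_nonneg_left hB1 hP.le
    have e3 : 0 ≤ P * α := mul_nonneg hP.le hα
    nlinarith
  have h5 : P * α ≤ P * (1 / 189 * (1 + β)) := by
    nlinarith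
  exact le_of_mul_le_mul_left h5 hP

theorem near {V : Finset ℤ} {μ : ℤ → ℝ} (hpos : ∀ v ∈ V, 0 < μ v) {w : ℤ} {d : ℤ → ℝ}
    (hd : ∀ v, v ≠ w → 0 ≤ d v → 1 ≤ d v) (hA : 1 - 1 / 190 ≤ ∑ v ∈ V with 0 ≤ d v, μ v)
    (hm : ∑ v ∈ V with 0 ≤ d v, μ v * d v ≤ 1 / 188) : w ∈ V ∧ 1 - 1 / 90 ≤ μ w := by
  have h0 : ∑ v ∈ (V.filter fun v => 0 ≤ d v) with v ≠ w, μ v ≤ 1 / 188 := by
    refine le_trans ?_ hm
    rw [Finset.sum_filter]
    refine Finset.sum_le_sum fun v hv => ?_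
    rw [mem_filter] at hv
    split_ifs with h
    · have := mul_le_mul_of_nonneg_left (hd v h hv.2) (hpos v hv.1).le
      linarith
    · exact mul_nonneg (hpos v hv.1).le hv.2
  have h1 := Finset.sum_filter_add_sum_filter_not (V.filter fun v => 0 ≤ d v) (fun v => v ≠ w) μ
  have h2 : 1 - 1 / 190 - 1 / 188 ≤ ∑ v ∈ (V.filter fun v => 0 ≤ d v) with ¬ v ≠ w, μ v := by
    linarith
  have hsub : (V.filter fun v => 0 ≤ d v).filter (fun v => ¬ v ≠ w) ⊆ {w} := by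
    intro v hv
    rw [mem_filter, not_not] at hv
    rw [mem_singleton]
    exact hv.2
  rcases Finset.subset_singleton_iff.1 hsub with h | h
  · rw [h, Finset.sum_empty] at h2
    norm_num at h2
  · have hw : w ∈ (V.filter fun v => 0 ≤ d v).filter (fun v => ¬ v ≠ w) := by
      rw [h]
      exact mem_singleton_self w
    rw [mem_filter, mem_filter] at hw
    rw [h, Finset.sum_singleton] at h2
    refine ⟨hw.1.1, ?_⟩
    norm_num at h2 ⊢
    linarith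

end PGAM

open PGAM in
theorem pg_one {μ : ℤ → ℝ} {V : Finset ℤ} (hpos : ∀ v ∈ V, 0 < μ v) (hle : ∀ v, μ v ≤ 1)
    (htot : 2 - 1 / 190 ≤ ∑ v ∈ V, μ v)
    (hgen : ∀ w : ℤ, ∃ j : ℤ → ℤ, ∑ v ∈ V, j v = 1 ∧ ∑ v ∈ V, j v * v = w)
    (hfree : ∀ (k : ℤ → ℝ) (w : ℤ), (∀ v ∈ V, 0 < k v ∧ k v < μ v) → ∑ v ∈ V, k v = 1 →
      ∑ v ∈ V, k v * (v : ℝ) ≠ w) :
    ∃ w : ℤ, w ∈ V ∧ w + 1 ∈ V ∧ 1 - 1 / 90 ≤ μ w ∧ 1 - 1 / 90 ≤ μ (w + 1) := by
  have h1 : 1 < ∑ v ∈ V, μ v := by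
    norm_num at htot
    linarith
  -- two points
  have hcard : 1 < #V := by
    by_contra hc
    rw [not_lt] at hc
    have : ∑ v ∈ V, μ v ≤ (#V : ℝ) * 1 := by
      rw [← nsmul_eq_mul]
      exact Finset.sum_le_card_nsmul V μ 1 fun v _ => hle v
    have hc' : (#V : ℝ) ≤ 1 := by exact_mod_cast hc
    linarith
  obtain ⟨x, hx, y, hy, hxy⟩ := Finset.one_lt_card.1 hcard
  let L : ℤ → Prop := fun w => ∃ P F : ℝ, 0 < P ∧ 0 ≤ F ∧
    ∑ v ∈ V, μ v * max 0 (P * ((w : ℝ) - v) + F) ≤ F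
  let R : ℤ → Prop := fun w => ∃ P F : ℝ, 0 < P ∧ 0 ≤ F ∧
    ∑ v ∈ V, μ v * max 0 (P * ((v : ℝ) - w) + F) ≤ F
  have hLR : ∀ w, L w ∨ R w := by
    intro w
    obtain ⟨b, F, hb, hF, hc⟩ := cert1 hpos h1 hx hy hxy (fun k hk hs => hfree k w hk hs)
    rcases lt_or_gt_of_ne hb with h | h
    · left
      refine ⟨-b, F, by linarith, hF, ?_⟩
      refine le_trans (le_of_eq ?_) hc
      refine Finset.sum_congr rfl fun v _ => ?_
      congr 2
      ring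
    · right
      exact ⟨b, F, h, hF, hc⟩
  have hLm : ∀ w, L w → ∑ v ∈ V with 0 ≤ (w : ℝ) - (v : ℤ), μ v ≤ 1 := by
    rintro w ⟨P, F, hP, hF, hc⟩
    refine half (d := fun v => (w : ℝ) - (v : ℤ)) hpos hle (w := w) ?_ hP hF hc
    intro v hv
    have : (w : ℝ) = v := by linarith
    exact_mod_cast this.symm
  have hRm : ∀ w, R w → ∑ v ∈ V with 0 ≤ ((v : ℤ) : ℝ) - (w : ℝ), μ v ≤ 1 := by
    rintro w ⟨P, F, hP, hF, hc⟩
    refine half (d := fun v => ((v : ℤ) : ℝ) - (w : ℝ)) hpos hle (w := w) ?_ hP hF hc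
    intro v hv
    have : (v : ℝ) = w := by linarith
    exact_mod_cast this
  obtain ⟨M, hM⟩ : ∃ M : ℤ, ∀ v ∈ V, v ≤ M := V.exists_le
  obtain ⟨m, hm⟩ : ∃ m : ℤ, ∀ v ∈ V, m ≤ v := by
    obtain ⟨m, hm⟩ := V.finite_toSet.bddBelow
    exact ⟨m, fun v hv => hm hv⟩
  have hbd : ∀ w, L w → w ≤ M := by
    intro w hw
    by_contra hc
    rw [not_le] at hc
    have h2 := hLm w hw
    rw [Finset.filter_true_of_mem] at h2
    · linarith
    · intro v hv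
      have : (v : ℝ) ≤ w := by exact_mod_cast (hM v hv).trans hc.le
      linarith
  have hLm0 : L m := by
    rcases hLR m with h | h
    · exact h
    · exfalso
      have h2 := hRm m h
      rw [Finset.filter_true_of_mem] at h2
      · linarith
      · intro v hv
        have : (m : ℝ) ≤ v := by exact_mod_cast hm v hv
        linarith
  obtain ⟨w, hw, hmax⟩ := Int.exists_greatest_of_bdd ⟨M, hbd⟩ ⟨m, hLm0⟩
  have hw1 : R (w + 1) := by
    rcases hLR (w + 1) with h | h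
    · exfalso
      have := hmax _ h
      omega
    · exact h
  have hfil : V.filter (fun v : ℤ => ¬ 0 ≤ (w : ℝ) - (v : ℤ)) =
      V.filter (fun v : ℤ => 0 ≤ ((v : ℤ) : ℝ) - ((w + 1 : ℤ) : ℝ)) := by
    refine Finset.filter_congr fun v _ => ?_
    rw [sub_nonneg, sub_nonneg, not_le, Int.cast_le, Int.cast_lt]
    omega
  have hfil' : V.filter (fun v : ℤ => ¬ 0 ≤ ((v : ℤ) : ℝ) - ((w + 1 : ℤ) : ℝ)) =
      V.filter (fun v : ℤ => 0 ≤ (w : ℝ) - (v : ℤ)) := by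
    refine Finset.filter_congr fun v _ => ?_
    rw [sub_nonneg, sub_nonneg, not_le, Int.cast_le, Int.cast_lt]
    omega
  have hA1 := hLm w hw
  have hB1 := hRm (w + 1) hw1
  have hsum := Finset.sum_filter_add_sum_filter_not V (fun v : ℤ => 0 ≤ (w : ℝ) - (v : ℤ)) μ
  rw [hfil] at hsum
  obtain ⟨P, F, hP, hF, hc⟩ := hw
  obtain ⟨Q, K, hQ, hK, hc'⟩ := hw1
  obtain ⟨a1, a2⟩ := mom (d := fun v : ℤ => (w : ℝ) - (v : ℤ)) hpos hc
  obtain ⟨b1, b2⟩ := mom (d := fun v : ℤ => ((v : ℤ) : ℝ) - ((w + 1 : ℤ) : ℝ)) hpos hc'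
  simp only [hfil] at a2
  simp only [hfil'] at b2
  have ea : ∑ v ∈ V with 0 ≤ ((v : ℤ) : ℝ) - ((w + 1 : ℤ) : ℝ), μ v * (-((w : ℝ) - (v : ℤ)) - 1) =
      ∑ v ∈ V with 0 ≤ ((v : ℤ) : ℝ) - ((w + 1 : ℤ) : ℝ), μ v * (((v : ℤ) : ℝ) -
        ((w + 1 : ℤ) : ℝ)) := by
    refine Finset.sum_congr rfl fun v _ => ?_
    push_cast
    ring
  have eb : ∑ v ∈ V with 0 ≤ (w : ℝ) - (v : ℤ), μ v * (-(((v : ℤ) : ℝ) - ((w + 1 : ℤ) : ℝ)) - 1) =
      ∑ v ∈ V with 0 ≤ (w : ℝ) - (v : ℤ), μ v * ((w : ℝ) - (v : ℤ)) := by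
    refine Finset.sum_congr rfl fun v _ => ?_
    push_cast
    ring
  rw [ea] at a2
  rw [eb] at b2
  set A := ∑ v ∈ V with 0 ≤ (w : ℝ) - (v : ℤ), μ v with hAdef
  set B := ∑ v ∈ V with 0 ≤ ((v : ℤ) : ℝ) - ((w + 1 : ℤ) : ℝ), μ v with hBdef
  set α := ∑ v ∈ V with 0 ≤ (w : ℝ) - (v : ℤ), μ v * ((w : ℝ) - (v : ℤ)) with hαdef
  set β := ∑ v ∈ V with 0 ≤ ((v : ℤ) : ℝ) - ((w + 1 : ℤ) : ℝ), μ v * (((v : ℤ) : ℝ) -
        ((w + 1 : ℤ) : ℝ)) with hβdef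
  have hα0 : 0 ≤ α := by
    refine Finset.sum_nonneg fun v hv => ?_
    rw [mem_filter] at hv
    exact mul_nonneg (hpos v hv.1).le hv.2
  have hβ0 : 0 ≤ β := by
    refine Finset.sum_nonneg fun v hv => ?_
    rw [mem_filter] at hv
    exact mul_nonneg (hpos v hv.1).le hv.2
  have hAl : 1 - 1 / 190 ≤ A := by linarith
  have hBl : 1 - 1 / 190 ≤ B := by linarith
  have s1 := side hP hF hAl hB1 (by linarith) hα0 a1 a2
  have s2 := side hQ hK hBl hA1 (by linarith) hβ0 b1 b2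
  have hα : α ≤ 1 / 188 := by
    norm_num at s1 s2 ⊢
    linarith
  have hβ : β ≤ 1 / 188 := by
    norm_num at s1 s2 ⊢
    linarith
  obtain ⟨n1, n2⟩ := near (w := w) hpos (d := fun v : ℤ => (w : ℝ) - (v : ℤ)) (by
    intro v hne hv
    have h : v ≤ w := by
      have : (v : ℝ) ≤ w := by linarith
      exact_mod_cast this
    have h' : v + 1 ≤ w := by omega
    have : (v : ℝ) + 1 ≤ w := by exact_mod_cast h'
    linarith) hAl hα
  obtain ⟨n3, n4⟩ := near (w := w + 1) hpos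
    (d := fun v : ℤ => ((v : ℤ) : ℝ) - ((w + 1 : ℤ) : ℝ)) (by
    intro v hne hv
    have h : w + 1 ≤ v := by
      have : ((w + 1 : ℤ) : ℝ) ≤ v := by linarith
      exact_mod_cast this
    have h' : w + 1 + 1 ≤ v := by omega
    have : ((w + 1 : ℤ) : ℝ) + 1 ≤ v := by exact_mod_cast h'
    linarith) hBl hβ
  exact ⟨w, n1, n3, n2, n4⟩

end Pool.Agent.Lib.MPa7239a.R3X
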