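import Pool.Agent.Lib.MP_a7239a_co.R3X.GROW
import Pool.Agent.Lib.MP_a7239a_co.R3.GREEDY

/-!
# R3X, module PHA: first phase of a round
-/

set_option autoImplicit false
set_option linter.unusedSectionVars false

universe u

open Finset
open scoped Pointwise

namespace Pool.Agent.Lib.MPa7239a.R3X

open Pool.Agent.Lib.MPa7239a.GC (Hit)
open Pool.Agent.Lib.MPa7239a.R3

section
variable {p : ℕ} [Fact p.Prime] {G : Type u} [AddCommGroup G] [Module (ZMod p) G] [Fintype G]
  [DecidableEq G]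

namespace PHAM

/-- the numbers, `d = 2` -/
theorem num2 {k y g : ℕ} (h : k ^ 2 ≤ 8 ^ 2 * y) (hy : 1 ≤ y) (hg : y ^ (2 - 1) ≤ (2 * g) ^ 2) :
    (k + 1) ^ 2 ≤ 8 ^ 2 * (y + g) := by
  have hg' : y ≤ 4 * g ^ 2 := by
    have : y ^ (2 - 1) = y := pow_one y
    rw [this] at hg
    linarith [hg, (by ring : (2 * g) ^ 2 = 4 * g ^ 2)]
  have h1 : 1 ≤ g := by
    by_contra h2
    have : g = 0 := by omega
    subst this
    simp at hg'
    omega
  have h2 : k ^ 2 ≤ (16 * g) ^ 2 := by nlinarith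
  have h3 : k ≤ 16 * g := by
    by_contra h4
    push Not at h4
    have := Nat.pow_lt_pow_left h4 (n := 2) (by norm_num)
    omega
  nlinarith

/-- the numbers, `d = 3` -/
theorem num3 {k y g : ℕ} (h : k ^ 3 ≤ 8 ^ 3 * y) (hy : 1 ≤ y) (hg : y ^ (3 - 1) ≤ (2 * g) ^ 3) :
    (k + 1) ^ 3 ≤ 8 ^ 3 * (y + g) := by
  have hg' : y ^ 2 ≤ 8 * g ^ 3 := by
    have e : (3 - 1 : ℕ) = 2 := rfl
    rw [e] at hg
    linarith [hg, (by ring : (2 * g) ^ 3 = 8 * g ^ 3)]
  have h1 : 1 ≤ g := by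
    by_contra h2
    have : g = 0 := by omega
    subst this
    have : 1 ≤ y ^ 2 := Nat.one_le_pow _ _ hy
    omega
  have h2 : (k ^ 2) ^ 3 ≤ (128 * g) ^ 3 := by
    calc (k ^ 2) ^ 3 = (k ^ 3) ^ 2 := by ring
      _ ≤ (8 ^ 3 * y) ^ 2 := Nat.pow_le_pow_left h 2
      _ = 8 ^ 6 * y ^ 2 := by ring
      _ ≤ 8 ^ 6 * (8 * g ^ 3) := Nat.mul_le_mul_left _ hg'
      _ = (128 * g) ^ 3 := by ring
  have h3 : k ^ 2 ≤ 128 * g := by
    by_contra h4
    push Not at h4
    have := Nat.pow_lt_pow_left h4 (n := 3) (by norm_num)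
    omega
  have h5 : 3 * k ≤ 127 * g := by
    by_contra h6
    push Not at h6
    have : (127 * g) ^ 2 < (3 * k) ^ 2 := Nat.pow_lt_pow_left h6 (by norm_num)
    nlinarith
  nlinarith

theorem num {d k y g : ℕ} (hd : d = 2 ∨ d = 3) (h : k ^ d ≤ 8 ^ d * y) (hy : 1 ≤ y)
    (hg : y ^ (d - 1) ≤ (2 * g) ^ d) : (k + 1) ^ d ≤ 8 ^ d * (y + g) := by
  rcases hd with rfl | rfl
  · exact num2 h hy hg
  · exact num3 h hy hg

/-- there are `t` pairs of elements of `B` with independent differences in `H` -/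
def Fam (H : Submodule (ZMod p) G) (B : Finset G) (t : ℕ) : Prop :=
  ∃ a b : Fin t → G, (∀ i, a i ∈ B) ∧ (∀ i, b i ∈ B) ∧ (∀ i, a i - b i ∈ H) ∧
    LinearIndependent (ZMod p) fun i => a i - b i

theorem fam_zero (H : Submodule (ZMod p) G) (B : Finset G) : Fam H B 0 :=
  ⟨Fin.elim0, Fin.elim0, fun i => i.elim0, fun i => i.elim0, fun i => i.elim0,
    linearIndependent_empty_type⟩

theorem fam_or (H : Submodule (ZMod p) G) (B : Finset G) (d : ℕ) :
    Fam H B d ∨ ∃ t < d, Fam H B t ∧ ¬ Fam H B (t + 1) := by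
  induction d with
  | zero => exact Or.inl (fam_zero H B)
  | succ d ih =>
    rcases ih with ih | ⟨t, ht, h1, h2⟩
    · by_cases h : Fam H B (d + 1)
      · exact Or.inl h
      · exact Or.inr ⟨d, by omega, ih, h⟩
    · exact Or.inr ⟨t, by omega, h1, h2⟩

/-- a family which can not be extended -/
theorem sub_of_max (H : Submodule (ZMod p) G) {d : ℕ} (hH : Nat.card H = p ^ d) (B : Finset G)
    {t : ℕ} (ht : t < d) (h1 : Fam H B t) (h2 : ¬ Fam H B (t + 1)) :
    ∃ V : Submodule (ZMod p) G, V ≤ H ∧ V ≠ H ∧ ∀ a ∈ B, ∀ b ∈ B, a - b ∈ H → a - b ∈ V := by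
  obtain ⟨a, b, ha, hb, hab, hli⟩ := h1
  refine ⟨Submodule.span (ZMod p) (Set.range fun i => a i - b i), ?_, ?_, ?_⟩
  · rw [Submodule.span_le]
    rintro _ ⟨i, rfl⟩
    exact hab i
  · intro hV
    have e1 := finrank_span_eq_card hli
    rw [hV, Fintype.card_fin] at e1
    have e2 := Module.natCard_eq_pow_finrank (K := ZMod p) (V := H)
    rw [e1, hH, Nat.card_zmod] at e2
    have := Nat.pow_right_injective (Fact.out : p.Prime).two_le e2
    omega
  · intro x hx y hy hxy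
    by_contra hn
    apply h2
    refine ⟨Fin.cons x a, Fin.cons y b, ?_, ?_, ?_, ?_⟩
    · intro i
      refine Fin.cases ?_ ?_ i
      · simpa using hx
      · intro j
        simpa using ha j
    · intro i
      refine Fin.cases ?_ ?_ i
      · simpa using hy
      · intro j
        simpa using hb j
    · intro i
      refine Fin.cases ?_ ?_ i
      · simpa using hxy
      · intro j
        simpa using hab j
    · have e : (fun i : Fin (t + 1) => (Fin.cons x a : Fin (t + 1) → G) i -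
          (Fin.cons y b : Fin (t + 1) → G) i) =
          (Fin.cons (x - y) (fun i => a i - b i) : Fin (t + 1) → G) := by
        funext i
        refine Fin.cases ?_ ?_ i
        · simp
        · intro j
          simp
      rw [e, linearIndependent_finCons]
      exact ⟨hli, hn⟩

end PHAM

/-- MODULE PHA: first phase, every exchange adds `c #Y ^ (1 - 1/d)` elements. -/
theorem phase_one (H : Submodule (ZMod p) G) {d : ℕ} (hd : d = 2 ∨ d = 3)
    (hH : Nat.card H = p ^ d) (A : Finset G) (k : ℕ) :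
    ∃ (m : ℕ) (P Q : Finset G) (σ : G) (Y : Finset G), m ≤ k ∧ Exch H A A m P Q σ Y ∧
      (k ^ d ≤ 8 ^ d * #Y ∨ p ^ d < 2 ^ d * #Y ∨
        ∃ (V : Submodule (ZMod p) G) (D : Finset G), V ≤ H ∧ V ≠ H ∧ D ⊆ A ∧ #D ≤ 2 * m + 4 ∧
          ∀ a ∈ A \ D, ∀ b ∈ A \ D, a - b ∈ H → a - b ∈ V) := by
  have key : ∃ (m : ℕ) (P Q : Finset G) (σ : G) (Y : Finset G), m ≤ k ∧ Exch H A A m P Q σ Y ∧
      ((m = k ∧ k ^ d ≤ 8 ^ d * #Y) ∨ p ^ d < 2 ^ d * #Y ∨
        ∃ (V : Submodule (ZMod p) G) (D : Finset G), V ≤ H ∧ V ≠ H ∧ D ⊆ A ∧ #D ≤ 2 * m + 4 ∧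
          ∀ a ∈ A \ D, ∀ b ∈ A \ D, a - b ∈ H → a - b ∈ V) := by
    induction k with
    | zero =>
      refine ⟨0, ∅, ∅, 0, {0}, le_refl 0, ⟨?_, ?_, ?_, ?_, ?_, ?_, ?_, ?_, ?_⟩, Or.inl ⟨rfl, ?_⟩⟩
      · exact empty_subset _
      · exact empty_subset _
      · exact disjoint_empty_left _
      · exact card_empty
      · exact card_empty
      · exact singleton_nonempty _
      · intro y hy
        rw [mem_singleton] at hy
        rw [hy]
        exact H.zero_mem
      · intro y hy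
        rw [mem_singleton] at hy
        refine ⟨∅, empty_subset _, card_empty, ?_⟩
        rw [hy, sum_empty, add_zero]
      · rw [sum_empty, sub_zero]
        exact H.zero_mem
      · rw [zero_pow (by omega)]
        exact Nat.zero_le _
    | succ k ih =>
      obtain ⟨m, P, Q, σ, Y, hm, hE, h⟩ := ih
      rcases h with ⟨rfl, h⟩ | h | h
      · by_cases hbig : p ^ d < 2 ^ d * #Y
        · exact ⟨m, P, Q, σ, Y, by omega, hE, Or.inr (Or.inl hbig)⟩
        push Not at hbig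
        rcases PHAM.fam_or H (A \ (P ∪ Q)) d with hF | ⟨t, ht, h1, h2⟩
        · obtain ⟨a, b, ha, hb, hab, hli⟩ := hF
          obtain ⟨i, hi⟩ := grow H hd hH hE.mem hbig hab hli
          have hne : a i ≠ b i := by
            intro h3
            exact hli.ne_zero i (sub_eq_zero.2 h3)
          refine ⟨m + 1, _, _, _, _, le_refl _,
            GREEDYM.step hE (ha i) (hb i) (hab i) hne, Or.inl ⟨rfl, ?_⟩⟩
          have h4 : #(Y ∪ (Y + {a i - b i})) = #Y + #((Y + {a i - b i}) \ Y) := by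
            rw [add_comm (#Y), card_sdiff_add_card, union_comm]
          rw [h4]
          exact PHAM.num hd h (card_pos.2 hE.ne) hi
        · obtain ⟨V, hV1, hV2, hV3⟩ := PHAM.sub_of_max H hH _ ht h1 h2
          refine ⟨m, P, Q, σ, Y, by omega, hE, Or.inr (Or.inr
            ⟨V, P ∪ Q, hV1, hV2, union_subset hE.subX hE.subZ, ?_, hV3⟩)⟩
          have h3 := card_union_le P Q
          rw [hE.cardP, hE.cardQ] at h3
          omega
      · exact ⟨m, P, Q, σ, Y, by omega, hE, Or.inr (Or.inl h)⟩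
      · exact ⟨m, P, Q, σ, Y, by omega, hE, Or.inr (Or.inr h)⟩
  obtain ⟨m, P, Q, σ, Y, hm, hE, h⟩ := key
  refine ⟨m, P, Q, σ, Y, hm, hE, ?_⟩
  rcases h with ⟨-, h⟩ | h | h
  · exact Or.inl h
  · exact Or.inr (Or.inl h)
  · exact Or.inr (Or.inr h)

end

end Pool.Agent.Lib.MPa7239a.R3X
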