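import Pool.Agent.Lib.MP_a7239a_co.R3X.Defs
import Pool.Agent.Lib.MP_a7239a_co.R3.GREEDY

/-!
# R3X, module PHB: greedy construction with a start state
-/

set_option autoImplicit false
set_option linter.unusedSectionVars false

universe u

open Finset
open scoped Pointwise

namespace Pool.Agent.Lib.MPa7239a.R3X

open Pool.Agent.Lib.MPa7239a.GC (Hit)
open Pool.Agent.Lib.MPa7239a.R3 (Exch)

section
variable {p : ℕ} [Fact p.Prime] {G : Type u} [AddCommGroup G] [Module (ZMod p) G] [Fintype G]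
  [DecidableEq G]

namespace PHBM

/-- after `j` more steps -/
theorem steps (H : Submodule (ZMod p) G) {X Z : Finset G} {N m₀ : ℕ} {P₀ Q₀ : Finset G}
    {σ₀ : G} {Y₀ : Finset G} (h₀ : Exch H X Z m₀ P₀ Q₀ σ₀ Y₀) (j : ℕ) :
    (∃ (m' : ℕ) (P Q : Finset G) (σ : G) (Y : Finset G), m' ≤ m₀ + j ∧ Exch H X Z m' P Q σ Y ∧
      (Nat.card H < 2 * #Y ∨ (2 * #Y ≤ Nat.card H ∧ ∀ a ∈ X \ (P ∪ Q), ∀ b ∈ Z \ (P ∪ Q),
        a - b ∈ H → N * #((Y + {a - b}) \ Y) < #Y))) ∨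
    ∃ (P Q : Finset G) (σ : G) (Y : Finset G), Exch H X Z (m₀ + j) P Q σ Y ∧
      (N + 1) ^ j * #Y₀ ≤ N ^ j * #Y := by
  induction j with
  | zero =>
    right
    exact ⟨P₀, Q₀, σ₀, Y₀, h₀, by simp⟩
  | succ j ih =>
    rcases ih with ⟨m', P, Q, σ, Y, hm, h⟩ | ⟨P, Q, σ, Y, h, hgr⟩
    · exact Or.inl ⟨m', P, Q, σ, Y, by omega, h⟩
    · by_cases hfull : Nat.card H < 2 * #Y
      · exact Or.inl ⟨m₀ + j, P, Q, σ, Y, by omega, h, Or.inl hfull⟩
      · push Not at hfull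
        by_cases hst : ∀ a ∈ X \ (P ∪ Q), ∀ b ∈ Z \ (P ∪ Q),
            a - b ∈ H → N * #((Y + {a - b}) \ Y) < #Y
        · exact Or.inl ⟨m₀ + j, P, Q, σ, Y, by omega, h, Or.inr ⟨hfull, hst⟩⟩
        · push Not at hst
          obtain ⟨a, ha, b, hb, hab, hle⟩ := hst
          have hY : 0 < #Y := card_pos.2 h.ne
          have hne : a ≠ b := by
            rintro rfl
            rw [sub_self] at hle
            have h1 : Y + {(0 : G)} = Y := by
              rw [add_singleton]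
              simp
            rw [h1, Finset.sdiff_self, card_empty] at hle
            omega
          right
          refine ⟨insert a P, insert b Q, σ + b, Y ∪ (Y + {a - b}),
            R3.GREEDYM.step h ha hb hab hne, ?_⟩
          have h2 : #(Y ∪ (Y + {a - b})) = #((Y + {a - b}) \ Y) + #Y := by
            rw [card_sdiff_add_card, union_comm]
          rw [h2]
          calc (N + 1) ^ (j + 1) * #Y₀ = (N + 1) ^ j * #Y₀ * (N + 1) := by ring
            _ ≤ N ^ j * #Y * (N + 1) := Nat.mul_le_mul_right _ hgr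
            _ = N ^ j * (N * #Y + #Y) := by ring
            _ ≤ N ^ j * (N * #Y + N * #((Y + {a - b}) \ Y)) := by gcongr
            _ = N ^ (j + 1) * (#((Y + {a - b}) \ Y) + #Y) := by ring

end PHBM

/-! ### MODULE PHB -/
theorem phase_two (H : Submodule (ZMod p) G) {X Z : Finset G} {N l m₀ : ℕ} {P₀ Q₀ : Finset G}
    {σ₀ : G} {Y₀ : Finset G} (h₀ : Exch H X Z m₀ P₀ Q₀ σ₀ Y₀) (hN : 1 ≤ N)
    (hl : Nat.card H < 2 ^ l * #Y₀) :
    ∃ (m : ℕ) (P Q : Finset G) (σ : G) (Y : Finset G), m ≤ m₀ + N * l ∧ Exch H X Z m P Q σ Y ∧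
      (Nat.card H < 2 * #Y ∨ (2 * #Y ≤ Nat.card H ∧ ∀ a ∈ X \ (P ∪ Q), ∀ b ∈ Z \ (P ∪ Q),
        a - b ∈ H → N * #((Y + {a - b}) \ Y) < #Y)) := by
  rcases PHBM.steps H h₀ (N := N) (N * l) with h | ⟨P, Q, σ, Y, h, hgr⟩
  · exact h
  · exfalso
    have h1 := R3.GREEDYM.card_le_nat H h.mem
    have h2 := R3.GREEDYM.bern hN l
    have h3 : 0 < N ^ (N * l) := Nat.pow_pos hN
    have h4 : N ^ (N * l) * 2 ^ l * #Y₀ ≤ N ^ (N * l) * #Y :=
      (Nat.mul_le_mul_right _ h2).trans hgr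
    rw [mul_assoc] at h4
    have h5 := Nat.le_of_mul_le_mul_left h4 h3
    omega

end

end Pool.Agent.Lib.MPa7239a.R3X
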