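import Pool.Agent.Lib.MP_a7239a_co.R3X.PHA
import Pool.Agent.Lib.MP_a7239a_co.R3X.PHB
import Pool.Agent.Lib.MP_a7239a_co.R3.CHAR

/-!
# R3X, module ROUNDW: one round
-/

set_option autoImplicit false
set_option linter.unusedSectionVars false

universe u

open Finset
open scoped Pointwise

namespace Pool.Agent.Lib.MPa7239a.R3X

open Pool.Agent.Lib.MPa7239a.GC (Hit)
open Pool.Agent.Lib.MPa7239a.R3 (Exch)

namespace ROUNDWM

section
variable {p : ℕ} [Fact p.Prime] {G : Type u} [AddCommGroup G] [Module (ZMod p) G] [Fintype G]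
  [DecidableEq G]

/-- representatives in `B` of the cosets -/
theorem reps (H : Submodule (ZMod p) G) (B C : Finset G) (hC : ∀ a ∈ B, ∃ x ∈ C, a - x ∈ H) :
    ∃ (C' : Finset G) (q : G → G), #C' ≤ #C ∧ ∀ a ∈ B, q a ∈ B ∧ q a ∈ C' ∧ a - q a ∈ H := by
  classical
  have h1 : ∀ x : G, ∃ r : G, (∃ b ∈ B, b - x ∈ H) → r ∈ B ∧ r - x ∈ H := by
    intro x
    by_cases h : ∃ b ∈ B, b - x ∈ H
    · obtain ⟨b, hb, hbx⟩ := h
      exact ⟨b, fun _ => ⟨hb, hbx⟩⟩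
    · exact ⟨x, fun h' => absurd h' h⟩
  choose r hr using h1
  have h2 : ∀ a : G, ∃ x : G, a ∈ B → x ∈ C ∧ a - x ∈ H := by
    intro a
    by_cases h : a ∈ B
    · obtain ⟨x, hx, hax⟩ := hC a h
      exact ⟨x, fun _ => ⟨hx, hax⟩⟩
    · exact ⟨a, fun h' => absurd h' h⟩
  choose c hc using h2
  refine ⟨C.image r, fun a => r (c a), card_image_le, fun a ha => ?_⟩
  obtain ⟨h3, h4⟩ := hc a ha
  obtain ⟨h5, h6⟩ := hr (c a) ⟨a, ha, h4⟩
  refine ⟨h5, mem_image_of_mem r h3, ?_⟩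
  have h7 := H.sub_mem h4 h6
  have h8 : a - c a - (r (c a) - c a) = a - r (c a) := by abel
  rwa [h8] at h7

/-- a linear form which is zero on `V` and not on `H` -/
theorem form (H V : Submodule (ZMod p) G) (hVH : V ≤ H) (hne : V ≠ H) :
    ∃ ξ : G →ₗ[ZMod p] ZMod p, (∃ h ∈ H, ξ h ≠ 0) ∧ ∀ v ∈ V, ξ v = 0 := by
  obtain ⟨h, hh, hhV⟩ := SetLike.exists_of_lt (lt_of_le_of_ne hVH hne)
  obtain ⟨ξ, h1, h2⟩ := Submodule.exists_dual_map_eq_bot_of_notMem hhV inferInstance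
  refine ⟨ξ, ⟨h, hh, h1⟩, fun v hv => ?_⟩
  have h3 : ξ v ∈ V.map ξ := Submodule.mem_map_of_mem hv
  rw [h2] at h3
  exact (Submodule.mem_bot _).1 h3

end

end ROUNDWM

/-! ### MODULE ROUNDW -/
theorem round_w (e : ℕ) (he : 1 ≤ e) : ∃ W p₀ : ℕ, ∀ (p : ℕ) [Fact p.Prime], p₀ ≤ p →
    ∀ (G : Type u) [AddCommGroup G] [Module (ZMod p) G] [Fintype G] [DecidableEq G]
      (H : Submodule (ZMod p) G) (d : ℕ), (d = 2 ∨ d = 3) → Nat.card H = p ^ d →
      ∀ (A C : Finset G), #A ≤ 5 * p → (∀ a ∈ A, ∃ x ∈ C, a - x ∈ H) →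
      (∃ (m : ℕ) (P Q : Finset G) (σ : G) (Y : Finset G), 4 * e * m ≤ p ∧ Exch H A A m P Q σ Y ∧
        Nat.card H < 2 * #Y) ∨
      (∃ (ξ : G →ₗ[ZMod p] ZMod p) (B C' : Finset G), (∃ h ∈ H, ξ h ≠ 0) ∧ B ⊆ A ∧
        2 * e * #A ≤ 2 * e * #B + p ∧ #C' ≤ #C ∧
        ∀ a ∈ B, ∃ x ∈ C', a - x ∈ H ∧ (ξ (a - x)).valMinAbs.natAbs ≤ W) := by
  obtain ⟨l, hl⟩ : ∃ l, l = (900 * e) ^ 3 := ⟨_, rfl⟩
  have hl2 : (900 * e) ^ 3 < 2 ^ l := by rw [← hl]; exact Nat.lt_two_pow_self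
  have hl3 : 8 ≤ 2 ^ l := by
    have h1 : (900 * 1) ^ 3 ≤ (900 * e) ^ 3 := Nat.pow_le_pow_left (Nat.mul_le_mul_left _ he) 3
    omega
  have hl1 : 1 ≤ l := by
    have h1 : (900 * 1) ^ 3 ≤ (900 * e) ^ 3 := Nat.pow_le_pow_left (Nat.mul_le_mul_left _ he) 3
    omega
  obtain ⟨E, hE⟩ : ∃ E, E = e * e * l := ⟨_, rfl⟩
  have hE1 : 1 ≤ E := by
    rw [hE]
    exact Nat.mul_pos (Nat.mul_pos he he) hl1
  have heE : e ≤ E := by
    rw [hE]
    calc e = e * 1 * 1 := by ring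
      _ ≤ e * e * l := Nat.mul_le_mul (Nat.mul_le_mul_left _ he) hl1
  refine ⟨2560 * E, 2000 * E, ?_⟩
  intro p _ hp G _ _ _ _ H d hd hH A C hA hC
  have hpp : 0 < p := by omega
  obtain ⟨W, hW⟩ : ∃ W, W = 2560 * E := ⟨_, rfl⟩
  have hW0 : 0 < W := by omega
  obtain ⟨k, hk⟩ : ∃ k, k = p / (100 * e) + 1 := ⟨_, rfl⟩
  obtain ⟨J, hJ⟩ : ∃ J, J = p / W + 1 := ⟨_, rfl⟩
  have hk1 : p < 100 * e * k := by
    rw [hk]
    exact Nat.lt_mul_div_succ p (by omega)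
  have hk2 : 100 * e * k ≤ p + 100 * e := by
    rw [hk, Nat.mul_add, Nat.mul_one]
    have := Nat.mul_div_le p (100 * e)
    omega
  have hJ1 : p ≤ J * W := by
    rw [hJ, Nat.mul_comm]
    exact (Nat.lt_mul_div_succ p hW0).le
  have hJ2 : W * J ≤ p + W := by
    rw [hJ, Nat.mul_add, Nat.mul_one]
    have := Nat.mul_div_le p W
    omega
  have hJpos : 1 ≤ J := by
    rw [hJ]
    exact Nat.succ_le_succ (Nat.zero_le _)
  obtain ⟨N, hN⟩ : ∃ N, N = 4 * (20 * e) * J := ⟨_, rfl⟩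
  have hN1 : 1 ≤ N := by
    rw [hN]
    exact Nat.mul_pos (by omega) hJpos
  -- the total number of steps
  have hm : 8 * e * (k + N * l) ≤ p := by
    have h1 : 8 * e * (k + N * l) = 8 * (e * k) + 640 * (E * J) := by
      rw [hN, hE]; ring
    have h2 : 100 * (e * k) ≤ p + 100 * e := by
      calc 100 * (e * k) = 100 * e * k := by ring
        _ ≤ _ := hk2
    have h3 : 2560 * (E * J) ≤ p + 2560 * E := by
      calc 2560 * (E * J) = W * J := by rw [hW]; ring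
        _ ≤ _ := by rw [← hW]; exact hJ2
    omega
  obtain ⟨m, P, Q, σ, Y, hmk, hex, hcase⟩ := phase_one H hd hH A k
  -- the first two cases
  have hmain : Nat.card H < 2 ^ l * #Y →
      (∃ (m : ℕ) (P Q : Finset G) (σ : G) (Y : Finset G), 4 * e * m ≤ p ∧ Exch H A A m P Q σ Y ∧
        Nat.card H < 2 * #Y) ∨
      (∃ (ξ : G →ₗ[ZMod p] ZMod p) (B C' : Finset G), (∃ h ∈ H, ξ h ≠ 0) ∧ B ⊆ A ∧
        2 * e * #A ≤ 2 * e * #B + p ∧ #C' ≤ #C ∧
        ∀ a ∈ B, ∃ x ∈ C', a - x ∈ H ∧ (ξ (a - x)).valMinAbs.natAbs ≤ W) := by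
    intro hlt
    obtain ⟨m', P', Q', σ', Y', hm', hex', hc'⟩ := phase_two H hex hN1 hlt
    have hm8 : 8 * e * m' ≤ p := by
      refine le_trans (Nat.mul_le_mul_left _ ?_) hm
      omega
    rcases hc' with hc' | ⟨hY2, hst⟩
    · left
      refine ⟨m', P', Q', σ', Y', ?_, hex', hc'⟩
      have : 8 * e * m' = 2 * (4 * e * m') := by ring
      omega
    · right
      obtain ⟨B₀, hB₀⟩ : ∃ B₀, B₀ = A \ (P' ∪ Q') := ⟨_, rfl⟩
      have hB₀A : B₀ ⊆ A := by rw [hB₀]; exact sdiff_subset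
      obtain ⟨C', q, hC', hq⟩ := ROUNDWM.reps H B₀ C (fun a ha => hC a (hB₀A ha))
      obtain ⟨ξ, hξ, hcnt⟩ := R3.char_exists H hex'.ne hex'.mem hY2 (B := B₀) (q := q)
        (u := 20 * e) (J := J) (W := W) (by omega) hJpos hJ1 (by
          intro a ha
          obtain ⟨h1, h2, h3⟩ := hq a ha
          rw [← hN]
          rw [hB₀] at ha h1
          exact hst a ha _ h1 h3)
      obtain ⟨Bd, hBd⟩ : ∃ Bd, Bd = {a ∈ B₀ | W ≤ (ξ (a - q a)).valMinAbs.natAbs} := ⟨_, rfl⟩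
      refine ⟨ξ, B₀ \ Bd, C', hξ, sdiff_subset.trans hB₀A, ?_, hC', ?_⟩
      · rw [← hBd] at hcnt
        have hbs : Bd ⊆ B₀ := by rw [hBd]; exact filter_subset _ _
        have h1 : #(B₀ \ Bd) = #B₀ - #Bd := card_sdiff_of_subset hbs
        have h2 : #Bd ≤ #B₀ := card_le_card hbs
        have h3 : #A ≤ #B₀ + #(P' ∪ Q') := by
          have h5 : A ⊆ B₀ ∪ (P' ∪ Q') := by
            rw [hB₀]
            intro x hx
            by_cases hx' : x ∈ P' ∪ Q'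
            · exact mem_union_right _ hx'
            · exact mem_union_left _ (mem_sdiff.2 ⟨hx, hx'⟩)
          exact (card_le_card h5).trans (card_union_le _ _)
        have h4 : #(P' ∪ Q') ≤ 2 * m' := by
          have := card_union_le P' Q'
          rw [hex'.cardP, hex'.cardQ] at this
          omega
        have h5 : #B₀ ≤ #A := card_le_card hB₀A
        have h6 : 20 * (e * #Bd) ≤ 5 * p := by
          calc 20 * (e * #Bd) = 20 * e * #Bd := by ring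
            _ ≤ #B₀ := hcnt
            _ ≤ 5 * p := h5.trans hA
        have h7 : 8 * (e * m') ≤ p := by
          calc 8 * (e * m') = 8 * e * m' := by ring
            _ ≤ p := hm8
        have h8 : #A ≤ #(B₀ \ Bd) + (#Bd + 2 * m') := by omega
        have h9 : 2 * e * #A ≤ 2 * e * #(B₀ \ Bd) + (2 * (e * #Bd) + 4 * (e * m')) := by
          calc 2 * e * #A ≤ 2 * e * (#(B₀ \ Bd) + (#Bd + 2 * m')) := Nat.mul_le_mul_left _ h8
            _ = _ := by ring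
        omega
      · intro a ha
        rw [mem_sdiff] at ha
        obtain ⟨h1, h2, h3⟩ := hq a ha.1
        refine ⟨q a, h2, h3, ?_⟩
        have h4 := ha.2
        rw [hBd, mem_filter, not_and, not_le] at h4
        exact (h4 ha.1).le
  have hYpos : 0 < #Y := hex.ne.card_pos
  rw [← hW]
  rcases hcase with hc | hc | ⟨V, D, hVH, hVne, hDA, hD, hV⟩
  · refine hmain ?_
    rw [hH]
    have h1 : p ^ d < (100 * e * k) ^ d := Nat.pow_lt_pow_left hk1 (by omega)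
    have h2 : (100 * e * k) ^ d ≤ (800 * e) ^ d * #Y := by
      calc (100 * e * k) ^ d = (100 * e) ^ d * k ^ d := by rw [mul_pow]
        _ ≤ (100 * e) ^ d * (8 ^ d * #Y) := Nat.mul_le_mul_left _ hc
        _ = (100 * e * 8) ^ d * #Y := by rw [mul_pow (100 * e) 8]; ring
        _ = (800 * e) ^ d * #Y := by
          congr 2
          ring
    have h3 : (800 * e) ^ d ≤ (900 * e) ^ 3 := by
      calc (800 * e) ^ d ≤ (900 * e) ^ d := Nat.pow_le_pow_left (Nat.mul_le_mul_right _ (by omega)) d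
        _ ≤ (900 * e) ^ 3 := Nat.pow_le_pow_right (by omega) (by omega)
    have h4 : (800 * e) ^ d * #Y ≤ 2 ^ l * #Y := Nat.mul_le_mul_right _ (h3.trans hl2.le)
    omega
  · refine hmain ?_
    rw [hH]
    have h1 : 2 ^ d ≤ 2 ^ l := by
      have : 2 ^ d ≤ 2 ^ 3 := Nat.pow_le_pow_right (by omega) (by omega)
      omega
    have h2 : 2 ^ d * #Y ≤ 2 ^ l * #Y := Nat.mul_le_mul_right _ h1
    omega
  · right
    obtain ⟨ξ, hξ, hξV⟩ := ROUNDWM.form H V hVH hVne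
    obtain ⟨C', q, hC', hq⟩ := ROUNDWM.reps H (A \ D) C (fun a ha => hC a (mem_sdiff.1 ha).1)
    refine ⟨ξ, A \ D, C', hξ, sdiff_subset, ?_, hC', ?_⟩
    · have h1 : #(A \ D) = #A - #D := card_sdiff_of_subset hDA
      have h2 : #D ≤ #A := card_le_card hDA
      have h3 : #A ≤ #(A \ D) + (2 * k + 4) := by omega
      have h4 : 2 * e * #A ≤ 2 * e * #(A \ D) + (4 * (e * k) + 8 * e) := by
        calc 2 * e * #A ≤ 2 * e * (#(A \ D) + (2 * k + 4)) := Nat.mul_le_mul_left _ h3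
          _ = _ := by ring
      have h5 : 100 * (e * k) ≤ p + 100 * e := by
        calc 100 * (e * k) = 100 * e * k := by ring
          _ ≤ _ := hk2
      omega
    · intro a ha
      obtain ⟨h1, h2, h3⟩ := hq a ha
      refine ⟨q a, h2, h3, ?_⟩
      rw [hξV _ (hV a ha _ h1 h3)]
      simp

end Pool.Agent.Lib.MPa7239a.R3X
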